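import Mathlib

/-!
# MP_6a79cf_pr: translation invariant Gibbs states of the Potts model. Definitions

Graph: vertices `X`, edges `Y`, ends `a b : Y → X` of the edges. Colours `S`. A set of open edges is a `Set Y` or a `Finset Y`.
-/

set_option autoImplicit false

open scoped Classical

namespace Pool.Agent.Lib.MP_6a79cf_pr

section Graph

variable {X Y S : Type}

/-- `x` and `y` are joined by a path of edges in `A`. -/
def con (a b : Y → X) (A : Set Y) : X → X → Prop :=
  Relation.EqvGen fun x y => ∃ e ∈ A, a e = x ∧ b e = y

/-- `x` is joined to a vertex of `B` by a path of edges in `A`. -/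
def cst (a b : Y → X) (A : Set Y) (B : Set X) (x : X) : Prop := ∃ z ∈ B, con a b A x z

/-- The ends of each edge in `A` have the same colour. -/
def comp (a b : Y → X) (A : Set Y) (σ : X → S) : Prop := ∀ e ∈ A, σ (a e) = σ (b e)

/-- `s` on `D`, `τ` outside of `D`. -/
noncomputable def ext (D : Finset X) (τ : X → S) (s : D → S) : X → S :=
  fun x => if h : x ∈ D then s ⟨x, h⟩ else τ x

/-- The Bernoulli weight of the set `η` of open edges in `F`. -/
noncomputable def bw (p : ℝ) (F η : Finset Y) : ℝ := p ^ η.card * (1 - p) ^ (F \ η).card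

/-- The edges of `F` which touch the cluster of `B`. -/
noncomputable def tou (a b : Y → X) (F : Finset Y) (B : Set X) (η : Finset Y) : Finset Y :=
  F.filter fun e => cst a b ↑η B (a e) ∨ cst a b ↑η B (b e)

/-- The edges of `F` between the cluster of `B` and the cluster of `C`. -/
noncomputable def btw (a b : Y → X) (F : Finset Y) (B C : Set X) (η : Finset Y) : Finset Y :=
  F.filter fun e => (cst a b ↑η B (a e) ∧ cst a b ↑η C (b e)) ∨
    (cst a b ↑η C (a e) ∧ cst a b ↑η B (b e))

/-- The closed edges of `F` between two different clusters which meet `B`. -/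
noncomputable def dif (a b : Y → X) (F : Finset Y) (B : Set X) (η : Finset Y) : Finset Y :=
  F.filter fun e => e ∉ η ∧ cst a b ↑η B (a e) ∧ cst a b ↑η B (b e) ∧ ¬ con a b ↑η (a e) (b e)

/-- The edges of `F` whose ends have the same colour. -/
noncomputable def agr (a b : Y → X) (F : Finset Y) (σ : X → S) : Finset Y :=
  F.filter fun e => σ (a e) = σ (b e)

/-- The edges of `F` with one end of colour `c₁`, the other of colour `c₂`, both joined to `B`. -/
noncomputable def two (a b : Y → X) (F : Finset Y) (B : Set X) (c₁ c₂ : S) (σ : X → S)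
    (η : Finset Y) : Finset Y :=
  F.filter fun e => ((σ (a e) = c₁ ∧ σ (b e) = c₂) ∨ (σ (a e) = c₂ ∧ σ (b e) = c₁)) ∧
    cst a b ↑η B (a e) ∧ cst a b ↑η B (b e)

/-- The sum over the colourings of `D` and the compatible sets of open edges in `F`, with weight
`v^(number of open edges)`; the colours outside of `D` are given by `τ`. -/
noncomputable def WW [Fintype S] (a b : Y → X) (F : Finset Y) (D : Finset X) (v : ℝ) (τ : X → S)
    (f : (X → S) → Finset Y → ℝ) : ℝ :=
  ∑ s : D → S, ∑ η ∈ F.powerset,
    if comp a b (↑η : Set Y) (ext D τ s) then v ^ η.card * f (ext D τ s) η else 0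

end Graph

end Pool.Agent.Lib.MP_6a79cf_pr
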