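import Pool.Agent.Lib.MP_6a79cf_pr.Defs

/-!
# MP_6a79cf_pr: the lattice, finite volume measures, infinite volume states

Vertices `Vx d = ℤ^d`, edges `Ed d`: `(x, i)` joins `hd (x, i) = x` and `tl (x, i) = x + e_i`. A configuration of the model with
bonds is a pair: the colours and the open edges.
-/

set_option autoImplicit false

open scoped Classical ENNReal
open MeasureTheory

namespace Pool.Agent.Lib.MP_6a79cf_pr

/-- vertices -/
abbrev Vx (d : ℕ) : Type := Fin d → ℤ

/-- edges -/
abbrev Ed (d : ℕ) : Type := (Fin d → ℤ) × Fin d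

section Lattice

variable {d : ℕ} {S : Type}

/-- first end -/
def hd (e : Ed d) : Vx d := e.1

/-- second end -/
def tl (e : Ed d) : Vx d := e.1 + Pi.single e.2 1

/-- The edges which touch the finite set `D`. -/
noncomputable def tch (D : Finset (Vx d)) : Finset (Ed d) :=
  D.biUnion fun x => Finset.univ.biUnion fun i => {(x, i), (x - Pi.single i 1, i)}

/-- The outer boundary of `D`. -/
noncomputable def bd (D : Finset (Vx d)) : Finset (Vx d) :=
  ((tch D).image hd ∪ (tch D).image tl) \ D

/-- The box `{-n, ..., n}^d`. -/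
noncomputable def box (d n : ℕ) : Finset (Vx d) := Finset.Icc (fun _ => -(n : ℤ)) (fun _ => (n : ℤ))

/-- The random cluster measure of `A` in the volume `D` (all edges which touch `D`), wired: the boundary has the colour `0`. -/
noncomputable def ph1 (S : Type) [Fintype S] [Zero S] (D : Finset (Vx d)) (v : ℝ) (A : Finset (Ed d) → Prop) : ℝ :=
  WW hd tl (tch D) D v (fun _ => (0 : S)) (fun _ η => if A η then 1 else 0) /
    WW hd tl (tch D) D v (fun _ => (0 : S)) (fun _ _ => 1)

/-- The random cluster measure of `A` in the volume `D` (all edges which touch `D`), free: the colours of the boundary vertices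
are free too. -/
noncomputable def ph0 (S : Type) [Fintype S] [Zero S] (D : Finset (Vx d)) (v : ℝ) (A : Finset (Ed d) → Prop) : ℝ :=
  WW hd tl (tch D) (D ∪ bd D) v (fun _ => (0 : S)) (fun _ η => if A η then 1 else 0) /
    WW hd tl (tch D) (D ∪ bd D) v (fun _ => (0 : S)) (fun _ _ => 1)

/-- `A` is an increasing event. -/
def inc {Y : Type} (A : Finset Y → Prop) : Prop := ∀ s t : Finset Y, s ⊆ t → A s → A t

end Lattice

/-! ## Infinite volume -/

section Infinite

variable {d : ℕ} {S : Type}

/-- Configurations: colours and open edges. -/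
abbrev Om (d : ℕ) (S : Type) : Type := (Vx d → S) × (Ed d → Bool)

/-- The open edges. -/
def opn (ω : Ed d → Bool) : Set (Ed d) := {e | ω e = true}

/-- The open edges in the finite set `F`. -/
noncomputable def ope (F : Finset (Ed d)) (ω : Ed d → Bool) : Finset (Ed d) := F.filter fun e => ω e = true

/-- The configuration `x` with `s`, `η` in the volume `D`. -/
noncomputable def patch (D : Finset (Vx d)) (s : D → S) (η : Finset (Ed d)) (x : Om d S) : Om d S :=
  (ext D x.1 s, fun e => if e ∈ tch D then decide (e ∈ η) else x.2 e)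

/-- The kernel: resampling in the volume `D`. -/
noncomputable def KK [Fintype S] (v : ℝ) (D : Finset (Vx d)) (f : Om d S → ℝ≥0∞) (x : Om d S) : ℝ≥0∞ :=
  (∑ s : D → S, ∑ η ∈ (tch D).powerset,
    if comp hd tl (↑η : Set (Ed d)) (ext D x.1 s) then ENNReal.ofReal (v ^ η.card) * f (patch D s η x) else 0) /
    ENNReal.ofReal (WW hd tl (tch D) D v x.1 (fun _ _ => 1))

/-- The states of the model with bonds: invariant under resampling in all boxes. -/
structure ES [Fintype S] [MeasurableSpace S] (v : ℝ) (P : Measure (Om d S)) : Prop where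
  prob : IsProbabilityMeasure P
  res : ∀ (p q : Vx d) (f : Om d S → ℝ≥0∞), Measurable f →
    ∫⁻ x, f x ∂P = ∫⁻ x, KK v (Finset.Icc p q) f x ∂P

/-- The shift by `z`. -/
def sh (z : Vx d) (x : Om d S) : Om d S := (fun y => x.1 (y + z), fun e => x.2 (e.1 + z, e.2))

/-- Translation invariance. -/
def TI [MeasurableSpace S] (P : Measure (Om d S)) : Prop := ∀ z : Vx d, P.map (sh z) = P

/-- `x` is joined to infinity by the open edges in `A`. -/
def toinf (A : Set (Ed d)) (x : Vx d) : Prop := ∀ m : ℕ, ∃ z, z ∉ box d m ∧ con hd tl A x z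

/-- All open edges have ends of the same colour. -/
def good (x : Om d S) : Prop := comp hd tl (opn x.2) x.1

/-- `y` is joined to the complement of `box n` by open edges which touch `box n`. -/
def out (n : ℕ) (y : Vx d) (ω : Ed d → Bool) : Prop :=
  ∃ z, z ∉ box d n ∧ con hd tl (↑(ope (tch (box d n)) ω) : Set (Ed d)) y z

/-- There are infinite clusters of colour `c` outside of every box. -/
def Ec (c : S) (x : Om d S) : Prop :=
  ∀ n : ℕ, ∃ u, u ∉ box d n ∧ x.1 u = c ∧ toinf (opn x.2 \ ↑(tch (box d n))) u

end Infinite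

/-! ## Gibbs states -/

section Gibbs

variable {d : ℕ} {S : Type} [Fintype S] [MeasurableSpace S]

/-- The Potts measure of the event `A` in the volume `D` with boundary condition `τ`, at the inverse temperature `β`: the
weight of a colouring is `exp (β (number of edges which touch D and whose ends have the same colour))`. -/
noncomputable def potts (β : ℝ) (D : Finset (Vx d)) (τ : Vx d → S) (A : Set (Vx d → S)) : ℝ :=
  (∑ s : D → S, if ext D τ s ∈ A then Real.exp (β * (agr hd tl (tch D) (ext D τ s)).card) else 0) /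
    ∑ s : D → S, Real.exp (β * (agr hd tl (tch D) (ext D τ s)).card)

/-- Gibbs states: for every box `D` and every event `A`, `potts β D τ A` is the conditional probability of `A` given the
colours outside of `D`. -/
structure Gibbs (β : ℝ) (π : Measure (Vx d → S)) : Prop where
  prob : IsProbabilityMeasure π
  dlr : ∀ (p q : Vx d) (A B : Set (Vx d → S)), MeasurableSet A → MeasurableSet B →
    (∀ σ σ' : Vx d → S, (∀ x, x ∉ Finset.Icc p q → σ x = σ' x) → (σ ∈ B ↔ σ' ∈ B)) →
    π (A ∩ B) = ∫⁻ τ in B, ENNReal.ofReal (potts β (Finset.Icc p q) τ A) ∂π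

/-- Translation invariant Gibbs states. -/
structure TIG (β : ℝ) (π : Measure (Vx d → S)) : Prop where
  gibbs : Gibbs β π
  ti : ∀ z : Vx d, π.map (fun σ x => σ (x + z)) = π

/-- Extremal translation invariant Gibbs states. -/
structure XTIG (β : ℝ) (π : Measure (Vx d → S)) : Prop where
  tig : TIG β π
  ext : ∀ (π₁ π₂ : Measure (Vx d → S)) (t : ℝ≥0∞), TIG β π₁ → TIG β π₂ → 0 < t → t < 1 →
    π = t • π₁ + (1 - t) • π₂ → π₁ = π

end Gibbs

end Pool.Agent.Lib.MP_6a79cf_pr
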