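import Pool.Agent.Lib.MP_6a79cf_pr.Defs2

/-!
# MP_6a79cf_pr: groups of colourings

The colours are a finite abelian group `S`. The weights `gw K v η = v^|η| |K ∩ {colourings compatible with η}|` for subgroups `K` of
the group of all colourings `X → S`.
-/

set_option autoImplicit false

open scoped Classical

namespace Pool.Agent.Lib.MP_6a79cf_pr

variable {X Y S : Type} [AddCommGroup S]

/-- The colourings which vanish outside of `D`. -/
def zer (S : Type) [AddCommGroup S] (D : Finset X) : AddSubgroup (X → S) where
  carrier := {σ | ∀ x, x ∉ D → σ x = 0}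
  zero_mem' := fun _ _ => rfl
  add_mem' := fun {σ τ} hσ hτ x hx => by
    show σ x + τ x = 0
    rw [hσ x hx, hτ x hx, add_zero]
  neg_mem' := fun {σ} hσ x hx => by
    show -σ x = 0
    rw [hσ x hx, neg_zero]

/-- The colourings which are compatible with the set `A` of open edges. -/
def cmp (S : Type) [AddCommGroup S] (a b : Y → X) (A : Set Y) : AddSubgroup (X → S) where
  carrier := {σ | comp a b A σ}
  zero_mem' := fun _ _ => rfl
  add_mem' := fun {σ τ} hσ hτ e he => by
    show σ (a e) + τ (a e) = σ (b e) + τ (b e)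
    rw [hσ e he, hτ e he]
  neg_mem' := fun {σ} hσ e he => by
    show -σ (a e) = -σ (b e)
    rw [hσ e he]

/-- The weight of the set `η` of open edges. -/
noncomputable def gw (a b : Y → X) (K : AddSubgroup (X → S)) (v : ℝ) (η : Finset Y) : ℝ :=
  v ^ η.card * (Nat.card ↥(K ⊓ cmp S a b (↑η : Set Y)) : ℝ)

end Pool.Agent.Lib.MP_6a79cf_pr
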