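import Pool.Agent.Lib.MP_6a79cf_pr.Defs3

/-!
LEAF G1. `|A| |B| = |A ⊓ B| |A ⊔ B|` for finite subgroups of an abelian group: the fibres of `A × B → C`, `(x, y) ↦ x + y` have at
most `|A ⊓ B|` elements. (Or second isomorphism theorem, `AddSubgroup.relIndex`, `AddSubgroup.card_mul_index`.)
-/

set_option autoImplicit false

open scoped Classical

namespace Pool.Agent.Lib.MP_6a79cf_pr

theorem card_mul_le {G : Type} [AddCommGroup G] (A B C : AddSubgroup G) [Finite C] (hA : A ≤ C)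
    (hB : B ≤ C) : Nat.card A * Nat.card B ≤ Nat.card ↥(A ⊓ B) * Nat.card C := by
  have hAf : Finite A := Finite.of_injective (AddSubgroup.inclusion hA)
    (AddSubgroup.inclusion_injective hA)
  have hABf : Finite ↥(A ⊓ B) := Finite.of_injective (AddSubgroup.inclusion inf_le_left)
    (AddSubgroup.inclusion_injective inf_le_left)
  obtain ⟨s, hs⟩ : ∃ s : G → A × B, ∀ p : A × B,
      ((s ((p.1 : G) + p.2)).1 : G) + (s ((p.1 : G) + p.2)).2 = (p.1 : G) + p.2 := by
    refine ⟨fun c => if h : ∃ p : A × B, (p.1 : G) + p.2 = c then h.choose else 0, fun p => ?_⟩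
    have h : ∃ p' : A × B, (p'.1 : G) + p'.2 = (p.1 : G) + p.2 := ⟨p, rfl⟩
    simp only [dif_pos h]
    exact h.choose_spec
  rw [← Nat.card_prod, ← Nat.card_prod]
  refine Nat.card_le_card_of_injective (fun p : A × B =>
    ((⟨(p.1 : G) - (s ((p.1 : G) + p.2)).1, ?_⟩ : ↥(A ⊓ B)),
      (⟨(p.1 : G) + p.2, C.add_mem (hA p.1.2) (hB p.2.2)⟩ : C))) ?_
  · refine ⟨A.sub_mem p.1.2 (s ((p.1 : G) + p.2)).1.2, ?_⟩
    have h1 : (p.1 : G) - (s ((p.1 : G) + p.2)).1 = (s ((p.1 : G) + p.2)).2 - p.2 := by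
      rw [sub_eq_sub_iff_add_eq_add, add_comm ((s ((p.1 : G) + p.2)).2 : G)]
      exact (hs p).symm
    change (p.1 : G) - (s ((p.1 : G) + p.2)).1 ∈ B
    rw [h1]
    exact B.sub_mem (s ((p.1 : G) + p.2)).2.2 p.2.2
  · intro p q h
    have h1 := congrArg (fun z : ↥(A ⊓ B) × C => ((z.1 : G), (z.2 : G))) h
    simp only [Prod.mk.injEq] at h1
    obtain ⟨h2, h3⟩ := h1
    rw [h3] at h2
    have h4 : (p.1 : G) = q.1 := sub_left_injective h2
    have h5 : (p.2 : G) = q.2 := by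
      rw [h4] at h3
      exact add_left_cancel h3
    exact Prod.ext (Subtype.ext h4) (Subtype.ext h5)

end Pool.Agent.Lib.MP_6a79cf_pr
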