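import Pool.Agent.Lib.MP_6a79cf_pr.Defs

/-!
LEAF G2 (domination, from the four functions theorem). `Finset.four_functions_theorem F` with `f₁ = w₁ f`, `f₂ = w₂`,
`f₃ = w₁`, `f₄ = w₂ f` and both families `F.powerset`: for `s, t ⊆ F`,
`w₁ s f s w₂ t ≤ w₁ (s ∩ t) w₂ (s ∪ t) f (s ∪ t)`. The families `F.powerset ⊼ F.powerset`, `F.powerset ⊻ F.powerset` are
`F.powerset`.
-/

set_option autoImplicit false

open scoped Classical

namespace Pool.Agent.Lib.MP_6a79cf_pr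

theorem dom {Y : Type} (F : Finset Y) (w₁ w₂ f : Finset Y → ℝ) (h1 : ∀ s, 0 ≤ w₁ s)
    (h2 : ∀ s, 0 ≤ w₂ s) (h3 : ∀ s, 0 ≤ f s) (hf : ∀ s t, s ⊆ t → t ⊆ F → f s ≤ f t)
    (hw : ∀ s ⊆ F, ∀ t ⊆ F, w₁ s * w₂ t ≤ w₁ (s ∩ t) * w₂ (s ∪ t)) :
    (∑ s ∈ F.powerset, w₁ s * f s) * ∑ s ∈ F.powerset, w₂ s ≤
      (∑ s ∈ F.powerset, w₁ s) * ∑ s ∈ F.powerset, w₂ s * f s := by
  have key := Finset.four_functions_theorem (f₁ := fun s => w₁ s * f s) (f₂ := w₂) (f₃ := w₁)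
    (f₄ := fun s => w₂ s * f s) F (fun s => mul_nonneg (h1 s) (h3 s)) h2 h1
    (fun s => mul_nonneg (h2 s) (h3 s)) (fun s hs t ht => ?_)
    (Finset.Subset.refl F.powerset) (Finset.Subset.refl F.powerset)
  · rwa [Finset.powerset_infs_powerset_self, Finset.powerset_sups_powerset_self] at key
  · have e1 : w₁ s * f s * w₂ t = w₁ s * w₂ t * f s := by ring
    have e2 : w₁ (s ∩ t) * (w₂ (s ∪ t) * f (s ∪ t)) = w₁ (s ∩ t) * w₂ (s ∪ t) * f (s ∪ t) := by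
      ring
    show w₁ s * f s * w₂ t ≤ w₁ (s ∩ t) * (w₂ (s ∪ t) * f (s ∪ t))
    rw [e1, e2]
    exact mul_le_mul (hw s hs t ht) (hf _ _ Finset.subset_union_left (Finset.union_subset hs ht))
      (h3 s) (mul_nonneg (h1 _) (h2 _))

end Pool.Agent.Lib.MP_6a79cf_pr
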