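import Pool.Agent.Lib.MP_6a79cf_pr.G1
import Pool.Agent.Lib.MP_6a79cf_pr.G2

/-!
LEAF G3. `cmp (s ∪ t) = cmp s ⊓ cmp t`; `card_mul_le` with `A = K' ⊓ cmp s`, `B = K ⊓ cmp t`, `C = K' ⊓ cmp (s ∩ t)`:
`A ⊓ B = K ⊓ cmp (s ∪ t)`. `v'^|s| v^|t| ≤ v'^|s ∩ t| v^|s ∪ t|` because `|s| - |s ∩ t| = |s ∪ t| - |t|`. Then `dom`.
-/

set_option autoImplicit false

open scoped Classical

namespace Pool.Agent.Lib.MP_6a79cf_pr

variable {X Y S : Type} [AddCommGroup S]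

theorem gw_nonneg (a b : Y → X) (K : AddSubgroup (X → S)) (v : ℝ) (hv : 0 ≤ v) (η : Finset Y) :
    0 ≤ gw a b K v η :=
  mul_nonneg (pow_nonneg hv _) (Nat.cast_nonneg _)

private theorem G3_cmp_anti (a b : Y → X) {A B : Set Y} (h : A ⊆ B) : cmp S a b B ≤ cmp S a b A :=
  fun _ hσ e he => hσ e (h he)

private theorem G3_inf (a b : Y → X) {K K' : AddSubgroup (X → S)} (hK : K ≤ K') (s t : Finset Y) :
    (K' ⊓ cmp S a b (↑s : Set Y)) ⊓ (K ⊓ cmp S a b (↑t : Set Y)) = K ⊓ cmp S a b (↑(s ∪ t) : Set Y) := by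
  ext σ
  constructor
  · rintro ⟨⟨_, h2⟩, ⟨h3, h4⟩⟩
    refine ⟨h3, fun e he => ?_⟩
    rcases Finset.mem_union.1 (Finset.mem_coe.1 he) with h | h
    · exact h2 e (Finset.mem_coe.2 h)
    · exact h4 e (Finset.mem_coe.2 h)
  · rintro ⟨h1, h2⟩
    exact ⟨⟨hK h1, fun e he => h2 e (Finset.mem_coe.2 (Finset.mem_union_left _ (Finset.mem_coe.1 he)))⟩,
      ⟨h1, fun e he => h2 e (Finset.mem_coe.2 (Finset.mem_union_right _ (Finset.mem_coe.1 he)))⟩⟩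

theorem gw_lat (a b : Y → X) (K K' : AddSubgroup (X → S)) [Finite K'] (hK : K ≤ K') (v' v : ℝ)
    (hv' : 0 < v') (hv : v' ≤ v) (s t : Finset Y) :
    gw a b K' v' s * gw a b K v t ≤ gw a b K' v' (s ∩ t) * gw a b K v (s ∪ t) := by
  have hfin : Finite ↥(K' ⊓ cmp S a b (↑(s ∩ t) : Set Y)) :=
    Finite.of_injective _ (AddSubgroup.inclusion_injective (inf_le_left : K' ⊓ cmp S a b (↑(s ∩ t) : Set Y) ≤ K'))
  have hc := card_mul_le (K' ⊓ cmp S a b (↑s : Set Y)) (K ⊓ cmp S a b (↑t : Set Y))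
    (K' ⊓ cmp S a b (↑(s ∩ t) : Set Y))
    (inf_le_inf_left K' (G3_cmp_anti a b (Finset.coe_subset.2 Finset.inter_subset_left)))
    (inf_le_inf hK (G3_cmp_anti a b (Finset.coe_subset.2 Finset.inter_subset_right)))
  rw [G3_inf a b hK s t] at hc
  have hc' : (Nat.card ↥(K' ⊓ cmp S a b (↑s : Set Y)) : ℝ) * (Nat.card ↥(K ⊓ cmp S a b (↑t : Set Y)) : ℝ) ≤
      (Nat.card ↥(K ⊓ cmp S a b (↑(s ∪ t) : Set Y)) : ℝ) * (Nat.card ↥(K' ⊓ cmp S a b (↑(s ∩ t) : Set Y)) : ℝ) := by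
    exact_mod_cast hc
  have hv0 : 0 < v := lt_of_lt_of_le hv' hv
  have e1 : s.card = (s ∩ t).card + (s \ t).card := (Finset.card_inter_add_card_sdiff s t).symm
  have e2 : (s ∪ t).card = t.card + (s \ t).card := by
    rw [← Finset.sdiff_union_self_eq_union, Finset.card_union_of_disjoint Finset.sdiff_disjoint, add_comm]
  have hp : v' ^ s.card * v ^ t.card ≤ v' ^ (s ∩ t).card * v ^ (s ∪ t).card := by
    rw [e1, e2, pow_add, pow_add]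
    have h1 : v' ^ (s \ t).card ≤ v ^ (s \ t).card := pow_le_pow_left₀ hv'.le hv _
    calc v' ^ (s ∩ t).card * v' ^ (s \ t).card * v ^ t.card
        = v' ^ (s ∩ t).card * v ^ t.card * v' ^ (s \ t).card := by ring
      _ ≤ v' ^ (s ∩ t).card * v ^ t.card * v ^ (s \ t).card := mul_le_mul_of_nonneg_left h1 (by positivity)
      _ = _ := by ring
  unfold gw
  calc v' ^ s.card * (Nat.card ↥(K' ⊓ cmp S a b (↑s : Set Y)) : ℝ) *
        (v ^ t.card * (Nat.card ↥(K ⊓ cmp S a b (↑t : Set Y)) : ℝ))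
      = (v' ^ s.card * v ^ t.card) * ((Nat.card ↥(K' ⊓ cmp S a b (↑s : Set Y)) : ℝ) *
        (Nat.card ↥(K ⊓ cmp S a b (↑t : Set Y)) : ℝ)) := by ring
    _ ≤ (v' ^ (s ∩ t).card * v ^ (s ∪ t).card) * ((Nat.card ↥(K ⊓ cmp S a b (↑(s ∪ t) : Set Y)) : ℝ) *
        (Nat.card ↥(K' ⊓ cmp S a b (↑(s ∩ t) : Set Y)) : ℝ)) :=
        mul_le_mul hp hc' (by positivity) (by positivity)
    _ = _ := by ring

/-- Larger `v`, smaller group: larger measure. -/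
theorem gdom (a b : Y → X) (K K' : AddSubgroup (X → S)) [Finite K'] (hK : K ≤ K') (v' v : ℝ)
    (hv' : 0 < v') (hv : v' ≤ v) (F : Finset Y) (f : Finset Y → ℝ) (h3 : ∀ s, 0 ≤ f s)
    (hf : ∀ s t, s ⊆ t → t ⊆ F → f s ≤ f t) :
    (∑ s ∈ F.powerset, gw a b K' v' s * f s) * ∑ s ∈ F.powerset, gw a b K v s ≤
      (∑ s ∈ F.powerset, gw a b K' v' s) * ∑ s ∈ F.powerset, gw a b K v s * f s :=
  dom F (gw a b K' v') (gw a b K v) f (fun s => gw_nonneg a b K' v' hv'.le s)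
    (fun s => gw_nonneg a b K v (hv'.le.trans hv) s) h3 hf
    (fun s _ t _ => gw_lat a b K K' hK v' v hv' hv s t)

end Pool.Agent.Lib.MP_6a79cf_pr
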