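import Pool.Agent.Lib.MP_6a79cf_pr.Defs2

/-!
LEAF K1 (symmetry in the colours of the clusters which do not touch the boundary). `rec D g η σ x = g (σ x)` if `x ∈ D` is not
joined in `η` to a vertex outside of `D`, otherwise `σ x`. For fixed `η ⊆ F` the map `s ↦` restriction of
`rec D g η (ext D τ s)` to `D` is a bijection of the compatible `s` (inverse: `g⁻¹`; joined vertices are changed both or
neither), and `ext D τ` of it is `rec D g η (ext D τ s)` (outside of `D` nothing changes). Reindex the sum.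
-/

set_option autoImplicit false

open scoped Classical

namespace Pool.Agent.Lib.MP_6a79cf_pr

variable {X Y S : Type}

/-- Apply `g` to the colours of the vertices of `D` which are not joined to the complement of `D`. -/
noncomputable def rec' (a b : Y → X) (D : Finset X) (g : S → S) (η : Finset Y) (σ : X → S) : X → S :=
  fun x => if x ∈ D ∧ ¬ cst a b (↑η : Set Y) {z | z ∉ D} x then g (σ x) else σ x

private theorem K1_iff (a b : Y → X) (D : Finset X) (η : Finset Y) {e : Y} (he : e ∈ η) :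
    (a e ∈ D ∧ ¬ cst a b (↑η : Set Y) {z | z ∉ D} (a e)) ↔
      (b e ∈ D ∧ ¬ cst a b (↑η : Set Y) {z | z ∉ D} (b e)) := by
  have h1 : con a b (↑η : Set Y) (a e) (b e) :=
    Relation.EqvGen.rel _ _ ⟨e, Finset.mem_coe.2 he, rfl, rfl⟩
  have h2 : ∀ x, ¬ cst a b (↑η : Set Y) {z | z ∉ D} x → x ∈ D := by
    intro x hx
    by_contra h
    exact hx ⟨x, h, Relation.EqvGen.refl _⟩
  constructor
  · rintro ⟨-, h⟩
    have h3 : ¬ cst a b (↑η : Set Y) {z | z ∉ D} (b e) := by
      rintro ⟨z, hz, hc⟩
      exact h ⟨z, hz, Relation.EqvGen.trans _ _ _ h1 hc⟩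
    exact ⟨h2 _ h3, h3⟩
  · rintro ⟨-, h⟩
    have h3 : ¬ cst a b (↑η : Set Y) {z | z ∉ D} (a e) := by
      rintro ⟨z, hz, hc⟩
      exact h ⟨z, hz, Relation.EqvGen.trans _ _ _ (Relation.EqvGen.symm _ _ h1) hc⟩
    exact ⟨h2 _ h3, h3⟩

private theorem K1_comp (a b : Y → X) (D : Finset X) (g : Equiv.Perm S) (η : Finset Y) (σ : X → S) :
    comp a b (↑η : Set Y) (rec' a b D g η σ) ↔ comp a b (↑η : Set Y) σ := by
  have key : ∀ e ∈ η, (rec' a b D g η σ (a e) = rec' a b D g η σ (b e) ↔ σ (a e) = σ (b e)) := by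
    intro e he
    unfold rec'
    have h := K1_iff a b D η he
    by_cases h1 : a e ∈ D ∧ ¬ cst a b (↑η : Set Y) {z | z ∉ D} (a e)
    · rw [if_pos h1, if_pos (h.1 h1)]
      exact g.injective.eq_iff
    · rw [if_neg h1, if_neg (fun h2 => h1 (h.2 h2))]
  constructor
  · intro h e he
    exact (key e (Finset.mem_coe.1 he)).1 (h e he)
  · intro h e he
    exact (key e (Finset.mem_coe.1 he)).2 (h e he)

theorem WW_sym [Fintype S] (a b : Y → X) (F : Finset Y) (D : Finset X) (v : ℝ) (τ : X → S)
    (g : Equiv.Perm S) (f : (X → S) → Finset Y → ℝ) :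
    WW a b F D v τ (fun σ η => f (rec' a b D g η σ) η) = WW a b F D v τ f := by
  unfold WW
  rw [Finset.sum_comm]
  conv_rhs => rw [Finset.sum_comm]
  refine Finset.sum_congr rfl fun η _ => ?_
  let E : Equiv.Perm (D → S) := Equiv.piCongrRight fun x : D =>
    if ¬ cst a b (↑η : Set Y) {z | z ∉ D} (x : X) then g else Equiv.refl S
  have hE : ∀ s : D → S, ext D τ (E s) = rec' a b D g η (ext D τ s) := by
    intro s
    funext x
    by_cases hx : x ∈ D
    · have h1 : ext D τ (E s) x = (if ¬ cst a b (↑η : Set Y) {z | z ∉ D} x then g else Equiv.refl S) (s ⟨x, hx⟩) := by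
        unfold ext
        rw [dif_pos hx]
        rfl
      have h2 : ext D τ s x = s ⟨x, hx⟩ := by
        unfold ext
        rw [dif_pos hx]
      rw [h1]
      unfold rec'
      rw [h2]
      by_cases h3 : cst a b (↑η : Set Y) {z | z ∉ D} x
      · rw [if_neg (not_not.2 h3), if_neg (fun h => h.2 h3)]
        rfl
      · rw [if_pos h3, if_pos ⟨hx, h3⟩]
    · have h1 : ∀ t : D → S, ext D τ t x = τ x := by
        intro t
        unfold ext
        rw [dif_neg hx]
      unfold rec'
      rw [h1, h1, if_neg (fun h => hx h.1)]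
  rw [← Equiv.sum_comp E (fun s => if comp a b (↑η : Set Y) (ext D τ s) then
    v ^ η.card * f (ext D τ s) η else 0)]
  refine Finset.sum_congr rfl fun s _ => ?_
  show (if comp a b (↑η : Set Y) (ext D τ s) then
    v ^ η.card * f (rec' a b D g η (ext D τ s)) η else 0) =
    if comp a b (↑η : Set Y) (ext D τ (E s)) then v ^ η.card * f (ext D τ (E s)) η else 0
  rw [hE s]
  by_cases h : comp a b (↑η : Set Y) (ext D τ s)
  · rw [if_pos h, if_pos ((K1_comp a b D g η _).2 h)]
  · rw [if_neg h, if_neg (fun h1 => h ((K1_comp a b D g η _).1 h1))]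

end Pool.Agent.Lib.MP_6a79cf_pr
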