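import Pool.Agent.Lib.MP_6a79cf_pr.L5

/-!
LEAF R1. `WW_bern`: a set `η` is compatible with `σ` iff `η ⊆ agr F σ`; `v^|η| = (1 + v)^|A| bw p A η`, `A = agr F σ`,
`p = v/(1+v)`. `WW_dif`: given the colouring, `few_dif` for the edge set `A = agr F σ`, `|A| ≤ |F|` (`F.card = 0`: then `A`
is empty and both sides are clear; division by `0` is `0`).
-/

set_option autoImplicit false

open scoped Classical

namespace Pool.Agent.Lib.MP_6a79cf_pr

variable {X Y S : Type} [Fintype S]

private theorem R1_pow (v : ℝ) (hv : 0 < v) {A η : Finset Y} (h : η ⊆ A) :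
    (1 + v) ^ A.card * bw (v / (1 + v)) A η = v ^ η.card := by
  have h1 : (1 + v) ≠ 0 := by positivity
  have h2 : 1 - v / (1 + v) = 1 / (1 + v) := by
    field_simp
    ring
  have h3 : A.card = η.card + (A \ η).card := by
    rw [Finset.card_sdiff_of_subset h]
    have := Finset.card_le_card h
    omega
  unfold bw
  rw [h2, h3, pow_add, div_pow, div_pow, one_pow]
  field_simp

theorem WW_bern (a b : Y → X) (F : Finset Y) (D : Finset X) (v : ℝ) (hv : 0 < v) (τ : X → S)
    (f : (X → S) → Finset Y → ℝ) :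
    WW a b F D v τ f = ∑ s : D → S, (1 + v) ^ (agr a b F (ext D τ s)).card *
      ∑ η ∈ (agr a b F (ext D τ s)).powerset,
        bw (v / (1 + v)) (agr a b F (ext D τ s)) η * f (ext D τ s) η := by
  unfold WW
  refine Finset.sum_congr rfl fun s _ => ?_
  have h1 : F.powerset.filter (fun η : Finset Y => comp a b (↑η : Set Y) (ext D τ s)) =
      (agr a b F (ext D τ s)).powerset := by
    ext η
    simp only [Finset.mem_filter, Finset.mem_powerset, agr]
    constructor
    · rintro ⟨h, hc⟩ e he
      exact Finset.mem_filter.2 ⟨h he, hc e (Finset.mem_coe.2 he)⟩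
    · intro h
      exact ⟨fun e he => (Finset.mem_filter.1 (h he)).1,
        fun e he => (Finset.mem_filter.1 (h (Finset.mem_coe.1 he))).2⟩
  rw [← Finset.sum_filter, h1, Finset.mul_sum]
  refine Finset.sum_congr rfl fun η hη => ?_
  rw [← mul_assoc, R1_pow v hv (Finset.mem_powerset.1 hη)]

private theorem R1_sum (p : ℝ) (A : Finset Y) : ∑ η ∈ A.powerset, bw p A η = 1 := by
  have h1 := Finset.sum_pow_mul_eq_add_pow p (1 - p) A
  have h2 : p + (1 - p) = 1 := by ring
  rw [h2, one_pow] at h1
  rw [← h1]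
  refine Finset.sum_congr rfl fun η hη => ?_
  unfold bw
  rw [Finset.card_sdiff_of_subset (Finset.mem_powerset.1 hη)]

theorem WW_one (a b : Y → X) (F : Finset Y) (D : Finset X) (v : ℝ) (hv : 0 < v) (τ : X → S)
    (f : (X → S) → ℝ) :
    WW a b F D v τ (fun σ _ => f σ) =
      ∑ s : D → S, (1 + v) ^ (agr a b F (ext D τ s)).card * f (ext D τ s) := by
  rw [WW_bern a b F D v hv τ]
  refine Finset.sum_congr rfl fun s _ => ?_
  rw [← Finset.sum_mul, R1_sum, one_mul]

theorem WW_dif (a b : Y → X) (F : Finset Y) (D B : Finset X) (v : ℝ) (hv : 0 < v) (τ : X → S)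
    (u : ℝ) (hu : 0 ≤ u) :
    WW a b F D v τ (fun σ η => if u ≤ ((dif a b (agr a b F σ) ↑B η).card : ℝ) then 1 else 0) ≤
      2 ^ B.card * (6 * Real.exp (-((v / (1 + v)) ^ 2 * u ^ 2 / (144 * F.card)))) *
        WW a b F D v τ (fun _ _ => 1) := by
  have hp0 : 0 < v / (1 + v) := by positivity
  have hp1 : v / (1 + v) < 1 := by
    rw [div_lt_one (by positivity)]
    linarith
  rw [WW_one a b F D v hv τ (fun _ => 1), WW_bern a b F D v hv τ, Finset.mul_sum]
  refine Finset.sum_le_sum fun s _ => ?_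
  generalize ext D τ s = σ
  have hA : (agr a b F σ).card ≤ F.card := Finset.card_le_card (Finset.filter_subset _ _)
  generalize agr a b F σ = A at hA
  have key : ∑ η ∈ A.powerset, bw (v / (1 + v)) A η *
      (if u ≤ ((dif a b A ↑B η).card : ℝ) then 1 else 0) ≤
      2 ^ B.card * (6 * Real.exp (-((v / (1 + v)) ^ 2 * u ^ 2 / (144 * F.card)))) := by
    have h0 : ∑ η ∈ A.powerset, bw (v / (1 + v)) A η *
        (if u ≤ ((dif a b A ↑B η).card : ℝ) then 1 else 0) =
        ∑ η ∈ A.powerset, (if u ≤ ((dif a b A ↑B η).card : ℝ) then bw (v / (1 + v)) A η else 0) := by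
      refine Finset.sum_congr rfl fun η _ => ?_
      rw [mul_ite, mul_one, mul_zero]
    rw [h0]
    rcases Nat.eq_zero_or_pos A.card with hz | hz
    · have hAe : A = ∅ := Finset.card_eq_zero.1 hz
      subst hAe
      rw [Finset.powerset_empty, Finset.sum_singleton]
      have hd : dif a b (∅ : Finset Y) ↑B ∅ = ∅ := by
        unfold dif
        exact Finset.filter_empty _
      have hb : bw (v / (1 + v)) (∅ : Finset Y) ∅ = 1 := by
        unfold bw
        simp
      rw [hd, hb, Finset.card_empty, Nat.cast_zero]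
      split_ifs with h
      · have hu0 : u = 0 := le_antisymm h hu
        subst hu0
        have h2 : (1 : ℝ) ≤ 2 ^ B.card := one_le_pow₀ (by norm_num)
        have h3 : -((v / (1 + v)) ^ 2 * (0 : ℝ) ^ 2 / (144 * (F.card : ℝ))) = 0 := by
          simp
        rw [h3, Real.exp_zero]
        linarith
      · positivity
    · refine le_trans (few_dif a b A B _ hp0 hp1 u hu) ?_
      have hAr : (0 : ℝ) < A.card := by exact_mod_cast hz
      have hAF : (A.card : ℝ) ≤ F.card := by exact_mod_cast hA
      have h4 : (v / (1 + v)) ^ 2 * u ^ 2 / (144 * F.card) ≤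
          (v / (1 + v)) ^ 2 * u ^ 2 / (144 * A.card) := by
        apply div_le_div_of_nonneg_left
        · positivity
        · positivity
        · linarith
      have h5 := Real.exp_le_exp.2 (neg_le_neg h4)
      have h6 : (0 : ℝ) ≤ 2 ^ B.card := by positivity
      exact mul_le_mul_of_nonneg_left (mul_le_mul_of_nonneg_left h5 (by norm_num)) h6
  have h7 : (0 : ℝ) ≤ (1 + v) ^ A.card := by positivity
  calc (1 + v) ^ A.card * ∑ η ∈ A.powerset, bw (v / (1 + v)) A η *
      (if u ≤ ((dif a b A ↑B η).card : ℝ) then 1 else 0)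
      ≤ (1 + v) ^ A.card *
        (2 ^ B.card * (6 * Real.exp (-((v / (1 + v)) ^ 2 * u ^ 2 / (144 * F.card))))) :=
        mul_le_mul_of_nonneg_left key h7
    _ = 2 ^ B.card * (6 * Real.exp (-((v / (1 + v)) ^ 2 * u ^ 2 / (144 * F.card)))) *
        ((1 + v) ^ A.card * 1) := by ring

end Pool.Agent.Lib.MP_6a79cf_pr
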