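import Pool.Agent.Lib.MP_6a79cf_pr.K1
import Pool.Agent.Lib.MP_6a79cf_pr.R1

/-!
LEAF K2 (finite volume magnetisation). By `WW_sym` (transpositions `g = swap c j`) the sum of the weights of `{σ x = j, x not
joined to the complement of D}` does not depend on `j`, so it is `1/|S|` of that of `{x not joined}`; if `x ∈ D` is joined to the
complement of `D` by a compatible `η` then `σ x = c`, because `τ = c` there. So with
`M = WW 1[joined]`: `WW 1[σ x = c] = M + (Z - M)/|S|`. `WW_trans`: adding a constant `c` to all colours: `WW` with `τ = c` and a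
function of `η` only is `WW` with `τ = 0`. `potts_eq`: `WW_one` and `v = e^β - 1`, `(1 + v)^k = e^(β k)`.
-/

set_option autoImplicit false

open scoped Classical

namespace Pool.Agent.Lib.MP_6a79cf_pr

variable {d : ℕ} {S : Type} [AddCommGroup S] [Fintype S]

omit [AddCommGroup S] in
private theorem K2_congr {X Y : Type} {a b : Y → X} {F : Finset Y} {D : Finset X} {v : ℝ} {τ : X → S}
    {f g : (X → S) → Finset Y → ℝ}
    (h : ∀ (s : D → S) (η : Finset Y), comp a b (↑η : Set Y) (ext D τ s) →
      f (ext D τ s) η = g (ext D τ s) η) : WW a b F D v τ f = WW a b F D v τ g := by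
  unfold WW
  refine Finset.sum_congr rfl fun s _ => Finset.sum_congr rfl fun η _ => ?_
  by_cases hc : comp a b (↑η : Set Y) (ext D τ s)
  · rw [if_pos hc, if_pos hc, h s η hc]
  · rw [if_neg hc, if_neg hc]

omit [AddCommGroup S] in
private theorem K2_add {X Y : Type} {a b : Y → X} {F : Finset Y} {D : Finset X} {v : ℝ} {τ : X → S}
    {f g : (X → S) → Finset Y → ℝ} :
    WW a b F D v τ (fun σ η => f σ η + g σ η) = WW a b F D v τ f + WW a b F D v τ g := by
  unfold WW
  rw [← Finset.sum_add_distrib]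
  refine Finset.sum_congr rfl fun s _ => ?_
  rw [← Finset.sum_add_distrib]
  refine Finset.sum_congr rfl fun η _ => ?_
  split_ifs
  · ring
  · ring

omit [AddCommGroup S] in
private theorem K2_sum {X Y : Type} {a b : Y → X} {F : Finset Y} {D : Finset X} {v : ℝ} {τ : X → S}
    {f : S → (X → S) → Finset Y → ℝ} :
    ∑ j, WW a b F D v τ (f j) = WW a b F D v τ (fun σ η => ∑ j, f j σ η) := by
  unfold WW
  rw [Finset.sum_comm]
  refine Finset.sum_congr rfl fun s _ => ?_
  rw [Finset.sum_comm]
  refine Finset.sum_congr rfl fun η _ => ?_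
  by_cases hc : comp a b (↑η : Set Y) (ext D τ s)
  · simp only [if_pos hc, Finset.mul_sum]
  · simp only [if_neg hc, Finset.sum_const_zero]

omit [AddCommGroup S] [Fintype S] in
private theorem K2_same {X Y : Type} {a b : Y → X} {A : Set Y} {σ : X → S} (h : comp a b A σ) {x y : X}
    (hxy : con a b A x y) : σ x = σ y := by
  unfold con at hxy
  induction hxy with
  | rel x y h1 =>
    obtain ⟨e, he, rfl, rfl⟩ := h1
    exact h e he
  | refl x => rfl
  | symm x y _ ih => exact ih.symm
  | trans x y z _ _ ih1 ih2 => exact ih1.trans ih2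

theorem WW_trans {X Y : Type} (a b : Y → X) (F : Finset Y) (D : Finset X) (v : ℝ) (c : S)
    (f : Finset Y → ℝ) :
    WW a b F D v (fun _ => c) (fun _ η => f η) = WW a b F D v (fun _ => (0 : S)) (fun _ η => f η) := by
  unfold WW
  rw [← Equiv.sum_comp (Equiv.addRight (fun _ : D => c)) (fun s : D → S => ∑ η ∈ F.powerset,
    if comp a b (↑η : Set Y) (ext D (fun _ => c) s) then v ^ η.card * f η else 0)]
  refine Finset.sum_congr rfl fun s _ => Finset.sum_congr rfl fun η _ => ?_
  have h1 : ext D (fun _ => c) ((Equiv.addRight (fun _ : D => c)) s) =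
      fun x => ext D (fun _ => (0 : S)) s x + c := by
    funext x
    by_cases hx : x ∈ D
    · simp only [ext, dif_pos hx, Equiv.coe_addRight, Pi.add_apply]
    · simp only [ext, dif_neg hx, zero_add]
  have h2 : comp a b (↑η : Set Y) (ext D (fun _ => c) ((Equiv.addRight (fun _ : D => c)) s)) ↔
      comp a b (↑η : Set Y) (ext D (fun _ => (0 : S)) s) := by
    rw [h1]
    unfold comp
    simp only [add_left_inj]
  by_cases h3 : comp a b (↑η : Set Y) (ext D (fun _ => (0 : S)) s)
  · rw [if_pos h3, if_pos (h2.2 h3)]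
  · rw [if_neg h3, if_neg fun h4 => h3 (h2.1 h4)]

omit [AddCommGroup S] in
theorem potts_eq (β : ℝ) (hβ : 0 < β) (D : Finset (Vx d)) (τ : Vx d → S)
    (A : Set (Vx d → S)) :
    potts β D τ A = WW hd tl (tch D) D (Real.exp β - 1) τ (fun σ _ => if σ ∈ A then 1 else 0) /
      WW hd tl (tch D) D (Real.exp β - 1) τ (fun _ _ => 1) := by
  have hv : 0 < Real.exp β - 1 := by
    have := Real.add_one_lt_exp hβ.ne'
    linarith
  have hone : (fun (_ : Vx d → S) (_ : Finset (Ed d)) => (1 : ℝ)) =
      fun σ _ => (fun _ : Vx d → S => (1 : ℝ)) σ := rfl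
  rw [hone, WW_one hd tl (tch D) D _ hv τ (fun σ => if σ ∈ A then 1 else 0),
    WW_one hd tl (tch D) D _ hv τ (fun _ => 1)]
  have he : 1 + (Real.exp β - 1) = Real.exp β := by ring
  unfold potts
  rw [he]
  congr 1
  · refine Finset.sum_congr (Finset.ext fun s => by simp) fun s _ => ?_
    rw [mul_comm β, Real.exp_nat_mul]
    split_ifs
    · rw [mul_one]
    · rw [mul_zero]
  · refine Finset.sum_congr (Finset.ext fun s => by simp) fun s _ => ?_
    rw [mul_comm β, Real.exp_nat_mul, mul_one]

theorem mag_eq (β : ℝ) (hβ : 0 < β) (D : Finset (Vx d)) (x : Vx d) (hx : x ∈ D) (c : S) :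
    potts β D (fun _ => c) {σ | σ x = c} =
      ph1 S D (Real.exp β - 1) (fun η => cst hd tl (↑η : Set (Ed d)) {z | z ∉ D} x) +
        (1 - ph1 S D (Real.exp β - 1) (fun η => cst hd tl (↑η : Set (Ed d)) {z | z ∉ D} x)) /
          Fintype.card S := by
  have hv : 0 < Real.exp β - 1 := by
    have := Real.add_one_lt_exp hβ.ne'
    linarith
  set v : ℝ := Real.exp β - 1 with hvdef
  rw [potts_eq β hβ]
  unfold ph1
  rw [← WW_trans hd tl (tch D) D v c (fun η => if cst hd tl (↑η : Set (Ed d)) {z | z ∉ D} x then 1 else 0),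
    ← WW_trans hd tl (tch D) D v c (fun _ => 1)]
  have hq : (Fintype.card S : ℝ) ≠ 0 := by
    have : Nonempty S := ⟨0⟩
    exact_mod_cast Fintype.card_ne_zero
  -- the partition function is not zero
  have hZ : WW hd tl (tch D) D v (fun _ => c) (fun _ _ => (1 : ℝ)) ≠ 0 := by
    rw [WW_one hd tl (tch D) D v hv (fun _ => c) (fun _ => 1)]
    exact (Finset.sum_pos (fun s _ => by positivity) ⟨fun _ => 0, by simp⟩).ne'
  -- the two parts
  have h1 : WW hd tl (tch D) D v (fun _ => c) (fun σ _ => if σ ∈ {σ : Vx d → S | σ x = c} then (1 : ℝ) else 0) =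
      WW hd tl (tch D) D v (fun _ => c)
        (fun _ η => if cst hd tl (↑η : Set (Ed d)) {z | z ∉ D} x then (1 : ℝ) else 0) +
      WW hd tl (tch D) D v (fun _ => c)
        (fun σ η => if σ x = c ∧ ¬ cst hd tl (↑η : Set (Ed d)) {z | z ∉ D} x then (1 : ℝ) else 0) := by
    rw [← K2_add]
    refine K2_congr fun s η hs => ?_
    show (if ext D (fun _ => c) s x = c then (1 : ℝ) else 0) = _
    by_cases hA : cst hd tl (↑η : Set (Ed d)) {z | z ∉ D} x
    · obtain ⟨z, hz, hxz⟩ := id hA
      have h2 : ext D (fun _ => c) s x = c := by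
        rw [K2_same hs hxz]
        have hz' : z ∉ D := hz
        simp only [ext, dif_neg hz']
      rw [if_pos h2, if_pos hA, if_neg fun h3 => h3.2 hA, add_zero]
    · rw [if_neg hA, zero_add]
      simp only [hA, not_false_eq_true, and_true]
  have h2 : ∀ j : S, WW hd tl (tch D) D v (fun _ => c)
        (fun σ η => if σ x = j ∧ ¬ cst hd tl (↑η : Set (Ed d)) {z | z ∉ D} x then (1 : ℝ) else 0) =
      WW hd tl (tch D) D v (fun _ => c)
        (fun σ η => if σ x = c ∧ ¬ cst hd tl (↑η : Set (Ed d)) {z | z ∉ D} x then (1 : ℝ) else 0) := by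
    intro j
    rw [← WW_sym hd tl (tch D) D v (fun _ => c) (Equiv.swap c j)
      (fun σ η => if σ x = c ∧ ¬ cst hd tl (↑η : Set (Ed d)) {z | z ∉ D} x then (1 : ℝ) else 0)]
    refine K2_congr fun s η _ => ?_
    by_cases hA : cst hd tl (↑η : Set (Ed d)) {z | z ∉ D} x
    · rw [if_neg fun h3 => h3.2 hA, if_neg fun h3 => h3.2 hA]
    · have h4 : rec' hd tl D (Equiv.swap c j) η (ext D (fun _ => c) s) x =
          Equiv.swap c j (ext D (fun _ => c) s x) := by
        unfold rec'
        rw [if_pos ⟨hx, hA⟩]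
      have h5 : Equiv.swap c j (ext D (fun _ => c) s x) = c ↔ ext D (fun _ => c) s x = j := by
        rw [Equiv.swap_apply_eq_iff, Equiv.swap_apply_left]
      simp only [h4, h5]
  have h3 : (Fintype.card S : ℝ) * WW hd tl (tch D) D v (fun _ => c)
        (fun σ η => if σ x = c ∧ ¬ cst hd tl (↑η : Set (Ed d)) {z | z ∉ D} x then (1 : ℝ) else 0) +
      WW hd tl (tch D) D v (fun _ => c)
        (fun _ η => if cst hd tl (↑η : Set (Ed d)) {z | z ∉ D} x then (1 : ℝ) else 0) =
      WW hd tl (tch D) D v (fun _ => c) (fun _ _ => (1 : ℝ)) := by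
    have h4 : (Fintype.card S : ℝ) * WW hd tl (tch D) D v (fun _ => c)
        (fun σ η => if σ x = c ∧ ¬ cst hd tl (↑η : Set (Ed d)) {z | z ∉ D} x then (1 : ℝ) else 0) =
        ∑ j : S, WW hd tl (tch D) D v (fun _ => c)
        (fun σ η => if σ x = j ∧ ¬ cst hd tl (↑η : Set (Ed d)) {z | z ∉ D} x then (1 : ℝ) else 0) := by
      rw [Finset.sum_congr rfl fun j _ => h2 j, Finset.sum_const, Finset.card_univ, nsmul_eq_mul]
    rw [h4, K2_sum, ← K2_add]
    refine K2_congr fun s η _ => ?_
    by_cases hA : cst hd tl (↑η : Set (Ed d)) {z | z ∉ D} x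
    · simp only [hA, not_true_eq_false, and_false, if_false, Finset.sum_const_zero, if_true, zero_add]
    · simp only [hA, not_false_eq_true, and_true, if_false, add_zero, Finset.sum_ite_eq,
        Finset.mem_univ, if_true]
  rw [h1]
  set M := WW hd tl (tch D) D v (fun _ => c)
    (fun _ η => if cst hd tl (↑η : Set (Ed d)) {z | z ∉ D} x then (1 : ℝ) else 0) with hM
  set N := WW hd tl (tch D) D v (fun _ => c)
    (fun σ η => if σ x = c ∧ ¬ cst hd tl (↑η : Set (Ed d)) {z | z ∉ D} x then (1 : ℝ) else 0) with hN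
  set Z := WW hd tl (tch D) D v (fun _ => c) (fun _ _ => (1 : ℝ)) with hZd
  have h5 : N = (Z - M) / Fintype.card S := by
    rw [eq_div_iff hq]
    linarith
  rw [h5]
  field_simp

end Pool.Agent.Lib.MP_6a79cf_pr
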