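import Pool.Agent.Lib.MP_6a79cf_pr.V1

/-!
LEAF K3 (domination of the free measure when only one colour comes from far away). `D ⊆ D'`, `F = tch D ⊆ F' = tch D'`,
`nice τ ζ`: every `z ∉ D'` which is joined in `ζ` to a vertex of `D ∪ bd D` has `τ z = c`. Sum over `ζ ⊆ F' \ F`, `η ⊆ F`: the
number of `s : D' → S` compatible with `η ∪ ζ`. Fix `ζ` with `nice τ ζ` and with some `s₀` compatible with `ζ` alone (if there is
none then all terms vanish). `s₁ x = c` if `x` is in `D ∪ bd D` or joined to it in `ζ`, otherwise `s₀ x`: `ext D' τ s₁` is compatible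
with `ζ` and with all edges of `F` (both ends in `D ∪ bd D`). (A vertex of `bd D` may be outside of `D'`: then `τ = c` there, by
`nice` with the trivial path.) So for all `η ⊆ F` the colourings `σ = ext D' τ s` compatible with `η ∪ ζ` are
`ext D' τ s₁ + (zer D' ⊓ cmp ζ ⊓ cmp η)`: their number is `Nat.card (K_ζ ⊓ cmp η)`, `K_ζ = zer D' ⊓ cmp ζ`. By `gdom`
(`K = K_ζ ≤ K' = zer (D' ∪ bd D')`) the sum over `η ∈ A` is at least (free probability of `A`) times the sum over all `η`; the free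
measure with the group `zer (D' ∪ bd D')` is that of `D`, as in V1.
-/

set_option autoImplicit false

open scoped Classical

namespace Pool.Agent.Lib.MP_6a79cf_pr

variable {d : ℕ} {S : Type} [AddCommGroup S] [Fintype S]

/-- Only the colour `c` comes to `D` from outside of `D'` through `ζ`. -/
def nice (D D' : Finset (Vx d)) (c : S) (σ : Vx d → S) (ζ : Finset (Ed d)) : Prop :=
  ∀ y ∈ D ∪ bd D, ∀ z, z ∉ D' → con hd tl (↑ζ : Set (Ed d)) y z → σ z = c

private theorem K3_split {Y : Type} [DecidableEq Y] (F F' : Finset Y) (h : F ⊆ F') (g : Finset Y → ℝ) :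
    ∑ η' ∈ F'.powerset, g η' = ∑ ζ ∈ (F' \ F).powerset, ∑ η ∈ F.powerset, g (η ∪ ζ) := by
  rw [← Finset.sum_product']
  refine Finset.sum_nbij' (fun η' => (η' \ F, η' ∩ F)) (fun p => p.2 ∪ p.1) ?_ ?_ ?_ ?_ ?_
  · intro η' hη'
    rw [Finset.mem_powerset] at hη'
    rw [Finset.mem_product, Finset.mem_powerset, Finset.mem_powerset]
    exact ⟨Finset.sdiff_subset_sdiff hη' subset_rfl, Finset.inter_subset_right⟩
  · rintro ⟨ζ, η⟩ hp
    rw [Finset.mem_product, Finset.mem_powerset, Finset.mem_powerset] at hp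
    rw [Finset.mem_powerset]
    exact Finset.union_subset (hp.2.trans h) (hp.1.trans Finset.sdiff_subset)
  · intro η' _
    exact (Finset.union_comm _ _).trans (Finset.sdiff_union_inter η' F)
  · rintro ⟨ζ, η⟩ hp
    rw [Finset.mem_product, Finset.mem_powerset, Finset.mem_powerset] at hp
    ext x
    · simp only [Finset.mem_sdiff, Finset.mem_union]
      have h1 : x ∈ ζ → x ∉ F := fun hx => (Finset.mem_sdiff.1 (hp.1 hx)).2
      have h2 : x ∈ η → x ∈ F := fun hx => hp.2 hx
      tauto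
    · simp only [Finset.mem_inter, Finset.mem_union]
      have h1 : x ∈ ζ → x ∉ F := fun hx => (Finset.mem_sdiff.1 (hp.1 hx)).2
      have h2 : x ∈ η → x ∈ F := fun hx => hp.2 hx
      tauto
  · intro η' _
    show g η' = g ((η' ∩ F) ∪ (η' \ F))
    rw [Finset.union_comm, Finset.sdiff_union_inter]

private theorem K3_card {X Y : Type} [DecidableEq X] (a b : Y → X) (E₀ E : Finset X) (hE : E₀ ⊆ E) (η : Finset Y)
    (hη : ∀ e ∈ η, a e ∈ E₀ ∧ b e ∈ E₀) :
    Nat.card ↥(zer S E ⊓ cmp S a b (↑η : Set Y)) =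
      Nat.card ↥(zer S E₀ ⊓ cmp S a b (↑η : Set Y)) * Fintype.card S ^ (E \ E₀).card := by
  have h1 : Nat.card (↥(E \ E₀) → S) = Fintype.card S ^ (E \ E₀).card := by
    rw [Nat.card_eq_fintype_card, Fintype.card_fun, Fintype.card_coe]
  rw [← h1, ← Nat.card_prod]
  refine Nat.card_congr
    { toFun := fun σ => (⟨fun x => if x ∈ E₀ then σ.1 x else 0, ?_, ?_⟩, fun x => σ.1 x)
      invFun := fun p => ⟨fun x => if h : x ∈ E \ E₀ then p.2 ⟨x, h⟩ else p.1.1 x, ?_, ?_⟩
      left_inv := ?_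
      right_inv := ?_ }
  · intro x hx
    exact if_neg hx
  · intro e he
    have h2 := hη e he
    show (if a e ∈ E₀ then σ.1 (a e) else 0) = if b e ∈ E₀ then σ.1 (b e) else 0
    rw [if_pos h2.1, if_pos h2.2]
    exact σ.2.2 e he
  · intro x hx
    show (if h : x ∈ E \ E₀ then p.2 ⟨x, h⟩ else p.1.1 x) = 0
    rw [dif_neg (fun h => hx (Finset.mem_sdiff.1 h).1)]
    exact p.1.2.1 x (fun h => hx (hE h))
  · intro e he
    have h2 := hη e he
    show (if h : a e ∈ E \ E₀ then p.2 ⟨a e, h⟩ else p.1.1 (a e)) = if h : b e ∈ E \ E₀ then p.2 ⟨b e, h⟩ else p.1.1 (b e)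
    rw [dif_neg (fun h => (Finset.mem_sdiff.1 h).2 h2.1), dif_neg (fun h => (Finset.mem_sdiff.1 h).2 h2.2)]
    exact p.1.2.2 e he
  · rintro ⟨σ, hσ1, hσ2⟩
    refine Subtype.ext (funext fun x => ?_)
    show (if h : x ∈ E \ E₀ then σ x else if x ∈ E₀ then σ x else 0) = σ x
    by_cases h : x ∈ E \ E₀
    · rw [dif_pos h]
    · rw [dif_neg h]
      by_cases h' : x ∈ E₀
      · rw [if_pos h']
      · rw [if_neg h']
        exact (hσ1 x (fun hx => h (Finset.mem_sdiff.2 ⟨hx, h'⟩))).symm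
  · rintro ⟨⟨σ, hσ1, hσ2⟩, t⟩
    refine Prod.ext (Subtype.ext (funext fun x => ?_)) (funext fun x => ?_)
    · show (if x ∈ E₀ then (if h : x ∈ E \ E₀ then t ⟨x, h⟩ else σ x) else 0) = σ x
      by_cases h : x ∈ E₀
      · rw [if_pos h, dif_neg (fun h' => (Finset.mem_sdiff.1 h').2 h)]
      · rw [if_neg h]
        exact (hσ1 x h).symm
    · show (if h : (x : X) ∈ E \ E₀ then t ⟨x, h⟩ else σ x) = t x
      rw [dif_pos x.2]

private theorem K3_gw {X Y : Type} [DecidableEq X] (a b : Y → X) (E₀ E : Finset X) (hE : E₀ ⊆ E) (v : ℝ) (F : Finset Y)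
    (hF : ∀ e ∈ F, a e ∈ E₀ ∧ b e ∈ E₀) (f : Finset Y → ℝ) :
    ∑ η ∈ F.powerset, gw a b (zer S E) v η * f η =
      (Fintype.card S : ℝ) ^ (E \ E₀).card * ∑ η ∈ F.powerset, gw a b (zer S E₀) v η * f η := by
  rw [Finset.mul_sum]
  refine Finset.sum_congr rfl fun η hη => ?_
  rw [Finset.mem_powerset] at hη
  unfold gw
  rw [K3_card a b E₀ E hE η fun e he => hF e (hη he)]
  push_cast
  ring

/-- the inequality for one subgroup -/
private theorem K3_one (D D' : Finset (Vx d)) (v : ℝ) (hv : 0 < v) (A : Finset (Ed d) → Prop) (hA : inc A)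
    (K : AddSubgroup (Vx d → S)) (hK : K ≤ zer S D') :
    ph0 S D v A * ∑ η ∈ (tch D).powerset, gw hd tl K v η ≤
      ∑ η ∈ (tch D).powerset, gw hd tl K v η * (if A η then 1 else 0) := by
  set E := D' ∪ (D ∪ bd D) with hE
  have hKE : K ≤ zer S E := fun σ hσ x hx => hK hσ x fun h => hx (Finset.mem_union_left _ h)
  have h1 := gdom hd tl K (zer S E) hKE v v hv le_rfl (tch D) (fun η => if A η then (1 : ℝ) else 0)
    (fun s => by split_ifs <;> norm_num) (fun s t hst _ => by
      by_cases hs : A s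
      · rw [if_pos hs, if_pos (hA s t hst hs)]
      · rw [if_neg hs]
        split_ifs <;> norm_num)
  have hF : ∀ e ∈ tch D, hd e ∈ D ∪ bd D ∧ tl e ∈ D ∪ bd D := fun e he => ends_tch he
  have h2 := K3_gw (S := S) hd tl (D ∪ bd D) E Finset.subset_union_right v (tch D) hF (fun η => if A η then (1 : ℝ) else 0)
  have h3 := K3_gw (S := S) hd tl (D ∪ bd D) E Finset.subset_union_right v (tch D) hF (fun _ => (1 : ℝ))
  simp only [mul_one] at h3
  rw [h2, h3] at h1
  have hC : 0 < (Fintype.card S : ℝ) ^ (E \ (D ∪ bd D)).card := by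
    have : Nonempty S := ⟨0⟩
    have h4 : 0 < Fintype.card S := Fintype.card_pos
    positivity
  have hb : 0 < ∑ η ∈ (tch D).powerset, gw hd tl (zer S (D ∪ bd D)) v η :=
    Finset.sum_pos (fun η _ => gw_pos hd tl _ v hv η) ⟨∅, Finset.empty_mem_powerset _⟩
  have h5 : ph0 S D v A = (∑ η ∈ (tch D).powerset, gw hd tl (zer S (D ∪ bd D)) v η * (if A η then 1 else 0)) /
      ∑ η ∈ (tch D).powerset, gw hd tl (zer S (D ∪ bd D)) v η := by
    unfold ph0
    rw [WW_gw hd tl (tch D) (D ∪ bd D) v (fun η => if A η then 1 else 0), WW_gw hd tl (tch D) (D ∪ bd D) v (fun _ => 1)]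
    simp only [mul_one]
  rw [h5, div_mul_eq_mul_div, div_le_iff₀ hb]
  rw [mul_assoc, mul_assoc] at h1
  have h6 := le_of_mul_le_mul_left h1 hC
  linarith

omit [AddCommGroup S] [Fintype S] in
/-- `nice` depends only on the colours outside of `D'` -/
private theorem K3_nice (D D' : Finset (Vx d)) (c : S) (τ : Vx d → S) (s : D' → S) (ζ : Finset (Ed d)) :
    nice D D' c (ext D' τ s) ζ ↔ nice D D' c τ ζ := by
  have h1 : ∀ z, z ∉ D' → ext D' τ s z = τ z := fun z hz => dif_neg hz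
  constructor
  · intro h y hy z hz hyz
    rw [← h1 z hz]
    exact h y hy z hz hyz
  · intro h y hy z hz hyz
    rw [h1 z hz]
    exact h y hy z hz hyz

/-- the number of the compatible colourings -/
private noncomputable def K3_M {X Y : Type} (a b : Y → X) (D' : Finset X) (τ : X → S) (η : Finset Y) : ℝ :=
  ∑ s : D' → S, if comp a b (↑η : Set Y) (ext D' τ s) then 1 else 0

/-- the number of the compatible colourings -/
private noncomputable def K3_N (D' : Finset (Vx d)) (τ : Vx d → S) (η : Finset (Ed d)) : ℝ :=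
  K3_M hd tl D' τ η

omit [AddCommGroup S] in
private theorem K3_M_card {X Y : Type} (a b : Y → X) (D' : Finset X) (τ : X → S) (η : Finset Y) :
    K3_M a b D' τ η = (Nat.card {s : D' → S // comp a b (↑η : Set Y) (ext D' τ s)} : ℝ) := by
  unfold K3_M
  rw [Finset.sum_boole, Nat.card_eq_fintype_card, Fintype.card_subtype]

omit [AddCommGroup S] in
private theorem K3_WW {D D' : Finset (Vx d)} (h : tch D ⊆ tch D') (v : ℝ) (τ : Vx d → S) (c : S)
    (B : Finset (Ed d) → Prop) :
    WW hd tl (tch D') D' v τ (fun σ η => if B (η ∩ tch D) ∧ nice D D' c σ (η \ tch D) then 1 else 0) =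
      ∑ ζ ∈ (tch D' \ tch D).powerset, if nice D D' c τ ζ then
        v ^ ζ.card * ∑ η ∈ (tch D).powerset, v ^ η.card * K3_N D' τ (η ∪ ζ) * (if B η then 1 else 0) else 0 := by
  unfold WW
  rw [Finset.sum_comm, K3_split (tch D) (tch D') h]
  refine Finset.sum_congr rfl fun ζ hζ => ?_
  rw [Finset.mem_powerset] at hζ
  have hpart : ∀ η ∈ (tch D).powerset, (η ∪ ζ) ∩ tch D = η ∧ (η ∪ ζ) \ tch D = ζ ∧ (η ∪ ζ).card = η.card + ζ.card := by
    intro η hη
    rw [Finset.mem_powerset] at hη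
    have h1 : ∀ x, x ∈ ζ → x ∉ tch D := fun x hx => (Finset.mem_sdiff.1 (hζ hx)).2
    have h2 : ∀ x, x ∈ η → x ∈ tch D := fun x hx => hη hx
    refine ⟨?_, ?_, ?_⟩
    · ext x
      simp only [Finset.mem_inter, Finset.mem_union]
      have := h1 x
      have := h2 x
      tauto
    · ext x
      simp only [Finset.mem_sdiff, Finset.mem_union]
      have := h1 x
      have := h2 x
      tauto
    · exact Finset.card_union_of_disjoint (Finset.disjoint_left.2 fun x hx hx' => h1 x hx' (h2 x hx))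
  by_cases hn : nice D D' c τ ζ
  · rw [if_pos hn, Finset.mul_sum]
    refine Finset.sum_congr rfl fun η hη => ?_
    obtain ⟨e1, e2, e3⟩ := hpart η hη
    rw [K3_N, K3_M, Finset.mul_sum, Finset.sum_mul, Finset.mul_sum]
    refine Finset.sum_congr rfl fun s _ => ?_
    beta_reduce
    rw [e1, e2, e3]
    by_cases hc : comp hd tl (↑(η ∪ ζ) : Set (Ed d)) (ext D' τ s)
    · rw [if_pos hc, if_pos hc]
      by_cases hB : B η
      · rw [if_pos ⟨hB, (K3_nice D D' c τ s ζ).2 hn⟩, if_pos hB]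
        ring
      · rw [if_neg (fun h => hB h.1), if_neg hB]
        ring
    · rw [if_neg hc, if_neg hc]
      ring
  · rw [if_neg hn]
    refine Finset.sum_eq_zero fun η hη => Finset.sum_eq_zero fun s _ => ?_
    obtain ⟨e1, e2, e3⟩ := hpart η hη
    beta_reduce
    have hnn : ¬ (B ((η ∪ ζ) ∩ tch D) ∧ nice D D' c (ext D' τ s) ((η ∪ ζ) \ tch D)) := by
      rw [e2]
      exact fun hh => hn ((K3_nice D D' c τ s ζ).1 hh.2)
    rw [if_neg hnn, mul_zero, ite_self]

/-- the compatible colourings form a coset, or there are none -/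
private theorem K3_coset {D D' : Finset (Vx d)} (τ : Vx d → S) (c : S) (ζ : Finset (Ed d)) (hn : nice D D' c τ ζ) :
    (∀ η ∈ (tch D).powerset, K3_N D' τ (η ∪ ζ) = 0) ∨
      ∀ η ∈ (tch D).powerset, K3_N D' τ (η ∪ ζ) =
        (Nat.card ↥((zer S D' ⊓ cmp S hd tl (↑ζ : Set (Ed d))) ⊓ cmp S hd tl (↑η : Set (Ed d))) : ℝ) := by
  by_cases hex : ∃ s₀ : D' → S, comp hd tl (↑ζ : Set (Ed d)) (ext D' τ s₀)
  · right
    obtain ⟨s₀, hs₀⟩ := hex
    intro η hη
    rw [Finset.mem_powerset] at hη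
    let J : Vx d → Prop := fun x => ∃ y ∈ D ∪ bd D, con hd tl (↑ζ : Set (Ed d)) y x
    let s₁ : D' → S := fun x => if J x then c else s₀ x
    have hJ0 : ∀ x ∈ D ∪ bd D, J x := fun x hx => ⟨x, hx, Relation.EqvGen.refl x⟩
    have hJe : ∀ e ∈ ζ, (J (hd e) ↔ J (tl e)) := by
      intro e he
      have h1 : con hd tl (↑ζ : Set (Ed d)) (hd e) (tl e) := Relation.EqvGen.rel _ _ ⟨e, he, rfl, rfl⟩
      constructor
      · rintro ⟨y, hy, hyx⟩
        exact ⟨y, hy, Relation.EqvGen.trans _ _ _ hyx h1⟩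
      · rintro ⟨y, hy, hyx⟩
        exact ⟨y, hy, Relation.EqvGen.trans _ _ _ hyx (Relation.EqvGen.symm _ _ h1)⟩
    have hJc : ∀ x, J x → ext D' τ s₁ x = c := by
      intro x hx
      by_cases hD : x ∈ D'
      · have : ext D' τ s₁ x = s₁ ⟨x, hD⟩ := dif_pos hD
        rw [this]
        exact if_pos hx
      · have : ext D' τ s₁ x = τ x := dif_neg hD
        rw [this]
        obtain ⟨y, hy, hyx⟩ := hx
        exact hn y hy x hD hyx
    have hJn : ∀ x, ¬ J x → ext D' τ s₁ x = ext D' τ s₀ x := by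
      intro x hx
      by_cases hD : x ∈ D'
      · have h1 : ext D' τ s₁ x = s₁ ⟨x, hD⟩ := dif_pos hD
        have h2 : ext D' τ s₀ x = s₀ ⟨x, hD⟩ := dif_pos hD
        rw [h1, h2]
        exact if_neg hx
      · have h1 : ext D' τ s₁ x = τ x := dif_neg hD
        have h2 : ext D' τ s₀ x = τ x := dif_neg hD
        rw [h1, h2]
    have hc1 : ∀ e ∈ η ∪ ζ, ext D' τ s₁ (hd e) = ext D' τ s₁ (tl e) := by
      intro e he
      rcases Finset.mem_union.1 he with he | he
      · have h1 := ends_tch (hη he)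
        rw [hJc _ (hJ0 _ h1.1), hJc _ (hJ0 _ h1.2)]
      · by_cases hJ : J (hd e)
        · rw [hJc _ hJ, hJc _ ((hJe e he).1 hJ)]
        · rw [hJn _ hJ, hJn _ (fun h => hJ ((hJe e he).2 h))]
          exact hs₀ e he
    -- the bijection
    have hNat : (K3_N D' τ (η ∪ ζ) : ℝ) =
        (Nat.card {s : D' → S // comp hd tl (↑(η ∪ ζ) : Set (Ed d)) (ext D' τ s)} : ℝ) :=
      K3_M_card hd tl D' τ (η ∪ ζ)
    rw [hNat]
    congr 1
    refine Nat.card_congr
      { toFun := fun s => ⟨fun x => ext D' τ s.1 x - ext D' τ s₁ x, ⟨?_, ?_⟩, ?_⟩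
        invFun := fun σ => ⟨fun x => σ.1 x + s₁ x, ?_⟩
        left_inv := ?_
        right_inv := ?_ }
    · intro x hx
      have h1 : ext D' τ s.1 x = τ x := dif_neg hx
      have h2 : ext D' τ s₁ x = τ x := dif_neg hx
      show ext D' τ s.1 x - ext D' τ s₁ x = 0
      rw [h1, h2, sub_self]
    · intro e he
      have he' : e ∈ η ∪ ζ := Finset.mem_union_right _ he
      show ext D' τ s.1 (hd e) - ext D' τ s₁ (hd e) = ext D' τ s.1 (tl e) - ext D' τ s₁ (tl e)
      rw [hc1 e he', s.2 e he']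
    · intro e he
      have he' : e ∈ η ∪ ζ := Finset.mem_union_left _ he
      show ext D' τ s.1 (hd e) - ext D' τ s₁ (hd e) = ext D' τ s.1 (tl e) - ext D' τ s₁ (tl e)
      rw [hc1 e he', s.2 e he']
    · have hext : ∀ x, ext D' τ (fun x : D' => σ.1 x + s₁ x) x = σ.1 x + ext D' τ s₁ x := by
        intro x
        by_cases hD : x ∈ D'
        · have h1 : ext D' τ (fun x : D' => σ.1 x + s₁ x) x = σ.1 x + s₁ ⟨x, hD⟩ := dif_pos hD
          have h2 : ext D' τ s₁ x = s₁ ⟨x, hD⟩ := dif_pos hD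
          rw [h1, h2]
        · have h1 : ext D' τ (fun x : D' => σ.1 x + s₁ x) x = τ x := dif_neg hD
          have h2 : ext D' τ s₁ x = τ x := dif_neg hD
          have h3 : σ.1 x = 0 := σ.2.1.1 x hD
          rw [h1, h2, h3, zero_add]
      intro e he
      rw [hext, hext, hc1 e he]
      congr 1
      rcases Finset.mem_union.1 he with he | he
      · exact σ.2.2 e he
      · exact σ.2.1.2 e he
    · rintro ⟨s, hs⟩
      refine Subtype.ext (funext fun x => ?_)
      have h1 : ext D' τ s x = s x := dif_pos x.2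
      have h2 : ext D' τ s₁ x = s₁ x := dif_pos x.2
      show ext D' τ s x - ext D' τ s₁ x + s₁ x = s x
      rw [h1, h2, sub_add_cancel]
    · rintro ⟨σ, hσ⟩
      refine Subtype.ext (funext fun x => ?_)
      show ext D' τ (fun x : D' => σ x + s₁ x) x - ext D' τ s₁ x = σ x
      by_cases hD : x ∈ D'
      · have h1 : ext D' τ (fun x : D' => σ x + s₁ x) x = σ x + s₁ ⟨x, hD⟩ := dif_pos hD
        have h2 : ext D' τ s₁ x = s₁ ⟨x, hD⟩ := dif_pos hD
        rw [h1, h2, add_sub_cancel_right]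
      · have h1 : ext D' τ (fun x : D' => σ x + s₁ x) x = τ x := dif_neg hD
        have h2 : ext D' τ s₁ x = τ x := dif_neg hD
        rw [h1, h2, sub_self]
        exact (hσ.1.1 x hD).symm
  · left
    intro η _
    refine Finset.sum_eq_zero fun s _ => if_neg fun hc => hex ⟨s, fun e he => ?_⟩
    exact hc e (by
      rw [Finset.coe_union]
      exact Or.inr he)

theorem WW_dom {D D' : Finset (Vx d)} (h : D ⊆ D') (v : ℝ) (hv : 0 < v) (τ : Vx d → S) (c : S)
    (A : Finset (Ed d) → Prop) (hA : inc A) :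
    ph0 S D v A * WW hd tl (tch D') D' v τ
        (fun σ η => if nice D D' c σ (η \ tch D) then 1 else 0) ≤
      WW hd tl (tch D') D' v τ
        (fun σ η => if A (η ∩ tch D) ∧ nice D D' c σ (η \ tch D) then 1 else 0) := by
  have hT := tch_mono (d := d) h
  have h1 := K3_WW hT v τ c (fun _ => True)
  simp only [true_and, if_true, mul_one] at h1
  rw [h1, K3_WW hT v τ c A, Finset.mul_sum]
  refine Finset.sum_le_sum fun ζ _ => ?_
  by_cases hn : nice D D' c τ ζ
  · rw [if_pos hn, if_pos hn]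
    rcases K3_coset τ c ζ hn with h0 | h0
    · have e1 : ∑ η ∈ (tch D).powerset, v ^ η.card * K3_N D' τ (η ∪ ζ) = 0 :=
        Finset.sum_eq_zero fun η hη => by rw [h0 η hη, mul_zero]
      have e2 : ∑ η ∈ (tch D).powerset, v ^ η.card * K3_N D' τ (η ∪ ζ) * (if A η then 1 else 0) = 0 :=
        Finset.sum_eq_zero fun η hη => by rw [h0 η hη, mul_zero, zero_mul]
      rw [e1, e2, mul_zero, mul_zero]
    · have e1 : ∑ η ∈ (tch D).powerset, v ^ η.card * K3_N D' τ (η ∪ ζ) =
          ∑ η ∈ (tch D).powerset, gw hd tl (zer S D' ⊓ cmp S hd tl (↑ζ : Set (Ed d))) v η :=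
        Finset.sum_congr rfl fun η hη => by rw [h0 η hη]; rfl
      have e2 : ∑ η ∈ (tch D).powerset, v ^ η.card * K3_N D' τ (η ∪ ζ) * (if A η then 1 else 0) =
          ∑ η ∈ (tch D).powerset, gw hd tl (zer S D' ⊓ cmp S hd tl (↑ζ : Set (Ed d))) v η * (if A η then 1 else 0) :=
        Finset.sum_congr rfl fun η hη => by rw [h0 η hη]; rfl
      rw [e1, e2, mul_left_comm]
      exact mul_le_mul_of_nonneg_left (K3_one D D' v hv A hA _ inf_le_left) (pow_nonneg hv.le _)
  · rw [if_neg hn, if_neg hn, mul_zero]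

end Pool.Agent.Lib.MP_6a79cf_pr
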