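import Pool.Agent.Lib.MP_6a79cf_pr.V1
import Pool.Agent.Lib.MP_6a79cf_pr.K2

/-!
LEAF K4 (upper bounds by the wired measure). For a boundary condition `τ` the number of `s` compatible with `η` (`comp η (ext D τ s)`)
is `0` or `Nat.card (zer S D ⊓ cmp η)` (the compatible colourings are a coset of this group, if there is one), and the set of
the `η` with a compatible `s` is decreasing. `WW_up`: `dom` with `w₁ η = gw (zer D) v η` if there is a compatible `s`, `0` otherwise,
`w₂ = gw (zer D) v` (condition from `gw_lat` with `K = K'`), `f = 1_A`. `potts_up`: as in `mag_eq`, `J` = `x` is joined to the complement of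
`D`: `WW_τ 1[σ x = c] ≤ WW_τ 1[J] + (WW_τ 1 - WW_τ 1[J])/|S|` (`WW_sym`), `WW_τ 1[J] ≤ ph1 (J) WW_τ 1` (`WW_up`), then `potts_eq`, `mag_eq`.
-/

set_option autoImplicit false

open scoped Classical

namespace Pool.Agent.Lib.MP_6a79cf_pr

variable {d : ℕ} {S : Type} [AddCommGroup S] [Fintype S]

omit [AddCommGroup S] in
private theorem K4_congr {X Y : Type} {a b : Y → X} {F : Finset Y} {D : Finset X} {v : ℝ} {τ : X → S}
    {f g : (X → S) → Finset Y → ℝ}
    (h : ∀ (s : D → S) (η : Finset Y), comp a b (↑η : Set Y) (ext D τ s) →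
      f (ext D τ s) η = g (ext D τ s) η) : WW a b F D v τ f = WW a b F D v τ g := by
  unfold WW
  refine Finset.sum_congr rfl fun s _ => Finset.sum_congr rfl fun η _ => ?_
  by_cases hc : comp a b (↑η : Set Y) (ext D τ s)
  · rw [if_pos hc, if_pos hc, h s η hc]
  · rw [if_neg hc, if_neg hc]

omit [AddCommGroup S] in
private theorem K4_mono {X Y : Type} {a b : Y → X} {F : Finset Y} {D : Finset X} {v : ℝ} (hv : 0 < v)
    {τ : X → S} {f g : (X → S) → Finset Y → ℝ} (h : ∀ σ η, f σ η ≤ g σ η) :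
    WW a b F D v τ f ≤ WW a b F D v τ g := by
  unfold WW
  refine Finset.sum_le_sum fun s _ => Finset.sum_le_sum fun η _ => ?_
  by_cases hc : comp a b (↑η : Set Y) (ext D τ s)
  · rw [if_pos hc, if_pos hc]
    exact mul_le_mul_of_nonneg_left (h _ _) (pow_pos hv _).le
  · rw [if_neg hc, if_neg hc]

omit [AddCommGroup S] in
private theorem K4_add {X Y : Type} {a b : Y → X} {F : Finset Y} {D : Finset X} {v : ℝ} {τ : X → S}
    {f g : (X → S) → Finset Y → ℝ} :
    WW a b F D v τ (fun σ η => f σ η + g σ η) = WW a b F D v τ f + WW a b F D v τ g := by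
  unfold WW
  rw [← Finset.sum_add_distrib]
  refine Finset.sum_congr rfl fun s _ => ?_
  rw [← Finset.sum_add_distrib]
  refine Finset.sum_congr rfl fun η _ => ?_
  split_ifs
  · ring
  · ring

omit [AddCommGroup S] in
private theorem K4_sum {X Y : Type} {a b : Y → X} {F : Finset Y} {D : Finset X} {v : ℝ} {τ : X → S}
    {f : S → (X → S) → Finset Y → ℝ} :
    ∑ j, WW a b F D v τ (f j) = WW a b F D v τ (fun σ η => ∑ j, f j σ η) := by
  unfold WW
  rw [Finset.sum_comm]
  refine Finset.sum_congr rfl fun s _ => ?_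
  rw [Finset.sum_comm]
  refine Finset.sum_congr rfl fun η _ => ?_
  by_cases hc : comp a b (↑η : Set Y) (ext D τ s)
  · simp only [if_pos hc, Finset.mul_sum]
  · simp only [if_neg hc, Finset.sum_const_zero]

/-- the compatible colourings are a coset -/
private theorem K4_card {X Y : Type} (a b : Y → X) (D : Finset X) (τ : X → S) (A : Set Y) (s₀ : D → S)
    (h₀ : comp a b A (ext D τ s₀)) :
    (Finset.univ.filter fun s : D → S => comp a b A (ext D τ s)).card =
      Nat.card ↥(zer S D ⊓ cmp S a b A) := by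
  rw [← Fintype.card_subtype, ← Nat.card_eq_fintype_card]
  refine Nat.card_congr (Equiv.ofBijective (fun s => (⟨fun x => ext D τ s.1 x - ext D τ s₀ x, ?_, ?_⟩ :
    ↥(zer S D ⊓ cmp S a b A))) ⟨?_, ?_⟩)
  · intro x hx
    simp only [ext, dif_neg hx, sub_self]
  · intro e he
    show ext D τ s.1 (a e) - ext D τ s₀ (a e) = ext D τ s.1 (b e) - ext D τ s₀ (b e)
    rw [s.2 e he, h₀ e he]
  · intro s t h
    apply Subtype.ext
    funext x
    have h1 := congrFun (congrArg Subtype.val h) x.1
    have h2 : ext D τ s.1 x.1 - ext D τ s₀ x.1 = ext D τ t.1 x.1 - ext D τ s₀ x.1 := h1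
    have h3 := sub_left_inj.1 h2
    simpa [ext] using h3
  · rintro ⟨σ, hσ1, hσ2⟩
    have hx1 : ext D τ (fun x : D => σ x.1 + s₀ x) = fun x => σ x + ext D τ s₀ x := by
      funext x
      by_cases hx : x ∈ D
      · simp only [ext, dif_pos hx]
      · have h5 : σ x = 0 := hσ1 x hx
        simp only [ext, dif_neg hx, h5, zero_add]
    refine ⟨⟨fun x : D => σ x.1 + s₀ x, ?_⟩, Subtype.ext ?_⟩
    · show comp a b A (ext D τ (fun x : D => σ x.1 + s₀ x))
      rw [hx1]
      intro e he
      show σ (a e) + ext D τ s₀ (a e) = σ (b e) + ext D τ s₀ (b e)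
      rw [hσ2 e he, h₀ e he]
    · funext x
      show ext D τ (fun x : D => σ x.1 + s₀ x) x - ext D τ s₀ x = σ x
      rw [hx1]
      exact add_sub_cancel_right _ _

/-- the weights for the boundary condition `τ` -/
private theorem K4_gw {X Y : Type} (a b : Y → X) (F : Finset Y) (D : Finset X) (v : ℝ) (τ : X → S)
    (f : Finset Y → ℝ) :
    WW a b F D v τ (fun _ η => f η) = ∑ η ∈ F.powerset,
      (if ∃ s : D → S, comp a b (↑η : Set Y) (ext D τ s) then gw a b (zer S D) v η else 0) * f η := by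
  unfold WW
  rw [Finset.sum_comm]
  refine Finset.sum_congr rfl fun η _ => ?_
  rw [← Finset.sum_filter, Finset.sum_const, nsmul_eq_mul]
  by_cases h : ∃ s : D → S, comp a b (↑η : Set Y) (ext D τ s)
  · obtain ⟨s₀, h₀⟩ := id h
    rw [if_pos h, K4_card a b D τ _ s₀ h₀]
    unfold gw
    ring
  · rw [if_neg h, zero_mul, Finset.filter_false_of_mem fun s _ hs => h ⟨s, hs⟩, Finset.card_empty,
      Nat.cast_zero, zero_mul]

private theorem K4_up {X Y : Type} (a b : Y → X) (F : Finset Y) (D : Finset X) (v : ℝ) (hv : 0 < v)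
    (τ : X → S) (A : Finset Y → Prop) (hA : ∀ s t : Finset Y, s ⊆ t → A s → A t) :
    WW a b F D v τ (fun _ η => if A η then 1 else 0) * WW a b F D v (fun _ => (0 : S)) (fun _ _ => 1) ≤
      WW a b F D v τ (fun _ _ => 1) * WW a b F D v (fun _ => (0 : S)) (fun _ η => if A η then 1 else 0) := by
  have hfin : Finite (zer S D) := inferInstance
  rw [K4_gw a b F D v τ (fun η => if A η then 1 else 0), K4_gw a b F D v τ (fun _ => 1),
    WW_gw a b F D v (fun η => if A η then 1 else 0), WW_gw a b F D v (fun _ => 1)]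
  simp only [mul_one]
  have hpos : ∀ η : Finset Y, 0 < gw a b (zer S D) v η := fun η => gw_pos a b (zer S D) v hv η
  have hw1 : ∀ η : Finset Y, 0 ≤ (if ∃ s : D → S, comp a b (↑η : Set Y) (ext D τ s) then
      gw a b (zer S D) v η else 0) := by
    intro η
    split_ifs
    · exact (hpos η).le
    · exact le_refl _
  refine dom F (fun η => if ∃ s : D → S, comp a b (↑η : Set Y) (ext D τ s) then
      gw a b (zer S D) v η else 0) (fun η => gw a b (zer S D) v η) (fun η => if A η then 1 else 0)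
    hw1 (fun η => (hpos η).le) (fun η => ?_) (fun s t hst _ => ?_) (fun s _ t _ => ?_)
  · show (0 : ℝ) ≤ if A η then 1 else 0
    split_ifs
    · exact zero_le_one
    · exact le_refl _
  · show (if A s then (1 : ℝ) else 0) ≤ if A t then 1 else 0
    by_cases h2 : A s
    · rw [if_pos h2, if_pos (hA s t hst h2)]
    · rw [if_neg h2]
      split_ifs
      · exact zero_le_one
      · exact le_refl _
  · show (if ∃ r : D → S, comp a b (↑s : Set Y) (ext D τ r) then gw a b (zer S D) v s else 0) *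
        gw a b (zer S D) v t ≤
      (if ∃ r : D → S, comp a b (↑(s ∩ t) : Set Y) (ext D τ r) then gw a b (zer S D) v (s ∩ t) else 0) *
        gw a b (zer S D) v (s ∪ t)
    by_cases h2 : ∃ r : D → S, comp a b (↑s : Set Y) (ext D τ r)
    · have h3 : ∃ r : D → S, comp a b (↑(s ∩ t) : Set Y) (ext D τ r) := by
        obtain ⟨r, hr⟩ := h2
        exact ⟨r, fun e he => hr e (Finset.mem_coe.2 (Finset.mem_inter.1 (Finset.mem_coe.1 he)).1)⟩
      rw [if_pos h2, if_pos h3]
      exact gw_lat a b (zer S D) (zer S D) le_rfl v v hv le_rfl s t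
    · rw [if_neg h2, zero_mul]
      exact mul_nonneg (hw1 _) (hpos _).le

theorem WW_up (D : Finset (Vx d)) (v : ℝ) (hv : 0 < v) (τ : Vx d → S)
    (A : Finset (Ed d) → Prop) (hA : inc A) :
    WW hd tl (tch D) D v τ (fun _ η => if A η then 1 else 0) ≤
      ph1 S D v A * WW hd tl (tch D) D v τ (fun _ _ => 1) := by
  have hZ : 0 < WW hd tl (tch D) D v (fun _ => (0 : S)) (fun _ _ => (1 : ℝ)) := by
    rw [WW_one hd tl (tch D) D v hv (fun _ => (0 : S)) (fun _ => 1)]
    exact Finset.sum_pos (fun s _ => by positivity) ⟨fun _ => 0, by simp⟩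
  have h1 := K4_up hd tl (tch D) D v hv τ A hA
  unfold ph1
  rw [div_mul_eq_mul_div, le_div_iff₀ hZ]
  refine h1.trans (le_of_eq ?_)
  rw [mul_comm]

theorem potts_up (β : ℝ) (hβ : 0 < β) (D : Finset (Vx d)) (τ : Vx d → S) (x : Vx d) (hx : x ∈ D)
    (c : S) : potts β D τ {σ | σ x = c} ≤ potts β D (fun _ => c) {σ | σ x = c} := by
  have hv : 0 < Real.exp β - 1 := by
    have := Real.add_one_lt_exp hβ.ne'
    linarith
  rw [mag_eq β hβ D x hx c, potts_eq β hβ]
  set v : ℝ := Real.exp β - 1 with hvdef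
  have hq : (0 : ℝ) < Fintype.card S := by
    have : Nonempty S := ⟨0⟩
    exact_mod_cast Fintype.card_pos
  have hq1 : (1 : ℝ) ≤ Fintype.card S := by
    have : Nonempty S := ⟨0⟩
    exact_mod_cast Nat.one_le_iff_ne_zero.2 Fintype.card_ne_zero
  have hZ : 0 < WW hd tl (tch D) D v τ (fun _ _ => (1 : ℝ)) := by
    rw [WW_one hd tl (tch D) D v hv τ (fun _ => 1)]
    exact Finset.sum_pos (fun s _ => by positivity) ⟨fun _ => 0, by simp⟩
  have hJ : inc (fun η : Finset (Ed d) => cst hd tl (↑η : Set (Ed d)) {z | z ∉ D} x) := by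
    rintro s t hst ⟨z, hz, hxz⟩
    refine ⟨z, hz, Relation.EqvGen.mono (fun p q hpq => ?_) x z hxz⟩
    obtain ⟨e, he, h1⟩ := hpq
    exact ⟨e, Finset.mem_coe.2 (hst (Finset.mem_coe.1 he)), h1⟩
  have hup := WW_up D v hv τ _ hJ
  set P : ℝ := ph1 S D v (fun η => cst hd tl (↑η : Set (Ed d)) {z | z ∉ D} x) with hP
  -- the two parts
  have h1 : WW hd tl (tch D) D v τ (fun σ _ => if σ ∈ {σ : Vx d → S | σ x = c} then (1 : ℝ) else 0) ≤
      WW hd tl (tch D) D v τ
        (fun _ η => if cst hd tl (↑η : Set (Ed d)) {z | z ∉ D} x then (1 : ℝ) else 0) +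
      WW hd tl (tch D) D v τ
        (fun σ η => if σ x = c ∧ ¬ cst hd tl (↑η : Set (Ed d)) {z | z ∉ D} x then (1 : ℝ) else 0) := by
    rw [← K4_add]
    refine K4_mono hv fun σ η => ?_
    show (if σ x = c then (1 : ℝ) else 0) ≤ _
    by_cases hA : cst hd tl (↑η : Set (Ed d)) {z | z ∉ D} x
    · have e1 : (if σ x = c ∧ ¬ cst hd tl (↑η : Set (Ed d)) {z | z ∉ D} x then (1 : ℝ) else 0) = 0 :=
        if_neg fun h3 => h3.2 hA
      rw [e1, if_pos hA, add_zero]
      by_cases h4 : σ x = c
      · rw [if_pos h4]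
      · rw [if_neg h4]
        exact zero_le_one
    · rw [if_neg hA, zero_add]
      simp only [hA, not_false_eq_true, and_true]
      exact le_refl _
  have h2 : ∀ j : S, WW hd tl (tch D) D v τ
        (fun σ η => if σ x = j ∧ ¬ cst hd tl (↑η : Set (Ed d)) {z | z ∉ D} x then (1 : ℝ) else 0) =
      WW hd tl (tch D) D v τ
        (fun σ η => if σ x = c ∧ ¬ cst hd tl (↑η : Set (Ed d)) {z | z ∉ D} x then (1 : ℝ) else 0) := by
    intro j
    rw [← WW_sym hd tl (tch D) D v τ (Equiv.swap c j)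
      (fun σ η => if σ x = c ∧ ¬ cst hd tl (↑η : Set (Ed d)) {z | z ∉ D} x then (1 : ℝ) else 0)]
    refine K4_congr fun s η _ => ?_
    by_cases hA : cst hd tl (↑η : Set (Ed d)) {z | z ∉ D} x
    · rw [if_neg fun h3 => h3.2 hA, if_neg fun h3 => h3.2 hA]
    · have h4 : rec' hd tl D (Equiv.swap c j) η (ext D τ s) x =
          Equiv.swap c j (ext D τ s x) := by
        unfold rec'
        rw [if_pos ⟨hx, hA⟩]
      have h5 : Equiv.swap c j (ext D τ s x) = c ↔ ext D τ s x = j := by
        rw [Equiv.swap_apply_eq_iff, Equiv.swap_apply_left]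
      simp only [h4, h5]
  have h3 : (Fintype.card S : ℝ) * WW hd tl (tch D) D v τ
        (fun σ η => if σ x = c ∧ ¬ cst hd tl (↑η : Set (Ed d)) {z | z ∉ D} x then (1 : ℝ) else 0) +
      WW hd tl (tch D) D v τ
        (fun _ η => if cst hd tl (↑η : Set (Ed d)) {z | z ∉ D} x then (1 : ℝ) else 0) =
      WW hd tl (tch D) D v τ (fun _ _ => (1 : ℝ)) := by
    have h4 : (Fintype.card S : ℝ) * WW hd tl (tch D) D v τ
        (fun σ η => if σ x = c ∧ ¬ cst hd tl (↑η : Set (Ed d)) {z | z ∉ D} x then (1 : ℝ) else 0) =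
        ∑ j : S, WW hd tl (tch D) D v τ
        (fun σ η => if σ x = j ∧ ¬ cst hd tl (↑η : Set (Ed d)) {z | z ∉ D} x then (1 : ℝ) else 0) := by
      rw [Finset.sum_congr rfl fun j _ => h2 j, Finset.sum_const, Finset.card_univ, nsmul_eq_mul]
    rw [h4, K4_sum, ← K4_add]
    refine K4_congr fun s η _ => ?_
    by_cases hA : cst hd tl (↑η : Set (Ed d)) {z | z ∉ D} x
    · simp only [hA, not_true_eq_false, and_false, if_false, Finset.sum_const_zero, if_true, zero_add]
    · simp only [hA, not_false_eq_true, and_true, if_false, add_zero, Finset.sum_ite_eq,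
        Finset.mem_univ, if_true]
  set M := WW hd tl (tch D) D v τ
    (fun _ η => if cst hd tl (↑η : Set (Ed d)) {z | z ∉ D} x then (1 : ℝ) else 0) with hM
  set N := WW hd tl (tch D) D v τ
    (fun σ η => if σ x = c ∧ ¬ cst hd tl (↑η : Set (Ed d)) {z | z ∉ D} x then (1 : ℝ) else 0) with hN
  set Z := WW hd tl (tch D) D v τ (fun _ _ => (1 : ℝ)) with hZd
  have h5 : N = (Z - M) / Fintype.card S := by
    rw [eq_div_iff hq.ne']
    linarith
  rw [div_le_iff₀ hZ]
  refine h1.trans ?_
  rw [h5]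
  have h6 : M + (Z - M) / Fintype.card S = M * (1 - 1 / Fintype.card S) + Z / Fintype.card S := by
    field_simp
    ring
  have h7 : (P + (1 - P) / Fintype.card S) * Z = P * Z * (1 - 1 / Fintype.card S) + Z / Fintype.card S := by
    field_simp
    ring
  rw [h6, h7]
  have h8 : (0 : ℝ) ≤ 1 - 1 / Fintype.card S := by
    rw [sub_nonneg, div_le_one hq]
    exact hq1
  have h9 := mul_le_mul_of_nonneg_right hup h8
  linarith

end Pool.Agent.Lib.MP_6a79cf_pr
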