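import Pool.Agent.Lib.MP_6a79cf_pr.Defs

/-!
LEAF L1 (exploration, change of measure). For `U ⊆ F` the event `tou η = U` depends only on `η ∩ U`: if `tou η = U` then the
cluster `C` of `B` in `η` is the cluster of `B` in `η ∩ U` (an edge of `η` which touches `C` is in `tou η = U`), every edge of
`F` which touches `C` is in `U`, so for `η'` with `η' ∩ U = η ∩ U` the cluster of `B` in `η'` is `C` too (induction along a
path) and `tou η' = U`. Split the sum over `η ⊆ F` as the sum over `U ⊆ F`, `ζ ⊆ U`, `ξ ⊆ F \ U` (`η = ζ ∪ ξ`): the sum over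
`ξ` of `bw p (F \ U) ξ` is `1`, and so is that of `bw (p r) (F \ U) ξ` (`1 - p r = (1 - p) t`). So the sum is
`∑ η, bw (p r) F η = 1` (`Finset.sum_pow_mul_eq_add_pow`).
-/

set_option autoImplicit false

open scoped Classical

namespace Pool.Agent.Lib.MP_6a79cf_pr

variable {X Y : Type}

theorem bw_sum (p : ℝ) (F : Finset Y) : ∑ η ∈ F.powerset, bw p F η = 1 := by
  have h := Finset.sum_pow_mul_eq_add_pow p (1 - p) F
  rw [add_sub_cancel, one_pow] at h
  rw [← h]
  refine Finset.sum_congr rfl fun η hη => ?_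
  rw [bw, Finset.card_sdiff_of_subset (Finset.mem_powerset.1 hη)]

private theorem L1_inv (a b : Y → X) (A : Set Y) (P : X → Prop)
    (h : ∀ e ∈ A, (P (a e) ↔ P (b e))) {x y : X} (hxy : con a b A x y) : P x ↔ P y := by
  induction hxy with
  | rel x y hr =>
    obtain ⟨e, he, rfl, rfl⟩ := hr
    exact h e he
  | refl x => exact Iff.rfl
  | symm x y _ ih => exact ih.symm
  | trans x y z _ _ ih1 ih2 => exact ih1.trans ih2

private theorem L1_step (a b : Y → X) (A : Set Y) (B : Set X) {e : Y} (he : e ∈ A) :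
    cst a b A B (a e) ↔ cst a b A B (b e) := by
  have hab : con a b A (a e) (b e) := Relation.EqvGen.rel _ _ ⟨e, he, rfl, rfl⟩
  constructor
  · rintro ⟨z, hz, hc⟩
    exact ⟨z, hz, (Relation.EqvGen.symm _ _ hab).trans _ _ _ hc⟩
  · rintro ⟨z, hz, hc⟩
    exact ⟨z, hz, hab.trans _ _ _ hc⟩

private theorem L1_self (a b : Y → X) (A : Set Y) (B : Set X) {z : X} (hz : z ∈ B) :
    cst a b A B z := ⟨z, hz, Relation.EqvGen.refl _⟩

private theorem L1_tou_congr (a b : Y → X) (F : Finset Y) (B : Set X) {η η' U : Finset Y}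
    (hη : η ⊆ F) (hη' : η' ⊆ F) (hU : tou a b F B η = U) (h : η' ∩ U = η ∩ U) :
    tou a b F B η' = U := by
  have key : ∀ e ∈ F, (cst a b ↑η B (a e) ∨ cst a b ↑η B (b e)) → (e ∈ η' ↔ e ∈ η) := by
    intro e he hc
    have heU : e ∈ U := by
      rw [← hU]
      exact Finset.mem_filter.2 ⟨he, hc⟩
    constructor
    · intro h1
      have h2 : e ∈ η' ∩ U := Finset.mem_inter.2 ⟨h1, heU⟩
      rw [h] at h2
      exact (Finset.mem_inter.1 h2).1
    · intro h1
      have h2 : e ∈ η ∩ U := Finset.mem_inter.2 ⟨h1, heU⟩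
      rw [← h] at h2
      exact (Finset.mem_inter.1 h2).1
  have h1 : ∀ x, cst a b ↑η' B x → cst a b ↑η B x := by
    rintro x ⟨z, hz, hc⟩
    refine (L1_inv a b ↑η' (fun x => cst a b ↑η B x) ?_ hc).2 (L1_self a b _ B hz)
    intro e he
    have heF : e ∈ F := hη' (Finset.mem_coe.1 he)
    constructor
    · intro h3
      have h4 : e ∈ η := (key e heF (Or.inl h3)).1 (Finset.mem_coe.1 he)
      exact (L1_step a b ↑η B (Finset.mem_coe.2 h4)).1 h3
    · intro h3
      have h4 : e ∈ η := (key e heF (Or.inr h3)).1 (Finset.mem_coe.1 he)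
      exact (L1_step a b ↑η B (Finset.mem_coe.2 h4)).2 h3
  have h2 : ∀ x, cst a b ↑η B x → cst a b ↑η' B x := by
    intro x hx
    obtain ⟨z, hz, hc⟩ := id hx
    refine (L1_inv a b ↑η (fun x => (cst a b ↑η B x → cst a b ↑η' B x)) ?_ hc).2
      (fun _ => L1_self a b _ B hz) hx
    intro e he
    have heF : e ∈ F := hη (Finset.mem_coe.1 he)
    constructor
    · intro h3 h4
      have h5 := (L1_step a b ↑η B he).2 h4
      have h6 : e ∈ η' := (key e heF (Or.inl h5)).2 (Finset.mem_coe.1 he)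
      exact (L1_step a b ↑η' B (Finset.mem_coe.2 h6)).1 (h3 h5)
    · intro h3 h4
      have h5 := (L1_step a b ↑η B he).1 h4
      have h6 : e ∈ η' := (key e heF (Or.inr h5)).2 (Finset.mem_coe.1 he)
      exact (L1_step a b ↑η' B (Finset.mem_coe.2 h6)).2 (h3 h5)
  have h3 : ∀ x, cst a b ↑η' B x ↔ cst a b ↑η B x := fun x => ⟨h1 x, h2 x⟩
  rw [← hU]
  unfold tou
  refine Finset.filter_congr fun e _ => ?_
  rw [h3, h3]

private theorem L1_split (F U : Finset Y) (hU : U ⊆ F) (φ ψ : Finset Y → ℝ) :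
    ∑ η ∈ F.powerset, φ (η ∩ U) * ψ (η \ U)
      = (∑ ζ ∈ U.powerset, φ ζ) * ∑ ξ ∈ (F \ U).powerset, ψ ξ := by
  rw [Finset.sum_mul_sum, ← Finset.sum_product']
  refine Finset.sum_nbij' (fun η => (η ∩ U, η \ U)) (fun z => z.1 ∪ z.2) ?_ ?_ ?_ ?_ ?_
  · intro η hη
    have h1 := Finset.mem_powerset.1 hη
    exact Finset.mem_product.2 ⟨Finset.mem_powerset.2 Finset.inter_subset_right,
      Finset.mem_powerset.2 (Finset.sdiff_subset_sdiff h1 (Finset.Subset.refl U))⟩
  · intro z hz
    obtain ⟨h1, h2⟩ := Finset.mem_product.1 hz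
    exact Finset.mem_powerset.2 (Finset.union_subset ((Finset.mem_powerset.1 h1).trans hU)
      ((Finset.mem_powerset.1 h2).trans Finset.sdiff_subset))
  · intro η _
    ext e
    simp only [Finset.mem_union, Finset.mem_inter, Finset.mem_sdiff]
    tauto
  · rintro ⟨ζ, ξ⟩ hz
    obtain ⟨h1, h2⟩ := Finset.mem_product.1 hz
    have h3 := Finset.mem_powerset.1 h1
    have h4 := Finset.mem_powerset.1 h2
    have h5 : (ζ ∪ ξ) ∩ U = ζ := by
      ext e
      simp only [Finset.mem_union, Finset.mem_inter]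
      constructor
      · rintro ⟨h | h, hU⟩
        · exact h
        · exact absurd hU (Finset.mem_sdiff.1 (h4 h)).2
      · intro h
        exact ⟨Or.inl h, h3 h⟩
    have h6 : (ζ ∪ ξ) \ U = ξ := by
      ext e
      simp only [Finset.mem_union, Finset.mem_sdiff]
      constructor
      · rintro ⟨h | h, hU⟩
        · exact absurd (h3 h) hU
        · exact h
      · intro h
        exact ⟨Or.inr h, (Finset.mem_sdiff.1 (h4 h)).2⟩
    exact Prod.ext h5 h6
  · intro η _
    rfl

private theorem L1_bw_split (p : ℝ) (F U η : Finset Y) (hU : U ⊆ F) (hη : η ⊆ F) :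
    bw p F η = bw p U (η ∩ U) * bw p (F \ U) (η \ U) := by
  have h1 : η.card = (η ∩ U).card + (η \ U).card := by
    rw [add_comm, ← Finset.card_sdiff_add_card_inter η U]
  have h2 : (F \ η).card = (U \ (η ∩ U)).card + ((F \ U) \ (η \ U)).card := by
    rw [← Finset.card_union_of_disjoint]
    · congr 1
      ext e
      simp only [Finset.mem_union, Finset.mem_sdiff, Finset.mem_inter]
      constructor
      · rintro ⟨h1, h2⟩
        by_cases h3 : e ∈ U
        · exact Or.inl ⟨h3, fun h => h2 h.1⟩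
        · exact Or.inr ⟨⟨h1, h3⟩, fun h => h2 h.1⟩
      · rintro (⟨h1, h2⟩ | ⟨⟨h1, h2⟩, h3⟩)
        · exact ⟨hU h1, fun h => h2 ⟨h, h1⟩⟩
        · exact ⟨h1, fun h => h3 ⟨h, h2⟩⟩
    · rw [Finset.disjoint_left]
      intro e h1 h2
      exact (Finset.mem_sdiff.1 (Finset.mem_sdiff.1 h2).1).2 (Finset.mem_sdiff.1 h1).1
  rw [bw, bw, bw, h1, h2, pow_add, pow_add]
  ring

theorem wald (a b : Y → X) (F : Finset Y) (B : Set X) (p r t : ℝ)
    (h : p * r + (1 - p) * t = 1) :
    ∑ η ∈ F.powerset, bw p F η * (r ^ (tou a b F B η ∩ η).card * t ^ (tou a b F B η \ η).card) = 1 := by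
  have hq : (1 - p) * t = 1 - p * r := by linarith
  rw [← bw_sum (p * r) F]
  have hmap : ∀ η ∈ F.powerset, tou a b F B η ∈ F.powerset := fun η _ =>
    Finset.mem_powerset.2 (Finset.filter_subset _ _)
  rw [← Finset.sum_fiberwise_of_maps_to hmap (fun η => bw (p * r) F η),
    ← Finset.sum_fiberwise_of_maps_to hmap
      (fun η => bw p F η * (r ^ (tou a b F B η ∩ η).card * t ^ (tou a b F B η \ η).card))]
  refine Finset.sum_congr rfl fun U hU => ?_
  have hUF := Finset.mem_powerset.1 hU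
  rw [Finset.sum_filter, Finset.sum_filter]
  have htou : ∀ η ∈ F.powerset, (tou a b F B η = U ↔ tou a b F B (η ∩ U) = U) := by
    intro η hη
    have h1 := Finset.mem_powerset.1 hη
    have h2 : η ∩ U ⊆ F := Finset.inter_subset_left.trans h1
    have h3 : (η ∩ U) ∩ U = η ∩ U := by
      rw [Finset.inter_assoc, Finset.inter_self]
    constructor
    · intro h4
      exact L1_tou_congr a b F B h1 h2 h4 h3
    · intro h4
      exact L1_tou_congr a b F B h2 h1 h4 h3.symm
  have e1 : ∑ η ∈ F.powerset, (if tou a b F B η = U then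
        bw p F η * (r ^ (tou a b F B η ∩ η).card * t ^ (tou a b F B η \ η).card) else 0)
      = ∑ η ∈ F.powerset, (fun ζ => if tou a b F B ζ = U then bw (p * r) U ζ else 0) (η ∩ U)
          * (fun ξ => bw p (F \ U) ξ) (η \ U) := by
    refine Finset.sum_congr rfl fun η hη => ?_
    have h1 := Finset.mem_powerset.1 hη
    by_cases h4 : tou a b F B η = U
    · have h5 := (htou η hη).1 h4
      simp only [h4, h5, if_true]
      rw [L1_bw_split p F U η hUF h1]
      have h6 : U ∩ η = η ∩ U := Finset.inter_comm _ _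
      have h7 : U \ η = U \ (η ∩ U) := by
        ext e
        simp only [Finset.mem_sdiff, Finset.mem_inter]
        tauto
      rw [h6, h7]
      have h8 : bw (p * r) U (η ∩ U)
          = bw p U (η ∩ U) * (r ^ (η ∩ U).card * t ^ (U \ (η ∩ U)).card) := by
        rw [bw, bw, ← hq, mul_pow, mul_pow]
        ring
      rw [h8]
      ring
    · have h5 : ¬ tou a b F B (η ∩ U) = U := fun h => h4 ((htou η hη).2 h)
      simp only [h4, h5, if_false, zero_mul]
  have e2 : ∑ η ∈ F.powerset, (if tou a b F B η = U then bw (p * r) F η else 0)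
      = ∑ η ∈ F.powerset, (fun ζ => if tou a b F B ζ = U then bw (p * r) U ζ else 0) (η ∩ U)
          * (fun ξ => bw (p * r) (F \ U) ξ) (η \ U) := by
    refine Finset.sum_congr rfl fun η hη => ?_
    have h1 := Finset.mem_powerset.1 hη
    by_cases h4 : tou a b F B η = U
    · have h5 := (htou η hη).1 h4
      simp only [h4, h5, if_true]
      rw [L1_bw_split (p * r) F U η hUF h1]
    · have h5 : ¬ tou a b F B (η ∩ U) = U := fun h => h4 ((htou η hη).2 h)
      simp only [h4, h5, if_false, zero_mul]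
  have s1 := L1_split F U hUF (fun ζ => if tou a b F B ζ = U then bw (p * r) U ζ else 0)
    (fun ξ => bw p (F \ U) ξ)
  have s2 := L1_split F U hUF (fun ζ => if tou a b F B ζ = U then bw (p * r) U ζ else 0)
    (fun ξ => bw (p * r) (F \ U) ξ)
  rw [bw_sum] at s1 s2
  exact e1.trans (s1.trans (s2.symm.trans e2.symm))

end Pool.Agent.Lib.MP_6a79cf_pr
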