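import Pool.Agent.Lib.MP_6a79cf_pr.L1

/-!
LEAF L2 (Chernoff). `dev = o - p n`, `o` = open touched edges, `n` = touched edges. For `|l| ≤ 1`:
`M = p e^(l(1-p)) + (1-p) e^(-lp) ≤ e^(l^2)`, `wald` with `r = e^(l(1-p))/M`, `t = e^(-lp)/M`, and Markov with `l = ± u/(2|F|)`.
-/

set_option autoImplicit false

open scoped Classical

namespace Pool.Agent.Lib.MP_6a79cf_pr

variable {X Y : Type}

/-- open touched edges minus `p` times touched edges -/
noncomputable def dev (a b : Y → X) (p : ℝ) (F : Finset Y) (B : Set X) (η : Finset Y) : ℝ :=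
  ((tou a b F B η ∩ η).card : ℝ) - p * (tou a b F B η).card

private lemma L2_exp {x : ℝ} (hx : |x| ≤ 1) : Real.exp x ≤ 1 + x + x ^ 2 := by
  have h := Real.abs_exp_sub_one_sub_id_le hx
  have h1 := (abs_le.1 h).2
  linarith

private lemma L2_bw (p : ℝ) (hp0 : 0 < p) (hp1 : p < 1) (F η : Finset Y) : 0 ≤ bw p F η :=
  mul_nonneg (pow_nonneg hp0.le _) (pow_nonneg (by linarith) _)

private lemma L2_mgf (a b : Y → X) (F : Finset Y) (B : Set X) (p : ℝ) (hp0 : 0 < p) (hp1 : p < 1)
    (l : ℝ) (hl : |l| ≤ 1) :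
    ∑ η ∈ F.powerset, bw p F η * Real.exp (l * dev a b p F B η) ≤ Real.exp (l ^ 2 * F.card) := by
  have hq : 0 < 1 - p := by linarith
  set E1 : ℝ := Real.exp (l * (1 - p)) with hE1
  set E2 : ℝ := Real.exp (-(l * p)) with hE2
  set M : ℝ := p * E1 + (1 - p) * E2 with hM
  have hE1p : 0 < E1 := Real.exp_pos _
  have hE2p : 0 < E2 := Real.exp_pos _
  have hM1 : 1 ≤ M := by
    have h1 : l * (1 - p) + 1 ≤ E1 := Real.add_one_le_exp _
    have h2 : -(l * p) + 1 ≤ E2 := Real.add_one_le_exp _
    have h3 := mul_le_mul_of_nonneg_left h1 hp0.le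
    have h4 := mul_le_mul_of_nonneg_left h2 hq.le
    have h5 : p * (l * (1 - p) + 1) + (1 - p) * (-(l * p) + 1) = 1 := by ring
    linarith
  have hM0 : 0 < M := by linarith
  have hM2 : M ≤ Real.exp (l ^ 2) := by
    have a1 : |l * (1 - p)| ≤ 1 := by
      rw [abs_mul, abs_of_pos hq]
      have := mul_le_mul hl (by linarith : 1 - p ≤ 1) hq.le zero_le_one
      linarith
    have a2 : |-(l * p)| ≤ 1 := by
      rw [abs_neg, abs_mul, abs_of_pos hp0]
      have := mul_le_mul hl hp1.le hp0.le zero_le_one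
      linarith
    have h1 := mul_le_mul_of_nonneg_left (L2_exp a1) hp0.le
    have h2 := mul_le_mul_of_nonneg_left (L2_exp a2) hq.le
    have h5 : p * (1 + l * (1 - p) + (l * (1 - p)) ^ 2) +
        (1 - p) * (1 + -(l * p) + (-(l * p)) ^ 2) = 1 + l ^ 2 * (p * (1 - p)) := by ring
    have h6 : p * (1 - p) ≤ 1 := by nlinarith
    have h7 : l ^ 2 * (p * (1 - p)) ≤ l ^ 2 * 1 := mul_le_mul_of_nonneg_left h6 (sq_nonneg l)
    have h8 := Real.add_one_le_exp (l ^ 2)
    linarith
  have hw := wald a b F B p (E1 / M) (E2 / M) (by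
    have : p * (E1 / M) + (1 - p) * (E2 / M) = M / M := by
      rw [hM]
      ring
    rw [this, div_self hM0.ne'])
  have hterm : ∀ η ∈ F.powerset, bw p F η * Real.exp (l * dev a b p F B η) ≤
      M ^ F.card * (bw p F η * ((E1 / M) ^ (tou a b F B η ∩ η).card *
        (E2 / M) ^ (tou a b F B η \ η).card)) := by
    intro η _
    set o := (tou a b F B η ∩ η).card with ho
    set c := (tou a b F B η \ η).card with hc
    have hn : (tou a b F B η).card = o + c := by
      rw [ho, hc]
      exact (Finset.card_inter_add_card_sdiff _ _).symm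
    have hsub : o + c ≤ F.card := by
      rw [← hn]
      exact Finset.card_le_card (Finset.filter_subset _ _)
    have hdev : l * dev a b p F B η = (o : ℝ) * (l * (1 - p)) + (c : ℝ) * (-(l * p)) := by
      have : dev a b p F B η = (o : ℝ) - p * ((o + c : ℕ) : ℝ) := by
        rw [← hn]
        rfl
      rw [this, Nat.cast_add]
      ring
    have hexp : Real.exp (l * dev a b p F B η) = E1 ^ o * E2 ^ c := by
      rw [hdev, Real.exp_add, Real.exp_nat_mul, Real.exp_nat_mul]
    have hM3 : M ^ (o + c) ≤ M ^ F.card := pow_le_pow_right₀ hM1 hsub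
    have h1 : E1 ^ o * E2 ^ c = M ^ (o + c) * ((E1 / M) ^ o * (E2 / M) ^ c) := by
      rw [div_pow, div_pow, pow_add]
      field_simp
    rw [hexp, h1]
    have h2 : 0 ≤ (E1 / M) ^ o * (E2 / M) ^ c :=
      mul_nonneg (pow_nonneg (div_pos hE1p hM0).le _) (pow_nonneg (div_pos hE2p hM0).le _)
    have h3 := mul_le_mul_of_nonneg_left (mul_le_mul_of_nonneg_right hM3 h2)
      (L2_bw p hp0 hp1 F η)
    calc bw p F η * (M ^ (o + c) * ((E1 / M) ^ o * (E2 / M) ^ c))
        ≤ bw p F η * (M ^ F.card * ((E1 / M) ^ o * (E2 / M) ^ c)) := h3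
      _ = M ^ F.card * (bw p F η * ((E1 / M) ^ o * (E2 / M) ^ c)) := by ring
  refine (Finset.sum_le_sum hterm).trans ?_
  rw [← Finset.mul_sum, hw, mul_one]
  refine (pow_le_pow_left₀ hM0.le hM2 _).trans (le_of_eq ?_)
  rw [← Real.exp_nat_mul]
  congr 1
  ring

theorem chernoff (a b : Y → X) (F : Finset Y) (B : Set X) (p : ℝ) (hp0 : 0 < p) (hp1 : p < 1)
    (u : ℝ) (hu : 0 ≤ u) (hu2 : u ≤ 2 * F.card) :
    ∑ η ∈ F.powerset, (if u ≤ |dev a b p F B η| then bw p F η else 0) ≤
      2 * Real.exp (-(u ^ 2 / (4 * F.card))) := by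
  rcases Nat.eq_zero_or_pos F.card with h0 | h0
  · have h1 : ∑ η ∈ F.powerset, (if u ≤ |dev a b p F B η| then bw p F η else 0) ≤
        ∑ η ∈ F.powerset, bw p F η := by
      refine Finset.sum_le_sum fun η _ => ?_
      split_ifs
      · exact le_rfl
      · exact L2_bw p hp0 hp1 F η
    rw [bw_sum] at h1
    rw [h0, Nat.cast_zero, mul_zero, div_zero, neg_zero, Real.exp_zero]
    linarith
  · have hF : (0 : ℝ) < F.card := by exact_mod_cast h0
    set l : ℝ := u / (2 * F.card) with hl
    have hl0 : 0 ≤ l := div_nonneg hu (by positivity)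
    have hl1 : l ≤ 1 := by
      rw [hl, div_le_one (by positivity)]
      exact hu2
    have habs : |l| ≤ 1 := by rw [abs_of_nonneg hl0]; exact hl1
    have habs' : |(-l)| ≤ 1 := by rw [abs_neg]; exact habs
    have hterm : ∀ η ∈ F.powerset, (if u ≤ |dev a b p F B η| then bw p F η else 0) ≤
        Real.exp (-(l * u)) * (bw p F η * Real.exp (l * dev a b p F B η)) +
        Real.exp (-(l * u)) * (bw p F η * Real.exp (-l * dev a b p F B η)) := by
      intro η _
      have hb := L2_bw p hp0 hp1 F η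
      have e1 : Real.exp (-(l * u)) * (bw p F η * Real.exp (l * dev a b p F B η)) =
          bw p F η * Real.exp (l * (dev a b p F B η - u)) := by
        have : l * (dev a b p F B η - u) = -(l * u) + l * dev a b p F B η := by ring
        rw [this, Real.exp_add]
        ring
      have e2 : Real.exp (-(l * u)) * (bw p F η * Real.exp (-l * dev a b p F B η)) =
          bw p F η * Real.exp (l * (-dev a b p F B η - u)) := by
        have : l * (-dev a b p F B η - u) = -(l * u) + -l * dev a b p F B η := by ring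
        rw [this, Real.exp_add]
        ring
      rw [e1, e2]
      have p1 : 0 ≤ bw p F η * Real.exp (l * (dev a b p F B η - u)) :=
        mul_nonneg hb (Real.exp_pos _).le
      have p2 : 0 ≤ bw p F η * Real.exp (l * (-dev a b p F B η - u)) :=
        mul_nonneg hb (Real.exp_pos _).le
      split_ifs with h
      · rcases le_abs.1 h with h' | h'
        · have h1 : 1 ≤ Real.exp (l * (dev a b p F B η - u)) :=
            Real.one_le_exp (mul_nonneg hl0 (by linarith))
          have h2 := mul_le_mul_of_nonneg_left h1 hb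
          linarith
        · have h1 : 1 ≤ Real.exp (l * (-dev a b p F B η - u)) :=
            Real.one_le_exp (mul_nonneg hl0 (by linarith))
          have h2 := mul_le_mul_of_nonneg_left h1 hb
          linarith
      · linarith
    refine (Finset.sum_le_sum hterm).trans ?_
    rw [Finset.sum_add_distrib, ← Finset.mul_sum, ← Finset.mul_sum]
    have m1 := L2_mgf a b F B p hp0 hp1 l habs
    have m2 := L2_mgf a b F B p hp0 hp1 (-l) habs'
    rw [neg_sq] at m2
    have hE : 0 ≤ Real.exp (-(l * u)) := (Real.exp_pos _).le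
    have m1' := mul_le_mul_of_nonneg_left m1 hE
    have m2' := mul_le_mul_of_nonneg_left m2 hE
    have hfin : Real.exp (-(l * u)) * Real.exp (l ^ 2 * F.card) =
        Real.exp (-(u ^ 2 / (4 * F.card))) := by
      rw [← Real.exp_add]
      congr 1
      rw [hl]
      field_simp
      ring
    rw [hfin] at m1' m2'
    linarith

end Pool.Agent.Lib.MP_6a79cf_pr
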