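import Pool.Agent.Lib.MP_6a79cf_pr.L2

/-!
LEAF L3 (identity). `B` and `C` not joined in `η`: no vertex is joined to both. `tou (B ∪ C) = tou B ∪ tou C`,
`tou B ∩ tou C = btw B C`: an edge with an end `x` joined to `B` and an end `y` joined to `C`; `x ≠ y`; it is not in `η`
(otherwise its ends are joined). So `n(B ∪ C) = n(B) + n(C) - |btw|`, `o(B ∪ C) = o(B) + o(C)`.
-/

set_option autoImplicit false

open scoped Classical

namespace Pool.Agent.Lib.MP_6a79cf_pr

variable {X Y : Type}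

private theorem L3_not (a b : Y → X) (B C : Set X) (η : Finset Y)
    (h : ∀ x ∈ B, ∀ y ∈ C, ¬ con a b (↑η : Set Y) x y) (x : X)
    (hB : cst a b (↑η : Set Y) B x) (hC : cst a b (↑η : Set Y) C x) : False := by
  obtain ⟨z, hz, h1⟩ := hB
  obtain ⟨w, hw, h2⟩ := hC
  exact h z hz w hw (Relation.EqvGen.trans _ _ _ (Relation.EqvGen.symm _ _ h1) h2)

private theorem L3_step (a b : Y → X) (B : Set X) (η : Finset Y) (e : Y) (he : e ∈ η) :
    cst a b (↑η : Set Y) B (a e) ↔ cst a b (↑η : Set Y) B (b e) := by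
  have h1 : con a b (↑η : Set Y) (a e) (b e) :=
    Relation.EqvGen.rel _ _ ⟨e, Finset.mem_coe.2 he, rfl, rfl⟩
  constructor
  · rintro ⟨z, hz, h2⟩
    exact ⟨z, hz, Relation.EqvGen.trans _ _ _ (Relation.EqvGen.symm _ _ h1) h2⟩
  · rintro ⟨z, hz, h2⟩
    exact ⟨z, hz, Relation.EqvGen.trans _ _ _ h1 h2⟩

private theorem L3_union (a b : Y → X) (F : Finset Y) (B C : Set X) (η : Finset Y) :
    tou a b F (B ∪ C) η = tou a b F B η ∪ tou a b F C η := by
  have h1 : ∀ x, cst a b (↑η : Set Y) (B ∪ C) x ↔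
      cst a b (↑η : Set Y) B x ∨ cst a b (↑η : Set Y) C x := by
    intro x
    constructor
    · rintro ⟨z, hz | hz, h2⟩
      · exact Or.inl ⟨z, hz, h2⟩
      · exact Or.inr ⟨z, hz, h2⟩
    · rintro (⟨z, hz, h2⟩ | ⟨z, hz, h2⟩)
      · exact ⟨z, Or.inl hz, h2⟩
      · exact ⟨z, Or.inr hz, h2⟩
  ext e
  simp only [tou, Finset.mem_union, Finset.mem_filter, h1]
  tauto

private theorem L3_inter (a b : Y → X) (F : Finset Y) (B C : Set X) (η : Finset Y)
    (h : ∀ x ∈ B, ∀ y ∈ C, ¬ con a b (↑η : Set Y) x y) :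
    tou a b F B η ∩ tou a b F C η = btw a b F B C η := by
  ext e
  have h1 := L3_not a b B C η h (a e)
  have h2 := L3_not a b B C η h (b e)
  simp only [tou, btw, Finset.mem_inter, Finset.mem_filter]
  tauto

private theorem L3_empty (a b : Y → X) (F : Finset Y) (B C : Set X) (η : Finset Y)
    (h : ∀ x ∈ B, ∀ y ∈ C, ¬ con a b (↑η : Set Y) x y) :
    (tou a b F B η ∩ η) ∩ (tou a b F C η ∩ η) = ∅ := by
  have h0 : (tou a b F B η ∩ η) ∩ (tou a b F C η ∩ η) = (tou a b F B η ∩ tou a b F C η) ∩ η := by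
    ext e
    simp only [Finset.mem_inter]
    tauto
  rw [h0, L3_inter a b F B C η h, Finset.eq_empty_iff_forall_notMem]
  intro e he
  rw [Finset.mem_inter, btw, Finset.mem_filter] at he
  obtain ⟨⟨_, h3⟩, heη⟩ := he
  have h1 := L3_not a b B C η h (a e)
  have h4 := L3_step a b B η e heη
  have h5 := L3_step a b C η e heη
  tauto

theorem btw_dev (a b : Y → X) (F : Finset Y) (B C : Set X) (p : ℝ) (η : Finset Y) (hη : η ⊆ F)
    (h : ∀ x ∈ B, ∀ y ∈ C, ¬ con a b (↑η : Set Y) x y) :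
    p * (btw a b F B C η).card = dev a b p F (B ∪ C) η - dev a b p F B η - dev a b p F C η := by
  have h1 := Finset.card_union_add_card_inter (tou a b F B η) (tou a b F C η)
  rw [L3_inter a b F B C η h, ← L3_union] at h1
  have h2 := Finset.card_union_add_card_inter (tou a b F B η ∩ η) (tou a b F C η ∩ η)
  rw [L3_empty a b F B C η h, Finset.card_empty, add_zero, ← Finset.union_inter_distrib_right,
    ← L3_union] at h2
  have h3 : ((tou a b F (B ∪ C) η).card : ℝ) + (btw a b F B C η).card =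
      (tou a b F B η).card + (tou a b F C η).card := by exact_mod_cast h1
  have h4 : ((tou a b F (B ∪ C) η ∩ η).card : ℝ) =
      (tou a b F B η ∩ η).card + (tou a b F C η ∩ η).card := by exact_mod_cast h2
  unfold dev
  linear_combination p * h3 - h4

end Pool.Agent.Lib.MP_6a79cf_pr
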