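import Pool.Agent.Lib.MP_6a79cf_pr.Defs

/-!
LEAF L4 (a cut). Average over the `2^m` labellings `l : Q → Bool` of the quotient `Q` of the subtype `B` by `con`: an edge of
`dif` joins vertices joined to `z, w ∈ B` of different classes, so for half of the labellings `l [z] ≠ l [w]`. So some
labelling cuts at least half of the edges of `dif`. `B₁` = the elements of `B` with label `true`. (`Finset.exists_le_of_sum_le`.)
-/

set_option autoImplicit false

open scoped Classical

namespace Pool.Agent.Lib.MP_6a79cf_pr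

variable {X Y : Type}

/-- `T` separates `q` and `q'` -/
private def L4_sep {Q : Type} (q q' : Q) (T : Finset Q) : Prop := ¬ (q ∈ T ↔ q' ∈ T)

/-- exactly half of the subsets of `P` separate two elements of `P` -/
private theorem L4_half {Q : Type} (P : Finset Q) {q q' : Q} (hq : q ∈ P) (hne : q ≠ q') :
    P.powerset.card ≤ 2 * (P.powerset.filter fun T => L4_sep q q' T).card := by
  have h1 : (P.powerset.filter fun T => ¬ L4_sep q q' T).card ≤
      (P.powerset.filter fun T => L4_sep q q' T).card := by
    refine Finset.card_le_card_of_injOn (fun T => symmDiff T {q}) ?_ ?_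
    · intro T hT
      have hT' := Finset.mem_filter.1 (Finset.mem_coe.1 hT)
      have hTP : T ⊆ P := Finset.mem_powerset.1 hT'.1
      have hiff : q ∈ T ↔ q' ∈ T := not_not.1 hT'.2
      refine Finset.mem_coe.2 (Finset.mem_filter.2 ⟨Finset.mem_powerset.2 ?_, ?_⟩)
      · intro x hx
        rcases Finset.mem_symmDiff.1 hx with ⟨h, _⟩ | ⟨h, _⟩
        · exact hTP h
        · rw [Finset.mem_singleton.1 h]
          exact hq
      · have e1 : q ∈ symmDiff T {q} ↔ q ∉ T := by
          rw [Finset.mem_symmDiff, Finset.mem_singleton]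
          constructor
          · rintro (⟨_, h⟩ | ⟨_, h⟩)
            · exact absurd rfl h
            · exact h
          · intro h
            exact Or.inr ⟨rfl, h⟩
        have e2 : q' ∈ symmDiff T {q} ↔ q' ∈ T := by
          rw [Finset.mem_symmDiff, Finset.mem_singleton]
          constructor
          · rintro (⟨h, _⟩ | ⟨h, _⟩)
            · exact h
            · exact absurd h.symm hne
          · intro h
            exact Or.inl ⟨h, fun h' => hne h'.symm⟩
        show ¬ (q ∈ symmDiff T {q} ↔ q' ∈ symmDiff T {q})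
        rw [e1, e2, ← hiff]
        exact fun h => (iff_not_self h.symm).elim
    · intro T _ T' _ h
      have h2 : symmDiff (symmDiff T {q}) {q} = symmDiff (symmDiff T' {q}) {q} := by
        show symmDiff ((fun T => symmDiff T {q}) T) {q} = symmDiff ((fun T => symmDiff T {q}) T') {q}
        rw [h]
      rwa [symmDiff_symmDiff_cancel_right, symmDiff_symmDiff_cancel_right] at h2
  have h2 := Finset.card_filter_add_card_filter_not (s := P.powerset) (fun T => L4_sep q q' T)
  omega

theorem exists_cut (a b : Y → X) (F : Finset Y) (B : Finset X) (η : Finset Y) :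
    ∃ B₁ ⊆ B, (∀ x ∈ B₁, ∀ y ∈ B \ B₁, ¬ con a b (↑η : Set Y) x y) ∧
      (dif a b F ↑B η).card ≤ 2 * (btw a b F ↑B₁ ↑(B \ B₁) η).card := by
  let s : Setoid X := ⟨con a b (↑η : Set Y), Relation.EqvGen.is_equivalence _⟩
  let cls : X → Quotient s := fun x => Quotient.mk s x
  have hcls : ∀ x y, cls x = cls y ↔ con a b (↑η : Set Y) x y := fun x y => Quotient.eq (r := s)
  let P : Finset (Quotient s) := B.image cls
  let B1 : Finset (Quotient s) → Finset X := fun T => B.filter fun x => cls x ∈ T
  have hB2 : ∀ T x, x ∈ B \ B1 T ↔ x ∈ B ∧ cls x ∉ T := by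
    intro T x
    rw [Finset.mem_sdiff, Finset.mem_filter]
    tauto
  have hsum : ∑ _T ∈ P.powerset, (dif a b F ↑B η).card ≤
      ∑ T ∈ P.powerset, 2 * (btw a b F ↑(B1 T) ↑(B \ B1 T) η).card := by
    have h1 : ∀ e ∈ dif a b F ↑B η, P.powerset.card ≤
        2 * (P.powerset.filter fun T => L4_sep (cls (a e)) (cls (b e)) T).card := by
      intro e he
      obtain ⟨_, _, ⟨z, hz, hza⟩, _, hn⟩ := Finset.mem_filter.1 he
      have hq : cls (a e) ∈ P := by
        rw [(hcls _ _).2 hza]
        exact Finset.mem_image_of_mem _ hz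
      exact L4_half P hq (fun h => hn ((hcls _ _).1 h))
    have h2 : ∀ T ∈ P.powerset, ((dif a b F ↑B η).filter fun e => L4_sep (cls (a e)) (cls (b e)) T).card ≤
        (btw a b F ↑(B1 T) ↑(B \ B1 T) η).card := by
      intro T _
      refine Finset.card_le_card ?_
      intro e he
      obtain ⟨hed, hsep⟩ := Finset.mem_filter.1 he
      obtain ⟨heF, _, ⟨z, hz, hza⟩, ⟨w, hw, hwb⟩, _⟩ := Finset.mem_filter.1 hed
      have hz' := (hcls _ _).2 hza
      have hw' := (hcls _ _).2 hwb
      refine Finset.mem_filter.2 ⟨heF, ?_⟩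
      by_cases ha : cls (a e) ∈ T
      · have hb : cls (b e) ∉ T := fun h => hsep ⟨fun _ => h, fun _ => ha⟩
        left
        refine ⟨⟨z, ?_, hza⟩, ⟨w, ?_, hwb⟩⟩
        · refine Finset.mem_coe.2 (Finset.mem_filter.2 ⟨hz, ?_⟩)
          rw [← hz']
          exact ha
        · refine Finset.mem_coe.2 ((hB2 T w).2 ⟨hw, ?_⟩)
          rw [← hw']
          exact hb
      · have hb : cls (b e) ∈ T := by
          by_contra hb
          exact hsep ⟨fun h => absurd h ha, fun h => absurd h hb⟩
        right
        refine ⟨⟨z, ?_, hza⟩, ⟨w, ?_, hwb⟩⟩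
        · refine Finset.mem_coe.2 ((hB2 T z).2 ⟨hz, ?_⟩)
          rw [← hz']
          exact ha
        · refine Finset.mem_coe.2 (Finset.mem_filter.2 ⟨hw, ?_⟩)
          rw [← hw']
          exact hb
    calc ∑ _T ∈ P.powerset, (dif a b F ↑B η).card = ∑ _e ∈ dif a b F ↑B η, P.powerset.card := by
          rw [Finset.sum_const, Finset.sum_const, smul_eq_mul, smul_eq_mul, mul_comm]
      _ ≤ ∑ e ∈ dif a b F ↑B η, 2 * (P.powerset.filter fun T => L4_sep (cls (a e)) (cls (b e)) T).card :=
          Finset.sum_le_sum h1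
      _ = ∑ T ∈ P.powerset, 2 * ((dif a b F ↑B η).filter fun e => L4_sep (cls (a e)) (cls (b e)) T).card := by
          rw [← Finset.mul_sum, ← Finset.mul_sum]
          congr 1
          simp only [Finset.card_filter]
          exact Finset.sum_comm
      _ ≤ _ := Finset.sum_le_sum fun T hT => Nat.mul_le_mul_left 2 (h2 T hT)
  obtain ⟨T, _, hT⟩ := Finset.exists_le_of_sum_le (Finset.powerset_nonempty P) hsum
  refine ⟨B1 T, Finset.filter_subset _ _, ?_, hT⟩
  intro x hx y hy hc
  have h1 := (Finset.mem_filter.1 hx).2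
  have h2 := ((hB2 T y).1 hy).2
  rw [(hcls _ _).2 hc] at h1
  exact h2 h1

end Pool.Agent.Lib.MP_6a79cf_pr
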