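import Pool.Agent.Lib.MP_6a79cf_pr.L3
import Pool.Agent.Lib.MP_6a79cf_pr.L4

/-!
LEAF L5 (few contacts of different boundary clusters). If `|F| < u` the sum is empty. Otherwise: if `u ≤ |dif|` then by
`exists_cut` and `btw_dev` for some `B₁ ⊆ B`: `p u / 2 ≤ p |btw| = dev (B) - dev (B₁) - dev (B \ B₁)`, so one of the three has
absolute value at least `p u / 6`. Union bound over `B₁` (`2^|B|`) and `chernoff` three times.
-/

set_option autoImplicit false

open scoped Classical

namespace Pool.Agent.Lib.MP_6a79cf_pr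

variable {X Y : Type}

theorem few_dif (a b : Y → X) (F : Finset Y) (B : Finset X) (p : ℝ) (hp0 : 0 < p) (hp1 : p < 1)
    (u : ℝ) (hu : 0 ≤ u) :
    ∑ η ∈ F.powerset, (if u ≤ ((dif a b F ↑B η).card : ℝ) then bw p F η else 0) ≤
      2 ^ B.card * (6 * Real.exp (-(p ^ 2 * u ^ 2 / (144 * F.card)))) := by
  have h1p : 0 ≤ 1 - p := by linarith
  have hbw : ∀ η : Finset Y, 0 ≤ bw p F η := by
    intro η
    unfold bw
    positivity
  by_cases hN : (F.card : ℝ) < u
  · rw [Finset.sum_eq_zero]
    · positivity
    · intro η _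
      have h1 : ((dif a b F ↑B η).card : ℝ) ≤ F.card := by
        exact_mod_cast Finset.card_le_card (Finset.filter_subset _ _)
      rw [if_neg]
      linarith
  · push Not at hN
    have hw0 : 0 ≤ p * u / 6 := by positivity
    have hw2 : p * u / 6 ≤ 2 * F.card := by nlinarith
    have hexp : -((p * u / 6) ^ 2 / (4 * (F.card : ℝ))) = -(p ^ 2 * u ^ 2 / (144 * F.card)) := by
      rw [neg_inj, div_pow, mul_pow, div_div]
      congr 1
      ring
    have hch : ∀ C : Set X, ∑ η ∈ F.powerset, (if p * u / 6 ≤ |dev a b p F C η| then bw p F η else 0)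
        ≤ 2 * Real.exp (-(p ^ 2 * u ^ 2 / (144 * F.card))) := by
      intro C
      have := chernoff a b F C p hp0 hp1 (p * u / 6) hw0 hw2
      rwa [hexp] at this
    have hterm : ∀ (C : Set X) (η : Finset Y),
        0 ≤ (if p * u / 6 ≤ |dev a b p F C η| then bw p F η else 0) := by
      intro C η
      split_ifs
      · exact hbw η
      · exact le_refl _
    have key : ∀ η ∈ F.powerset, (if u ≤ ((dif a b F ↑B η).card : ℝ) then bw p F η else 0) ≤
        ∑ B₁ ∈ B.powerset, ((if p * u / 6 ≤ |dev a b p F ↑B η| then bw p F η else 0) +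
          (if p * u / 6 ≤ |dev a b p F ↑B₁ η| then bw p F η else 0) +
          (if p * u / 6 ≤ |dev a b p F ↑(B \ B₁) η| then bw p F η else 0)) := by
      intro η hη
      have hη' : η ⊆ F := Finset.mem_powerset.1 hη
      have hnn : ∀ B₁ ∈ B.powerset, 0 ≤
          ((if p * u / 6 ≤ |dev a b p F ↑B η| then bw p F η else 0) +
          (if p * u / 6 ≤ |dev a b p F ↑B₁ η| then bw p F η else 0) +
          (if p * u / 6 ≤ |dev a b p F ↑(B \ B₁) η| then bw p F η else 0)) := by
        intro B₁ _
        have h1 := hterm ↑B η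
        have h2 := hterm ↑B₁ η
        have h3 := hterm ↑(B \ B₁) η
        linarith
      by_cases hd : u ≤ ((dif a b F ↑B η).card : ℝ)
      · rw [if_pos hd]
        obtain ⟨B₁, hB₁, hcut, hcard⟩ := exists_cut a b F B η
        refine le_trans ?_ (Finset.single_le_sum hnn (Finset.mem_powerset.2 hB₁))
        have hid := btw_dev a b F (↑B₁ : Set X) (↑(B \ B₁) : Set X) p η hη' (by
          intro x hx y hy
          exact hcut x (by exact_mod_cast hx) y (by exact_mod_cast hy))
        have hun : ((↑B₁ : Set X) ∪ (↑(B \ B₁) : Set X)) = (↑B : Set X) := by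
          rw [← Finset.coe_union, Finset.union_sdiff_of_subset hB₁]
        rw [hun] at hid
        have hcard' : ((dif a b F ↑B η).card : ℝ) ≤ 2 * ((btw a b F ↑B₁ ↑(B \ B₁) η).card : ℝ) := by
          exact_mod_cast hcard
        have hbig : p * u / 2 ≤ dev a b p F ↑B η - dev a b p F ↑B₁ η - dev a b p F ↑(B \ B₁) η := by
          rw [← hid]
          nlinarith
        have h1 := hterm ↑B η
        have h2 := hterm ↑B₁ η
        have h3 := hterm ↑(B \ B₁) η
        by_cases c1 : p * u / 6 ≤ |dev a b p F ↑B η|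
        · rw [if_pos c1]
          linarith
        · by_cases c2 : p * u / 6 ≤ |dev a b p F ↑B₁ η|
          · rw [if_pos c2]
            linarith
          · by_cases c3 : p * u / 6 ≤ |dev a b p F ↑(B \ B₁) η|
            · rw [if_pos c3]
              linarith
            · exfalso
              push Not at c1 c2 c3
              have e1 := (abs_lt.1 c1).2
              have e2 := (abs_lt.1 c2).1
              have e3 := (abs_lt.1 c3).1
              linarith
      · rw [if_neg hd]
        exact Finset.sum_nonneg hnn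
    calc ∑ η ∈ F.powerset, (if u ≤ ((dif a b F ↑B η).card : ℝ) then bw p F η else 0)
        ≤ ∑ η ∈ F.powerset, ∑ B₁ ∈ B.powerset,
          ((if p * u / 6 ≤ |dev a b p F ↑B η| then bw p F η else 0) +
          (if p * u / 6 ≤ |dev a b p F ↑B₁ η| then bw p F η else 0) +
          (if p * u / 6 ≤ |dev a b p F ↑(B \ B₁) η| then bw p F η else 0)) :=
          Finset.sum_le_sum key
      _ = ∑ B₁ ∈ B.powerset, (∑ η ∈ F.powerset, (if p * u / 6 ≤ |dev a b p F ↑B η| then bw p F η else 0) +
          ∑ η ∈ F.powerset, (if p * u / 6 ≤ |dev a b p F ↑B₁ η| then bw p F η else 0) +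
          ∑ η ∈ F.powerset, (if p * u / 6 ≤ |dev a b p F ↑(B \ B₁) η| then bw p F η else 0)) := by
          rw [Finset.sum_comm]
          refine Finset.sum_congr rfl (fun B₁ _ => ?_)
          rw [Finset.sum_add_distrib, Finset.sum_add_distrib]
      _ ≤ ∑ B₁ ∈ B.powerset, 6 * Real.exp (-(p ^ 2 * u ^ 2 / (144 * F.card))) := by
          refine Finset.sum_le_sum (fun B₁ _ => ?_)
          have h1 := hch ↑B
          have h2 := hch ↑B₁
          have h3 := hch ↑(B \ B₁)
          linarith
      _ = 2 ^ B.card * (6 * Real.exp (-(p ^ 2 * u ^ 2 / (144 * F.card)))) := by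
          rw [Finset.sum_const, Finset.card_powerset, nsmul_eq_mul]
          push_cast
          ring

end Pool.Agent.Lib.MP_6a79cf_pr
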