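import Pool.Agent.Lib.MP_6a79cf_pr.Defs2

/-!
LEAF M0 (measurability). `con A x y` holds iff `con η x y` for some finite `η ⊆ A` (induction on `EqvGen`; union of the finite
sets), and there are countably many finite sets of edges: `{ω | con (opn ω \ F) x y} = ⋃ η with con η x y, {ω | ∀ e ∈ η, ω e = true ∧ e ∉ F}`.
`toinf`, `Ec`: countable intersections and unions. `out`, `ope`: `ope F` takes finitely many values; `{ω | ope F ω = η}` is
measurable. `KK`: finite sums; `x ↦ x.1 y` measurable, `comp η (ext D x.1 s)` is a finite conjunction of equalities of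
coordinates; `WW .. x.1 ..` depends on finitely many coordinates, so it is measurable (a finite sum of indicator functions; or
`Measurable.ite`). `patch`: each coordinate is a coordinate or a constant (`measurable_pi_iff`).
-/

set_option autoImplicit false

open scoped Classical ENNReal
open MeasureTheory

namespace Pool.Agent.Lib.MP_6a79cf_pr

variable {d : ℕ} {S : Type} [MeasurableSpace S]

private theorem M0_mono {X Y : Type} {a b : Y → X} {A B : Set Y} (h : A ⊆ B) {x y : X}
    (hc : con a b A x y) : con a b B x y := by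
  induction hc with
  | rel u v huv =>
    obtain ⟨e, he, h1, h2⟩ := huv
    exact Relation.EqvGen.rel _ _ ⟨e, h he, h1, h2⟩
  | refl u => exact Relation.EqvGen.refl _
  | symm u v _ ih => exact Relation.EqvGen.symm _ _ ih
  | trans u v w _ _ ih1 ih2 => exact Relation.EqvGen.trans _ _ _ ih1 ih2

theorem con_fin {X Y : Type} {a b : Y → X} {A : Set Y} {x y : X} :
    con a b A x y ↔ ∃ η : Finset Y, (↑η : Set Y) ⊆ A ∧ con a b (↑η : Set Y) x y := by
  constructor
  · intro h
    induction h with
    | rel u v huv =>
      obtain ⟨e, he, h1, h2⟩ := huv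
      refine ⟨{e}, by simpa using he, Relation.EqvGen.rel _ _ ⟨e, by simp, h1, h2⟩⟩
    | refl u => exact ⟨∅, by simp, Relation.EqvGen.refl _⟩
    | symm u v _ ih =>
      obtain ⟨η, h1, h2⟩ := ih
      exact ⟨η, h1, Relation.EqvGen.symm _ _ h2⟩
    | trans u v w _ _ ih1 ih2 =>
      obtain ⟨η, h1, h2⟩ := ih1
      obtain ⟨ξ, h3, h4⟩ := ih2
      refine ⟨η ∪ ξ, ?_, Relation.EqvGen.trans _ _ _ (M0_mono ?_ h2) (M0_mono ?_ h4)⟩
      · rw [Finset.coe_union]
        exact Set.union_subset h1 h3
      · rw [Finset.coe_union]
        exact Set.subset_union_left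
      · rw [Finset.coe_union]
        exact Set.subset_union_right
  · rintro ⟨η, h1, h2⟩
    exact M0_mono h1 h2

private theorem M0_coord (e : Ed d) (b : Bool) : MeasurableSet {ω : Ed d → Bool | ω e = b} :=
  (show Measurable fun ω : Ed d → Bool => ω e from measurable_pi_apply e) (measurableSet_singleton b)

private theorem M0_const {α : Type} [MeasurableSpace α] (p : Prop) : MeasurableSet {_x : α | p} :=
  MeasurableSet.const p

theorem meas_con (F : Finset (Ed d)) (x y : Vx d) :
    MeasurableSet {ω : Ed d → Bool | con hd tl (opn ω \ ↑F) x y} := by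
  have h : {ω : Ed d → Bool | con hd tl (opn ω \ ↑F) x y} =
      ⋃ η : Finset (Ed d), ({_ω : Ed d → Bool | con hd tl (↑η : Set (Ed d)) x y} ∩
        ⋂ e ∈ η, ({ω : Ed d → Bool | ω e = true} ∩ {_ω : Ed d → Bool | e ∉ F})) := by
    ext ω
    simp only [Set.mem_ofPred_eq, Set.mem_iUnion, Set.mem_inter_iff, Set.mem_iInter]
    rw [con_fin]
    constructor
    · rintro ⟨η, h1, h2⟩
      refine ⟨η, h2, fun e he => ?_⟩
      have h3 := h1 (Finset.mem_coe.2 he)
      exact ⟨h3.1, fun h4 => h3.2 (Finset.mem_coe.2 h4)⟩
    · rintro ⟨η, h2, h1⟩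
      refine ⟨η, fun e he => ?_, h2⟩
      have h3 := h1 e (Finset.mem_coe.1 he)
      exact ⟨h3.1, fun h4 => h3.2 (Finset.mem_coe.1 h4)⟩
  rw [h]
  refine MeasurableSet.iUnion fun η => (M0_const _).inter ?_
  exact Finset.measurableSet_biInter η fun e _ => (M0_coord e true).inter (M0_const _)

theorem meas_toinf (F : Finset (Ed d)) (x : Vx d) :
    MeasurableSet {ω : Ed d → Bool | toinf (opn ω \ ↑F) x} := by
  have h : {ω : Ed d → Bool | toinf (opn ω \ ↑F) x} =
      ⋂ m : ℕ, ⋃ z : Vx d, ({_ω : Ed d → Bool | z ∉ box d m} ∩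
        {ω : Ed d → Bool | con hd tl (opn ω \ ↑F) x z}) := by
    ext ω
    simp only [toinf, Set.mem_ofPred_eq, Set.mem_iUnion, Set.mem_inter_iff, Set.mem_iInter]
  rw [h]
  exact MeasurableSet.iInter fun m => MeasurableSet.iUnion fun z =>
    (M0_const _).inter (meas_con F x z)

theorem meas_toinf' (x : Vx d) : MeasurableSet {ω : Ed d → Bool | toinf (opn ω) x} := by
  have h := meas_toinf (d := d) ∅ x
  simpa only [Finset.coe_empty, Set.sdiff_empty] using h

theorem meas_ope (F : Finset (Ed d)) (A : Finset (Ed d) → Prop) :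
    MeasurableSet {ω : Ed d → Bool | A (ope F ω)} := by
  have h1 : ∀ η : Finset (Ed d), MeasurableSet {ω : Ed d → Bool | ope F ω = η} := by
    intro η
    have h : {ω : Ed d → Bool | ope F ω = η} = {_ω : Ed d → Bool | η ⊆ F} ∩
        ⋂ e ∈ F, {ω : Ed d → Bool | ω e = decide (e ∈ η)} := by
      ext ω
      simp only [Set.mem_ofPred_eq, Set.mem_inter_iff, Set.mem_iInter]
      constructor
      · rintro rfl
        refine ⟨Finset.filter_subset _ _, fun e he => ?_⟩
        by_cases h2 : ω e = true
        · rw [h2]
          symm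
          rw [decide_eq_true_eq]
          exact Finset.mem_filter.2 ⟨he, h2⟩
        · have h3 : e ∉ ope F ω := fun h4 => h2 (Finset.mem_filter.1 h4).2
          rw [Bool.not_eq_true] at h2
          rw [h2]
          symm
          rw [decide_eq_false_iff_not]
          exact h3
      · rintro ⟨h2, h3⟩
        ext e
        constructor
        · intro he
          obtain ⟨h4, h5⟩ := Finset.mem_filter.1 he
          have h6 := h3 e h4
          rw [h5] at h6
          exact of_decide_eq_true h6.symm
        · intro he
          refine Finset.mem_filter.2 ⟨h2 he, ?_⟩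
          rw [h3 e (h2 he)]
          exact decide_eq_true he
    rw [h]
    exact (M0_const _).inter (Finset.measurableSet_biInter F fun e _ => M0_coord e _)
  have h : {ω : Ed d → Bool | A (ope F ω)} =
      ⋃ η : Finset (Ed d), ({_ω : Ed d → Bool | A η} ∩ {ω : Ed d → Bool | ope F ω = η}) := by
    ext ω
    simp only [Set.mem_ofPred_eq, Set.mem_iUnion, Set.mem_inter_iff]
    constructor
    · intro h2
      exact ⟨_, h2, rfl⟩
    · rintro ⟨η, h2, h3⟩
      rw [h3]
      exact h2
  rw [h]
  exact MeasurableSet.iUnion fun η => (M0_const _).inter (h1 η)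

theorem meas_out (n : ℕ) (y : Vx d) : MeasurableSet {ω : Ed d → Bool | out n y ω} :=
  meas_ope (tch (box d n)) fun η => ∃ z, z ∉ box d n ∧ con hd tl (↑η : Set (Ed d)) y z

theorem meas_Ec [MeasurableSingletonClass S] (c : S) : MeasurableSet {x : Om d S | Ec c x} := by
  have h : {x : Om d S | Ec c x} =
      ⋂ n : ℕ, ⋃ u : Vx d, ({_x : Om d S | u ∉ box d n} ∩ ({x : Om d S | x.1 u = c} ∩
        {x : Om d S | toinf (opn x.2 \ ↑(tch (box d n))) u})) := by
    ext x
    simp only [Ec, Set.mem_ofPred_eq, Set.mem_iUnion, Set.mem_inter_iff, Set.mem_iInter]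
  rw [h]
  refine MeasurableSet.iInter fun n => MeasurableSet.iUnion fun u => (M0_const _).inter
    (MeasurableSet.inter ?_ ?_)
  · exact (show Measurable fun x : Om d S => x.1 u from
      (measurable_pi_apply u).comp measurable_fst) (measurableSet_singleton c)
  · exact measurable_snd (meas_toinf (tch (box d n)) u)

theorem meas_patch (D : Finset (Vx d)) (s : D → S) (η : Finset (Ed d)) :
    Measurable (patch D s η : Om d S → Om d S) := by
  refine Measurable.prodMk (measurable_pi_lambda _ fun y => ?_) (measurable_pi_lambda _ fun e => ?_)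
  · by_cases h : y ∈ D
    · have h1 : (fun x : Om d S => ext D x.1 s y) = fun _ => s ⟨y, h⟩ := by
        funext x
        simp only [ext, dif_pos h]
      rw [h1]
      exact measurable_const
    · have h1 : (fun x : Om d S => ext D x.1 s y) = fun x => x.1 y := by
        funext x
        simp only [ext, dif_neg h]
      rw [h1]
      exact (measurable_pi_apply y).comp measurable_fst
  · by_cases h : e ∈ tch D
    · have h1 : (fun x : Om d S => if e ∈ tch D then decide (e ∈ η) else x.2 e) =
          fun _ => decide (e ∈ η) := by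
        funext x
        rw [if_pos h]
      rw [h1]
      exact measurable_const
    · have h1 : (fun x : Om d S => if e ∈ tch D then decide (e ∈ η) else x.2 e) =
          fun x => x.2 e := by
        funext x
        rw [if_neg h]
      rw [h1]
      exact (measurable_pi_apply e).comp measurable_snd

theorem meas_sh (z : Vx d) : Measurable (sh z : Om d S → Om d S) := by
  refine Measurable.prodMk (measurable_pi_lambda _ fun y => ?_) (measurable_pi_lambda _ fun e => ?_)
  · exact (measurable_pi_apply (y + z)).comp measurable_fst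
  · exact (measurable_pi_apply (e.1 + z, e.2)).comp measurable_snd

end Pool.Agent.Lib.MP_6a79cf_pr
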