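import Pool.Agent.Lib.MP_6a79cf_pr.M0

/-!
LEAF M0b (the kernel). `KK_local`: `ope (tch D) (patch D s η x).2 = η` for `η ⊆ tch D`, `(patch D s η x).1 = ext D x.1 s`; the sums
agree term by term (`ENNReal.ofReal_sum_of_nonneg`, `ENNReal.ofReal_div_of_pos`). `WW_pos`: the term `η = ∅` is `1` for each `s` (a
colouring `s` exists, `S` is not empty). `meas_KK`: finite sums, M0; the condition and the denominator depend on `x.1` at
finitely many vertices (the ends of the edges of `tch D`): finite sum over their values, or `Measurable.ite`,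
`Measurable.ennreal_ofReal`. `KK_inv`: `E` invariant under patching: `KK (1_E f) = 1_E KK f`.
-/

set_option autoImplicit false

open scoped Classical ENNReal
open MeasureTheory

namespace Pool.Agent.Lib.MP_6a79cf_pr

variable {d : ℕ} {S : Type} [Fintype S]

theorem WW_pos [Nonempty S] {X Y : Type} (a b : Y → X) (F : Finset Y) (D : Finset X) (v : ℝ)
    (hv : 0 < v) (τ : X → S) : 0 < WW a b F D v τ (fun _ _ => 1) := by
  obtain ⟨s0⟩ : Nonempty S := inferInstance
  unfold WW
  have h0 : ∀ (s : D → S), ∀ η ∈ F.powerset,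
      (0:ℝ) ≤ (if comp a b (↑η : Set Y) (ext D τ s) then v ^ η.card * 1 else 0) := by
    intro s η _
    split_ifs
    · positivity
    · exact le_refl _
  refine Finset.sum_pos' (fun s _ => Finset.sum_nonneg (h0 s))
    ⟨fun _ => s0, Finset.mem_univ _, Finset.sum_pos' (h0 _)
      ⟨∅, Finset.empty_mem_powerset F, ?_⟩⟩
  have hc : comp a b (↑(∅ : Finset Y) : Set Y) (ext D τ (fun _ => s0)) := by
    intro e he
    simp at he
  rw [if_pos hc]
  simp

omit [Fintype S] in
private theorem M0b_ope (D : Finset (Vx d)) (s : D → S) (η : Finset (Ed d)) (hη : η ⊆ tch D)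
    (x : Om d S) : ope (tch D) (patch D s η x).2 = η := by
  ext e
  unfold ope patch
  simp only [Finset.mem_filter]
  constructor
  · rintro ⟨h1, h2⟩
    rw [if_pos h1] at h2
    exact of_decide_eq_true h2
  · intro he
    refine ⟨hη he, ?_⟩
    rw [if_pos (hη he)]
    exact decide_eq_true he

private theorem M0b_comp_meas [MeasurableSpace S] [MeasurableSingletonClass S] (D : Finset (Vx d))
    (s : D → S) (η : Finset (Ed d)) :
    MeasurableSet {x : Om d S | comp hd tl (↑η : Set (Ed d)) (ext D x.1 s)} := by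
  have hy : ∀ y : Vx d, Measurable fun x : Om d S => ext D x.1 s y := by
    intro y
    unfold ext
    by_cases h : y ∈ D
    · simp only [dif_pos h]
      exact measurable_const
    · simp only [dif_neg h]
      exact (measurable_pi_apply y).comp measurable_fst
  have : {x : Om d S | comp hd tl (↑η : Set (Ed d)) (ext D x.1 s)} =
      ⋂ e ∈ η, {x : Om d S | ext D x.1 s (hd e) = ext D x.1 s (tl e)} := by
    ext x
    simp only [comp, Set.mem_ofPred_eq, Set.mem_iInter, Finset.mem_coe]
  rw [this]
  exact Finset.measurableSet_biInter η fun e _ => measurableSet_eq_fun (hy _) (hy _)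

theorem KK_local [Nonempty S] (v : ℝ) (hv : 0 < v) (D : Finset (Vx d))
    (g : (Vx d → S) → Finset (Ed d) → ℝ) (hg : ∀ σ η, 0 ≤ g σ η) (x : Om d S) :
    KK v D (fun y => ENNReal.ofReal (g y.1 (ope (tch D) y.2))) x =
      ENNReal.ofReal (WW hd tl (tch D) D v x.1 g / WW hd tl (tch D) D v x.1 (fun _ _ => 1)) := by
  rw [ENNReal.ofReal_div_of_pos (WW_pos hd tl (tch D) D v hv x.1)]
  unfold KK
  congr 1
  unfold WW
  have h0 : ∀ (s : D → S), ∀ η ∈ (tch D).powerset,
      (0:ℝ) ≤ (if comp hd tl (↑η : Set (Ed d)) (ext D x.1 s) then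
        v ^ η.card * g (ext D x.1 s) η else 0) := by
    intro s η _
    split_ifs
    · exact mul_nonneg (by positivity) (hg _ _)
    · exact le_refl _
  rw [ENNReal.ofReal_sum_of_nonneg (fun s _ => Finset.sum_nonneg (h0 s))]
  refine Finset.sum_congr (by ext s; simp) fun s _ => ?_
  rw [ENNReal.ofReal_sum_of_nonneg (h0 s)]
  refine Finset.sum_congr rfl fun η hη => ?_
  have h1 : (fun y : Om d S => ENNReal.ofReal (g y.1 (ope (tch D) y.2))) (patch D s η x) =
      ENNReal.ofReal (g (ext D x.1 s) η) := by
    show ENNReal.ofReal (g (ext D x.1 s) (ope (tch D) (patch D s η x).2)) = _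
    rw [M0b_ope D s η (Finset.mem_powerset.mp hη) x]
  rw [h1]
  split_ifs with hc
  · rw [ENNReal.ofReal_mul (by positivity)]
  · simp

theorem meas_KK [MeasurableSpace S] [MeasurableSingletonClass S] (v : ℝ) (D : Finset (Vx d))
    (f : Om d S → ℝ≥0∞) (hf : Measurable f) : Measurable (KK v D f) := by
  have h1 : Measurable fun x : Om d S => (∑ s : D → S, ∑ η ∈ (tch D).powerset,
      if comp hd tl (↑η : Set (Ed d)) (ext D x.1 s) then
        ENNReal.ofReal (v ^ η.card) * f (patch D s η x) else 0) := by
    refine Finset.measurable_sum _ fun s _ => Finset.measurable_sum _ fun η _ => ?_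
    exact Measurable.ite (M0b_comp_meas D s η)
      ((hf.comp (meas_patch D s η)).const_mul _) measurable_const
  have h2 : Measurable fun x : Om d S => WW hd tl (tch D) D v x.1 (fun _ _ => 1) := by
    unfold WW
    refine Finset.measurable_sum _ fun s _ => Finset.measurable_sum _ fun η _ => ?_
    exact Measurable.ite (M0b_comp_meas D s η) measurable_const measurable_const
  exact h1.div h2.ennreal_ofReal

theorem KK_one [Nonempty S] (v : ℝ) (hv : 0 < v) (D : Finset (Vx d)) (x : Om d S) :
    KK v D (fun _ => 1) x = 1 := by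
  have h := KK_local (S := S) v hv D (fun _ _ => 1) (fun _ _ => zero_le_one) x
  rw [div_self (WW_pos hd tl (tch D) D v hv x.1).ne'] at h
  simpa using h

theorem KK_inv (v : ℝ) (D : Finset (Vx d)) (E : Set (Om d S))
    (hE : ∀ (s : D → S) (η : Finset (Ed d)) (x : Om d S), patch D s η x ∈ E ↔ x ∈ E)
    (f : Om d S → ℝ≥0∞) (x : Om d S) :
    KK v D (E.indicator f) x = E.indicator (KK v D f) x := by
  by_cases hx : x ∈ E
  · rw [Set.indicator_of_mem hx]
    unfold KK
    congr 1
    refine Finset.sum_congr rfl fun s _ => Finset.sum_congr rfl fun η _ => ?_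
    rw [Set.indicator_of_mem ((hE s η x).mpr hx)]
  · rw [Set.indicator_of_notMem hx]
    unfold KK
    have h0 : ∀ (s : D → S) (η : Finset (Ed d)), E.indicator f (patch D s η x) = 0 := fun s η =>
      Set.indicator_of_notMem (fun h => hx ((hE s η x).mp h)) f
    simp [h0]

end Pool.Agent.Lib.MP_6a79cf_pr
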