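import Pool.Agent.Lib.MP_6a79cf_pr.Defs2

/-!
LEAF M1 (independent bonds). `B = Measure.infinitePi (fun _ => p δ_true + (1-p) δ_false)`. Resampling of one bond by
`Measure.eq_infinitePi`, of finitely many bonds by induction. Shift: `Measure.infinitePi_map_piCongrLeft`.
-/

set_option autoImplicit false

open scoped Classical ENNReal
open MeasureTheory

namespace Pool.Agent.Lib.MP_6a79cf_pr

/-- The law of one bond. -/
private noncomputable def M1_mu (p : ℝ) : Measure Bool :=
  ENNReal.ofReal p • Measure.dirac true + ENNReal.ofReal (1 - p) • Measure.dirac false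

private lemma M1_add (p : ℝ) (hp0 : 0 < p) (hp1 : p < 1) :
    ENNReal.ofReal p + ENNReal.ofReal (1 - p) = 1 := by
  rw [← ENNReal.ofReal_add hp0.le (by linarith)]
  have : p + (1 - p) = 1 := by ring
  rw [this, ENNReal.ofReal_one]

private lemma M1_prob (p : ℝ) (hp0 : 0 < p) (hp1 : p < 1) : IsProbabilityMeasure (M1_mu p) := by
  refine ⟨?_⟩
  show (ENNReal.ofReal p • Measure.dirac true + ENNReal.ofReal (1 - p) • Measure.dirac false) Set.univ = 1
  rw [Measure.add_apply, Measure.smul_apply, Measure.smul_apply, measure_univ, measure_univ,
    smul_eq_mul, smul_eq_mul, mul_one, mul_one, M1_add p hp0 hp1]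

private lemma M1_mu_apply (p : ℝ) (t : Set Bool) :
    M1_mu p t = ENNReal.ofReal p * (if true ∈ t then 1 else 0) +
      ENNReal.ofReal (1 - p) * (if false ∈ t then 1 else 0) := by
  show (ENNReal.ofReal p • Measure.dirac true + ENNReal.ofReal (1 - p) • Measure.dirac false) t = _
  rw [Measure.add_apply, Measure.smul_apply, Measure.smul_apply, Measure.dirac_apply,
    Measure.dirac_apply, smul_eq_mul, smul_eq_mul]
  rfl

/-- One bond. -/
private lemma M1_one {Y : Type} (p : ℝ) (hp0 : 0 < p) (hp1 : p < 1)
    (a : Y) (f : (Y → Bool) → ℝ≥0∞) (hf : Measurable f) :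
    ∫⁻ ω, (ENNReal.ofReal p * f (Function.update ω a true) +
      ENNReal.ofReal (1 - p) * f (Function.update ω a false))
        ∂(Measure.infinitePi fun _ : Y => M1_mu p) =
    ∫⁻ ω, f ω ∂(Measure.infinitePi fun _ : Y => M1_mu p) := by
  have := M1_prob p hp0 hp1
  set B : Measure (Y → Bool) := Measure.infinitePi fun _ : Y => M1_mu p with hB
  have m1 : Measurable (fun ω : Y → Bool => Function.update ω a true) := measurable_update_left
  have m2 : Measurable (fun ω : Y → Bool => Function.update ω a false) := measurable_update_left
  have key : ENNReal.ofReal p • B.map (fun ω => Function.update ω a true) +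
      ENNReal.ofReal (1 - p) • B.map (fun ω => Function.update ω a false) = B := by
    refine Measure.eq_infinitePi _ fun s t ht => ?_
    have hbox : MeasurableSet (Set.pi (s : Set Y) t) :=
      MeasurableSet.pi s.countable_toSet fun i _ => ht i
    rw [Measure.add_apply, Measure.smul_apply, Measure.smul_apply, Measure.map_apply m1 hbox,
      Measure.map_apply m2 hbox, smul_eq_mul, smul_eq_mul]
    by_cases ha : a ∈ s
    · have hpre : ∀ b : Bool, B ((fun ω : Y → Bool => Function.update ω a b) ⁻¹' Set.pi (s : Set Y) t) =
          (if b ∈ t a then 1 else 0) * ∏ i ∈ s.erase a, M1_mu p (t i) := by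
        intro b
        by_cases hb : b ∈ t a
        · have hset : (fun ω : Y → Bool => Function.update ω a b) ⁻¹' Set.pi (s : Set Y) t =
              Set.pi ((s.erase a : Finset Y) : Set Y) t := by
            ext ω
            simp only [Set.mem_preimage, Set.mem_pi, Finset.mem_coe, Finset.mem_erase]
            constructor
            · intro h i hi
              have h1 := h i hi.2
              rwa [Function.update_of_ne hi.1] at h1
            · intro h i hi
              by_cases hia : i = a
              · subst hia
                rw [Function.update_self]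
                exact hb
              · rw [Function.update_of_ne hia]
                exact h i ⟨hia, hi⟩
          rw [hset, hB, Measure.infinitePi_pi _ (fun i _ => ht i), if_pos hb, one_mul]
        · have hset : (fun ω : Y → Bool => Function.update ω a b) ⁻¹' Set.pi (s : Set Y) t = ∅ := by
            ext ω
            simp only [Set.mem_preimage, Set.mem_pi, Finset.mem_coe, Set.mem_empty_iff_false, iff_false]
            intro h
            have h1 := h a ha
            rw [Function.update_self] at h1
            exact hb h1
          rw [hset, measure_empty, if_neg hb, zero_mul]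
      rw [hpre true, hpre false, ← Finset.mul_prod_erase s _ ha, M1_mu_apply p (t a)]
      ring
    · have hpre : ∀ b : Bool, B ((fun ω : Y → Bool => Function.update ω a b) ⁻¹' Set.pi (s : Set Y) t) =
          ∏ i ∈ s, M1_mu p (t i) := by
        intro b
        have hset : (fun ω : Y → Bool => Function.update ω a b) ⁻¹' Set.pi (s : Set Y) t =
            Set.pi (s : Set Y) t := by
          ext ω
          simp only [Set.mem_preimage, Set.mem_pi, Finset.mem_coe]
          have hne : ∀ i ∈ s, Function.update ω a b i = ω i := by
            intro i hi
            exact Function.update_of_ne (fun h => ha (by rw [← h]; exact hi)) _ _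
          constructor
          · intro h i hi
            rw [← hne i hi]
            exact h i hi
          · intro h i hi
            rw [hne i hi]
            exact h i hi
        rw [hset, hB, Measure.infinitePi_pi _ (fun i _ => ht i)]
      rw [hpre true, hpre false, ← add_mul, M1_add p hp0 hp1, one_mul]
  have f1 : Measurable (fun ω : Y → Bool => f (Function.update ω a true)) := hf.comp m1
  have f2 : Measurable (fun ω : Y → Bool => f (Function.update ω a false)) := hf.comp m2
  rw [lintegral_add_left (f1.const_mul _), lintegral_const_mul _ f1, lintegral_const_mul _ f2]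
  conv_rhs => rw [← key]
  rw [lintegral_add_measure, lintegral_smul_measure, lintegral_smul_measure, lintegral_map hf m1,
    lintegral_map hf m2, smul_eq_mul, smul_eq_mul]

private lemma M1_res {Y : Type} (p : ℝ) (hp0 : 0 < p) (hp1 : p < 1) (F : Finset Y) :
    ∀ f : (Y → Bool) → ℝ≥0∞, Measurable f →
    ∫⁻ ω, f ω ∂(Measure.infinitePi fun _ : Y => M1_mu p) =
    ∫⁻ ω, ∑ η ∈ F.powerset, ENNReal.ofReal (bw p F η) *
          f (fun e => if e ∈ F then decide (e ∈ η) else ω e)
            ∂(Measure.infinitePi fun _ : Y => M1_mu p) := by
  induction F using Finset.induction_on with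
  | empty =>
    intro f hf
    refine lintegral_congr fun ω => ?_
    rw [Finset.powerset_empty, Finset.sum_singleton]
    have h1 : bw p (∅ : Finset Y) ∅ = 1 := by
      unfold bw
      simp
    have h2 : (fun e : Y => if e ∈ (∅ : Finset Y) then decide (e ∈ (∅ : Finset Y)) else ω e) = ω := by
      funext e
      rw [if_neg (Finset.notMem_empty e)]
    rw [h1, h2, ENNReal.ofReal_one, one_mul]
  | insert a F ha ih =>
    intro f hf
    rw [← M1_one p hp0 hp1 a f hf]
    have m1 : Measurable (fun ω : Y → Bool => Function.update ω a true) := measurable_update_left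
    have m2 : Measurable (fun ω : Y → Bool => Function.update ω a false) := measurable_update_left
    rw [ih (fun ω => ENNReal.ofReal p * f (Function.update ω a true) +
      ENNReal.ofReal (1 - p) * f (Function.update ω a false))
      (((hf.comp m1).const_mul _).add ((hf.comp m2).const_mul _))]
    refine lintegral_congr fun ω => ?_
    rw [Finset.sum_powerset_insert ha, ← Finset.sum_add_distrib]
    refine Finset.sum_congr rfl fun η hη => ?_
    have haη : a ∉ η := fun h => ha (Finset.mem_powerset.1 hη h)
    have hb0 : 0 ≤ bw p F η := mul_nonneg (pow_nonneg hp0.le _) (pow_nonneg (by linarith) _)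
    have w1 : bw p (insert a F) η = bw p F η * (1 - p) := by
      unfold bw
      have : insert a F \ η = insert a (F \ η) := Finset.insert_sdiff_of_notMem F haη
      rw [this, Finset.card_insert_of_notMem (fun h => ha (Finset.mem_sdiff.1 h).1), pow_succ]
      ring
    have w2 : bw p (insert a F) (insert a η) = bw p F η * p := by
      unfold bw
      have : insert a F \ insert a η = F \ η := by
        ext e
        simp only [Finset.mem_sdiff, Finset.mem_insert, not_or]
        constructor
        · rintro ⟨h1, h2, h3⟩
          exact ⟨h1.resolve_left h2, h3⟩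
        · rintro ⟨h1, h2⟩
          exact ⟨Or.inr h1, fun h => ha (h ▸ h1), h2⟩
      rw [this, Finset.card_insert_of_notMem haη, pow_succ]
      ring
    have c1 : (fun e => if e ∈ insert a F then decide (e ∈ η) else ω e) =
        Function.update (fun e => if e ∈ F then decide (e ∈ η) else ω e) a false := by
      funext e
      by_cases he : e = a
      · subst he
        rw [Function.update_self, if_pos (Finset.mem_insert_self _ _)]
        exact decide_eq_false haη
      · rw [Function.update_of_ne he]
        have : (e ∈ insert a F) ↔ e ∈ F := by
          rw [Finset.mem_insert]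
          exact ⟨fun h => h.resolve_left he, Or.inr⟩
        simp only [this]
    have c2 : (fun e => if e ∈ insert a F then decide (e ∈ insert a η) else ω e) =
        Function.update (fun e => if e ∈ F then decide (e ∈ η) else ω e) a true := by
      funext e
      by_cases he : e = a
      · subst he
        rw [Function.update_self, if_pos (Finset.mem_insert_self _ _)]
        exact decide_eq_true (Finset.mem_insert_self _ _)
      · rw [Function.update_of_ne he]
        have h1 : (e ∈ insert a F) ↔ e ∈ F := by
          rw [Finset.mem_insert]
          exact ⟨fun h => h.resolve_left he, Or.inr⟩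
        have h2 : (e ∈ insert a η) ↔ e ∈ η := by
          rw [Finset.mem_insert]
          exact ⟨fun h => h.resolve_left he, Or.inr⟩
        simp only [h1, h2]
    rw [c1, c2, w1, w2, ENNReal.ofReal_mul hb0, ENNReal.ofReal_mul hb0]
    ring

theorem exists_bern (d : ℕ) (p : ℝ) (hp0 : 0 < p) (hp1 : p < 1) :
    ∃ B : Measure (Ed d → Bool), IsProbabilityMeasure B ∧
      (∀ (F : Finset (Ed d)) (f : (Ed d → Bool) → ℝ≥0∞), Measurable f →
        ∫⁻ ω, f ω ∂B = ∫⁻ ω, ∑ η ∈ F.powerset, ENNReal.ofReal (bw p F η) *
          f (fun e => if e ∈ F then decide (e ∈ η) else ω e) ∂B) ∧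
      ∀ z : Vx d, B.map (fun ω e => ω (e.1 + z, e.2)) = B := by
  have := M1_prob p hp0 hp1
  refine ⟨Measure.infinitePi fun _ : Ed d => M1_mu p, inferInstance, fun F f hf => ?_, fun z => ?_⟩
  · refine (M1_res p hp0 hp1 F f hf).trans
      (lintegral_congr fun ω => Finset.sum_congr rfl fun η _ => ?_)
    refine congrArg (fun g => ENNReal.ofReal (bw p F η) * f g) ?_
    funext e
    by_cases he : e ∈ F
    · rw [if_pos he, if_pos he]
      exact decide_eq_decide.2 Iff.rfl
    · rw [if_neg he, if_neg he]
  · let e : Ed d ≃ Ed d :=
      { toFun := fun e => (e.1 - z, e.2)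
        invFun := fun e => (e.1 + z, e.2)
        left_inv := fun e => by
          show (e.1 - z + z, e.2) = e
          rw [sub_add_cancel]
        right_inv := fun e => by
          show (e.1 + z - z, e.2) = e
          rw [add_sub_cancel_right] }
    have h1 := Measure.infinitePi_map_piCongrLeft (X := fun _ : Ed d => Bool)
      (μ := fun _ : Ed d => M1_mu p) e
    have h2 : (fun (ω : Ed d → Bool) (e' : Ed d) => ω (e'.1 + z, e'.2)) =
        ⇑(MeasurableEquiv.piCongrLeft (fun _ : Ed d => Bool) e) := by
      funext ω e'
      obtain ⟨a, rfl⟩ := e.surjective e'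
      rw [MeasurableEquiv.coe_piCongrLeft, Equiv.piCongrLeft_apply_apply]
      show ω (a.1 - z + z, a.2) = ω a
      rw [sub_add_cancel]
    rw [h2]
    exact h1

end Pool.Agent.Lib.MP_6a79cf_pr
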