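import Pool.Agent.Lib.MP_6a79cf_pr.M9

/-!
LEAF M10b (magnetisation). By `WW_sym` with `g = swap c j`, `D = box n`, `KK_local`, `ES.res`:
`P (x.1 0 = j, ¬ out n 0) = P (x.1 0 = c, ¬ out n 0)`, so it is `P (¬ out n 0)/|S|`;
`P (x.1 0 = c) ≥ P (out n 0) - P (out n 0, x.1 0 ≠ c) + (1 - P (out n 0))/|S| ≥ t + (1 - t)/|S| - P (out n 0, x.1 0 ≠ c)`; `n → ∞`
(`out_small`).
-/

set_option autoImplicit false

open scoped Classical ENNReal
open MeasureTheory Filter Topology

namespace Pool.Agent.Lib.MP_6a79cf_pr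

variable {d : ℕ} {S : Type} [AddCommGroup S] [Fintype S] [MeasurableSpace S]
  [MeasurableSingletonClass S]

private theorem M10b_out (n : ℕ) (y : Vx d) (ω : Ed d → Bool) :
    out n y ω ↔ cst hd tl (↑(ope (tch (box d n)) ω) : Set (Ed d)) {z | z ∉ box d n} y :=
  Iff.rfl

private theorem M10b_zero (n : ℕ) : (0 : Vx d) ∈ box d n := by
  unfold box
  rw [Finset.mem_Icc]
  constructor
  · intro i
    have : (0 : ℤ) ≤ n := Int.natCast_nonneg n
    show -(n : ℤ) ≤ 0
    linarith
  · intro i
    show (0 : ℤ) ≤ n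
    exact Int.natCast_nonneg n

/-- The indicator function. -/
private noncomputable def M10b_g (d n : ℕ) (j : S) (σ : Vx d → S) (η : Finset (Ed d)) : ℝ :=
  if σ 0 = j ∧ ¬ cst hd tl (↑η : Set (Ed d)) {z | z ∉ box d n} 0 then 1 else 0

private theorem M10b_meas (n : ℕ) (j : S) :
    MeasurableSet {x : Om d S | x.1 0 = j ∧ ¬ out n (0 : Vx d) x.2} := by
  have h1 : MeasurableSet {x : Om d S | x.1 0 = j} := by
    have h2 : Measurable fun x : Om d S => x.1 0 := (measurable_pi_apply 0).comp measurable_fst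
    exact h2 (measurableSet_singleton j)
  have h3 : MeasurableSet {x : Om d S | out n (0 : Vx d) x.2} := measurable_snd (meas_out n 0)
  exact h1.inter h3.compl

private theorem M10b_ind (n : ℕ) (j : S) :
    (fun y : Om d S => ENNReal.ofReal (M10b_g d n j y.1 (ope (tch (box d n)) y.2))) =
      {x : Om d S | x.1 0 = j ∧ ¬ out n (0 : Vx d) x.2}.indicator 1 := by
  funext y
  change ENNReal.ofReal (if y.1 0 = j ∧ ¬ out n (0 : Vx d) y.2 then 1 else 0) = _
  by_cases h : y.1 0 = j ∧ ¬ out n (0 : Vx d) y.2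
  · rw [Set.indicator_of_mem (show y ∈ {x : Om d S | x.1 0 = j ∧ ¬ out n (0 : Vx d) x.2} from h),
      if_pos h, ENNReal.ofReal_one]
    rfl
  · rw [Set.indicator_of_notMem
      (show y ∉ {x : Om d S | x.1 0 = j ∧ ¬ out n (0 : Vx d) x.2} from h), if_neg h,
      ENNReal.ofReal_zero]

private theorem M10b_eq (v : ℝ) (hv : 0 < v) (P : Measure (Om d S)) (hP : ES v P) (n : ℕ)
    (c j : S) :
    P {x | x.1 0 = j ∧ ¬ out n (0 : Vx d) x.2} = P {x | x.1 0 = c ∧ ¬ out n (0 : Vx d) x.2} := by
  have hg : ∀ (i : S) (σ : Vx d → S) (η : Finset (Ed d)), 0 ≤ M10b_g d n i σ η := by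
    intro i σ η
    unfold M10b_g
    split_ifs
    · exact zero_le_one
    · exact le_refl _
  have hW : ∀ τ : Vx d → S, WW hd tl (tch (box d n)) (box d n) v τ (M10b_g d n j) =
      WW hd tl (tch (box d n)) (box d n) v τ (M10b_g d n c) := by
    intro τ
    rw [← WW_sym hd tl (tch (box d n)) (box d n) v τ (Equiv.swap c j) (M10b_g d n c)]
    congr 1
    funext σ η
    unfold M10b_g
    by_cases h : cst hd tl (↑η : Set (Ed d)) {z | z ∉ box d n} (0 : Vx d)
    · rw [if_neg (fun h' => h'.2 h), if_neg (fun h' => h'.2 h)]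
    · have h1 : rec' hd tl (box d n) (Equiv.swap c j) η σ 0 = Equiv.swap c j (σ 0) := by
        unfold rec'
        rw [if_pos ⟨M10b_zero n, h⟩]
      have h2 : (rec' hd tl (box d n) (Equiv.swap c j) η σ 0 = c) ↔ σ 0 = j := by
        rw [h1]
        constructor
        · intro h3
          have := congrArg (Equiv.swap c j) h3
          rw [Equiv.swap_apply_self, Equiv.swap_apply_left] at this
          exact this
        · intro h3
          rw [h3, Equiv.swap_apply_right]
      by_cases h3 : σ 0 = j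
      · rw [if_pos ⟨h3, h⟩, if_pos ⟨h2.2 h3, h⟩]
      · rw [if_neg (fun h' => h3 h'.1), if_neg (fun h' => h3 (h2.1 h'.1))]
  have hI : ∀ i : S, P {x | x.1 0 = i ∧ ¬ out n (0 : Vx d) x.2} =
      ∫⁻ x, ENNReal.ofReal (WW hd tl (tch (box d n)) (box d n) v x.1 (M10b_g d n i) /
        WW hd tl (tch (box d n)) (box d n) v x.1 (fun _ _ => 1)) ∂P := by
    intro i
    rw [← lintegral_indicator_one (M10b_meas n i), ← M10b_ind n i]
    have hm : Measurable fun y : Om d S =>
        ENNReal.ofReal (M10b_g d n i y.1 (ope (tch (box d n)) y.2)) := by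
      rw [M10b_ind]
      exact measurable_one.indicator (M10b_meas n i)
    have h1 := hP.res (fun _ => -(n : ℤ)) (fun _ => (n : ℤ)) _ hm
    rw [h1]
    refine lintegral_congr fun x => ?_
    exact KK_local v hv (box d n) (M10b_g d n i) (hg i) x
  rw [hI j, hI c]
  refine lintegral_congr fun x => ?_
  rw [hW]

theorem mag_le (v : ℝ) (hv : 0 < v) (P : Measure (Om d S)) (hP : ES v P) (c : S) (h : only c P)
    (t : ℝ) (ht : ∀ n, t ≤ (P {x | out n (0 : Vx d) x.2}).toReal) :
    t + (1 - t) / Fintype.card S ≤ (P {x | x.1 0 = c}).toReal := by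
  have := hP.prob
  have hcard : (0 : ℝ) < Fintype.card S := by
    exact_mod_cast Fintype.card_pos
  have hcard1 : (1 : ℝ) ≤ Fintype.card S := by
    exact_mod_cast Fintype.card_pos
  have hmo : ∀ n, MeasurableSet {x : Om d S | out n (0 : Vx d) x.2} := fun n =>
    measurable_snd (meas_out n 0)
  have hmc : ∀ j : S, MeasurableSet {x : Om d S | x.1 0 = j} := by
    intro j
    have h2 : Measurable fun x : Om d S => x.1 0 := (measurable_pi_apply 0).comp measurable_fst
    exact h2 (measurableSet_singleton j)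
  have key : ∀ n, t + (1 - t) / Fintype.card S ≤ (P {x | x.1 0 = c}).toReal +
      (P {x | out n (0 : Vx d) x.2 ∧ x.1 0 ≠ c}).toReal := by
    intro n
    set a : ℝ := P.real {x | out n (0 : Vx d) x.2} with ha
    have hta : t ≤ a := ht n
    -- the part without connection
    have h1 : P.real {x : Om d S | ¬ out n (0 : Vx d) x.2} = 1 - a := by
      have := probReal_compl_eq_one_sub (μ := P) (hmo n)
      exact this
    have h2 : P.real {x : Om d S | ¬ out n (0 : Vx d) x.2} =
        ∑ j : S, P.real {x : Om d S | x.1 0 = j ∧ ¬ out n (0 : Vx d) x.2} := by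
      have e : {x : Om d S | ¬ out n (0 : Vx d) x.2} =
          ⋃ j ∈ (Finset.univ : Finset S), {x : Om d S | x.1 0 = j ∧ ¬ out n (0 : Vx d) x.2} := by
        ext x
        simp
      rw [e, measureReal_biUnion_finset]
      · intro i _ j _ hij
        rw [Function.onFun, Set.disjoint_left]
        intro x hx hx'
        exact hij (hx.1.symm.trans hx'.1)
      · intro j _
        exact M10b_meas n j
    have h3 : ∑ j : S, P.real {x : Om d S | x.1 0 = j ∧ ¬ out n (0 : Vx d) x.2} =
        Fintype.card S * P.real {x : Om d S | x.1 0 = c ∧ ¬ out n (0 : Vx d) x.2} := by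
      have e : ∀ j ∈ (Finset.univ : Finset S),
          P.real {x : Om d S | x.1 0 = j ∧ ¬ out n (0 : Vx d) x.2} =
            P.real {x : Om d S | x.1 0 = c ∧ ¬ out n (0 : Vx d) x.2} := fun j _ =>
        congrArg ENNReal.toReal (M10b_eq v hv P hP n c j)
      rw [Finset.sum_congr rfl e, Finset.sum_const, Finset.card_univ, nsmul_eq_mul]
    have h4 : P.real {x : Om d S | x.1 0 = c ∧ ¬ out n (0 : Vx d) x.2} =
        (1 - a) / Fintype.card S := by
      rw [eq_div_iff hcard.ne']
      linarith
    -- the colour c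
    have h5 : P.real {x : Om d S | x.1 0 = c} =
        P.real {x : Om d S | x.1 0 = c ∧ out n (0 : Vx d) x.2} +
          P.real {x : Om d S | x.1 0 = c ∧ ¬ out n (0 : Vx d) x.2} := by
      have := measureReal_inter_add_sdiff (μ := P) (s := {x : Om d S | x.1 0 = c}) (hmo n)
      rw [← this]
      rfl
    have h6 : a = P.real {x : Om d S | x.1 0 = c ∧ out n (0 : Vx d) x.2} +
        P.real {x : Om d S | out n (0 : Vx d) x.2 ∧ x.1 0 ≠ c} := by
      have h7 := measureReal_inter_add_sdiff (μ := P) (s := {x : Om d S | out n (0 : Vx d) x.2}) (hmc c)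
      rw [ha, ← h7]
      congr 2
      ext x
      exact and_comm
    have h8 : t + (1 - t) / Fintype.card S ≤ a + (1 - a) / Fintype.card S := by
      have h9 : 0 ≤ (a - t) * (1 - 1 / Fintype.card S) := by
        refine mul_nonneg (by linarith) ?_
        have : (1 : ℝ) / Fintype.card S ≤ 1 := by
          rw [div_le_one hcard]
          exact hcard1
        linarith
      have h10 : a + (1 - a) / Fintype.card S - (t + (1 - t) / Fintype.card S) =
          (a - t) * (1 - 1 / Fintype.card S) := by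
        field_simp
        ring
      linarith
    change t + (1 - t) / Fintype.card S ≤ P.real {x | x.1 0 = c} +
      P.real {x | out n (0 : Vx d) x.2 ∧ x.1 0 ≠ c}
    linarith
  have hlim : Tendsto (fun n => (P {x | x.1 0 = c}).toReal +
      (P {x | out n (0 : Vx d) x.2 ∧ x.1 0 ≠ c}).toReal) atTop
        (𝓝 ((P {x | x.1 0 = c}).toReal + 0)) := by
    refine Tendsto.const_add _ ?_
    have h1 := (ENNReal.tendsto_toReal ENNReal.zero_ne_top).comp (out_small P c h 0)
    rw [ENNReal.toReal_zero] at h1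
    exact h1
  rw [add_zero] at hlim
  exact ge_of_tendsto' hlim key

end Pool.Agent.Lib.MP_6a79cf_pr
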