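import Pool.Agent.Lib.MP_6a79cf_pr.M9

/-!
LEAF M10c (no infinite cluster: symmetry in all colours). Copy of the proof of `sym` (leaf M10) without the condition `g c = c`: for the
box `D = box n ⊇ T`, `rec' D g η σ y = g (σ y)` for `y ∈ T` unless `out n y`; `P (out n y) → P (toinf y) = 0`
(`out_anti`, `toinf_iff`, `tendsto_measure_iInter`).
-/

set_option autoImplicit false

open scoped Classical ENNReal
open MeasureTheory Filter Topology

namespace Pool.Agent.Lib.MP_6a79cf_pr

variable {d : ℕ} {S : Type} [AddCommGroup S] [Fintype S] [MeasurableSpace S]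
  [MeasurableSingletonClass S]

omit [AddCommGroup S] in
private theorem M10c_meas1 (I : Finset (Vx d)) (h : S → S) (t : I → S) :
    MeasurableSet {x : Om d S | ∀ y : I, h (x.1 y) = t y} := by
  have e : {x : Om d S | ∀ y : I, h (x.1 y) = t y} = ⋂ y : I, {x : Om d S | h (x.1 y) = t y} := by
    ext x
    simp only [Set.mem_iInter]
    rfl
  rw [e]
  refine MeasurableSet.iInter fun y => ?_
  have h1 : Measurable fun x : Om d S => h (x.1 y) :=
    (measurable_of_finite h).comp ((measurable_pi_apply _).comp measurable_fst)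
  exact h1 (measurableSet_singleton (t y))

omit [AddCommGroup S] in
private theorem M10c_meas2 (I : Finset (Vx d)) (D : Finset (Vx d)) (g : S → S) (t : I → S) :
    MeasurableSet {x : Om d S | ∀ y : I, rec' hd tl D g (ope (tch D) x.2) x.1 y = t y} := by
  have e : {x : Om d S | ∀ y : I, rec' hd tl D g (ope (tch D) x.2) x.1 y = t y} =
      ⋃ η ∈ (tch D).powerset, ({x : Om d S | ope (tch D) x.2 = η} ∩
        ⋂ y : I, {x : Om d S | rec' hd tl D g η x.1 y = t y}) := by
    ext x
    simp only [Set.mem_iUnion, Set.mem_inter_iff, Set.mem_iInter]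
    constructor
    · intro h
      exact ⟨ope (tch D) x.2, Finset.mem_powerset.2 (Finset.filter_subset _ _), rfl, fun y => h y⟩
    · rintro ⟨η, _, h1, h2⟩ y
      have h3 : ope (tch D) x.2 = η := h1
      rw [h3]
      exact h2 y
  rw [e]
  refine Finset.measurableSet_biUnion _ fun η _ => MeasurableSet.inter ?_ ?_
  · exact measurable_snd (meas_ope (tch D) fun s => s = η)
  · refine MeasurableSet.iInter fun y => ?_
    by_cases h : (y : Vx d) ∈ D ∧ ¬ cst hd tl (↑η : Set (Ed d)) {z | z ∉ D} y
    · have h1 : Measurable fun x : Om d S => rec' hd tl D g η x.1 y := by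
        have e2 : (fun x : Om d S => rec' hd tl D g η x.1 y) = fun x => g (x.1 y) := by
          funext x
          simp only [rec', if_pos h]
        rw [e2]
        exact (measurable_of_finite g).comp ((measurable_pi_apply _).comp measurable_fst)
      exact h1 (measurableSet_singleton (t y))
    · have h1 : Measurable fun x : Om d S => rec' hd tl D g η x.1 y := by
        have e2 : (fun x : Om d S => rec' hd tl D g η x.1 y) = fun x => x.1 y := by
          funext x
          simp only [rec', if_neg h]
        rw [e2]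
        exact (measurable_pi_apply _).comp measurable_fst
      exact h1 (measurableSet_singleton (t y))

omit [AddCommGroup S] [Fintype S] [MeasurableSingletonClass S] in
private theorem M10c_lint (P : Measure (Om d S)) (A : Set (Om d S)) (hA : MeasurableSet A) :
    ∫⁻ x, ENNReal.ofReal (if x ∈ A then 1 else 0) ∂P = P A := by
  have e : (fun x : Om d S => ENNReal.ofReal (if x ∈ A then 1 else 0)) = A.indicator 1 := by
    funext x
    by_cases h : x ∈ A
    · rw [if_pos h, Set.indicator_of_mem h, ENNReal.ofReal_one]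
      rfl
    · rw [if_neg h, Set.indicator_of_notMem h, ENNReal.ofReal_zero]
  rw [e]
  exact lintegral_indicator_one hA

private theorem M10c_eq (v : ℝ) (hv : 0 < v) (P : Measure (Om d S)) (hP : ES v P)
    (g : Equiv.Perm S) (I : Finset (Vx d)) (t : I → S) (n : ℕ) :
    P {x : Om d S | ∀ y : I, x.1 y = t y} =
      P {x : Om d S | ∀ y : I, rec' hd tl (box d n) g (ope (tch (box d n)) x.2) x.1 y = t y} := by
  set f : (Vx d → S) → Finset (Ed d) → ℝ := fun σ _ => if (∀ y : I, σ y = t y) then 1 else 0 with hf
  have h0 : ∀ σ η, 0 ≤ f σ η := by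
    intro σ η
    simp only [hf]
    split_ifs <;> norm_num
  have hA : MeasurableSet {x : Om d S | ∀ y : I, x.1 y = t y} := M10c_meas1 I (fun s => s) t
  have hB : MeasurableSet {x : Om d S | ∀ y : I,
      rec' hd tl (box d n) g (ope (tch (box d n)) x.2) x.1 y = t y} := M10c_meas2 I (box d n) g t
  have m1 : Measurable fun x : Om d S => ENNReal.ofReal (f x.1 (ope (tch (box d n)) x.2)) := by
    refine ENNReal.measurable_ofReal.comp ?_
    exact Measurable.ite hA measurable_const measurable_const
  have m2 : Measurable fun x : Om d S => ENNReal.ofReal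
      (f (rec' hd tl (box d n) g (ope (tch (box d n)) x.2) x.1) (ope (tch (box d n)) x.2)) := by
    refine ENNReal.measurable_ofReal.comp ?_
    exact Measurable.ite hB measurable_const measurable_const
  have h1 := hP.res (fun _ => -(n : ℤ)) (fun _ => (n : ℤ)) _ m1
  have h2 := hP.res (fun _ => -(n : ℤ)) (fun _ => (n : ℤ)) _ m2
  have h3 : ∀ x : Om d S, KK v (box d n)
      (fun x : Om d S => ENNReal.ofReal (f x.1 (ope (tch (box d n)) x.2))) x =
      KK v (box d n) (fun x : Om d S => ENNReal.ofReal
        (f (rec' hd tl (box d n) g (ope (tch (box d n)) x.2) x.1) (ope (tch (box d n)) x.2))) x := by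
    intro x
    rw [KK_local v hv (box d n) f h0 x,
      KK_local v hv (box d n) (fun σ η => f (rec' hd tl (box d n) g η σ) η) 
        (fun σ η => h0 (rec' hd tl (box d n) g η σ) η) x,
      WW_sym hd tl (tch (box d n)) (box d n) v x.1 g f]
  have h4 : ∫⁻ x, ENNReal.ofReal (f x.1 (ope (tch (box d n)) x.2)) ∂P =
      ∫⁻ x, ENNReal.ofReal (f (rec' hd tl (box d n) g (ope (tch (box d n)) x.2) x.1)
        (ope (tch (box d n)) x.2)) ∂P := by
    rw [h1, h2]
    exact lintegral_congr h3
  have h5 : ∫⁻ x, ENNReal.ofReal (f x.1 (ope (tch (box d n)) x.2)) ∂P =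
      P {x : Om d S | ∀ y : I, x.1 y = t y} := by
    rw [← M10c_lint P _ hA]
    refine lintegral_congr fun x => congrArg ENNReal.ofReal ?_
    by_cases h7 : ∀ y : I, x.1 y = t y
    · rw [if_pos (show x ∈ {x : Om d S | ∀ y : I, x.1 y = t y} from h7)]
      exact if_pos h7
    · rw [if_neg (show x ∉ {x : Om d S | ∀ y : I, x.1 y = t y} from h7)]
      exact if_neg h7
  have h6 : ∫⁻ x, ENNReal.ofReal (f (rec' hd tl (box d n) g (ope (tch (box d n)) x.2) x.1)
        (ope (tch (box d n)) x.2)) ∂P =
      P {x : Om d S | ∀ y : I, rec' hd tl (box d n) g (ope (tch (box d n)) x.2) x.1 y = t y} := by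
    rw [← M10c_lint P _ hB]
    refine lintegral_congr fun x => congrArg ENNReal.ofReal ?_
    by_cases h7 : ∀ y : I, rec' hd tl (box d n) g (ope (tch (box d n)) x.2) x.1 y = t y
    · rw [if_pos (show x ∈ {x : Om d S | ∀ y : I,
        rec' hd tl (box d n) g (ope (tch (box d n)) x.2) x.1 y = t y} from h7)]
      exact if_pos h7
    · rw [if_neg (show x ∉ {x : Om d S | ∀ y : I,
        rec' hd tl (box d n) g (ope (tch (box d n)) x.2) x.1 y = t y} from h7)]
      exact if_neg h7
  rw [← h5, ← h6, h4]

omit [AddCommGroup S] [Fintype S] [MeasurableSpace S] [MeasurableSingletonClass S] in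
private theorem M10c_rec (g : Equiv.Perm S) (n : ℕ) (x : Om d S) (y : Vx d)
    (hy : y ∈ box d n) (h : ¬ out n y x.2) :
    rec' hd tl (box d n) g (ope (tch (box d n)) x.2) x.1 y = g (x.1 y) := by
  have h1 : ¬ cst hd tl (↑(ope (tch (box d n)) x.2) : Set (Ed d)) {z | z ∉ box d n} y := by
    rintro ⟨z, hz, h3⟩
    exact h ⟨z, hz, h3⟩
  unfold rec'
  rw [if_pos ⟨hy, h1⟩]

omit [AddCommGroup S] [Fintype S] [MeasurableSingletonClass S] in
private theorem M10c_small (P : Measure (Om d S)) [IsProbabilityMeasure P]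
    (h : ∀ y : Vx d, P {x | toinf (opn x.2) y} = 0) (y : Vx d) :
    Tendsto (fun n => P {x : Om d S | out n y x.2}) atTop (𝓝 0) := by
  have h1 : Tendsto (fun n => P {x : Om d S | out n y x.2}) atTop
      (𝓝 (P (⋂ n, {x : Om d S | out n y x.2}))) := by
    refine tendsto_measure_iInter_atTop (fun n => ?_) ?_ ⟨0, measure_ne_top _ _⟩
    · exact (measurable_snd (meas_out n y)).nullMeasurableSet
    · intro m n hmn x hx
      exact out_anti hmn hx
  have h2 : (⋂ n, {x : Om d S | out n y x.2}) = {x | toinf (opn x.2) y} := by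
    ext x
    rw [Set.mem_iInter]
    exact toinf_iff.symm
  rw [h2, h y] at h1
  exact h1

/-- every finite set is in a box -/
private theorem M10c_box (I : Finset (Vx d)) : ∃ n₀ : ℕ, ∀ n ≥ n₀, I ⊆ box d n := by
  refine ⟨∑ y ∈ I, ∑ i, (y i).natAbs, fun n hn y hy => ?_⟩
  have h1 : ∀ i, (y i).natAbs ≤ n := by
    intro i
    refine le_trans ?_ hn
    refine le_trans ?_ (Finset.single_le_sum (f := fun y : Vx d => ∑ i, (y i).natAbs)
      (fun _ _ => Nat.zero_le _) hy)
    exact Finset.single_le_sum (f := fun i => (y i).natAbs) (fun _ _ => Nat.zero_le _)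
      (Finset.mem_univ i)
  unfold box
  rw [Finset.mem_Icc]
  constructor
  · intro i
    have := h1 i
    show -(n : ℤ) ≤ y i
    omega
  · intro i
    have := h1 i
    show y i ≤ (n : ℤ)
    omega

private theorem M10c_cyl (v : ℝ) (hv : 0 < v) (P : Measure (Om d S)) (hP : ES v P)
    (h : ∀ y : Vx d, P {x | toinf (opn x.2) y} = 0) (g : Equiv.Perm S) (I : Finset (Vx d)) (t : I → S) :
    P {x : Om d S | ∀ y : I, g (x.1 y) = t y} = P {x : Om d S | ∀ y : I, x.1 y = t y} := by
  have := hP.prob
  have h1 : Tendsto (fun n => ∑ y : I, P {x : Om d S | out n (y : Vx d) x.2}) atTop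
      (𝓝 (∑ _y : I, 0)) := tendsto_finsetSum _ fun y _ => M10c_small P h y
  rw [Finset.sum_const_zero] at h1
  obtain ⟨n₀, hn₀⟩ := M10c_box I
  have hU : ∀ (n : ℕ) (A : Set (Om d S)),
      P (A ∪ ⋃ y ∈ (Finset.univ : Finset I), {x : Om d S | out n (y : Vx d) x.2}) ≤
        P A + ∑ y : I, P {x : Om d S | out n (y : Vx d) x.2} := fun n A =>
    (measure_union_le _ _).trans (add_le_add le_rfl (measure_biUnion_finset_le _ _))
  have hsub : ∀ (n : ℕ), n₀ ≤ n → ∀ x : Om d S,
      x ∉ (⋃ y ∈ (Finset.univ : Finset I), {x : Om d S | out n (y : Vx d) x.2}) →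
      ∀ y : I, rec' hd tl (box d n) g (ope (tch (box d n)) x.2) x.1 y = g (x.1 y) := by
    intro n hn x hx y
    refine M10c_rec g n x y (hn₀ n hn y.2) fun h2 => hx ?_
    simp only [Set.mem_iUnion]
    exact ⟨y, Finset.mem_univ _, h2⟩
  refine le_antisymm ?_ ?_
  · have h2 : Tendsto (fun n => P {x : Om d S | ∀ y : I, x.1 y = t y} +
        ∑ y : I, P {x : Om d S | out n (y : Vx d) x.2}) atTop
        (𝓝 (P {x : Om d S | ∀ y : I, x.1 y = t y} + 0)) := h1.const_add _
    rw [add_zero] at h2
    refine ge_of_tendsto h2 ?_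
    filter_upwards [eventually_ge_atTop n₀] with n hn
    rw [M10c_eq v hv P hP g I t n]
    refine le_trans (measure_mono ?_) (hU n _)
    intro x hx
    by_cases h3 : x ∈ ⋃ y ∈ (Finset.univ : Finset I), {x : Om d S | out n (y : Vx d) x.2}
    · exact Or.inr h3
    · left
      intro y
      rw [hsub n hn x h3 y]
      exact hx y
  · have h2 : Tendsto (fun n => P {x : Om d S | ∀ y : I, g (x.1 y) = t y} +
        ∑ y : I, P {x : Om d S | out n (y : Vx d) x.2}) atTop
        (𝓝 (P {x : Om d S | ∀ y : I, g (x.1 y) = t y} + 0)) := h1.const_add _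
    rw [add_zero] at h2
    refine ge_of_tendsto h2 ?_
    filter_upwards [eventually_ge_atTop n₀] with n hn
    rw [M10c_eq v hv P hP g I t n]
    refine le_trans (measure_mono ?_) (hU n _)
    intro x hx
    by_cases h3 : x ∈ ⋃ y ∈ (Finset.univ : Finset I), {x : Om d S | out n (y : Vx d) x.2}
    · exact Or.inr h3
    · left
      intro y
      rw [← hsub n hn x h3 y]
      exact hx y

theorem sym_all (v : ℝ) (hv : 0 < v) (P : Measure (Om d S)) (hP : ES v P)
    (h : ∀ y : Vx d, P {x | toinf (opn x.2) y} = 0) (g : Equiv.Perm S) :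
    (P.map Prod.fst).map (fun (σ : Vx d → S) x => g (σ x)) = P.map Prod.fst := by
  have := hP.prob
  have hG : Measurable fun (σ : Vx d → S) x => g (σ x) :=
    measurable_pi_iff.2 fun x => (measurable_of_finite g).comp (measurable_pi_apply x)
  have : IsProbabilityMeasure (P.map Prod.fst) :=
    Measure.isProbabilityMeasure_map measurable_fst.aemeasurable
  have h2 : IsProjectiveLimit (P.map Prod.fst)
      (fun I : Finset (Vx d) => (P.map Prod.fst).map (I.restrict (π := fun _ => S))) := fun I => rfl
  have h1 : IsProjectiveLimit ((P.map Prod.fst).map (fun (σ : Vx d → S) x => g (σ x)))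
      (fun I : Finset (Vx d) => (P.map Prod.fst).map (I.restrict (π := fun _ => S))) := by
    intro I
    have hI : Measurable (I.restrict (π := fun _ : Vx d => S)) := Finset.measurable_restrict I
    refine Measure.ext_of_singleton fun t => ?_
    rw [Measure.map_apply hI (measurableSet_singleton t), Measure.map_apply hG (hI (measurableSet_singleton t)),
      Measure.map_apply measurable_fst (hG (hI (measurableSet_singleton t))),
      Measure.map_apply hI (measurableSet_singleton t),
      Measure.map_apply measurable_fst (hI (measurableSet_singleton t))]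
    have e1 : (Prod.fst ⁻¹' ((fun (σ : Vx d → S) x => g (σ x)) ⁻¹' (I.restrict (π := fun _ => S) ⁻¹' {t})) : Set (Om d S)) =
        {x : Om d S | ∀ y : I, g (x.1 y) = t y} := by
      ext x
      exact funext_iff
    have e2 : (Prod.fst ⁻¹' (I.restrict (π := fun _ => S) ⁻¹' {t}) : Set (Om d S)) =
        {x : Om d S | ∀ y : I, x.1 y = t y} := by
      ext x
      exact funext_iff
    rw [e1, e2]
    exact M10c_cyl v hv P hP h g I t
  exact h1.unique h2

end Pool.Agent.Lib.MP_6a79cf_pr
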