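import Pool.Agent.Lib.MP_6a79cf_pr.M9

/-!
LEAF M11 (domination of the free measure). `D = box m ⊆ D' = box N`, `F = tch D`. Event `R` for `x`: `nice D D' c x.1 (ope (tch D') x.2 \ F)`.
`P (A (ope F x.2)) ≥ P (A (ope F x.2) ∧ R) = ∫ KK_(D') dP ≥ ph0 D v A ∫ KK_(D') 1_R dP = ph0 D v A P (R)` (`KK_local`, `WW_dom`,
`ope (tch D') x.2 ∩ F = ope F x.2`). If `x` is good and not `R`, then some `y ∈ D ∪ bd D` is joined in `ope (tch D') x.2` to a `z ∉ D'`
of colour `≠ c`, so `out N y` and `x.1 y = x.1 z ≠ c`: `P (¬ R) ≤ ∑_(y ∈ D ∪ bd D) P (out N y, x.1 y ≠ c) → 0` as `N → ∞`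
(`out_small`, `good_ae`).
-/

set_option autoImplicit false

open scoped Classical ENNReal
open MeasureTheory Filter Topology

namespace Pool.Agent.Lib.MP_6a79cf_pr

variable {d : ℕ} {S : Type} [AddCommGroup S] [Fintype S] [MeasurableSpace S]
  [MeasurableSingletonClass S]

omit [AddCommGroup S] [Fintype S] [MeasurableSingletonClass S] in
private theorem M11_meas (F : Finset (Ed d)) (Q : (Vx d → S) → Finset (Ed d) → Prop)
    (hQ : ∀ η, MeasurableSet {σ : Vx d → S | Q σ η}) :
    MeasurableSet {x : Om d S | Q x.1 (ope F x.2)} := by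
  have h1 : {x : Om d S | Q x.1 (ope F x.2)} =
      ⋃ η : Finset (Ed d), {x : Om d S | ope F x.2 = η} ∩ {x : Om d S | Q x.1 η} := by
    ext x
    rw [Set.mem_iUnion]
    constructor
    · intro hx
      exact ⟨ope F x.2, rfl, hx⟩
    · rintro ⟨η, h2, h3⟩
      show Q x.1 (ope F x.2)
      have h2' : ope F x.2 = η := h2
      rw [h2']
      exact h3
  rw [h1]
  refine MeasurableSet.iUnion fun η => MeasurableSet.inter ?_ ?_
  · exact measurable_snd (meas_ope F (fun s => s = η))
  · exact measurable_fst (hQ η)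

omit [AddCommGroup S] [Fintype S] in
private theorem M11_nice (D D' : Finset (Vx d)) (c : S) (η : Finset (Ed d)) :
    MeasurableSet {σ : Vx d → S | nice D D' c σ η} := by
  have h1 : {σ : Vx d → S | nice D D' c σ η} =
      ⋂ y : Vx d, ⋂ z : Vx d, {σ : Vx d → S | y ∈ D ∪ bd D → z ∉ D' →
        con hd tl (↑η : Set (Ed d)) y z → σ z = c} := by
    ext σ
    rw [Set.mem_iInter]
    constructor
    · intro h y
      rw [Set.mem_iInter]
      intro z hy hz hc
      exact h y hy z hz hc
    · intro h y hy z hz hc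
      have h2 := h y
      rw [Set.mem_iInter] at h2
      exact h2 z hy hz hc
  rw [h1]
  refine MeasurableSet.iInter fun y => MeasurableSet.iInter fun z => ?_
  by_cases h2 : y ∈ D ∪ bd D ∧ z ∉ D' ∧ con hd tl (↑η : Set (Ed d)) y z
  · have h3 : {σ : Vx d → S | y ∈ D ∪ bd D → z ∉ D' →
        con hd tl (↑η : Set (Ed d)) y z → σ z = c} = (fun σ : Vx d → S => σ z) ⁻¹' {c} := by
      ext σ
      exact ⟨fun h => h h2.1 h2.2.1 h2.2.2, fun h _ _ _ => h⟩
    rw [h3]
    exact measurable_pi_apply z (measurableSet_singleton c)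
  · have h3 : {σ : Vx d → S | y ∈ D ∪ bd D → z ∉ D' →
        con hd tl (↑η : Set (Ed d)) y z → σ z = c} = Set.univ := by
      ext σ
      exact ⟨fun _ => trivial, fun _ h4 h5 h6 => absurd ⟨h4, h5, h6⟩ h2⟩
    rw [h3]
    exact MeasurableSet.univ

omit [MeasurableSingletonClass S] in
private theorem M11_int (v : ℝ) (hv : 0 < v) (P : Measure (Om d S)) (hP : ES v P) (N : ℕ)
    (Q : (Vx d → S) → Finset (Ed d) → Prop) (hQ : ∀ η, MeasurableSet {σ : Vx d → S | Q σ η}) :
    P {x | Q x.1 (ope (tch (box d N)) x.2)} =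
      ∫⁻ x, ENNReal.ofReal (WW hd tl (tch (box d N)) (box d N) v x.1 (fun σ η => if Q σ η then 1 else 0) /
        WW hd tl (tch (box d N)) (box d N) v x.1 (fun _ _ => 1)) ∂P := by
  have hm := M11_meas (S := S) (tch (box d N)) Q hQ
  have hf : (fun y : Om d S => ENNReal.ofReal
      ((fun (σ : Vx d → S) (η : Finset (Ed d)) => if Q σ η then (1 : ℝ) else 0) y.1
        (ope (tch (box d N)) y.2))) =
      Set.indicator {x : Om d S | Q x.1 (ope (tch (box d N)) x.2)} 1 := by
    funext y
    by_cases h : Q y.1 (ope (tch (box d N)) y.2)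
    · rw [Set.indicator_of_mem (show y ∈ {x : Om d S | Q x.1 (ope (tch (box d N)) x.2)} from h)]
      show ENNReal.ofReal (if Q y.1 (ope (tch (box d N)) y.2) then (1 : ℝ) else 0) = 1
      rw [if_pos h, ENNReal.ofReal_one]
    · rw [Set.indicator_of_notMem (show y ∉ {x : Om d S | Q x.1 (ope (tch (box d N)) x.2)} from h)]
      show ENNReal.ofReal (if Q y.1 (ope (tch (box d N)) y.2) then (1 : ℝ) else 0) = 0
      rw [if_neg h, ENNReal.ofReal_zero]
  have h1 := hP.res (fun _ => -(N : ℤ)) (fun _ => (N : ℤ))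
    (Set.indicator {x : Om d S | Q x.1 (ope (tch (box d N)) x.2)} 1)
    (measurable_one.indicator hm)
  rw [lintegral_indicator_one hm] at h1
  rw [h1]
  refine lintegral_congr fun x => ?_
  rw [← hf]
  exact KK_local v hv (box d N) (fun σ η => if Q σ η then (1 : ℝ) else 0)
    (fun σ η => by
      show (0 : ℝ) ≤ if Q σ η then (1 : ℝ) else 0
      split_ifs
      · exact zero_le_one
      · exact le_rfl) x

omit [AddCommGroup S] [MeasurableSpace S] [MeasurableSingletonClass S] in
private theorem M11_WW {X Y : Type} (a b : Y → X) (F : Finset Y) (D : Finset X) (v : ℝ)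
    (hv : 0 < v) (τ : X → S) (f : (X → S) → Finset Y → ℝ) (hf : ∀ σ η, 0 ≤ f σ η) :
    0 ≤ WW a b F D v τ f := by
  unfold WW
  refine Finset.sum_nonneg fun s _ => Finset.sum_nonneg fun η _ => ?_
  split_ifs
  · exact mul_nonneg (pow_nonneg hv.le _) (hf _ _)
  · exact le_rfl

omit [MeasurableSpace S] [MeasurableSingletonClass S] in
private theorem M11_ph0 (D : Finset (Vx d)) (v : ℝ) (hv : 0 < v) (A : Finset (Ed d) → Prop) :
    0 ≤ ph0 S D v A := by
  unfold ph0
  refine div_nonneg (M11_WW _ _ _ _ v hv _ _ fun σ η => ?_)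
    (M11_WW _ _ _ _ v hv _ _ fun _ _ => zero_le_one)
  show (0 : ℝ) ≤ if A η then (1 : ℝ) else 0
  split_ifs
  · exact zero_le_one
  · exact le_rfl

private theorem M11_step (v : ℝ) (hv : 0 < v) (P : Measure (Om d S)) (hP : ES v P) (c : S)
    (m N : ℕ) (hmN : m ≤ N) (A : Finset (Ed d) → Prop) (hA : inc A) :
    ENNReal.ofReal (ph0 S (box d m) v A) *
      P {x | nice (box d m) (box d N) c x.1 (ope (tch (box d N)) x.2 \ tch (box d m))} ≤
      P {x | A (ope (tch (box d m)) x.2)} := by
  have hsub : box d m ⊆ box d N := box_mono hmN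
  have h1 := M11_int v hv P hP N
    (fun σ η => nice (box d m) (box d N) c σ (η \ tch (box d m)))
    (fun η => M11_nice _ _ c _)
  have h2 := M11_int v hv P hP N
    (fun σ η => A (η ∩ tch (box d m)) ∧ nice (box d m) (box d N) c σ (η \ tch (box d m)))
    (fun η => by
      by_cases h : A (η ∩ tch (box d m))
      · have h3 : {σ : Vx d → S | A (η ∩ tch (box d m)) ∧
            nice (box d m) (box d N) c σ (η \ tch (box d m))} =
            {σ : Vx d → S | nice (box d m) (box d N) c σ (η \ tch (box d m))} := by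
          ext σ
          exact ⟨fun h4 => h4.2, fun h4 => ⟨h, h4⟩⟩
        rw [h3]
        exact M11_nice _ _ c _
      · have h3 : {σ : Vx d → S | A (η ∩ tch (box d m)) ∧
            nice (box d m) (box d N) c σ (η \ tch (box d m))} = ∅ := by
          ext σ
          exact ⟨fun h4 => h h4.1, fun h4 => absurd h4 (Set.notMem_empty _)⟩
        rw [h3]
        exact MeasurableSet.empty)
  calc ENNReal.ofReal (ph0 S (box d m) v A) *
      P {x | nice (box d m) (box d N) c x.1 (ope (tch (box d N)) x.2 \ tch (box d m))}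
      ≤ P {x | A (ope (tch (box d N)) x.2 ∩ tch (box d m)) ∧
          nice (box d m) (box d N) c x.1 (ope (tch (box d N)) x.2 \ tch (box d m))} := by
        rw [h1, h2, ← lintegral_const_mul' _ _ ENNReal.ofReal_ne_top]
        refine lintegral_mono fun x => ?_
        rw [← ENNReal.ofReal_mul (M11_ph0 _ v hv A)]
        refine ENNReal.ofReal_le_ofReal ?_
        have hW := WW_pos hd tl (tch (box d N)) (box d N) v hv x.1
        rw [← mul_div_assoc]
        refine div_le_div_of_nonneg_right ((WW_dom hsub v hv x.1 c A hA).trans (le_of_eq ?_)) hW.le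
        unfold WW
        refine Finset.sum_congr rfl fun s _ => Finset.sum_congr rfl fun η _ => ?_
        by_cases hQ : A (η ∩ tch (box d m)) ∧
            nice (box d m) (box d N) c (ext (box d N) x.1 s) (η \ tch (box d m))
        · simp only [if_pos hQ]
        · simp only [if_neg hQ]
    _ ≤ P {x | A (ope (tch (box d m)) x.2)} := by
        refine measure_mono fun x hx => ?_
        have h3 : ope (tch (box d N)) x.2 ∩ tch (box d m) = ope (tch (box d m)) x.2 := by
          ext e
          unfold ope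
          rw [Finset.mem_inter, Finset.mem_filter, Finset.mem_filter]
          exact ⟨fun h => ⟨h.2, h.1.2⟩, fun h => ⟨⟨tch_mono hsub h.1, h.2⟩, h.1⟩⟩
        have h4 : A (ope (tch (box d N)) x.2 ∩ tch (box d m)) := hx.1
        rw [h3] at h4
        exact h4

private theorem M11_bad (v : ℝ) (hv : 0 < v) (P : Measure (Om d S)) (hP : ES v P) (c : S)
    (m N : ℕ) :
    1 ≤ P {x | nice (box d m) (box d N) c x.1 (ope (tch (box d N)) x.2 \ tch (box d m))} +
      ∑ y ∈ box d m ∪ bd (box d m), P {x | out N y x.2 ∧ x.1 y ≠ c} := by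
  have hprob : IsProbabilityMeasure P := hP.prob
  set R : Set (Om d S) :=
    {x | nice (box d m) (box d N) c x.1 (ope (tch (box d N)) x.2 \ tch (box d m))} with hR
  have h1 : (1 : ℝ≥0∞) ≤ P R + P Rᶜ := by
    rw [← measure_univ (μ := P), ← Set.union_compl_self R]
    exact measure_union_le _ _
  refine h1.trans (add_le_add le_rfl ?_)
  have h2 : P Rᶜ ≤ P (⋃ y ∈ box d m ∪ bd (box d m), {x : Om d S | out N y x.2 ∧ x.1 y ≠ c}) := by
    refine measure_mono_ae ?_
    filter_upwards [good_ae v hv P hP] with x hx hxR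
    have h3 : ¬ nice (box d m) (box d N) c x.1 (ope (tch (box d N)) x.2 \ tch (box d m)) := hxR
    unfold nice at h3
    push Not at h3
    obtain ⟨y, hy, z, hz, hc, hne⟩ := h3
    have hc' : con hd tl (↑(ope (tch (box d N)) x.2) : Set (Ed d)) y z :=
      con_mono (fun e he => by
        rw [Finset.mem_coe] at he ⊢
        exact (Finset.mem_sdiff.1 he).1) hc
    have hcol : x.1 y = x.1 z := by
      refine con_col (A := opn x.2) hx (con_mono (fun e he => ?_) hc')
      rw [Finset.mem_coe] at he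
      unfold ope at he
      exact (Finset.mem_filter.1 he).2
    show x ∈ ⋃ y ∈ box d m ∪ bd (box d m), {x : Om d S | out N y x.2 ∧ x.1 y ≠ c}
    rw [Set.mem_iUnion₂]
    exact ⟨y, hy, ⟨z, hz, hc'⟩, by rw [hcol]; exact hne⟩
  exact h2.trans (measure_biUnion_finset_le _ _)

theorem P_dom (v : ℝ) (hv : 0 < v) (P : Measure (Om d S)) (hP : ES v P) (c : S) (h : only c P)
    (m : ℕ) (A : Finset (Ed d) → Prop) (hA : inc A) :
    ph0 S (box d m) v A ≤ (P {x | A (ope (tch (box d m)) x.2)}).toReal := by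
  have hprob : IsProbabilityMeasure P := hP.prob
  have hlim : Tendsto (fun N => ∑ y ∈ box d m ∪ bd (box d m), P {x | out N y x.2 ∧ x.1 y ≠ c})
      atTop (𝓝 0) := by
    have h1 := tendsto_finsetSum (box d m ∪ bd (box d m)) fun y _ => out_small P c h y
    rw [Finset.sum_const_zero] at h1
    exact h1
  have hlim2 : Tendsto (fun N => P {x | A (ope (tch (box d m)) x.2)} +
      ENNReal.ofReal (ph0 S (box d m) v A) *
        ∑ y ∈ box d m ∪ bd (box d m), P {x | out N y x.2 ∧ x.1 y ≠ c})
      atTop (𝓝 (P {x | A (ope (tch (box d m)) x.2)} +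
        ENNReal.ofReal (ph0 S (box d m) v A) * 0)) :=
    Tendsto.add tendsto_const_nhds
      (ENNReal.Tendsto.const_mul hlim (Or.inr ENNReal.ofReal_ne_top))
  rw [mul_zero, add_zero] at hlim2
  rw [← ENNReal.ofReal_le_iff_le_toReal (measure_ne_top P _)]
  refine ge_of_tendsto hlim2 ?_
  filter_upwards [eventually_ge_atTop m] with N hN
  have h1 := M11_bad v hv P hP c m N
  have h2 := M11_step v hv P hP c m N hN A hA
  calc ENNReal.ofReal (ph0 S (box d m) v A)
      = ENNReal.ofReal (ph0 S (box d m) v A) * 1 := (mul_one _).symm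
    _ ≤ ENNReal.ofReal (ph0 S (box d m) v A) *
        (P {x | nice (box d m) (box d N) c x.1 (ope (tch (box d N)) x.2 \ tch (box d m))} +
          ∑ y ∈ box d m ∪ bd (box d m), P {x | out N y x.2 ∧ x.1 y ≠ c}) :=
        by gcongr
    _ = ENNReal.ofReal (ph0 S (box d m) v A) *
        P {x | nice (box d m) (box d N) c x.1 (ope (tch (box d N)) x.2 \ tch (box d m))} +
        ENNReal.ofReal (ph0 S (box d m) v A) *
          ∑ y ∈ box d m ∪ bd (box d m), P {x | out N y x.2 ∧ x.1 y ≠ c} := mul_add _ _ _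
    _ ≤ _ := add_le_add h2 le_rfl

end Pool.Agent.Lib.MP_6a79cf_pr
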