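import Mathlib

/-!
LEAF M6a. With `N = 2n+1`: `K^(N^(d-1)) exp (- c N^d) = exp (N^(d-1) (log K - c N))`, and `N^(d-1) ≥ 1`, `log K - c N → -∞`:
for large `n` it is at most `exp (log K - c N)`.
-/

set_option autoImplicit false

open Filter Topology

namespace Pool.Agent.Lib.MP_6a79cf_pr

theorem bound_lim (d : ℕ) (hd : 1 ≤ d) (K c : ℝ) (hK : 1 ≤ K) (hc : 0 < c) :
    Tendsto (fun n : ℕ => K ^ ((2 * n + 1) ^ (d - 1)) * Real.exp (-(c * ((2 * n + 1 : ℕ) : ℝ) ^ d)))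
      atTop (𝓝 0) := by
  have hK0 : 0 < K := by linarith
  have hN : Tendsto (fun n : ℕ => ((2 * n + 1 : ℕ) : ℝ)) atTop atTop := by
    refine tendsto_natCast_atTop_atTop.comp ?_
    refine tendsto_atTop_mono (fun n => ?_) tendsto_id
    show n ≤ 2 * n + 1
    omega
  have h1 : Tendsto (fun n : ℕ => Real.log K - c * ((2 * n + 1 : ℕ) : ℝ)) atTop atBot := by
    have h2 : Tendsto (fun n : ℕ => -(c * ((2 * n + 1 : ℕ) : ℝ))) atTop atBot :=
      tendsto_neg_atTop_atBot.comp (hN.const_mul_atTop hc)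
    have h3 := tendsto_atBot_add_const_left atTop (Real.log K) h2
    refine h3.congr fun n => ?_
    ring
  have h2 : Tendsto (fun n : ℕ => Real.exp (Real.log K - c * ((2 * n + 1 : ℕ) : ℝ))) atTop (𝓝 0) :=
    Real.tendsto_exp_atBot.comp h1
  refine squeeze_zero' (Eventually.of_forall fun n => by positivity) ?_ h2
  filter_upwards [h1.eventually (eventually_le_atBot 0)] with n hn
  have h3 : (1 : ℝ) ≤ ((2 * n + 1 : ℕ) : ℝ) ^ (d - 1) := one_le_pow₀ (by exact_mod_cast (by omega))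
  have h4 : K ^ ((2 * n + 1) ^ (d - 1)) =
      Real.exp ((((2 * n + 1 : ℕ) : ℝ) ^ (d - 1)) * Real.log K) := by
    have h5 : ((((2 * n + 1 : ℕ) : ℝ) ^ (d - 1)) : ℝ) = (((2 * n + 1) ^ (d - 1) : ℕ) : ℝ) := by
      push_cast
      rfl
    rw [h5, Real.exp_nat_mul, Real.exp_log hK0]
  have h5 : ((2 * n + 1 : ℕ) : ℝ) ^ d = ((2 * n + 1 : ℕ) : ℝ) ^ (d - 1) * ((2 * n + 1 : ℕ) : ℝ) := by
    rw [← pow_succ, Nat.sub_add_cancel hd]
  rw [h4, ← Real.exp_add, h5]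
  refine Real.exp_le_exp.mpr ?_
  have h6 := mul_le_mul_of_nonpos_right h3 hn
  nlinarith [h6]

end Pool.Agent.Lib.MP_6a79cf_pr
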