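import Pool.Agent.Lib.MP_6a79cf_pr.Defs

/-!
LEAF R3 (recolouring). `τ' x = c₁` if `τ x = c₂`, else `τ x`. For `(s, η)` compatible put `s' x = c₁` if `s x = c₂` and `x` is
joined to `B` in `η`, otherwise `s x`. With `σ = ext D τ s`, `σ' = ext D τ' s'`: on `D ∪ B`, `σ' x = c₁` if `σ x = c₂` and `x` is
joined to `B` (a vertex of `B` is joined to itself), else `σ x`. `σ'` is compatible with `η` (the ends of an edge of `η` are in
`D ∪ B`, have the same `σ`-colour and are both or neither joined to `B`). The map is injective for given `η`: if `x ∈ D` is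
joined to `z ∈ B` in `η`, then `σ x = σ z = τ z`, otherwise `s x = s' x`. If `e ∈ two` then its ends have different `σ`-colours,
so they are not joined and `e ∉ η`, and both have `σ'`-colour `c₁`: `e ∈ dif (agr F σ') B η`. So
`WW τ (1 if u ≤ |two|) ≤ WW τ' (1 if u ≤ |dif|)` (sum over the image, nonnegative terms).
-/

set_option autoImplicit false

open scoped Classical

namespace Pool.Agent.Lib.MP_6a79cf_pr

variable {X Y S : Type} [Fintype S]

omit [Fintype S] in
private theorem R3_same {a b : Y → X} {A : Set Y} {σ : X → S} (h : comp a b A σ) {x y : X}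
    (hxy : con a b A x y) : σ x = σ y := by
  unfold con at hxy
  induction hxy with
  | rel x y h1 =>
    obtain ⟨e, he, rfl, rfl⟩ := h1
    exact h e he
  | refl x => rfl
  | symm x y _ ih => exact ih.symm
  | trans x y z _ _ ih1 ih2 => exact ih1.trans ih2

private theorem R3_edge {a b : Y → X} {A : Set Y} {e : Y} (he : e ∈ A) : con a b A (a e) (b e) :=
  Relation.EqvGen.rel _ _ ⟨e, he, rfl, rfl⟩

private theorem R3_cst {a b : Y → X} {A : Set Y} {B : Set X} {x y : X} (h : con a b A x y) :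
    cst a b A B x ↔ cst a b A B y := by
  constructor
  · rintro ⟨z, hz, h1⟩
    exact ⟨z, hz, Relation.EqvGen.trans _ _ _ (Relation.EqvGen.symm _ _ h) h1⟩
  · rintro ⟨z, hz, h1⟩
    exact ⟨z, hz, Relation.EqvGen.trans _ _ _ h h1⟩

/-- The recoloured colouring. -/
private noncomputable def R3_phi (a b : Y → X) (A : Set Y) (B : Set X) (D : Finset X) (c₁ c₂ : S)
    (s : D → S) : D → S :=
  fun x => if s x = c₂ ∧ cst a b A B x then c₁ else s x

omit [Fintype S] in
private theorem R3_ext {a b : Y → X} {A : Set Y} {D B : Finset X}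
    (τ : X → S) (c₁ c₂ : S) (s : D → S) {x : X} (hx : x ∈ D ∪ B) :
    ext D (fun x => if τ x = c₂ then c₁ else τ x) (R3_phi a b A ↑B D c₁ c₂ s) x =
      if ext D τ s x = c₂ ∧ cst a b A ↑B x then c₁ else ext D τ s x := by
  by_cases hD : x ∈ D
  · simp only [ext, dif_pos hD, R3_phi]
  · have hB : x ∈ B := (Finset.mem_union.1 hx).resolve_left hD
    have hc : cst a b A (↑B : Set X) x := ⟨x, by exact_mod_cast hB, Relation.EqvGen.refl _⟩
    simp only [ext, dif_neg hD, hc, and_true]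

omit [Fintype S] in
private theorem R3_comp {a b : Y → X} {F : Finset Y} {D B : Finset X}
    (hF : ∀ e ∈ F, a e ∈ D ∪ B ∧ b e ∈ D ∪ B) {τ : X → S} {c₁ c₂ : S} {η : Finset Y} (hη : η ⊆ F)
    {s : D → S} (h : comp a b (↑η : Set Y) (ext D τ s)) :
    comp a b (↑η : Set Y) (ext D (fun x => if τ x = c₂ then c₁ else τ x)
      (R3_phi a b ↑η ↑B D c₁ c₂ s)) := by
  intro e he
  have heF : e ∈ F := hη (by exact_mod_cast he)
  rw [R3_ext τ c₁ c₂ s (hF e heF).1, R3_ext τ c₁ c₂ s (hF e heF).2, h e he]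
  have h1 := R3_cst (B := (↑B : Set X)) (R3_edge (a := a) (b := b) he)
  by_cases h2 : cst a b (↑η : Set Y) (↑B : Set X) (a e)
  · have h3 := h1.1 h2
    simp only [h2, h3]
  · have h3 : ¬ cst a b (↑η : Set Y) (↑B : Set X) (b e) := fun h4 => h2 (h1.2 h4)
    simp only [h2, h3]

omit [Fintype S] in
private theorem R3_inj {a b : Y → X} {D B : Finset X} (hDB : Disjoint D B)
    {τ : X → S} {c₁ c₂ : S} {η : Finset Y} {s t : D → S}
    (hs : comp a b (↑η : Set Y) (ext D τ s)) (ht : comp a b (↑η : Set Y) (ext D τ t))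
    (h : R3_phi a b (↑η : Set Y) (↑B : Set X) D c₁ c₂ s = R3_phi a b (↑η : Set Y) (↑B : Set X) D c₁ c₂ t) :
    s = t := by
  funext x
  by_cases hx : cst a b (↑η : Set Y) (↑B : Set X) (x : X)
  · obtain ⟨z, hz, hxz⟩ := hx
    have hzD : z ∉ D := fun h1 => Finset.disjoint_left.1 hDB h1 (by exact_mod_cast hz)
    have h1 := R3_same hs hxz
    have h2 := R3_same ht hxz
    simp only [ext, dif_neg hzD, dif_pos x.2] at h1 h2
    exact h1.trans h2.symm
  · have h1 := congrFun h x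
    simp only [R3_phi, hx, and_false, if_false] at h1
    exact h1

omit [Fintype S] in
private theorem R3_two {a b : Y → X} {F : Finset Y} {D B : Finset X}
    (hF : ∀ e ∈ F, a e ∈ D ∪ B ∧ b e ∈ D ∪ B) {τ : X → S} {c₁ c₂ : S} (hc : c₁ ≠ c₂) {η : Finset Y}
    {s : D → S} (h : comp a b (↑η : Set Y) (ext D τ s)) :
    two a b F ↑B c₁ c₂ (ext D τ s) η ⊆
      dif a b (agr a b F (ext D (fun x => if τ x = c₂ then c₁ else τ x)
        (R3_phi a b ↑η ↑B D c₁ c₂ s))) ↑B η := by
  intro e he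
  unfold two at he
  obtain ⟨heF, h1, h2, h3⟩ := Finset.mem_filter.1 he
  have hne : ext D τ s (a e) ≠ ext D τ s (b e) := by
    rcases h1 with ⟨h4, h5⟩ | ⟨h4, h5⟩
    · rw [h4, h5]
      exact hc
    · rw [h4, h5]
      exact hc.symm
  have hcon : ¬ con a b (↑η : Set Y) (a e) (b e) := fun h4 => hne (R3_same h h4)
  unfold dif agr
  refine Finset.mem_filter.2 ⟨Finset.mem_filter.2 ⟨heF, ?_⟩, ?_, h2, h3, hcon⟩
  · rw [R3_ext τ c₁ c₂ s (hF e heF).1, R3_ext τ c₁ c₂ s (hF e heF).2]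
    rcases h1 with ⟨h4, h5⟩ | ⟨h4, h5⟩
    · rw [h4, h5, if_neg (fun h6 => hc h6.1), if_pos ⟨rfl, h3⟩]
    · rw [h4, h5, if_pos ⟨rfl, h2⟩, if_neg (fun h6 => hc h6.1)]
  · intro h4
    exact hcon (R3_edge (by exact_mod_cast h4))

theorem recolour (a b : Y → X) (F : Finset Y) (D B : Finset X) (hDB : Disjoint D B)
    (hF : ∀ e ∈ F, a e ∈ D ∪ B ∧ b e ∈ D ∪ B) (v : ℝ) (hv : 0 < v) (τ : X → S) (c₁ c₂ : S)
    (hc : c₁ ≠ c₂) (u : ℝ) :
    WW a b F D v τ (fun σ η => if u ≤ ((two a b F ↑B c₁ c₂ σ η).card : ℝ) then 1 else 0) ≤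
      WW a b F D v (fun x => if τ x = c₂ then c₁ else τ x)
        (fun σ η => if u ≤ ((dif a b (agr a b F σ) ↑B η).card : ℝ) then 1 else 0) := by
  unfold WW
  rw [Finset.sum_comm, Finset.sum_comm (s := (Finset.univ : Finset (D → S)))]
  refine Finset.sum_le_sum fun η hη => ?_
  have hηF : η ⊆ F := Finset.mem_powerset.1 hη
  have hv' : 0 ≤ v ^ η.card := pow_nonneg hv.le _
  rw [← Finset.sum_filter, ← Finset.sum_filter]
  have h1 : ∀ s ∈ Finset.univ.filter (fun s : D → S => comp a b (↑η : Set Y) (ext D τ s)),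
      v ^ η.card * (if u ≤ ((two a b F ↑B c₁ c₂ (ext D τ s) η).card : ℝ) then (1 : ℝ) else 0) ≤
      v ^ η.card * (if u ≤ ((dif a b (agr a b F (ext D (fun x => if τ x = c₂ then c₁ else τ x)
        (R3_phi a b ↑η ↑B D c₁ c₂ s))) ↑B η).card : ℝ) then (1 : ℝ) else 0) := by
    intro s hs
    refine mul_le_mul_of_nonneg_left ?_ hv'
    by_cases h2 : u ≤ ((two a b F ↑B c₁ c₂ (ext D τ s) η).card : ℝ)
    · have h3 : u ≤ ((dif a b (agr a b F (ext D (fun x => if τ x = c₂ then c₁ else τ x)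
          (R3_phi a b ↑η ↑B D c₁ c₂ s))) ↑B η).card : ℝ) := by
        refine h2.trans ?_
        exact_mod_cast Finset.card_le_card (R3_two hF hc (Finset.mem_filter.1 hs).2)
      rw [if_pos h2, if_pos h3]
    · rw [if_neg h2]
      split_ifs <;> norm_num
  refine (Finset.sum_le_sum h1).trans ?_
  have hinj : Set.InjOn (R3_phi a b (↑η : Set Y) (↑B : Set X) D c₁ c₂)
      (↑(Finset.univ.filter (fun s : D → S => comp a b (↑η : Set Y) (ext D τ s))) : Set (D → S)) := by
    intro s hs t ht hst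
    have hs' := (Finset.mem_filter.1 (Finset.mem_coe.1 hs)).2
    have ht' := (Finset.mem_filter.1 (Finset.mem_coe.1 ht)).2
    exact R3_inj hDB hs' ht' hst
  rw [← Finset.sum_image (f := fun s' : D → S => v ^ η.card *
    (if u ≤ ((dif a b (agr a b F (ext D (fun x => if τ x = c₂ then c₁ else τ x) s')) ↑B η).card : ℝ)
      then (1 : ℝ) else 0)) hinj]
  refine Finset.sum_le_sum_of_subset_of_nonneg ?_ ?_
  · intro s' hs'
    obtain ⟨s, hs, rfl⟩ := Finset.mem_image.1 hs'
    exact Finset.mem_filter.2 ⟨Finset.mem_univ _, R3_comp hF hηF (Finset.mem_filter.1 hs).2⟩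
  · intro s' _ _
    refine mul_nonneg hv' ?_
    split_ifs <;> norm_num

end Pool.Agent.Lib.MP_6a79cf_pr
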