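import Pool.Agent.Lib.MP_6a79cf_pr.R2
import Pool.Agent.Lib.MP_6a79cf_pr.R3

/-!
LEAF R4 (conclusion, assembly): `recolour`, `WW_dif`, `WW_ratio`.
-/

set_option autoImplicit false

open scoped Classical

namespace Pool.Agent.Lib.MP_6a79cf_pr

variable {X Y S : Type} [Fintype S]

theorem few_two (a b : Y → X) (F : Finset Y) (D B : Finset X) (hDB : Disjoint D B)
    (hF : ∀ e ∈ F, a e ∈ D ∪ B ∧ b e ∈ D ∪ B) (v : ℝ) (hv : 0 < v) (τ : X → S) (c₁ c₂ : S)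
    (hc : c₁ ≠ c₂) (u : ℝ) (hu : 0 ≤ u) :
    WW a b F D v τ (fun σ η => if u ≤ ((two a b F ↑B c₁ c₂ σ η).card : ℝ) then 1 else 0) ≤
      2 ^ B.card * (6 * Real.exp (-((v / (1 + v)) ^ 2 * u ^ 2 / (144 * F.card)))) *
        ((1 + v) ^ (F.filter fun e => ¬ (a e ∈ D ∧ b e ∈ D)).card *
          WW a b F D v τ (fun _ _ => 1)) := by
  refine (recolour a b F D B hDB hF v hv τ c₁ c₂ hc u).trans
    ((WW_dif a b F D B v hv (fun x => if τ x = c₂ then c₁ else τ x) u hu).trans ?_)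
  refine mul_le_mul_of_nonneg_left (WW_ratio a b F D v hv τ _) ?_
  positivity

end Pool.Agent.Lib.MP_6a79cf_pr
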