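import Pool.Agent.Lib.MP_6a79cf_pr.M5
import Pool.Agent.Lib.MP_6a79cf_pr.R4
import Pool.Agent.Lib.MP_6a79cf_pr.M6a

/-!
LEAF M6 (two colours do not coexist). `few_adj`: `s = P (Adj e)` is the
same for all edges of the direction of `e` (`TI`). In the box `D = box n` (`F = tch D`, `B = bd D`) let `N` be the number of
`x ∈ box n` with `Adj (x, i)`; for good configurations `N ≤ |two F B c₁ c₂ x.1 (ope F x.2)|` (`first_exit`: an end in the box is joined
to `bd D` inside `ope F`; an end outside of the box is in `bd D`). `∫ N dP = s |box n|`; `N ≤ |F|`. With `u = s |box n|/2`: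
`s |box n| ≤ u + |F| P (u ≤ |two|)`, `P (u ≤ |two|) = ∫ KK .. dP ≤ (bound of few_two)`, `|F| ≤ 2 d |box n|`: so
`s/(4d) ≤ 2^|B| 6 exp (- p² u²/(144 |F|)) (1+v)^|F_∂| → 0` (`bd_card`, `tch_bd_card`, `tch_card`, `box_card`, `bound_lim` with `K = (2 (1+v))^(2d)`). So `s = 0`. With
`adj_pos`: `no_two`.
-/

set_option autoImplicit false

open scoped Classical ENNReal
open MeasureTheory Filter Topology

namespace Pool.Agent.Lib.MP_6a79cf_pr

variable {d : ℕ} {S : Type} [AddCommGroup S] [Fintype S] [MeasurableSpace S]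
  [MeasurableSingletonClass S]

/-! ### measurability -/

omit [AddCommGroup S] [Fintype S] in
private theorem M6_col (y : Vx d) (c : S) : MeasurableSet {x : Om d S | x.1 y = c} := by
  have h : Measurable fun x : Om d S => x.1 y := (measurable_pi_apply y).comp measurable_fst
  exact h (measurableSet_singleton c)

omit [AddCommGroup S] [Fintype S] in
private theorem M6_cols (e : Ed d) (c₁ c₂ : S) : MeasurableSet {x : Om d S |
    (x.1 (hd e) = c₁ ∧ x.1 (tl e) = c₂) ∨ (x.1 (hd e) = c₂ ∧ x.1 (tl e) = c₁)} :=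
  ((M6_col (hd e) c₁).inter (M6_col (tl e) c₂)).union ((M6_col (hd e) c₂).inter (M6_col (tl e) c₁))

omit [AddCommGroup S] [Fintype S] in
private theorem M6_adj (e : Ed d) (c₁ c₂ : S) : MeasurableSet {x : Om d S | Adj c₁ c₂ e x} :=
  (M6_cols e c₁ c₂).inter ((measurable_snd (meas_toinf' (hd e))).inter (measurable_snd (meas_toinf' (tl e))))

omit [AddCommGroup S] [Fintype S] in
private theorem M6_card (F : Finset (Ed d)) (B : Set (Vx d)) (c₁ c₂ : S) :
    Measurable fun x : Om d S => ((two hd tl F B c₁ c₂ x.1 (ope F x.2)).card : ℝ) := by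
  have h1 : (fun x : Om d S => ((two hd tl F B c₁ c₂ x.1 (ope F x.2)).card : ℝ)) = fun x => ∑ e ∈ F,
      if ((x.1 (hd e) = c₁ ∧ x.1 (tl e) = c₂) ∨ (x.1 (hd e) = c₂ ∧ x.1 (tl e) = c₁)) ∧
        (cst hd tl (↑(ope F x.2) : Set (Ed d)) B (hd e) ∧ cst hd tl (↑(ope F x.2) : Set (Ed d)) B (tl e)) then (1 : ℝ) else 0 := by
    funext x
    rw [two, Finset.card_filter]
    push_cast
    rfl
  rw [h1]
  refine Finset.measurable_sum _ fun e _ => ?_
  refine Measurable.ite ?_ measurable_const measurable_const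
  exact (M6_cols e c₁ c₂).inter (measurable_snd (meas_ope F fun η =>
    cst hd tl (↑η : Set (Ed d)) B (hd e) ∧ cst hd tl (↑η : Set (Ed d)) B (tl e)))

/-! ### translation -/

omit [AddCommGroup S] [Fintype S] [MeasurableSpace S] [MeasurableSingletonClass S] in
private theorem M6_con (z : Vx d) (x : Om d S) {y w : Vx d} (h : con hd tl (opn (sh z x).2) y w) :
    con hd tl (opn x.2) (y + z) (w + z) := by
  induction h with
  | rel a b hab =>
    obtain ⟨e, he, rfl, rfl⟩ := hab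
    refine Relation.EqvGen.rel _ _ ⟨(e.1 + z, e.2), he, rfl, ?_⟩
    show e.1 + z + Pi.single e.2 1 = e.1 + Pi.single e.2 1 + z
    rw [add_right_comm]
  | refl a => exact Relation.EqvGen.refl _
  | symm a b _ ih => exact Relation.EqvGen.symm _ _ ih
  | trans a b c _ _ ih1 ih2 => exact Relation.EqvGen.trans _ _ _ ih1 ih2

omit [AddCommGroup S] [Fintype S] [MeasurableSpace S] [MeasurableSingletonClass S] in
private theorem M6_toinf (z : Vx d) (x : Om d S) {y : Vx d} (h : toinf (opn (sh z x).2) y) :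
    toinf (opn x.2) (y + z) := by
  intro m
  obtain ⟨M, hM⟩ := box_exh ((box d m).image fun w => w - z)
  obtain ⟨w, hw, hc⟩ := h M
  refine ⟨w + z, fun hm => hw (hM ?_), M6_con z x hc⟩
  exact Finset.mem_image.2 ⟨w + z, hm, add_sub_cancel_right w z⟩

omit [AddCommGroup S] [Fintype S] [MeasurableSpace S] [MeasurableSingletonClass S] in
private theorem M6_shift (z : Vx d) (x : Om d S) (c₁ c₂ : S) (y : Vx d) (i : Fin d) (h : Adj c₁ c₂ (y, i) (sh z x)) :
    Adj c₁ c₂ (y + z, i) x := by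
  obtain ⟨h1, h2, h3⟩ := h
  have e1 : tl ((y + z, i) : Ed d) = tl ((y, i) : Ed d) + z := add_right_comm _ _ _
  have e2 : hd ((y + z, i) : Ed d) = hd ((y, i) : Ed d) + z := rfl
  refine ⟨?_, ?_, ?_⟩
  · rw [e1, e2]
    exact h1
  · rw [e2]
    exact M6_toinf z x h2
  · rw [e1]
    exact M6_toinf z x h3

omit [AddCommGroup S] [Fintype S] in
private theorem M6_le (P : Measure (Om d S)) (hT : TI P) (c₁ c₂ : S) (x y : Vx d) (i : Fin d) :
    P {ω | Adj c₁ c₂ (x, i) ω} ≤ P {ω | Adj c₁ c₂ (y, i) ω} := by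
  have h1 : (P.map (sh (y - x))) {ω | Adj c₁ c₂ (x, i) ω} = P {ω | Adj c₁ c₂ (x, i) ω} := by rw [hT (y - x)]
  rw [Measure.map_apply (meas_sh _) (M6_adj _ _ _)] at h1
  rw [← h1]
  refine measure_mono fun ω hω => ?_
  have h2 := M6_shift (y - x) ω c₁ c₂ x i hω
  rw [add_sub_cancel] at h2
  exact h2

/-! ### the number of contacts -/

omit [AddCommGroup S] [Fintype S] [MeasurableSpace S] [MeasurableSingletonClass S] in
private theorem M6_cst (n : ℕ) (x : Om d S) {y : Vx d} (hy : y ∈ box d n ∪ bd (box d n)) (h : toinf (opn x.2) y) :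
    cst hd tl (↑(ope (tch (box d n)) x.2) : Set (Ed d)) (↑(bd (box d n)) : Set (Vx d)) y := by
  by_cases hyb : y ∈ box d n
  · obtain ⟨z, hz, hc⟩ := h n
    obtain ⟨u, hu, hcu⟩ := first_exit hc hyb hz
    refine ⟨u, hu, con_mono ?_ hcu⟩
    rintro e ⟨he1, he2⟩
    exact Finset.mem_coe.2 (Finset.mem_filter.2 ⟨Finset.mem_coe.1 he2, he1⟩)
  · have h1 : y ∈ bd (box d n) := (Finset.mem_union.1 hy).resolve_left hyb
    exact ⟨y, h1, Relation.EqvGen.refl y⟩

omit [AddCommGroup S] [Fintype S] [MeasurableSpace S] [MeasurableSingletonClass S] in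
private theorem M6_count (n : ℕ) (x : Om d S) (c₁ c₂ : S) (i : Fin d) :
    ((box d n).filter fun y => Adj c₁ c₂ (y, i) x).card ≤
      (two hd tl (tch (box d n)) (↑(bd (box d n)) : Set (Vx d)) c₁ c₂ x.1 (ope (tch (box d n)) x.2)).card := by
  refine Finset.card_le_card_of_injOn (fun y => ((y, i) : Ed d)) ?_ ?_
  · intro y hy
    obtain ⟨hy1, hy2⟩ := Finset.mem_filter.1 (Finset.mem_coe.1 hy)
    obtain ⟨h1, h2, h3⟩ := hy2
    have ht : ((y, i) : Ed d) ∈ tch (box d n) := mem_tch.2 (Or.inl hy1)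
    have he := ends_tch ht
    refine Finset.mem_coe.2 (Finset.mem_filter.2 ⟨ht, h1, ?_, ?_⟩)
    · exact M6_cst n x (Finset.mem_union.2 (Finset.mem_union.1 he.1)) h2
    · exact M6_cst n x (Finset.mem_union.2 (Finset.mem_union.1 he.2)) h3
  · intro y _ y' _ h
    exact congrArg Prod.fst h

private theorem M6_union {X : Type} {D B : Finset X} {x : X} (h : x ∈ D ∨ x ∈ B) : x ∈ D ∪ B := Finset.mem_union.2 h

/-- the bound of `few_two` -/
private noncomputable def M6_Q (d : ℕ) (v : ℝ) (n : ℕ) (u : ℝ) : ℝ :=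
  2 ^ (bd (box d n)).card * (6 * Real.exp (-((v / (1 + v)) ^ 2 * u ^ 2 / (144 * (tch (box d n)).card)))) *
    (1 + v) ^ ((tch (box d n)).filter fun e => ¬ (hd e ∈ box d n ∧ tl e ∈ box d n)).card

private theorem M6_prob (v : ℝ) (hv : 0 < v) (P : Measure (Om d S)) (hP : ES v P) {c₁ c₂ : S} (hc : c₁ ≠ c₂) (n : ℕ) (u : ℝ)
    (hu : 0 ≤ u) :
    ∫⁻ x, ENNReal.ofReal (if u ≤ ((two hd tl (tch (box d n)) (↑(bd (box d n)) : Set (Vx d)) c₁ c₂ x.1
      (ope (tch (box d n)) x.2)).card : ℝ) then 1 else 0) ∂P ≤ ENNReal.ofReal (M6_Q d v n u) := by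
  have hne : Nonempty S := ⟨0⟩
  have := hP.prob
  have hm : Measurable fun x : Om d S => ENNReal.ofReal (if u ≤ ((two hd tl (tch (box d n)) (↑(bd (box d n)) : Set (Vx d)) c₁ c₂ x.1
      (ope (tch (box d n)) x.2)).card : ℝ) then 1 else 0) :=
    (Measurable.ite (measurableSet_le measurable_const (M6_card _ _ c₁ c₂)) measurable_const measurable_const).ennreal_ofReal
  have h1 := hP.res (fun _ => -(n : ℤ)) (fun _ => (n : ℤ)) _ hm
  rw [h1]
  have h2 : ∀ x : Om d S, KK v (Finset.Icc (fun _ => -(n : ℤ)) (fun _ => (n : ℤ))) (fun x : Om d S =>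
      ENNReal.ofReal (if u ≤ ((two hd tl (tch (box d n)) (↑(bd (box d n)) : Set (Vx d)) c₁ c₂ x.1
      (ope (tch (box d n)) x.2)).card : ℝ) then 1 else 0)) x ≤ ENNReal.ofReal (M6_Q d v n u) := by
    intro x
    have h3 := KK_local v hv (box d n) (fun σ η => if u ≤ ((two hd tl (tch (box d n)) (↑(bd (box d n)) : Set (Vx d)) c₁ c₂ σ
      η).card : ℝ) then (1 : ℝ) else 0) (fun σ η => by split_ifs <;> norm_num) x
    refine le_of_eq_of_le h3 (ENNReal.ofReal_le_ofReal ?_)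
    have hW := WW_pos (S := S) hd tl (tch (box d n)) (box d n) v hv x.1
    rw [div_le_iff₀ hW]
    have h4 := few_two (S := S) hd tl (tch (box d n)) (box d n) (bd (box d n)) ?_ ?_ v hv x.1 c₁ c₂ hc u hu
    · refine h4.trans (le_of_eq ?_)
      unfold M6_Q
      ring_nf
      congr
    · refine Finset.disjoint_left.2 fun y hy hy' => ?_
      exact (Finset.mem_sdiff.1 hy').2 hy
    · intro e he
      exact ⟨M6_union (Finset.mem_union.1 (ends_tch he).1), M6_union (Finset.mem_union.1 (ends_tch he).2)⟩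
  calc _ ≤ ∫⁻ _ : Om d S, ENNReal.ofReal (M6_Q d v n u) ∂P := lintegral_mono h2
    _ = _ := by rw [lintegral_const, measure_univ, mul_one]

private theorem M6_first (v : ℝ) (hv : 0 < v) (P : Measure (Om d S)) (hP : ES v P) (hT : TI P) {c₁ c₂ : S} (hc : c₁ ≠ c₂)
    (e : Ed d) (n : ℕ) (u : ℝ) (hu : 0 ≤ u) :
    ((box d n).card : ℝ) * (P {x | Adj c₁ c₂ e x}).toReal ≤ u + (tch (box d n)).card * M6_Q d v n u := by
  have := hP.prob
  have hQ : 0 ≤ M6_Q d v n u := by unfold M6_Q; positivity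
  have h1 : ((box d n).card : ℝ≥0∞) * P {x | Adj c₁ c₂ e x} ≤ ∑ y ∈ box d n, P {x | Adj c₁ c₂ (y, e.2) x} := by
    rw [← nsmul_eq_mul, ← Finset.sum_const]
    exact Finset.sum_le_sum fun y _ => M6_le P hT c₁ c₂ e.1 y e.2
  have h2 : ∑ y ∈ box d n, P {x | Adj c₁ c₂ (y, e.2) x} =
      ∫⁻ x, ∑ y ∈ box d n, ({x | Adj c₁ c₂ (y, e.2) x} : Set (Om d S)).indicator 1 x ∂P := by
    rw [lintegral_finsetSum _ fun y _ => (measurable_one.indicator (M6_adj (y, e.2) c₁ c₂))]
    exact Finset.sum_congr rfl fun y _ => (lintegral_indicator_one (M6_adj (y, e.2) c₁ c₂)).symm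
  have h3 : ∀ x : Om d S, ∑ y ∈ box d n, ({x | Adj c₁ c₂ (y, e.2) x} : Set (Om d S)).indicator (1 : Om d S → ℝ≥0∞) x ≤
      ENNReal.ofReal u + ((tch (box d n)).card : ℝ≥0∞) *
        ENNReal.ofReal (if u ≤ ((two hd tl (tch (box d n)) (↑(bd (box d n)) : Set (Vx d)) c₁ c₂ x.1
          (ope (tch (box d n)) x.2)).card : ℝ) then 1 else 0) := by
    intro x
    have e1 : ∑ y ∈ box d n, ({x | Adj c₁ c₂ (y, e.2) x} : Set (Om d S)).indicator (1 : Om d S → ℝ≥0∞) x =
        (((box d n).filter fun y => Adj c₁ c₂ (y, e.2) x).card : ℝ≥0∞) := by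
      rw [Finset.card_filter]
      push_cast
      refine Finset.sum_congr rfl fun y _ => ?_
      rw [Set.indicator_apply]
      rfl
    rw [e1]
    have e2 := M6_count n x c₁ c₂ e.2
    have e3 : (two hd tl (tch (box d n)) (↑(bd (box d n)) : Set (Vx d)) c₁ c₂ x.1 (ope (tch (box d n)) x.2)).card ≤
        (tch (box d n)).card := Finset.card_filter_le _ _
    by_cases hcase : u ≤ ((two hd tl (tch (box d n)) (↑(bd (box d n)) : Set (Vx d)) c₁ c₂ x.1
      (ope (tch (box d n)) x.2)).card : ℝ)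
    · rw [if_pos hcase, ENNReal.ofReal_one, mul_one]
      refine le_trans ?_ le_add_self
      exact_mod_cast e2.trans e3
    · rw [if_neg hcase, ENNReal.ofReal_zero, mul_zero, add_zero]
      push Not at hcase
      refine (Nat.cast_le.2 e2).trans ?_
      rw [← ENNReal.ofReal_natCast]
      exact ENNReal.ofReal_le_ofReal hcase.le
  have hm : Measurable fun x : Om d S => ENNReal.ofReal (if u ≤ ((two hd tl (tch (box d n)) (↑(bd (box d n)) : Set (Vx d)) c₁ c₂ x.1
      (ope (tch (box d n)) x.2)).card : ℝ) then 1 else 0) :=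
    (Measurable.ite (measurableSet_le measurable_const (M6_card _ _ c₁ c₂)) measurable_const measurable_const).ennreal_ofReal
  have h4 : ((box d n).card : ℝ≥0∞) * P {x | Adj c₁ c₂ e x} ≤
      ENNReal.ofReal u + ((tch (box d n)).card : ℝ≥0∞) * ENNReal.ofReal (M6_Q d v n u) := by
    refine h1.trans (h2.le.trans ((lintegral_mono h3).trans ?_))
    rw [lintegral_add_left measurable_const, lintegral_const, measure_univ, mul_one, lintegral_const_mul _ hm]
    gcongr
    exact M6_prob v hv P hP hc n u hu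
  have h5 := ENNReal.toReal_mono (by
    refine ENNReal.add_ne_top.2 ⟨ENNReal.ofReal_ne_top, ENNReal.mul_ne_top (ENNReal.natCast_ne_top _) ENNReal.ofReal_ne_top⟩) h4
  rw [ENNReal.toReal_mul, ENNReal.toReal_natCast, ENNReal.toReal_add ENNReal.ofReal_ne_top
    (ENNReal.mul_ne_top (ENNReal.natCast_ne_top _) ENNReal.ofReal_ne_top), ENNReal.toReal_ofReal hu, ENNReal.toReal_mul,
    ENNReal.toReal_natCast, ENNReal.toReal_ofReal hQ] at h5
  exact h5

theorem few_adj (hd1 : 1 ≤ d) (v : ℝ) (hv : 0 < v) (P : Measure (Om d S)) (hP : ES v P)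
    (hT : TI P) {c₁ c₂ : S} (hc : c₁ ≠ c₂) (e : Ed d) : P {x | Adj c₁ c₂ e x} = 0 := by
  have := hP.prob
  by_contra hne
  set s := (P {x | Adj c₁ c₂ e x}).toReal with hs
  have hs0 : 0 < s := ENNReal.toReal_pos hne (measure_ne_top _ _)
  set c := (v / (1 + v)) ^ 2 * s ^ 2 / (1152 * d) with hcdef
  have hd0 : (0 : ℝ) < d := by exact_mod_cast hd1
  have hc0 : 0 < c := by positivity
  set K := (2 * (1 + v)) ^ (2 * d) with hK
  have hK1 : 1 ≤ K := one_le_pow₀ (by linarith)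
  have hlim := (bound_lim d hd1 K c hK1 hc0).const_mul (6 : ℝ)
  rw [mul_zero] at hlim
  have hev := (hlim.eventually (gt_mem_nhds (by positivity : 0 < s / (4 * d)))).exists
  obtain ⟨n, hn⟩ := hev
  have hN : (0 : ℝ) < ((2 * n + 1 : ℕ) : ℝ) ^ d := by positivity
  have hbox : ((box d n).card : ℝ) = ((2 * n + 1 : ℕ) : ℝ) ^ d := by
    rw [box_card]
    push_cast
    ring
  have h1 := M6_first v hv P hP hT hc e n (s * ((2 * n + 1 : ℕ) : ℝ) ^ d / 2) (by positivity)
  rw [hbox, ← hs] at h1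
  have hF : ((tch (box d n)).card : ℝ) ≤ 2 * d * ((2 * n + 1 : ℕ) : ℝ) ^ d := by
    have := tch_card (d := d) n
    exact_mod_cast this
  have hF0 : (0 : ℝ) < (tch (box d n)).card := by
    have h2 : (0 : Vx d) ∈ box d n := by
      rw [box, Finset.mem_Icc]
      constructor
      · intro i
        show -(n : ℤ) ≤ 0
        omega
      · intro i
        show (0 : ℤ) ≤ (n : ℤ)
        omega
    have h3 : ((0, e.2) : Ed d) ∈ tch (box d n) := mem_tch.2 (Or.inl h2)
    exact_mod_cast Finset.card_pos.2 ⟨_, h3⟩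
  have hQ : M6_Q d v n (s * ((2 * n + 1 : ℕ) : ℝ) ^ d / 2) ≤
      6 * (K ^ ((2 * n + 1) ^ (d - 1)) * Real.exp (-(c * ((2 * n + 1 : ℕ) : ℝ) ^ d))) := by
    have hB : (bd (box d n)).card ≤ 2 * d * (2 * n + 1) ^ (d - 1) := bd_card n
    have hG : ((tch (box d n)).filter fun e => ¬ (hd e ∈ box d n ∧ tl e ∈ box d n)).card ≤ 2 * d * (2 * n + 1) ^ (d - 1) :=
      tch_bd_card n
    have e1 : (2 : ℝ) ^ (bd (box d n)).card ≤ 2 ^ (2 * d * (2 * n + 1) ^ (d - 1)) := pow_le_pow_right₀ (by norm_num) hB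
    have e2 : (1 + v) ^ ((tch (box d n)).filter fun e => ¬ (hd e ∈ box d n ∧ tl e ∈ box d n)).card ≤
        (1 + v) ^ (2 * d * (2 * n + 1) ^ (d - 1)) := pow_le_pow_right₀ (by linarith) hG
    have e3 : Real.exp (-((v / (1 + v)) ^ 2 * (s * ((2 * n + 1 : ℕ) : ℝ) ^ d / 2) ^ 2 / (144 * (tch (box d n)).card))) ≤
        Real.exp (-(c * ((2 * n + 1 : ℕ) : ℝ) ^ d)) := by
      refine Real.exp_le_exp.2 (neg_le_neg ?_)
      rw [le_div_iff₀ (by positivity)]
      calc c * ((2 * n + 1 : ℕ) : ℝ) ^ d * (144 * (tch (box d n)).card)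
          ≤ c * ((2 * n + 1 : ℕ) : ℝ) ^ d * (144 * (2 * d * ((2 * n + 1 : ℕ) : ℝ) ^ d)) := by gcongr
        _ = _ := by
          rw [hcdef]
          field_simp
          ring
    have e4 : K ^ ((2 * n + 1) ^ (d - 1)) = 2 ^ (2 * d * (2 * n + 1) ^ (d - 1)) * (1 + v) ^ (2 * d * (2 * n + 1) ^ (d - 1)) := by
      rw [hK, ← pow_mul, mul_pow]
    unfold M6_Q
    rw [e4]
    calc _ ≤ 2 ^ (2 * d * (2 * n + 1) ^ (d - 1)) * (6 * Real.exp (-(c * ((2 * n + 1 : ℕ) : ℝ) ^ d))) *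
          (1 + v) ^ (2 * d * (2 * n + 1) ^ (d - 1)) := by gcongr
      _ = _ := by ring
  have h2 : s * ((2 * n + 1 : ℕ) : ℝ) ^ d / 2 ≤ 2 * d * ((2 * n + 1 : ℕ) : ℝ) ^ d *
      M6_Q d v n (s * ((2 * n + 1 : ℕ) : ℝ) ^ d / 2) := by
    have hQ0 : 0 ≤ M6_Q d v n (s * ((2 * n + 1 : ℕ) : ℝ) ^ d / 2) := by unfold M6_Q; positivity
    have h3 := mul_le_mul_of_nonneg_right hF hQ0
    linarith
  have h3 : s / (4 * d) ≤ M6_Q d v n (s * ((2 * n + 1 : ℕ) : ℝ) ^ d / 2) := by
    rw [div_le_iff₀ (by positivity)]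
    have h4 : ((2 * n + 1 : ℕ) : ℝ) ^ d * s ≤ ((2 * n + 1 : ℕ) : ℝ) ^ d *
        (M6_Q d v n (s * ((2 * n + 1 : ℕ) : ℝ) ^ d / 2) * (4 * d)) := by
      linarith
    exact le_of_mul_le_mul_left h4 hN
  linarith

theorem no_two (hd1 : 1 ≤ d) (v : ℝ) (hv : 0 < v) (P : Measure (Om d S)) (hP : ES v P)
    (hT : TI P) {c₁ c₂ : S} (hc : c₁ ≠ c₂) :
    P {x | ∃ y y', toinf (opn x.2) y ∧ toinf (opn x.2) y' ∧ x.1 y = c₁ ∧ x.1 y' = c₂} = 0 := by
  by_contra h
  obtain ⟨e, he⟩ := adj_pos v hv P hP hc h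
  exact he (few_adj hd1 v hv P hP hT hc e)

end Pool.Agent.Lib.MP_6a79cf_pr
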