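import Pool.Agent.Lib.MP_6a79cf_pr.M4

/-!
LEAF M7 (the event `Ec` is a translation invariant tail event). `Ec_patch`: `D ⊆ box k` (`box_exh`). Let `Ec c x`; for `n` take
`N = max n k`: the vertex `u ∉ box N` for `N` works for `n` and the patched configuration: its colour is not changed, the open edges
outside of `tch (box N)` are not changed (`tch D ⊆ tch (box N)`), and `A \ tch (box N) ⊆ A \ tch (box n)`. The converse is the
same. `Ec_shift`: `con`, `toinf` for the shifted configuration; `box n + z ⊆ box (n + k)`, `z ∈ box k`; for `n` use `u - z` with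
the `u` for `n + k`.
-/

set_option autoImplicit false

open scoped Classical

namespace Pool.Agent.Lib.MP_6a79cf_pr

variable {d : ℕ} {S : Type}

private theorem M7_imp {c : S} {x x' : Om d S} {k : ℕ} (h1 : ∀ u, u ∉ box d k → x.1 u = x'.1 u)
    (h2 : ∀ e, e ∉ tch (box d k) → x.2 e = x'.2 e) (h : Ec c x) : Ec c x' := by
  intro n
  obtain ⟨u, hu, hc, ht⟩ := h (max n k)
  refine ⟨u, fun hh => hu (box_mono (le_max_left n k) hh), ?_, ?_⟩
  · rw [← h1 u (fun hh => hu (box_mono (le_max_right n k) hh))]
    exact hc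
  · intro m
    obtain ⟨z, hz, hcon⟩ := ht m
    refine ⟨z, hz, con_mono ?_ hcon⟩
    rintro e ⟨he, hn⟩
    refine ⟨?_, fun hh => hn (tch_mono (box_mono (le_max_left n k)) hh)⟩
    show x'.2 e = true
    rw [← h2 e (fun hh => hn (tch_mono (box_mono (le_max_right n k)) hh))]
    exact he

theorem Ec_patch (c : S) (D : Finset (Vx d)) (s : D → S) (η : Finset (Ed d)) (x : Om d S) :
    Ec c (patch D s η x) ↔ Ec c x := by
  obtain ⟨k, hk⟩ := box_exh D
  have h1 : ∀ u, u ∉ box d k → (patch D s η x).1 u = x.1 u := by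
    intro u hu
    have hu' : u ∉ D := fun hh => hu (hk hh)
    show ext D x.1 s u = x.1 u
    unfold ext
    rw [dif_neg hu']
  have h2 : ∀ e, e ∉ tch (box d k) → (patch D s η x).2 e = x.2 e := by
    intro e he
    have he' : e ∉ tch D := fun hh => he (tch_mono hk hh)
    show (if e ∈ tch D then decide (e ∈ η) else x.2 e) = x.2 e
    rw [if_neg he']
  exact ⟨fun h => M7_imp h1 h2 h, fun h => M7_imp (fun u hu => (h1 u hu).symm)
    (fun e he => (h2 e he).symm) h⟩

private theorem M7_box {n : ℕ} {x : Vx d} : x ∈ box d n ↔ ∀ j, -(n : ℤ) ≤ x j ∧ x j ≤ n := by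
  unfold box
  rw [Finset.mem_Icc, Pi.le_def, Pi.le_def]
  exact ⟨fun h j => ⟨h.1 j, h.2 j⟩, fun h => ⟨fun j => (h j).1, fun j => (h j).2⟩⟩

private theorem M7_add {n k : ℕ} {x z : Vx d} (hx : x ∈ box d n) (hz : z ∈ box d k) :
    x + z ∈ box d (n + k) := by
  rw [M7_box] at hx hz ⊢
  intro j
  have h1 := hx j
  have h2 := hz j
  rw [Pi.add_apply]
  push_cast
  constructor <;> linarith [h1.1, h1.2, h2.1, h2.2]

private theorem M7_tch {D : Finset (Vx d)} {e : Ed d} : e ∈ tch D ↔ e.1 ∈ D ∨ e.1 + Pi.single e.2 1 ∈ D := by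
  unfold tch
  simp only [Finset.mem_biUnion, Finset.mem_univ, true_and, Finset.mem_insert, Finset.mem_singleton]
  constructor
  · rintro ⟨x, hx, i, h | h⟩
    · left
      rw [h]
      exact hx
    · right
      rw [h]
      simpa using hx
  · rintro (h | h)
    · exact ⟨e.1, h, e.2, Or.inl rfl⟩
    · refine ⟨_, h, e.2, Or.inr ?_⟩
      ext1
      · simp
      · rfl

private theorem M7_sh {c : S} (z : Vx d) {x : Om d S} (h : Ec c x) : Ec c (sh z x) := by
  obtain ⟨k, hk⟩ := box_exh ({z} : Finset (Vx d))
  have hz : z ∈ box d k := hk (Finset.mem_singleton_self z)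
  intro n
  obtain ⟨u, hu, hc, ht⟩ := h (n + k)
  refine ⟨u - z, ?_, ?_, ?_⟩
  · intro hh
    apply hu
    have := M7_add hh hz
    rwa [sub_add_cancel] at this
  · show x.1 (u - z + z) = c
    rw [sub_add_cancel]
    exact hc
  · intro m
    obtain ⟨w, hw, hcon⟩ := ht (m + k)
    refine ⟨w - z, ?_, ?_⟩
    · intro hh
      apply hw
      have := M7_add hh hz
      rwa [sub_add_cancel] at this
    · have key : ∀ a b : Vx d, con hd tl (opn x.2 \ ↑(tch (box d (n + k)))) a b →
          con hd tl (opn (sh z x).2 \ ↑(tch (box d n))) (a - z) (b - z) := by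
        intro a b hab
        induction hab with
        | rel a b hr =>
          obtain ⟨e, ⟨he1, he2⟩, rfl, rfl⟩ := hr
          refine Relation.EqvGen.rel _ _ ⟨(e.1 - z, e.2), ⟨?_, ?_⟩, rfl, ?_⟩
          · show x.2 (e.1 - z + z, e.2) = true
            rw [sub_add_cancel]
            exact he1
          · intro hh
            apply he2
            have hh' := M7_tch.1 (Finset.mem_coe.1 hh)
            refine Finset.mem_coe.2 (M7_tch.2 ?_)
            rcases hh' with h1 | h1
            · left
              have := M7_add h1 hz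
              rwa [sub_add_cancel] at this
            · right
              have := M7_add h1 hz
              have h3 : e.1 - z + Pi.single e.2 1 + z = e.1 + Pi.single e.2 1 := by abel
              rwa [h3] at this
          · show e.1 - z + Pi.single e.2 1 = e.1 + Pi.single e.2 1 - z
            abel
        | refl a => exact Relation.EqvGen.refl _
        | symm a b _ ih => exact Relation.EqvGen.symm _ _ ih
        | trans a b c _ _ ih1 ih2 => exact Relation.EqvGen.trans _ _ _ ih1 ih2
      exact key u w hcon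

theorem Ec_shift (c : S) (z : Vx d) (x : Om d S) : Ec c (sh z x) ↔ Ec c x := by
  refine ⟨fun h => ?_, fun h => M7_sh z h⟩
  have h1 := M7_sh (-z) h
  have h2 : sh (-z) (sh z x) = x := by
    unfold sh
    ext1
    · funext y
      show x.1 (y + -z + z) = x.1 y
      rw [neg_add_cancel_right]
    · funext e
      show x.2 (e.1 + -z + z, e.2) = x.2 e
      rw [neg_add_cancel_right]
  rwa [h2] at h1

end Pool.Agent.Lib.MP_6a79cf_pr
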