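import Pool.Agent.Lib.MP_6a79cf_pr.M0b

/-!
LEAF M8 (conditioning on an invariant tail event). `Q = (P E)⁻¹ • P.restrict E`. `∫ f dQ = (P E)⁻¹ ∫ 1_E f dP`; `ES.res` for `1_E f` and
`KK_inv`. `TI`: `(P.restrict E).map (sh z) = P.restrict E` because `sh z ⁻¹' E = E` (`Measure.restrict_map`). `split`:
`P = P E • Q + P Eᶜ • Q'`.
-/

set_option autoImplicit false

open scoped Classical ENNReal
open MeasureTheory

namespace Pool.Agent.Lib.MP_6a79cf_pr

variable {d : ℕ} {S : Type} [Fintype S] [MeasurableSpace S] [MeasurableSingletonClass S]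

theorem ES_cond (v : ℝ) (P : Measure (Om d S)) (hP : ES v P) (E : Set (Om d S))
    (hm : MeasurableSet E)
    (hE : ∀ (D : Finset (Vx d)) (s : D → S) (η : Finset (Ed d)) (x : Om d S),
      patch D s η x ∈ E ↔ x ∈ E) (h0 : P E ≠ 0) : ES v ((P E)⁻¹ • P.restrict E) := by
  have := hP.prob
  have ht : P E ≠ ∞ := measure_ne_top P E
  refine ⟨⟨?_⟩, ?_⟩
  · rw [Measure.smul_apply, Measure.restrict_apply_univ, smul_eq_mul]
    exact ENNReal.inv_mul_cancel h0 ht
  · intro p q f hf
    rw [lintegral_smul_measure, lintegral_smul_measure, ← lintegral_indicator hm,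
      ← lintegral_indicator hm, hP.res p q _ (hf.indicator hm)]
    congr 1
    refine lintegral_congr fun x => ?_
    exact KK_inv v (Finset.Icc p q) E (fun s η y => hE _ s η y) f x

theorem TI_cond (P : Measure (Om d S)) (hT : TI P) (E : Set (Om d S)) (hm : MeasurableSet E)
    (hE : ∀ (z : Vx d) (x : Om d S), sh z x ∈ E ↔ x ∈ E) : TI ((P E)⁻¹ • P.restrict E) := by
  intro z
  have h1 : (sh z : Om d S → Om d S) ⁻¹' E = E := by
    ext x
    exact hE z x
  have h2 := Measure.restrict_map (μ := P) (meas_sh z) hm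
  rw [h1, hT z] at h2
  rw [Measure.map_smul, ← h2]

theorem split_cond (P : Measure (Om d S)) [IsProbabilityMeasure P] (E : Set (Om d S))
    (hm : MeasurableSet E) (h0 : P E ≠ 0) (h1 : P Eᶜ ≠ 0) :
    P = P E • ((P E)⁻¹ • P.restrict E) + (1 - P E) • ((P Eᶜ)⁻¹ • P.restrict Eᶜ) := by
  have h2 : 1 - P E = P Eᶜ := (prob_compl_eq_one_sub hm).symm
  rw [h2, smul_smul, smul_smul, ENNReal.mul_inv_cancel h0 (measure_ne_top P E),
    ENNReal.mul_inv_cancel h1 (measure_ne_top P Eᶜ), one_smul, one_smul,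
    Measure.restrict_add_restrict_compl hm]

end Pool.Agent.Lib.MP_6a79cf_pr
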