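import Pool.Agent.Lib.MP_6a79cf_pr.V3

/-!
LEAF V4 (volume and boundary of boxes; translation). `box_edges`: for each `x ∈ box n` the edge `(x, i)` touches `box n`, and
`tch (box n)` has at most `2 d |box n|` elements. `box_bd`: `bd (box n)` is contained in `box (n+1) \ box n`, even in the points
with exactly one coordinate `± (n+1)` and the others in `[-n, n]`: `|bd| ≤ 2 d (2n+1)^(d-1)`; `|box n| = (2n+1)^d`.
`ph_shift`: the shift of the lattice by `z` maps the measure of `D` to that of `D + z` (bijection of colourings and of edge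
sets).
-/

set_option autoImplicit false

open scoped Classical

namespace Pool.Agent.Lib.MP_6a79cf_pr

variable {d : ℕ} {S : Type} [AddCommGroup S] [Fintype S]

/-- the interval `{-n, ..., n}` -/
private theorem V4_icc (n : ℕ) : (Finset.Icc (-(n : ℤ)) n).card = 2 * n + 1 := by
  rw [Int.card_Icc]
  omega

private theorem V4_mem_box {n : ℕ} {x : Vx d} : x ∈ box d n ↔ ∀ i, -(n : ℤ) ≤ x i ∧ x i ≤ n := by
  unfold box
  rw [Finset.mem_Icc, Pi.le_def, Pi.le_def]
  exact ⟨fun h i => ⟨h.1 i, h.2 i⟩, fun h => ⟨fun i => (h i).1, fun i => (h i).2⟩⟩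

private theorem V4_mem_tch {D : Finset (Vx d)} {e : Ed d} : e ∈ tch D ↔ hd e ∈ D ∨ tl e ∈ D := by
  unfold tch
  simp only [Finset.mem_biUnion, Finset.mem_univ, true_and, Finset.mem_insert, Finset.mem_singleton]
  constructor
  · rintro ⟨x, hx, i, h | h⟩
    · left
      rw [h]
      exact hx
    · right
      rw [h]
      show x - Pi.single i 1 + Pi.single i 1 ∈ D
      rw [sub_add_cancel]
      exact hx
  · rintro (h | h)
    · exact ⟨hd e, h, e.2, Or.inl rfl⟩
    · refine ⟨tl e, h, e.2, Or.inr ?_⟩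
      refine Prod.ext ?_ rfl
      show e.1 = e.1 + Pi.single e.2 1 - Pi.single e.2 1
      rw [add_sub_cancel_right]

/-- the face: the coordinate `i` is `c`, the others are in `{-n, ..., n}` -/
private noncomputable def V4_face (d n : ℕ) (i : Fin d) (c : ℤ) : Finset (Vx d) :=
  Fintype.piFinset fun j => if j = i then {c} else Finset.Icc (-(n : ℤ)) n

private theorem V4_face_card (n : ℕ) (i : Fin d) (c : ℤ) :
    (V4_face d n i c).card = (2 * n + 1) ^ (d - 1) := by
  unfold V4_face
  rw [Fintype.card_piFinset, ← Finset.mul_prod_erase _ _ (Finset.mem_univ i), if_pos rfl,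
    Finset.card_singleton, one_mul]
  have h1 : ∀ j ∈ Finset.univ.erase i,
      (if j = i then ({c} : Finset ℤ) else Finset.Icc (-(n : ℤ)) n).card = 2 * n + 1 := by
    intro j hj
    rw [if_neg (Finset.ne_of_mem_erase hj), V4_icc]
  rw [Finset.prod_congr rfl h1, Finset.prod_const, Finset.card_erase_of_mem (Finset.mem_univ i),
    Finset.card_univ, Fintype.card_fin]

private theorem V4_mem_face {n : ℕ} {i : Fin d} {c : ℤ} {x : Vx d} (h : x i = c)
    (h' : ∀ j, j ≠ i → -(n : ℤ) ≤ x j ∧ x j ≤ n) : x ∈ V4_face d n i c := by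
  unfold V4_face
  rw [Fintype.mem_piFinset]
  intro j
  by_cases hj : j = i
  · rw [if_pos hj, hj, h]
    exact Finset.mem_singleton_self _
  · rw [if_neg hj, Finset.mem_Icc]
    exact h' j hj

private theorem V4_tl (e : Ed d) (j : Fin d) : tl e j = e.1 j + if j = e.2 then 1 else 0 := by
  show (e.1 + Pi.single e.2 (1 : ℤ) : Fin d → ℤ) j = _
  rw [Pi.add_apply, Pi.single_apply]

theorem box_card (n : ℕ) : (box d n).card = (2 * n + 1) ^ d := by
  unfold box
  rw [Pi.card_Icc, Finset.prod_congr rfl fun i _ => V4_icc n, Finset.prod_const, Finset.card_univ,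
    Fintype.card_fin]

/-- an edge which leaves the box -/
private theorem V4_edge {n : ℕ} {e : Ed d} (he : e ∈ tch (box d n))
    (h : ¬ (hd e ∈ box d n ∧ tl e ∈ box d n)) :
    (hd e ∈ box d n ∧ e.1 e.2 = n ∧ ∀ j, j ≠ e.2 → -(n : ℤ) ≤ e.1 j ∧ e.1 j ≤ n) ∨
    (tl e ∈ box d n ∧ e.1 e.2 = -(n : ℤ) - 1 ∧ ∀ j, j ≠ e.2 → -(n : ℤ) ≤ e.1 j ∧ e.1 j ≤ n) := by
  rcases V4_mem_tch.1 he with h1 | h1
  · left
    have h2 : ∀ j, -(n : ℤ) ≤ e.1 j ∧ e.1 j ≤ n := V4_mem_box.1 h1
    refine ⟨h1, ?_, fun j _ => h2 j⟩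
    by_contra h3
    refine h ⟨h1, V4_mem_box.2 fun j => ?_⟩
    rw [V4_tl]
    have h4 := h2 j
    by_cases hj : j = e.2
    · rw [if_pos hj]
      rw [← hj] at h3
      omega
    · rw [if_neg hj]
      omega
  · right
    have h2 : ∀ j, -(n : ℤ) ≤ tl e j ∧ tl e j ≤ n := V4_mem_box.1 h1
    have h5 : ∀ j, j ≠ e.2 → -(n : ℤ) ≤ e.1 j ∧ e.1 j ≤ n := by
      intro j hj
      have h6 := h2 j
      rw [V4_tl, if_neg hj, add_zero] at h6
      exact h6
    refine ⟨h1, ?_, h5⟩
    by_contra h3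
    refine h ⟨V4_mem_box.2 fun j => ?_, h1⟩
    show -(n : ℤ) ≤ e.1 j ∧ e.1 j ≤ n
    by_cases hj : j = e.2
    · have h6 := h2 j
      rw [V4_tl, if_pos hj] at h6
      rw [← hj] at h3
      omega
    · exact h5 j hj

theorem bd_card (n : ℕ) : (bd (box d n)).card ≤ 2 * d * (2 * n + 1) ^ (d - 1) := by
  have h1 : bd (box d n) ⊆ (Finset.univ : Finset (Fin d)).biUnion fun i =>
      V4_face d n i (n + 1) ∪ V4_face d n i (-(n : ℤ) - 1) := by
    intro y hy
    unfold bd at hy
    rw [Finset.mem_sdiff, Finset.mem_union, Finset.mem_image, Finset.mem_image] at hy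
    obtain ⟨⟨e, he, rfl⟩ | ⟨e, he, rfl⟩, hyb⟩ := hy
    · rcases V4_edge he (fun h => hyb h.1) with ⟨h2, _⟩ | ⟨_, h3, h4⟩
      · exact absurd h2 hyb
      · refine Finset.mem_biUnion.2 ⟨e.2, Finset.mem_univ _, Finset.mem_union_right _ ?_⟩
        exact V4_mem_face h3 h4
    · rcases V4_edge he (fun h => hyb h.2) with ⟨_, h3, h4⟩ | ⟨h2, _⟩
      · refine Finset.mem_biUnion.2 ⟨e.2, Finset.mem_univ _, Finset.mem_union_left _ ?_⟩
        refine V4_mem_face ?_ ?_
        · rw [V4_tl, if_pos rfl, h3]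
        · intro j hj
          rw [V4_tl, if_neg hj, add_zero]
          exact h4 j hj
      · exact absurd h2 hyb
  refine (Finset.card_le_card h1).trans (Finset.card_biUnion_le.trans ?_)
  have h2 : ∀ i ∈ (Finset.univ : Finset (Fin d)),
      (V4_face d n i (n + 1) ∪ V4_face d n i (-(n : ℤ) - 1)).card ≤ 2 * (2 * n + 1) ^ (d - 1) := by
    intro i _
    refine (Finset.card_union_le _ _).trans ?_
    rw [V4_face_card, V4_face_card]
    omega
  refine (Finset.sum_le_sum h2).trans ?_
  rw [Finset.sum_const, Finset.card_univ, Fintype.card_fin, smul_eq_mul]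
  exact le_of_eq (by ring)

theorem tch_card (n : ℕ) : (tch (box d n)).card ≤ 2 * d * (2 * n + 1) ^ d := by
  unfold tch
  refine Finset.card_biUnion_le.trans ?_
  have h1 : ∀ x ∈ box d n, ((Finset.univ : Finset (Fin d)).biUnion fun i =>
      ({(x, i), (x - Pi.single i 1, i)} : Finset (Ed d))).card ≤ 2 * d := by
    intro x _
    refine Finset.card_biUnion_le.trans ?_
    refine (Finset.sum_le_sum fun i _ => Finset.card_le_two).trans ?_
    rw [Finset.sum_const, Finset.card_univ, Fintype.card_fin, smul_eq_mul, mul_comm]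
  refine (Finset.sum_le_sum h1).trans ?_
  rw [Finset.sum_const, box_card, smul_eq_mul, mul_comm]

theorem tch_bd_card (n : ℕ) :
    ((tch (box d n)).filter fun e => ¬ (hd e ∈ box d n ∧ tl e ∈ box d n)).card ≤
      2 * d * (2 * n + 1) ^ (d - 1) := by
  have h1 : ((tch (box d n)).filter fun e => ¬ (hd e ∈ box d n ∧ tl e ∈ box d n)) ⊆
      (Finset.univ : Finset (Fin d)).biUnion fun i =>
        (V4_face d n i n ∪ V4_face d n i (-(n : ℤ) - 1)).image fun x => ((x, i) : Ed d) := by
    intro e he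
    rw [Finset.mem_filter] at he
    refine Finset.mem_biUnion.2 ⟨e.2, Finset.mem_univ _, Finset.mem_image.2 ⟨e.1, ?_, rfl⟩⟩
    rcases V4_edge he.1 he.2 with ⟨_, h3, h4⟩ | ⟨_, h3, h4⟩
    · exact Finset.mem_union_left _ (V4_mem_face h3 h4)
    · exact Finset.mem_union_right _ (V4_mem_face h3 h4)
  refine (Finset.card_le_card h1).trans (Finset.card_biUnion_le.trans ?_)
  have h2 : ∀ i ∈ (Finset.univ : Finset (Fin d)),
      ((V4_face d n i n ∪ V4_face d n i (-(n : ℤ) - 1)).image fun x => ((x, i) : Ed d)).card ≤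
        2 * (2 * n + 1) ^ (d - 1) := by
    intro i _
    refine Finset.card_image_le.trans ((Finset.card_union_le _ _).trans ?_)
    rw [V4_face_card, V4_face_card]
    omega
  refine (Finset.sum_le_sum h2).trans ?_
  rw [Finset.sum_const, Finset.card_univ, Fintype.card_fin, smul_eq_mul]
  exact le_of_eq (by ring)

theorem box_mono {m n : ℕ} (h : m ≤ n) : box d m ⊆ box d n := by
  intro x hx
  rw [V4_mem_box] at hx ⊢
  intro i
  have := hx i
  omega

theorem box_exh (D : Finset (Vx d)) : ∃ n, D ⊆ box d n := by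
  refine ⟨D.sup fun x => Finset.univ.sup fun i => (x i).natAbs, fun x hx => ?_⟩
  rw [V4_mem_box]
  intro i
  have h1 : (x i).natAbs ≤ Finset.univ.sup fun i => (x i).natAbs :=
    Finset.le_sup (f := fun i => (x i).natAbs) (Finset.mem_univ i)
  have h2 : (Finset.univ.sup fun i => (x i).natAbs) ≤
      D.sup fun x => Finset.univ.sup fun i => (x i).natAbs :=
    Finset.le_sup (f := fun x : Vx d => Finset.univ.sup fun i => (x i).natAbs) hx
  have h3 := h1.trans h2
  omega

/-- the shift of the edges -/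
private def V4_sh (z : Vx d) (e : Ed d) : Ed d := (e.1 + z, e.2)

private theorem V4_sh_inj (z : Vx d) : Function.Injective (V4_sh z) := by
  intro e f h
  have h1 := congrArg Prod.fst h
  have h2 := congrArg Prod.snd h
  exact Prod.ext (add_right_cancel h1) h2

private theorem V4_t_inj (z : Vx d) : Function.Injective fun x : Vx d => x + z :=
  fun _ _ h => add_right_cancel h

private theorem V4_hd (z : Vx d) (e : Ed d) : hd (V4_sh z e) = hd e + z := rfl

private theorem V4_tls (z : Vx d) (e : Ed d) : tl (V4_sh z e) = tl e + z := by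
  show e.1 + z + Pi.single e.2 1 = e.1 + Pi.single e.2 1 + z
  exact add_right_comm _ _ _

private theorem V4_tch_image (D : Finset (Vx d)) (z : Vx d) :
    tch (D.image fun x => x + z) = (tch D).image (V4_sh z) := by
  ext e
  rw [V4_mem_tch, Finset.mem_image, Finset.mem_image, Finset.mem_image]
  have he : V4_sh z (e.1 - z, e.2) = e := Prod.ext (sub_add_cancel _ _) rfl
  constructor
  · rintro (⟨x, hx, h⟩ | ⟨x, hx, h⟩)
    · refine ⟨(e.1 - z, e.2), V4_mem_tch.2 (Or.inl ?_), he⟩
      have h1 : hd (e.1 - z, e.2) = x := by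
        show e.1 - z = x
        have h2 : x + z = e.1 := h
        rw [← h2, add_sub_cancel_right]
      rw [h1]
      exact hx
    · refine ⟨(e.1 - z, e.2), V4_mem_tch.2 (Or.inr ?_), he⟩
      have h1 : tl (e.1 - z, e.2) = x := by
        have h2 := V4_tls z (e.1 - z, e.2)
        rw [he] at h2
        have h3 : x + z = tl (e.1 - z, e.2) + z := h.trans h2
        exact (add_right_cancel h3).symm
      rw [h1]
      exact hx
  · rintro ⟨f, hf, rfl⟩
    rcases V4_mem_tch.1 hf with h | h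
    · exact Or.inl ⟨hd f, h, (V4_hd z f).symm⟩
    · exact Or.inr ⟨tl f, h, (V4_tls z f).symm⟩

private theorem V4_bd_image (D : Finset (Vx d)) (z : Vx d) :
    bd (D.image fun x => x + z) = (bd D).image fun x => x + z := by
  unfold bd
  rw [V4_tch_image, Finset.image_sdiff _ _ (V4_t_inj z), Finset.image_union, Finset.image_image,
    Finset.image_image, Finset.image_image, Finset.image_image]
  congr 2
  exact Finset.image_congr fun e _ => V4_tls z e

/-- the shift of the colourings of `D` -/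
private noncomputable def V4_eq (D : Finset (Vx d)) (z : Vx d) :
    D ≃ (D.image fun x => x + z : Finset (Vx d)) :=
  Equiv.ofBijective (fun x => ⟨x.1 + z, Finset.mem_image_of_mem _ x.2⟩) (by
    constructor
    · intro x y h
      exact Subtype.ext (add_right_cancel (congrArg Subtype.val h))
    · rintro ⟨y, hy⟩
      obtain ⟨x, hx, rfl⟩ := Finset.mem_image.1 hy
      exact ⟨⟨x, hx⟩, rfl⟩)

omit [Fintype S] in
private theorem V4_ext (D : Finset (Vx d)) (z : Vx d) (s : D → S) (x : Vx d) :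
    ext (D.image fun x => x + z) (fun _ => (0 : S)) (s ∘ (V4_eq D z).symm) (x + z) =
      ext D (fun _ => (0 : S)) s x := by
  unfold ext
  by_cases hx : x ∈ D
  · have hx' : x + z ∈ D.image fun x => x + z := Finset.mem_image_of_mem _ hx
    rw [dif_pos hx', dif_pos hx]
    have h1 : V4_eq D z ⟨x, hx⟩ = ⟨x + z, hx'⟩ := rfl
    show s ((V4_eq D z).symm ⟨x + z, hx'⟩) = s ⟨x, hx⟩
    rw [← h1, Equiv.symm_apply_apply]
  · have hx' : x + z ∉ D.image fun x => x + z := by
      intro h
      obtain ⟨y, hy, h1⟩ := Finset.mem_image.1 h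
      exact hx ((add_right_cancel h1) ▸ hy)
    rw [dif_neg hx', dif_neg hx]

omit [Fintype S] in
private theorem V4_comp (D : Finset (Vx d)) (z : Vx d) (s : D → S) (η : Finset (Ed d)) :
    comp hd tl (↑(η.image (V4_sh z)) : Set (Ed d))
      (ext (D.image fun x => x + z) (fun _ => (0 : S)) (s ∘ (V4_eq D z).symm)) ↔
    comp hd tl (↑η : Set (Ed d)) (ext D (fun _ => (0 : S)) s) := by
  constructor
  · intro h e he
    have h1 := h (V4_sh z e) (Finset.mem_coe.2 (Finset.mem_image_of_mem _ (Finset.mem_coe.1 he)))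
    rw [V4_hd, V4_tls, V4_ext, V4_ext] at h1
    exact h1
  · intro h e he
    obtain ⟨f, hf, rfl⟩ := Finset.mem_image.1 (Finset.mem_coe.1 he)
    rw [V4_hd, V4_tls, V4_ext, V4_ext]
    exact h f (Finset.mem_coe.2 hf)

private theorem V4_sum {α β : Type} (i1 : Fintype α) (i2 : Fintype β) (e : α ≃ β) (f : α → ℝ)
    (g : β → ℝ) (h : ∀ x, f x = g (e x)) :
    ∑ x ∈ @Finset.univ α i1, f x = ∑ x ∈ @Finset.univ β i2, g x :=
  Fintype.sum_equiv e f g h

private theorem V4_WW (F : Finset (Ed d)) (D : Finset (Vx d)) (z : Vx d) (v : ℝ)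
    (g g' : Finset (Ed d) → ℝ) (hg : ∀ η, g' (η.image (V4_sh z)) = g η) :
    WW hd tl (F.image (V4_sh z)) (D.image fun x => x + z) v (fun _ => (0 : S)) (fun _ η => g' η) =
      WW hd tl F D v (fun _ => (0 : S)) (fun _ η => g η) := by
  unfold WW
  symm
  refine V4_sum _ _ ((V4_eq D z).arrowCongr (Equiv.refl S)) _ _ fun s => ?_
  rw [Finset.powerset_image, Finset.sum_image]
  · refine Finset.sum_congr rfl fun η _ => ?_
    have h1 := V4_comp D z s η
    have h2 : (V4_eq D z).arrowCongr (Equiv.refl S) s = s ∘ (V4_eq D z).symm := rfl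
    rw [h2, Finset.card_image_of_injective _ (V4_sh_inj z)]
    by_cases h3 : comp hd tl (↑η : Set (Ed d)) (ext D (fun _ => (0 : S)) s)
    · rw [if_pos h3, if_pos (h1.2 h3)]
      show v ^ η.card * g η = v ^ η.card * g' (η.image (V4_sh z))
      rw [hg]
    · rw [if_neg h3, if_neg fun h4 => h3 (h1.1 h4)]
  · intro η _ η' _ h
    exact Finset.image_injective (V4_sh_inj z) h

private theorem V4_mem (z : Vx d) (e : Ed d) (η : Finset (Ed d)) :
    ((e.1 + z, e.2) ∈ η.image (V4_sh z)) ↔ e ∈ η := by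
  have h1 : V4_sh z e = (e.1 + z, e.2) := rfl
  rw [← h1]
  exact (V4_sh_inj z).mem_finset_image

private theorem V4_WWA (F : Finset (Ed d)) (D : Finset (Vx d)) (z : Vx d) (v : ℝ)
    (A A' : Finset (Ed d) → Prop) (hA : ∀ η, A' (η.image (V4_sh z)) ↔ A η) :
    WW hd tl (F.image (V4_sh z)) (D.image fun x => x + z) v (fun _ => (0 : S))
      (fun _ η => if A' η then 1 else 0) =
      WW hd tl F D v (fun _ => (0 : S)) (fun _ η => if A η then 1 else 0) :=
  V4_WW F D z v (fun η => if A η then 1 else 0) (fun η => if A' η then 1 else 0) fun η => by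
    by_cases h : A η
    · rw [if_pos h, if_pos ((hA η).2 h)]
    · rw [if_neg h, if_neg fun h1 => h ((hA η).1 h1)]

theorem ph1_shift (D : Finset (Vx d)) (z : Vx d) (v : ℝ) (e : Ed d) :
    ph1 S (D.image fun x => x + z) v (fun η => (e.1 + z, e.2) ∈ η) =
      ph1 S D v (fun η => e ∈ η) := by
  unfold ph1
  rw [V4_tch_image, V4_WWA (tch D) D z v (fun η => e ∈ η) (fun η => (e.1 + z, e.2) ∈ η)
    (fun η => V4_mem z e η), V4_WW (tch D) D z v (fun _ => 1) (fun _ => 1) fun _ => rfl]

theorem ph0_shift (D : Finset (Vx d)) (z : Vx d) (v : ℝ) (e : Ed d) :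
    ph0 S (D.image fun x => x + z) v (fun η => (e.1 + z, e.2) ∈ η) =
      ph0 S D v (fun η => e ∈ η) := by
  unfold ph0
  rw [V4_tch_image, V4_bd_image, ← Finset.image_union,
    V4_WWA (tch D) (D ∪ bd D) z v (fun η => e ∈ η) (fun η => (e.1 + z, e.2) ∈ η)
      (fun η => V4_mem z e η),
    V4_WW (tch D) (D ∪ bd D) z v (fun _ => 1) (fun _ => 1) fun _ => rfl]

end Pool.Agent.Lib.MP_6a79cf_pr
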