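import Pool.Agent.Lib.MP_6a79cf_pr.M4a
import Pool.Agent.Lib.MP_6a79cf_pr.V4

/-!
LEAF M4 (infinite clusters). `toinf_exit`: for every `m ≥ n` a vertex `u_m ∈ {x} ∪ bd (box n)` outside of `box n`, joined to `x` in `A`, and
joined in `A \ tch (box n)` to a vertex outside of `box m` (`last_exit`, `far_exit`); pigeonhole, `box_mono`. `toinf_Ec`: `u` has the
colour of `y` because the configuration is good. `out_anti`, `toinf_iff`: `first_exit` (if `y ∉ box m` the trivial path).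
-/

set_option autoImplicit false

open scoped Classical

namespace Pool.Agent.Lib.MP_6a79cf_pr

variable {d : ℕ} {S : Type}

private theorem M4_bd {D : Finset (Vx d)} {u : Vx d} (h : u ∈ bd D) : u ∉ D :=
  (Finset.mem_sdiff.1 h).2

theorem toinf_exit {A : Set (Ed d)} {x : Vx d} (h : toinf A x) (n : ℕ) :
    ∃ u, u ∉ box d n ∧ con hd tl A x u ∧ toinf (A \ ↑(tch (box d n))) u ∧
      (x ∈ box d n → u ∈ bd (box d n)) := by
  have key : ∀ m, n ≤ m → ∃ u ∈ insert x (bd (box d n)), u ∉ box d n ∧ con hd tl A x u ∧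
      (x ∈ box d n → u ∈ bd (box d n)) ∧ ∃ z, z ∉ box d m ∧ con hd tl (A \ ↑(tch (box d n))) u z := by
    intro m hm
    obtain ⟨z, hz, hc⟩ := h m
    have hz' : z ∉ box d n := fun h1 => hz (box_mono hm h1)
    by_cases hx : x ∈ box d n
    · obtain ⟨u, hu, h1, h2⟩ := last_exit hc hx hz'
      exact ⟨u, Finset.mem_insert_of_mem hu, M4_bd hu, h1, fun _ => hu, z, hz, h2⟩
    · rcases far_exit hc hx hz' with h1 | ⟨u, hu, h1, h2⟩
      · exact ⟨x, Finset.mem_insert_self _ _, hx, Relation.EqvGen.refl _, fun h2 => absurd h2 hx, z, hz, h1⟩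
      · exact ⟨u, Finset.mem_insert_of_mem hu, M4_bd hu, h1, fun _ => hu, z, hz, h2⟩
  by_contra hne
  have hf : ∀ u : Vx d, ∃ m : ℕ, u ∉ box d n → con hd tl A x u → (x ∈ box d n → u ∈ bd (box d n)) →
      ∀ z, z ∉ box d m → ¬ con hd tl (A \ ↑(tch (box d n))) u z := by
    intro u
    by_contra h1
    refine hne ⟨u, ?_, ?_, ?_, ?_⟩
    · by_contra h2
      exact h1 ⟨0, fun h3 => absurd h2 h3⟩
    · by_contra h2
      exact h1 ⟨0, fun _ h3 => absurd h3 h2⟩
    · intro m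
      by_contra h2
      refine h1 ⟨m, fun _ _ _ z hz hc => h2 ⟨z, hz, hc⟩⟩
    · intro h2
      by_contra h3
      exact h1 ⟨0, fun _ _ h4 => absurd (h4 h2) h3⟩
  choose f hf using hf
  obtain ⟨u, hu, h1, h2, h3, z, hz, h4⟩ :=
    key (max n ((insert x (bd (box d n))).sup f)) (le_max_left _ _)
  refine hf u h1 h2 h3 z (fun h5 => hz (box_mono ?_ h5)) h4
  exact (Finset.le_sup (f := f) hu).trans (le_max_right _ _)

theorem toinf_Ec {x : Om d S} (hx : good x) {y : Vx d} (h : toinf (opn x.2) y) :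
    Ec (x.1 y) x := by
  intro n
  obtain ⟨u, h1, h2, h3, _⟩ := toinf_exit h n
  exact ⟨u, h1, (con_col hx h2).symm, h3⟩

theorem Ec_toinf {x : Om d S} {c : S} (h : Ec c x) : ∃ y, toinf (opn x.2) y ∧ x.1 y = c := by
  obtain ⟨u, _, h1, h2⟩ := h 0
  refine ⟨u, fun m => ?_, h1⟩
  obtain ⟨z, hz, hc⟩ := h2 m
  exact ⟨z, hz, con_mono Set.sdiff_subset hc⟩

theorem out_anti {m n : ℕ} (h : m ≤ n) {y : Vx d} {ω : Ed d → Bool} (ho : out n y ω) :
    out m y ω := by
  by_cases hy : y ∈ box d m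
  · obtain ⟨z, hz, hc⟩ := ho
    obtain ⟨u, hu, h1⟩ := first_exit hc hy (fun h2 => hz (box_mono h h2))
    refine ⟨u, M4_bd hu, con_mono ?_ h1⟩
    rintro e ⟨he, he'⟩
    exact Finset.mem_coe.2 (Finset.mem_filter.2 ⟨Finset.mem_coe.1 he', (Finset.mem_filter.1 (Finset.mem_coe.1 he)).2⟩)
  · exact ⟨y, hy, Relation.EqvGen.refl _⟩

theorem toinf_iff {y : Vx d} {ω : Ed d → Bool} : toinf (opn ω) y ↔ ∀ n, out n y ω := by
  constructor
  · intro h n
    by_cases hy : y ∈ box d n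
    · obtain ⟨z, hz, hc⟩ := h n
      obtain ⟨u, hu, h1⟩ := first_exit hc hy hz
      refine ⟨u, M4_bd hu, con_mono ?_ h1⟩
      rintro e ⟨he, he'⟩
      exact Finset.mem_coe.2 (Finset.mem_filter.2 ⟨Finset.mem_coe.1 he', he⟩)
    · exact ⟨y, hy, Relation.EqvGen.refl _⟩
  · intro h m
    obtain ⟨z, hz, hc⟩ := h m
    refine ⟨z, hz, con_mono ?_ hc⟩
    intro e he
    exact (Finset.mem_filter.1 (Finset.mem_coe.1 he)).2

end Pool.Agent.Lib.MP_6a79cf_pr
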