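import Pool.Agent.Lib.MP_6a79cf_pr.M3
import Pool.Agent.Lib.MP_6a79cf_pr.M4
import Pool.Agent.Lib.MP_6a79cf_pr.K1
import Pool.Agent.Lib.MP_6a79cf_pr.K3

/-!
LEAF M9 (one colour at infinity). `only c P`: only the colour `c` has infinite clusters. `out_small`: the events
`{out n y, x.1 y ≠ c}` decrease in `n` (`out_anti`) to `{toinf y, x.1 y ≠ c}` (`toinf_iff`), a null set: `tendsto_measure_iInter`.
-/

set_option autoImplicit false

open scoped Classical ENNReal
open MeasureTheory Filter Topology

namespace Pool.Agent.Lib.MP_6a79cf_pr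

variable {d : ℕ} {S : Type} [AddCommGroup S] [Fintype S] [MeasurableSpace S]
  [MeasurableSingletonClass S]

/-- Only the colour `c` has infinite clusters. -/
def only (c : S) (P : Measure (Om d S)) : Prop :=
  ∀ (y : Vx d) (c' : S), c' ≠ c → P {x | toinf (opn x.2) y ∧ x.1 y = c'} = 0

theorem out_small (P : Measure (Om d S)) [IsProbabilityMeasure P] (c : S) (h : only c P)
    (y : Vx d) : Tendsto (fun n => P {x | out n y x.2 ∧ x.1 y ≠ c}) atTop (𝓝 0) := by
  have hy : Measurable fun x : Om d S => x.1 y := (measurable_pi_apply y).comp measurable_fst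
  have hm : ∀ n, MeasurableSet {x : Om d S | out n y x.2 ∧ x.1 y ≠ c} := by
    intro n
    have h1 : MeasurableSet {x : Om d S | out n y x.2} := measurable_snd (meas_out n y)
    have h2 : MeasurableSet {x : Om d S | x.1 y ≠ c} := hy (measurableSet_singleton c).compl
    exact h1.inter h2
  have ha : Antitone fun n => {x : Om d S | out n y x.2 ∧ x.1 y ≠ c} :=
    fun m n hmn x hx => ⟨out_anti hmn hx.1, hx.2⟩
  have h0 : P (⋂ n, {x : Om d S | out n y x.2 ∧ x.1 y ≠ c}) = 0 := by
    refine measure_mono_null (t := ⋃ c' : {c' : S // c' ≠ c},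
      {x : Om d S | toinf (opn x.2) y ∧ x.1 y = c'.1}) ?_ ?_
    · intro x hx
      rw [Set.mem_iInter] at hx
      rw [Set.mem_iUnion]
      exact ⟨⟨x.1 y, (hx 0).2⟩, toinf_iff.2 fun n => (hx n).1, rfl⟩
    · rw [measure_iUnion_null_iff]
      intro c'
      exact h y c'.1 c'.2
  have h1 := tendsto_measure_iInter_atTop (μ := P) (fun n => (hm n).nullMeasurableSet) ha
    ⟨0, measure_ne_top P _⟩
  rw [h0] at h1
  exact h1

end Pool.Agent.Lib.MP_6a79cf_pr
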