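import Pool.Agent.Lib.MP_6a79cf_pr.M2
import Pool.Agent.Lib.MP_6a79cf_pr.M6
import Pool.Agent.Lib.MP_6a79cf_pr.M7
import Pool.Agent.Lib.MP_6a79cf_pr.M8
import Pool.Agent.Lib.MP_6a79cf_pr.M9

/-!
(extremality). `P` from `exists_P`. Case 1: `P (Ec c) ≠ 0` for some `c`. `Q = (P E)⁻¹ • P.restrict E`, `E = Ec c`: `ES`, `TI` (`Ec_patch`,
`Ec_shift`, `meas_Ec`). If `P Eᶜ = 0`: `Q = P`. Otherwise `split_cond`, push forward by `Prod.fst`, `tig_of_ES` for `Q` and for the
conditional law on `Eᶜ`, and `XTIG.ext` with `t = P E`: `Q.map Prod.fst = π`. `only c Q`: `Q`-almost surely `Ec c` holds, so some `y'`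
of colour `c` is joined to infinity (`Ec_toinf`); `{toinf y, x.1 y = c'} ∩ E` is contained in the null set of `no_two` (for `P`). Case 2:
`P (Ec c) = 0` for all `c`: `only 0 P`: `toinf_Ec`, `good_ae`.
-/

set_option autoImplicit false

open scoped Classical ENNReal
open MeasureTheory

namespace Pool.Agent.Lib.MP_6a79cf_pr

variable {d : ℕ} {S : Type} [AddCommGroup S] [Fintype S] [MeasurableSpace S]
  [MeasurableSingletonClass S]

theorem exists_only (hd1 : 1 ≤ d) (β : ℝ) (hβ : 0 < β) (π : Measure (Vx d → S))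
    (hπ : XTIG β π) : ∃ (c : S) (P : Measure (Om d S)), ES (Real.exp β - 1) P ∧ TI P ∧ only c P ∧
      P.map Prod.fst = π := by
  have hv : 0 < Real.exp β - 1 := by
    have := Real.add_one_lt_exp hβ.ne'
    linarith
  obtain ⟨P, hES, hT, hmap⟩ := exists_P β hβ π hπ.tig
  haveI := hES.prob
  by_cases hall : ∀ c : S, P {x | Ec c x} = 0
  · refine ⟨0, P, hES, hT, fun y c' _ => ?_, hmap⟩
    have h1 : P {x | ¬ good x} = 0 := good_ae _ hv P hES
    refine measure_mono_null (t := {x | ¬ good x} ∪ {x | Ec c' x}) ?_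
      (measure_union_null h1 (hall c'))
    rintro x ⟨h2, h3⟩
    by_cases hg : good x
    · right
      have h4 := toinf_Ec hg h2
      rw [h3] at h4
      exact h4
    · left
      exact hg
  · push Not at hall
    obtain ⟨c, hc⟩ := hall
    obtain ⟨E, hE⟩ : ∃ E : Set (Om d S), E = {x | Ec c x} := ⟨_, rfl⟩
    rw [← hE] at hc
    have hEm : MeasurableSet E := by
      rw [hE]
      exact meas_Ec c
    have hmem : ∀ x, x ∈ E ↔ Ec c x := fun x => by
      rw [hE]
      exact Iff.rfl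
    have hEp : ∀ (D : Finset (Vx d)) (s : D → S) (η : Finset (Ed d)) (x : Om d S),
        patch D s η x ∈ E ↔ x ∈ E := fun D s η x => by
      rw [hmem, hmem]
      exact Ec_patch c D s η x
    have hEs : ∀ (z : Vx d) (x : Om d S), sh z x ∈ E ↔ x ∈ E := fun z x => by
      rw [hmem, hmem]
      exact Ec_shift c z x
    have hQ := ES_cond _ P hES E hEm hEp hc
    have hQT := TI_cond P hT E hEm hEs
    refine ⟨c, (P E)⁻¹ • P.restrict E, hQ, hQT, fun y c' hc' => ?_, ?_⟩
    · have h1 : P ({x | toinf (opn x.2) y ∧ x.1 y = c'} ∩ E) = 0 := by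
        refine measure_mono_null ?_ (no_two hd1 _ hv P hES hT hc'.symm)
        rintro x ⟨⟨h2, h3⟩, h4⟩
        obtain ⟨y', h5, h6⟩ := Ec_toinf ((hmem x).1 h4)
        exact ⟨y', y, h5, h2, h6, h3⟩
      rw [Measure.smul_apply, Measure.restrict_apply' hEm, h1, smul_zero]
    · by_cases h1 : P Eᶜ = 0
      · have h2 : P E = 1 := (prob_compl_eq_zero_iff hEm).1 h1
        have h3 : P.restrict E = P := Measure.restrict_eq_self_of_ae_mem h1
        rw [h3, h2, inv_one, one_smul]
        exact hmap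
      · have hEp' : ∀ (D : Finset (Vx d)) (s : D → S) (η : Finset (Ed d)) (x : Om d S),
            patch D s η x ∈ Eᶜ ↔ x ∈ Eᶜ := fun D s η x => not_congr (hEp D s η x)
        have hEs' : ∀ (z : Vx d) (x : Om d S), sh z x ∈ Eᶜ ↔ x ∈ Eᶜ := fun z x =>
          not_congr (hEs z x)
        have hQ' := ES_cond _ P hES Eᶜ hEm.compl hEp' h1
        have hQT' := TI_cond P hT Eᶜ hEm.compl hEs'
        have h2 := split_cond P E hEm hc h1
        have h3 : P E < 1 := by
          have h4 := prob_compl_eq_one_sub (μ := P) hEm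
          rw [h4] at h1
          exact tsub_pos_iff_lt.1 (pos_iff_ne_zero.2 h1)
        have h5 : π = P E • ((P E)⁻¹ • P.restrict E).map Prod.fst +
            (1 - P E) • ((P Eᶜ)⁻¹ • P.restrict Eᶜ).map Prod.fst := by
          rw [← Measure.map_smul, ← Measure.map_smul, ← Measure.map_add _ _ measurable_fst, ← h2, hmap]
        exact hπ.ext _ _ (P E) (tig_of_ES β hβ _ hQ hQT) (tig_of_ES β hβ _ hQ' hQT')
          (pos_iff_ne_zero.2 hc) h3 h5

end Pool.Agent.Lib.MP_6a79cf_pr
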