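import Pool.Agent.Lib.MP_6a79cf_pr.V5b

/-!
LEAF V6 (assembly). `v₀` from `exists_cont`; `F₀ = tch (box n)`; for large `m` each term of `ph_diff` is at most
`ε/(|F₀| + 1)`. `ph1 v' ≤ ph1 v₀ ≤ ph0 v₀ + ε ≤ ph0 v + ε` for the increasing event `η ↦ A (η ∩ F₀)`.
-/

set_option autoImplicit false

open scoped Classical

namespace Pool.Agent.Lib.MP_6a79cf_pr

theorem sandwich (d : ℕ) (hd : 1 ≤ d) (S : Type) [AddCommGroup S] [Fintype S] (v' v : ℝ)
    (hv' : 0 < v') (hv : v' < v) (n : ℕ) (A : Finset (Ed d) → Prop) (hA : inc A) (ε : ℝ)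
    (hε : 0 < ε) :
    ∃ M : ℕ, ∀ m ≥ M, ph1 S (box d m) v' (fun η => A (η ∩ tch (box d n))) ≤
      ph0 S (box d m) v (fun η => A (η ∩ tch (box d n))) + ε := by
  obtain ⟨v₀, h1, h2, h3⟩ := exists_cont d hd S v' v hv' hv
  have hv₀ : 0 < v₀ := hv'.trans h1
  have hε' : 0 < ε / ((tch (box d n)).card + 1 : ℝ) := by positivity
  choose M hM using fun e => h3 e _ hε'
  have hB : inc (fun η : Finset (Ed d) => A (η ∩ tch (box d n))) := fun s t hst hs =>
    hA _ _ (Finset.inter_subset_inter_right hst) hs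
  refine ⟨(tch (box d n)).sup M, fun m hm => ?_⟩
  have h4 := ph1_v (S := S) (box d m) v' v₀ hv' h1.le _ hB
  have h5 := ph0_v (S := S) (box d m) v₀ v hv₀ h2.le _ hB
  have h6 := ph_diff (S := S) (box d m) v₀ hv₀ (tch (box d n)) A hA
  have h7 : ∑ e ∈ tch (box d n), (ph1 S (box d m) v₀ (fun η => e ∈ η) -
      ph0 S (box d m) v₀ (fun η => e ∈ η)) ≤
      ∑ e ∈ tch (box d n), ε / ((tch (box d n)).card + 1 : ℝ) := by
    refine Finset.sum_le_sum fun e he => ?_
    have h8 := hM e m (le_trans (Finset.le_sup he) hm)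
    linarith
  rw [Finset.sum_const, nsmul_eq_mul] at h7
  have h9 : ((tch (box d n)).card : ℝ) * (ε / ((tch (box d n)).card + 1 : ℝ)) ≤ ε := by
    rw [mul_div_assoc', div_le_iff₀ (by positivity)]
    nlinarith
  linarith

end Pool.Agent.Lib.MP_6a79cf_pr
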