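import Pool.Agent.Lib.MP_6a79cf_pr.M10
import Pool.Agent.Lib.MP_6a79cf_pr.M10b
import Pool.Agent.Lib.MP_6a79cf_pr.M11
import Pool.Agent.Lib.MP_6a79cf_pr.M12
import Pool.Agent.Lib.MP_6a79cf_pr.V6
import Pool.Agent.Lib.MP_6a79cf_pr.K2

/-!
The lower bound for the magnetisation. `v = e^β - 1 > v' = e^β' - 1`. `A_n η` = `0` is joined in `η` to the complement
of `box n` (increasing). `out n 0 ω ↔ A_n (ope (tch (box n)) ω)`. For `m ≥ n`: `A_m η → A_n (η ∩ tch (box n))` (`first_exit`). `θ_m = ph1 (box m) v' A_m`.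
For `ε > 0` and large `m`: `θ_m ≤ ph1 (box m) v' (A_n (· ∩ tch (box n))) ≤ ph0 (box m) v (A_n (· ∩ tch (box n))) + ε ≤ P (out n 0) + ε`
(`sandwich`, `P_dom`). By `mag_eq` `potts β' (box m) c {σ 0 = c} = θ_m + (1 - θ_m)/q → m₀`, so `θ_m → t`, `m₀ = t + (1 - t)/q` (`q ≥ 2`).
So `t ≤ P (out n 0)` for all `n` and `mag_le` gives `m₀ ≤ P (x.1 0 = c) = π (σ 0 = c)`.
-/

set_option autoImplicit false

open scoped Classical ENNReal
open MeasureTheory Filter Topology

namespace Pool.Agent.Lib.MP_6a79cf_pr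

variable {d : ℕ} {S : Type} [AddCommGroup S] [Fintype S] [MeasurableSpace S]
  [MeasurableSingletonClass S]

omit [AddCommGroup S] [MeasurableSpace S] [MeasurableSingletonClass S] in
private theorem M13_WW_le {X Y : Type} (a b : Y → X) (F : Finset Y) (D : Finset X) (v : ℝ)
    (hv : 0 < v) (τ : X → S) (f g : (X → S) → Finset Y → ℝ) (h : ∀ σ η, f σ η ≤ g σ η) :
    WW a b F D v τ f ≤ WW a b F D v τ g := by
  unfold WW
  refine Finset.sum_le_sum fun s _ => Finset.sum_le_sum fun η _ => ?_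
  split_ifs
  · exact mul_le_mul_of_nonneg_left (h _ _) (by positivity)
  · exact le_rfl

omit [MeasurableSpace S] [MeasurableSingletonClass S] in
private theorem M13_ph1_le (D : Finset (Vx d)) (v : ℝ) (hv : 0 < v) (A B : Finset (Ed d) → Prop)
    (h : ∀ η, A η → B η) : ph1 S D v A ≤ ph1 S D v B := by
  unfold ph1
  refine div_le_div_of_nonneg_right (M13_WW_le _ _ _ _ _ hv _ _ _ fun σ η => ?_)
    (WW_pos _ _ _ _ _ hv _).le
  by_cases h1 : A η
  · rw [if_pos h1, if_pos (h η h1)]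
  · rw [if_neg h1]
    split_ifs
    · exact zero_le_one
    · exact le_rfl

private theorem M13_zero_mem (n : ℕ) : (0 : Vx d) ∈ box d n := by
  unfold box
  rw [Finset.mem_Icc]
  constructor
  · intro i
    simp
  · intro i
    simp

private theorem M13_inc (B : Set (Vx d)) (x : Vx d) :
    inc fun η : Finset (Ed d) => cst hd tl (↑η : Set (Ed d)) B x := by
  rintro s t hst ⟨z, hz, hc⟩
  exact ⟨z, hz, con_mono (by exact_mod_cast hst) hc⟩

theorem lower (hd1 : 1 ≤ d) (hq : 2 ≤ Fintype.card S) (β : ℝ) (hβ : 0 < β)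
    (P : Measure (Om d S)) (hES : ES (Real.exp β - 1) P) (c : S) (honly : only c P)
    (β' m₀ : ℝ) (hβ' : 0 < β') (hlt : β' < β)
    (hlim : Tendsto (fun n => potts β' (box d n) (fun _ => c) {σ | σ 0 = c}) atTop (𝓝 m₀)) :
    m₀ ≤ (P {x | x.1 0 = c}).toReal := by
  have hv : 0 < Real.exp β - 1 := by
    have := Real.add_one_lt_exp hβ.ne'
    linarith
  have hv' : 0 < Real.exp β' - 1 := by
    have := Real.add_one_lt_exp hβ'.ne'
    linarith
  have hvv : Real.exp β' - 1 < Real.exp β - 1 := by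
    have := Real.exp_lt_exp.2 hlt
    linarith
  have hPp : IsProbabilityMeasure P := hES.prob
  obtain ⟨A, hA⟩ : ∃ A : ℕ → Finset (Ed d) → Prop,
      ∀ n η, A n η ↔ cst hd tl (↑η : Set (Ed d)) {z | z ∉ box d n} 0 := ⟨_, fun _ _ => Iff.rfl⟩
  have hAinc : ∀ n, inc (A n) := by
    intro n s t hst h
    rw [hA] at h ⊢
    exact M13_inc _ _ s t hst h
  obtain ⟨θ, hθ⟩ : ∃ θ : ℕ → ℝ, ∀ m, θ m = ph1 S (box d m) (Real.exp β' - 1)
      (fun η => cst hd tl (↑η : Set (Ed d)) {z | z ∉ box d m} 0) := ⟨_, fun _ => rfl⟩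
  obtain ⟨q, hq'⟩ : ∃ q : ℝ, q = (Fintype.card S : ℝ) := ⟨_, rfl⟩
  have hq2 : 2 ≤ q := by
    rw [hq']
    exact_mod_cast hq
  have hmag : ∀ m, potts β' (box d m) (fun _ => c) {σ | σ 0 = c} = θ m + (1 - θ m) / q := by
    intro m
    rw [mag_eq β' hβ' (box d m) 0 (M13_zero_mem m) c, hθ, hq']
  have hθlim : Tendsto θ atTop (𝓝 ((m₀ - 1 / q) / (1 - 1 / q))) := by
    have h1 : Tendsto (fun n => (potts β' (box d n) (fun _ => c) {σ | σ 0 = c} - 1 / q) / (1 - 1 / q)) atTop
        (𝓝 ((m₀ - 1 / q) / (1 - 1 / q))) := (hlim.sub_const _).div_const _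
    refine h1.congr fun m => ?_
    rw [hmag]
    have h2 : q ≠ 0 := by linarith
    have h3 : q - 1 ≠ 0 := by linarith
    field_simp
    ring
  have ht : ∀ n, (m₀ - 1 / q) / (1 - 1 / q) ≤ (P {x | out n (0 : Vx d) x.2}).toReal := by
    intro n
    refine le_of_forall_pos_le_add fun ε hε => ?_
    obtain ⟨M, hM⟩ := sandwich d hd1 S (Real.exp β' - 1) (Real.exp β - 1) hv' hvv n (A n) (hAinc n) ε hε
    refine le_of_tendsto hθlim ?_
    filter_upwards [eventually_ge_atTop (max M n)] with m hm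
    have hmM : M ≤ m := (le_max_left _ _).trans hm
    have hmn : n ≤ m := (le_max_right _ _).trans hm
    have hbox : box d n ⊆ box d m := box_mono hmn
    have e1 : θ m ≤ ph1 S (box d m) (Real.exp β' - 1) (fun η => A n (η ∩ tch (box d n))) := by
      rw [hθ]
      refine M13_ph1_le _ _ hv' _ _ fun η hη => ?_
      rw [hA]
      obtain ⟨z, hz, hc⟩ := hη
      have hz' : z ∉ box d n := fun h => hz (hbox h)
      obtain ⟨u, hu, hcu⟩ := first_exit hc (M13_zero_mem n) hz'
      refine ⟨u, ?_, ?_⟩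
      · exact (Finset.mem_sdiff.1 hu).2
      · rw [Finset.coe_inter]
        exact hcu
    have e2 := hM m hmM
    have e3 := P_dom (Real.exp β - 1) hv P hES c honly m (fun η => A n (η ∩ tch (box d n))) (by
      intro s t hst h
      exact hAinc n _ _ (Finset.inter_subset_inter_right hst) h)
    have e4 : {x : Om d S | A n (ope (tch (box d m)) x.2 ∩ tch (box d n))} = {x | out n (0 : Vx d) x.2} := by
      ext x
      show A n (ope (tch (box d m)) x.2 ∩ tch (box d n)) ↔ out n (0 : Vx d) x.2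
      rw [hA]
      have e5 : ope (tch (box d m)) x.2 ∩ tch (box d n) = ope (tch (box d n)) x.2 := by
        have e6 := tch_mono hbox
        ext e
        unfold ope
        rw [Finset.mem_inter, Finset.mem_filter, Finset.mem_filter]
        constructor
        · rintro ⟨⟨-, h1⟩, h2⟩
          exact ⟨h2, h1⟩
        · rintro ⟨h1, h2⟩
          exact ⟨⟨e6 h1, h2⟩, h1⟩
      rw [e5]
      exact Iff.rfl
    have e7 : (P {x | A n (ope (tch (box d m)) x.2 ∩ tch (box d n))}).toReal =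
        (P {x | out n (0 : Vx d) x.2}).toReal := by rw [e4]
    linarith
  have hfin := mag_le (Real.exp β - 1) hv P hES c honly _ ht
  refine le_trans (le_of_eq ?_) hfin
  rw [← hq']
  have h2 : q ≠ 0 := by linarith
  have h3 : q - 1 ≠ 0 := by linarith
  field_simp
  ring

end Pool.Agent.Lib.MP_6a79cf_pr
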