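import Pool.Agent.Lib.MP_6a79cf_pr.K4

/-!
LEAF M14 (upper bound for the magnetisation of every Gibbs state). `dlr` with `B = univ`, `D = box n`:
`π (σ 0 = c) = ∫ ofReal (potts β D τ ..) dπ ≤ ofReal (potts β D c ..)` (`potts_up`, probability measure); let `n → ∞`
(`ge_of_tendsto'`).
-/

set_option autoImplicit false

open scoped Classical ENNReal
open MeasureTheory Filter Topology

namespace Pool.Agent.Lib.MP_6a79cf_pr

variable {d : ℕ} {S : Type} [AddCommGroup S] [Fintype S] [MeasurableSpace S]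
  [MeasurableSingletonClass S]

theorem mag_ge (β : ℝ) (hβ : 0 < β) (π : Measure (Vx d → S)) (hπ : Gibbs β π) (c : S) (m₀ : ℝ)
    (h : Tendsto (fun n => potts β (box d n) (fun _ => c) {σ | σ 0 = c}) atTop (𝓝 m₀)) :
    (π {σ | σ 0 = c}).toReal ≤ m₀ := by
  refine ge_of_tendsto' h fun n => ?_
  have hprob : IsProbabilityMeasure π := hπ.prob
  have hA : MeasurableSet {σ : Vx d → S | σ 0 = c} := by
    have h1 : Measurable fun σ : Vx d → S => σ 0 := measurable_pi_apply 0
    exact h1 (measurableSet_singleton c)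
  have h0 : (0 : Vx d) ∈ box d n := by
    unfold box
    rw [Finset.mem_Icc, Pi.le_def, Pi.le_def]
    exact ⟨fun _ => by simp, fun _ => by simp⟩
  have hm : 0 ≤ potts β (box d n) (fun _ => c) {σ : Vx d → S | σ 0 = c} := by
    unfold potts
    refine div_nonneg (Finset.sum_nonneg fun s _ => ?_) (Finset.sum_nonneg fun s _ => (Real.exp_pos _).le)
    split_ifs
    · exact (Real.exp_pos _).le
    · exact le_rfl
  have h1 := hπ.dlr (fun _ => -(n : ℤ)) (fun _ => (n : ℤ)) {σ : Vx d → S | σ 0 = c} Set.univ hA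
    MeasurableSet.univ (fun _ _ _ => Iff.rfl)
  rw [Set.inter_univ, Measure.restrict_univ] at h1
  have h2 : π {σ : Vx d → S | σ 0 = c} ≤
      ENNReal.ofReal (potts β (box d n) (fun _ => c) {σ : Vx d → S | σ 0 = c}) := by
    rw [h1]
    calc ∫⁻ τ, ENNReal.ofReal (potts β (Finset.Icc (fun _ => -(n : ℤ)) (fun _ => (n : ℤ))) τ
          {σ : Vx d → S | σ 0 = c}) ∂π
        ≤ ∫⁻ _, ENNReal.ofReal (potts β (box d n) (fun _ => c) {σ : Vx d → S | σ 0 = c}) ∂π :=
          lintegral_mono fun τ => ENNReal.ofReal_le_ofReal (potts_up β hβ (box d n) τ 0 h0 c)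
      _ = ENNReal.ofReal (potts β (box d n) (fun _ => c) {σ : Vx d → S | σ 0 = c}) := by
          rw [lintegral_const, measure_univ, mul_one]
  calc (π {σ : Vx d → S | σ 0 = c}).toReal
      ≤ (ENNReal.ofReal (potts β (box d n) (fun _ => c) {σ : Vx d → S | σ 0 = c})).toReal :=
        ENNReal.toReal_mono ENNReal.ofReal_ne_top h2
    _ = _ := ENNReal.toReal_ofReal hm

end Pool.Agent.Lib.MP_6a79cf_pr
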