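import Pool.Agent.Lib.MP_6a79cf_pr.M10
import Pool.Agent.Lib.MP_6a79cf_pr.M10b
import Pool.Agent.Lib.MP_6a79cf_pr.M10c
import Pool.Agent.Lib.MP_6a79cf_pr.M11
import Pool.Agent.Lib.MP_6a79cf_pr.M12
import Pool.Agent.Lib.MP_6a79cf_pr.M13
import Pool.Agent.Lib.MP_6a79cf_pr.M14

/-!
# MP_6a79cf_pr: conclusion with the dichotomy
-/

set_option autoImplicit false

open scoped Classical ENNReal
open MeasureTheory Filter Topology

namespace Pool.Agent.Lib.MP_6a79cf_pr

variable {d : ℕ} {S : Type} [AddCommGroup S] [Fintype S] [MeasurableSpace S]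
  [MeasurableSingletonClass S]

omit [AddCommGroup S] [Fintype S] [MeasurableSpace S] [MeasurableSingletonClass S] in
private theorem M15_con {z : Vx d} {x : Om d S} {u w : Vx d}
    (h : con hd tl (opn (sh z x).2) u w) : con hd tl (opn x.2) (u + z) (w + z) := by
  unfold con at h ⊢
  induction h with
  | rel a b hab =>
    obtain ⟨e, he, h1, h2⟩ := hab
    refine Relation.EqvGen.rel _ _ ⟨(e.1 + z, e.2), he, ?_, ?_⟩
    · rw [← h1]
      rfl
    · rw [← h2]
      show e.1 + z + Pi.single e.2 1 = e.1 + Pi.single e.2 1 + z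
      abel
  | refl a => exact Relation.EqvGen.refl _
  | symm a b _ ih => exact Relation.EqvGen.symm _ _ ih
  | trans a b c _ _ ih1 ih2 => exact Relation.EqvGen.trans _ _ _ ih1 ih2

omit [AddCommGroup S] [Fintype S] [MeasurableSpace S] [MeasurableSingletonClass S] in
private theorem M15_con' {z : Vx d} {x : Om d S} {u w : Vx d}
    (h : con hd tl (opn x.2) u w) : con hd tl (opn (sh z x).2) (u - z) (w - z) := by
  unfold con at h ⊢
  induction h with
  | rel a b hab =>
    obtain ⟨e, he, h1, h2⟩ := hab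
    refine Relation.EqvGen.rel _ _ ⟨(e.1 - z, e.2), ?_, ?_, ?_⟩
    · show x.2 (e.1 - z + z, e.2) = true
      rw [sub_add_cancel]
      exact he
    · rw [← h1]
      rfl
    · rw [← h2]
      show e.1 - z + Pi.single e.2 1 = e.1 + Pi.single e.2 1 - z
      abel
  | refl a => exact Relation.EqvGen.refl _
  | symm a b _ ih => exact Relation.EqvGen.symm _ _ ih
  | trans a b c _ _ ih1 ih2 => exact Relation.EqvGen.trans _ _ _ ih1 ih2

private theorem M15_box (z : Vx d) (m : ℕ) : ∃ N : ℕ, ∀ w : Vx d, w ∈ box d m →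
    w + z ∈ box d N ∧ w - z ∈ box d N := by
  refine ⟨m + ∑ i, (z i).natAbs, fun w hw => ?_⟩
  have h1 : ∀ i, |z i| ≤ ((∑ i, (z i).natAbs : ℕ) : ℤ) := fun i => by
    have h2 : (z i).natAbs ≤ ∑ i, (z i).natAbs :=
      Finset.single_le_sum (f := fun i => (z i).natAbs) (fun _ _ => Nat.zero_le _) (Finset.mem_univ i)
    rw [Int.abs_eq_natAbs]
    exact_mod_cast h2
  unfold box at hw ⊢
  rw [Finset.mem_Icc, Pi.le_def, Pi.le_def] at hw
  rw [Finset.mem_Icc, Finset.mem_Icc, Pi.le_def, Pi.le_def, Pi.le_def, Pi.le_def]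
  have h3 : ∀ i, -(m : ℤ) ≤ w i ∧ w i ≤ m := fun i => ⟨hw.1 i, hw.2 i⟩
  refine ⟨⟨fun i => ?_, fun i => ?_⟩, ⟨fun i => ?_, fun i => ?_⟩⟩ <;>
    · have h4 := h3 i
      have h5 := abs_le.1 (h1 i)
      simp only [Pi.add_apply, Pi.sub_apply]
      push_cast at h5 ⊢
      linarith

omit [AddCommGroup S] [Fintype S] [MeasurableSpace S] [MeasurableSingletonClass S] in
private theorem M15_toinf (z : Vx d) (x : Om d S) (y : Vx d) :
    toinf (opn (sh z x).2) y ↔ toinf (opn x.2) (y + z) := by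
  constructor
  · intro h m
    obtain ⟨N, hN⟩ := M15_box z m
    obtain ⟨w, hw, hc⟩ := h N
    refine ⟨w + z, fun h1 => hw ?_, M15_con hc⟩
    have h2 := (hN (w + z) h1).2
    rwa [add_sub_cancel_right] at h2
  · intro h m
    obtain ⟨N, hN⟩ := M15_box z m
    obtain ⟨w, hw, hc⟩ := h N
    refine ⟨w - z, fun h1 => hw ?_, ?_⟩
    · have h2 := (hN (w - z) h1).1
      rwa [sub_add_cancel] at h2
    · have h2 := M15_con' (z := z) hc
      rwa [add_sub_cancel_right] at h2

omit [AddCommGroup S] [Fintype S] [MeasurableSingletonClass S] in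
private theorem M15_meas (z : Vx d) : Measurable (sh z : Om d S → Om d S) := by
  unfold sh
  refine Measurable.prodMk ?_ ?_
  · exact measurable_pi_lambda _ fun y => (measurable_pi_apply (y + z)).comp measurable_fst
  · exact measurable_pi_lambda _ fun e => (measurable_pi_apply (e.1 + z, e.2)).comp measurable_snd

theorem dich (hq : 2 ≤ Fintype.card S) (v : ℝ) (hv : 0 < v) (P : Measure (Om d S))
    (hP : ES v P) (hT : TI P) (c : S) (hc : only c P)
    (h : (P {x | x.1 0 = c}).toReal ≤ 1 / Fintype.card S) (g : Equiv.Perm S) :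
    (P.map Prod.fst).map (fun (σ : Vx d → S) x => g (σ x)) = P.map Prod.fst := by
  haveI := hP.prob
  have hmt : ∀ y : Vx d, MeasurableSet {x : Om d S | toinf (opn x.2) y} := fun y =>
    measurable_snd (meas_toinf' y)
  have h1 := mag_le v hv P hP c hc (P {x | toinf (opn x.2) (0 : Vx d)}).toReal (fun n => by
    refine ENNReal.toReal_mono (measure_ne_top _ _) (measure_mono ?_)
    intro x hx
    exact toinf_iff.1 hx n)
  have hq' : (2 : ℝ) ≤ Fintype.card S := by exact_mod_cast hq
  have h2 : (P {x | toinf (opn x.2) (0 : Vx d)}).toReal = 0 := by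
    have h3 : 0 ≤ (P {x | toinf (opn x.2) (0 : Vx d)}).toReal := ENNReal.toReal_nonneg
    set t := (P {x | toinf (opn x.2) (0 : Vx d)}).toReal with ht
    have h4 : t + (1 - t) / Fintype.card S ≤ 1 / Fintype.card S := h1.trans h
    have h5 : t * (Fintype.card S - 1) ≤ 0 := by
      rw [← sub_nonneg] at h4 ⊢
      have h6 : (1 / (Fintype.card S : ℝ) - (t + (1 - t) / Fintype.card S)) * Fintype.card S =
          0 - t * (Fintype.card S - 1) := by
        field_simp
        ring
      rw [← h6]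
      exact mul_nonneg h4 (by linarith)
    nlinarith
  have h3 : P {x | toinf (opn x.2) (0 : Vx d)} = 0 := by
    rcases (ENNReal.toReal_eq_zero_iff _).1 h2 with h4 | h4
    · exact h4
    · exact absurd h4 (measure_ne_top _ _)
  refine sym_all v hv P hP (fun y => ?_) g
  have h4 : P {x | toinf (opn x.2) y} = P {x | toinf (opn x.2) (0 : Vx d)} := by
    have h5 := hT y
    conv_rhs => rw [← h5]
    rw [Measure.map_apply (M15_meas y) (hmt 0)]
    congr 1
    ext x
    show toinf (opn x.2) y ↔ toinf (opn (sh y x).2) 0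
    rw [M15_toinf, zero_add]
  rw [h4, h3]

theorem main2 (hd1 : 1 ≤ d) (hq : 2 ≤ Fintype.card S) (β : ℝ) (hβ : 0 < β)
    (π : Measure (Vx d → S)) (hπ : XTIG β π) :
    ∃ c : S, (∀ g : Equiv.Perm S, g c = c → π.map (fun σ x => g (σ x)) = π) ∧
      (∀ β' m₀ : ℝ, 0 < β' → β' < β →
        Tendsto (fun n => potts β' (box d n) (fun _ => c) {σ | σ 0 = c}) atTop (𝓝 m₀) →
        m₀ ≤ (π {σ | σ 0 = c}).toReal) ∧
      (1 / (Fintype.card S : ℝ) < (π {σ | σ 0 = c}).toReal ∨
        ∀ g : Equiv.Perm S, π.map (fun σ x => g (σ x)) = π) := by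
  obtain ⟨c, P, hES, hT, honly, hmap⟩ := exists_only hd1 β hβ π hπ
  have hv : 0 < Real.exp β - 1 := by
    have := Real.add_one_lt_exp hβ.ne'
    linarith
  have hmeas : MeasurableSet {σ : Vx d → S | σ 0 = c} := by
    have h4 : Measurable fun σ : Vx d → S => σ 0 := measurable_pi_apply _
    exact h4 (measurableSet_singleton c)
  have hπ0 : π {σ | σ 0 = c} = P {x | x.1 0 = c} := by
    rw [← hmap, Measure.map_apply measurable_fst hmeas]
    rfl
  refine ⟨c, fun g hg => ?_, fun β' m₀ hβ' hlt hlim => ?_, ?_⟩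
  · have h1 := sym (Real.exp β - 1) hv P hES c honly g hg
    rw [hmap] at h1
    exact h1
  · rw [hπ0]
    exact lower hd1 hq β hβ P hES c honly β' m₀ hβ' hlt hlim
  · rw [hπ0]
    rcases lt_or_ge (1 / (Fintype.card S : ℝ)) (P {x | x.1 0 = c}).toReal with h1 | h1
    · exact Or.inl h1
    · refine Or.inr fun g => ?_
      have h2 := dich hq (Real.exp β - 1) hv P hES hT c honly h1 g
      rw [hmap] at h2
      exact h2

end Pool.Agent.Lib.MP_6a79cf_pr
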