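import Pool.Agent.Lib.MP_6a79cf_pr.K4

/-!
LEAF M16 (the magnetisation exists). `potts_anti`: by `mag_eq` it is enough to compare the probabilities that `x` is joined to the
complement of `D'`, of `D`. If `x` is joined to the complement of `D'` in `η` then it is joined to the complement of `D` in
`η ∩ tch D` (`M16_exit`); then `ph1_anti`. `mag_lim`: antitone and bounded below by `0` (`tendsto_atTop_ciInf`).
-/

set_option autoImplicit false

open scoped Classical
open Filter Topology

namespace Pool.Agent.Lib.MP_6a79cf_pr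

variable {d : ℕ} {S : Type} [AddCommGroup S] [Fintype S]

/-- the path leaves `D` through the edges which touch `D` -/
private theorem M16_exit {D D' : Finset (Vx d)} (hD : D ⊆ D') {x : Vx d}
    {η η' : Finset (Ed d)} (hη : ∀ e ∈ η, e ∈ tch D → e ∈ η')
    (h : cst hd tl (↑η : Set (Ed d)) {z | z ∉ D'} x) :
    cst hd tl (↑η' : Set (Ed d)) {z | z ∉ D} x := by
  by_contra hcon
  obtain ⟨z, hz, hxz⟩ := h
  have hgood : ∀ y : Vx d, con hd tl (↑η' : Set (Ed d)) x y → y ∈ D := by
    intro y hy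
    by_contra hyD
    exact hcon ⟨y, hyD, hy⟩
  have key : ∀ p q : Vx d, con hd tl (↑η : Set (Ed d)) p q →
      (con hd tl (↑η' : Set (Ed d)) x p ↔ con hd tl (↑η' : Set (Ed d)) x q) := by
    intro p q hpq
    unfold con at hpq
    induction hpq with
    | rel p q h1 =>
      obtain ⟨e, he, rfl, rfl⟩ := h1
      have he' := Finset.mem_coe.1 he
      constructor
      · intro h2
        have h3 : e ∈ tch D := mem_tch.2 (Or.inl (hgood _ h2))
        exact Relation.EqvGen.trans _ _ _ h2
          (Relation.EqvGen.rel _ _ ⟨e, Finset.mem_coe.2 (hη e he' h3), rfl, rfl⟩)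
      · intro h2
        have h3 : e ∈ tch D := mem_tch.2 (Or.inr (hgood _ h2))
        exact Relation.EqvGen.trans _ _ _ h2 (Relation.EqvGen.symm _ _
          (Relation.EqvGen.rel _ _ ⟨e, Finset.mem_coe.2 (hη e he' h3), rfl, rfl⟩))
    | refl p => exact Iff.rfl
    | symm p q _ ih => exact ih.symm
    | trans p q r _ _ ih1 ih2 => exact ih1.trans ih2
  have h1 : con hd tl (↑η' : Set (Ed d)) x z := (key x z hxz).1 (Relation.EqvGen.refl x)
  exact hz (hD (hgood z h1))

omit [AddCommGroup S] in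
private theorem M16_mono {X Y : Type} {a b : Y → X} {F : Finset Y} {D : Finset X} {v : ℝ} (hv : 0 < v)
    {τ : X → S} {f g : (X → S) → Finset Y → ℝ} (h : ∀ σ η, f σ η ≤ g σ η) :
    WW a b F D v τ f ≤ WW a b F D v τ g := by
  unfold WW
  refine Finset.sum_le_sum fun s _ => Finset.sum_le_sum fun η _ => ?_
  by_cases hc : comp a b (↑η : Set Y) (ext D τ s)
  · rw [if_pos hc, if_pos hc]
    exact mul_le_mul_of_nonneg_left (h _ _) (pow_pos hv _).le
  · rw [if_neg hc, if_neg hc]

theorem potts_anti (β : ℝ) (hβ : 0 < β) (D D' : Finset (Vx d)) (hD : D ⊆ D') (x : Vx d)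
    (hx : x ∈ D) (c : S) : potts β D' (fun _ => c) {σ | σ x = c} ≤ potts β D (fun _ => c) {σ | σ x = c} := by
  have hv : 0 < Real.exp β - 1 := by
    have := Real.add_one_lt_exp hβ.ne'
    linarith
  rw [mag_eq β hβ D x hx c, mag_eq β hβ D' x (hD hx) c]
  set v : ℝ := Real.exp β - 1 with hvdef
  have hq1 : (1 : ℝ) ≤ Fintype.card S := by
    have : Nonempty S := ⟨0⟩
    exact_mod_cast Nat.one_le_iff_ne_zero.2 Fintype.card_ne_zero
  have hq : (0 : ℝ) < Fintype.card S := lt_of_lt_of_le one_pos hq1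
  have hJ : inc (fun η : Finset (Ed d) => cst hd tl (↑η : Set (Ed d)) {z | z ∉ D} x) := by
    rintro s t hst ⟨z, hz, hxz⟩
    refine ⟨z, hz, Relation.EqvGen.mono (fun p q hpq => ?_) x z hxz⟩
    obtain ⟨e, he, h1⟩ := hpq
    exact ⟨e, Finset.mem_coe.2 (hst (Finset.mem_coe.1 he)), h1⟩
  have h1 := ph1_anti (S := S) hD v hv (fun η => cst hd tl (↑η : Set (Ed d)) {z | z ∉ D} x) hJ
  have h2 : ph1 S D' v (fun η => cst hd tl (↑η : Set (Ed d)) {z | z ∉ D'} x) ≤
      ph1 S D' v (fun η => cst hd tl (↑(η ∩ tch D) : Set (Ed d)) {z | z ∉ D} x) := by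
    have hZ : 0 < WW hd tl (tch D') D' v (fun _ => (0 : S)) (fun _ _ => (1 : ℝ)) := by
      rw [WW_one hd tl (tch D') D' v hv (fun _ => (0 : S)) (fun _ => 1)]
      exact Finset.sum_pos (fun s _ => by positivity) ⟨fun _ => 0, by simp⟩
    unfold ph1
    refine div_le_div_of_nonneg_right (M16_mono hv fun σ η => ?_) hZ.le
    by_cases h3 : cst hd tl (↑η : Set (Ed d)) {z | z ∉ D'} x
    · rw [if_pos h3, if_pos (M16_exit hD (fun e he he' => Finset.mem_inter.2 ⟨he, he'⟩) h3)]
    · rw [if_neg h3]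
      split_ifs
      · exact zero_le_one
      · exact le_refl _
  have h3 := h2.trans h1
  set P := ph1 S D v (fun η => cst hd tl (↑η : Set (Ed d)) {z | z ∉ D} x) with hP
  set P' := ph1 S D' v (fun η => cst hd tl (↑η : Set (Ed d)) {z | z ∉ D'} x) with hP'
  have h4 : P' + (1 - P') / Fintype.card S = P' * (1 - 1 / Fintype.card S) + 1 / Fintype.card S := by
    field_simp
    ring
  have h5 : P + (1 - P) / Fintype.card S = P * (1 - 1 / Fintype.card S) + 1 / Fintype.card S := by
    field_simp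
    ring
  rw [h4, h5]
  have h8 : (0 : ℝ) ≤ 1 - 1 / Fintype.card S := by
    rw [sub_nonneg, div_le_one hq]
    exact hq1
  have h9 := mul_le_mul_of_nonneg_right h3 h8
  linarith

theorem mag_lim (β : ℝ) (hβ : 0 < β) (c : S) :
    ∃ m : ℝ, Tendsto (fun n => potts β (box d n) (fun _ => c) {σ | σ 0 = c}) atTop (𝓝 m) := by
  have hbox : ∀ m n : ℕ, m ≤ n → box d m ⊆ box d n := by
    intro m n hmn
    unfold box
    refine Finset.Icc_subset_Icc (fun _ => ?_) (fun _ => ?_)
    · have : (m : ℤ) ≤ n := by exact_mod_cast hmn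
      show -(n : ℤ) ≤ -(m : ℤ)
      linarith
    · show (m : ℤ) ≤ n
      exact_mod_cast hmn
  have h0 : ∀ n : ℕ, (0 : Vx d) ∈ box d n := by
    intro n
    unfold box
    rw [Finset.mem_Icc]
    refine ⟨fun _ => ?_, fun _ => ?_⟩
    · show -(n : ℤ) ≤ 0
      have : (0 : ℤ) ≤ n := Int.natCast_nonneg n
      linarith
    · show (0 : ℤ) ≤ n
      exact Int.natCast_nonneg n
  have hanti : Antitone (fun n => potts β (box d n) (fun _ => c) {σ : Vx d → S | σ 0 = c}) := by
    intro m n hmn
    exact potts_anti β hβ (box d m) (box d n) (hbox m n hmn) 0 (h0 m) c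
  have hbdd : BddBelow (Set.range (fun n => potts β (box d n) (fun _ => c) {σ : Vx d → S | σ 0 = c})) := by
    refine ⟨0, ?_⟩
    rintro _ ⟨n, rfl⟩
    show 0 ≤ potts β (box d n) (fun _ => c) {σ : Vx d → S | σ 0 = c}
    unfold potts
    refine div_nonneg (Finset.sum_nonneg fun s _ => ?_) (Finset.sum_nonneg fun s _ => (Real.exp_pos _).le)
    split_ifs
    · exact (Real.exp_pos _).le
    · exact le_refl _
  exact ⟨_, tendsto_atTop_ciInf hanti hbdd⟩

end Pool.Agent.Lib.MP_6a79cf_pr
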