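import Pool.Agent.Lib.MP_6a79cf_pr.M2a
import Pool.Agent.Lib.MP_6a79cf_pr.M1

/-!
LEAF M2 (bonds added to a Gibbs state). `v = e^β - 1`, `p = v/(1+v) = 1 - e^(-β)`. `Φ (σ, b) = (σ, b_e and σ (hd e) = σ (tl e))`,
`P = (π.prod B).map Φ`, `B` from `exists_bern`. `∫ f dP = ∫∫ f (Φ (σ, b)) dB dπ`, resample `σ` in `D = Icc p q` (`gibbs_int`) and `b` in
`F = tch D`; for fixed `s` the sum over the sets `β ⊆ F` of open `b` with `bw p F β`: the open edges are `η = β ∩ A`,
`A = agr F (ext D τ s)`, and the sum over the part of `β` outside of `A` is `1`: `∑_β bw p F β G (β ∩ A) = ∑_{η ⊆ A} bw p A η G η`;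
this is `KK` by the computation in `WW_bern` (for ENNReal values): `(1+v)^|A| bw p A η = v^|η|`, `η` compatible iff `η ⊆ A`.
`Φ (patched) = patch D s η (Φ (σ, b))` because an edge outside of `tch D` has no end in `D`. Marginal: `Prod.fst ∘ Φ = Prod.fst`.
Translation: `Φ` commutes with the shifts, `π.prod B` is invariant (`TIG.ti`, `exists_bern`).
-/

set_option autoImplicit false

open scoped Classical ENNReal
open MeasureTheory

namespace Pool.Agent.Lib.MP_6a79cf_pr

variable {d : ℕ} {S : Type} [Fintype S] [Nonempty S] [MeasurableSpace S]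
  [MeasurableSingletonClass S]

omit [Fintype S] [Nonempty S] [MeasurableSpace S] [MeasurableSingletonClass S] in
private noncomputable def M2_phi (x : Om d S) : Om d S :=
  (x.1, fun e => x.2 e && decide (x.1 (hd e) = x.1 (tl e)))

omit [Nonempty S] in
private theorem M2_meas : Measurable (M2_phi : Om d S → Om d S) := by
  refine measurable_fst.prodMk ?_
  refine measurable_pi_iff.mpr fun e => ?_
  have h1 : Measurable (fun y : Bool × S × S => y.1 && decide (y.2.1 = y.2.2)) :=
    Measurable.of_discrete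
  have h2 : Measurable (fun x : Om d S => (x.2 e, x.1 (hd e), x.1 (tl e))) :=
    ((measurable_pi_apply e).comp measurable_snd).prodMk
      (((measurable_pi_apply (hd e)).comp measurable_fst).prodMk
        ((measurable_pi_apply (tl e)).comp measurable_fst))
  exact h1.comp h2

private theorem M2_bw1 {Y : Type} (p : ℝ) (F β : Finset Y) (e : Y) (he : e ∉ F) (hβ : β ⊆ F) :
    bw p (insert e F) β = bw p F β * (1 - p) := by
  have h1 : e ∉ β := fun h => he (hβ h)
  have h2 : insert e F \ β = insert e (F \ β) := by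
    ext x
    simp only [Finset.mem_sdiff, Finset.mem_insert]
    constructor
    · rintro ⟨h3 | h3, h4⟩
      · exact Or.inl h3
      · exact Or.inr ⟨h3, h4⟩
    · rintro (h3 | ⟨h3, h4⟩)
      · exact ⟨Or.inl h3, fun h5 => h1 (h3 ▸ h5)⟩
      · exact ⟨Or.inr h3, h4⟩
  unfold bw
  rw [h2, Finset.card_insert_of_notMem (fun h => he (Finset.mem_sdiff.mp h).1), pow_succ, mul_assoc]

private theorem M2_bw2 {Y : Type} (p : ℝ) (F β : Finset Y) (e : Y) (he : e ∉ F) (hβ : β ⊆ F) :
    bw p (insert e F) (insert e β) = bw p F β * p := by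
  have h1 : e ∉ β := fun h => he (hβ h)
  have h2 : insert e F \ insert e β = F \ β := by
    ext x
    simp only [Finset.mem_sdiff, Finset.mem_insert, not_or]
    constructor
    · rintro ⟨h3 | h3, h4, h5⟩
      · exact absurd h3 h4
      · exact ⟨h3, h5⟩
    · rintro ⟨h3, h4⟩
      exact ⟨Or.inr h3, fun h5 => he (h5 ▸ h3), h4⟩
  unfold bw
  rw [h2, Finset.card_insert_of_notMem h1, pow_succ]
  ring

private theorem M2_bw_nonneg {Y : Type} (p : ℝ) (hp0 : 0 ≤ p) (hp1 : p ≤ 1) (F β : Finset Y) :
    0 ≤ bw p F β :=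
  mul_nonneg (pow_nonneg hp0 _) (pow_nonneg (by linarith) _)

private theorem M2_sum {Y : Type} [inst : DecidableEq Y] (p : ℝ) (hp0 : 0 ≤ p) (hp1 : p ≤ 1)
    (A C : Finset Y) (hC : Disjoint A C) (G : Finset Y → ℝ≥0∞) :
    ∑ β ∈ (A ∪ C).powerset, ENNReal.ofReal (bw p (A ∪ C) β) * G (β ∩ A) =
      ∑ η ∈ A.powerset, ENNReal.ofReal (bw p A η) * G η := by
  have hinst : inst = fun a b => Classical.propDecidable (a = b) := Subsingleton.elim _ _
  subst hinst
  induction C using Finset.induction_on with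
  | empty =>
    rw [Finset.union_empty]
    refine Finset.sum_congr rfl fun β hβ => ?_
    rw [Finset.inter_eq_left.mpr (Finset.mem_powerset.mp hβ)]
  | insert e C he ih =>
    have heA : e ∉ A := fun h => Finset.disjoint_left.mp hC h (Finset.mem_insert_self e C)
    have hC' : Disjoint A C := Finset.disjoint_of_subset_right (Finset.subset_insert e C) hC
    have he' : e ∉ A ∪ C := fun h => (Finset.mem_union.mp h).elim heA he
    rw [Finset.union_insert, Finset.sum_powerset_insert he', ← ih hC', ← Finset.sum_add_distrib]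
    refine Finset.sum_congr rfl fun β hβ => ?_
    have hβ' := Finset.mem_powerset.mp hβ
    have h1 : insert e β ∩ A = β ∩ A := Finset.insert_inter_of_notMem heA
    rw [M2_bw1 p _ β e he' hβ', M2_bw2 p _ β e he' hβ', h1,
      ENNReal.ofReal_mul (M2_bw_nonneg p hp0 hp1 _ _), ENNReal.ofReal_mul (M2_bw_nonneg p hp0 hp1 _ _),
      ← add_mul, ← mul_add, ← ENNReal.ofReal_add (by linarith) hp0]
    have h2 : 1 - p + p = 1 := by ring
    rw [h2, ENNReal.ofReal_one, mul_one]

private theorem M2_wt {Y : Type} (v : ℝ) (hv : 0 < v) (A η : Finset Y) (hη : η ⊆ A) :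
    (1 + v) ^ A.card * bw (v / (1 + v)) A η = v ^ η.card := by
  have h1 : A.card = η.card + (A \ η).card := by
    have := Finset.card_sdiff_add_card_eq_card hη
    omega
  have h2 : (1 + v) ≠ 0 := by linarith
  have h3 : (1 + v) * (v / (1 + v)) = v := by field_simp
  have h4 : (1 + v) * (1 - v / (1 + v)) = 1 := by
    field_simp
    ring
  unfold bw
  rw [h1, pow_add]
  calc _ = ((1 + v) * (v / (1 + v))) ^ η.card * ((1 + v) * (1 - v / (1 + v))) ^ (A \ η).card := by
        rw [mul_pow, mul_pow]
        ring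
    _ = _ := by rw [h3, h4, one_pow, mul_one]

omit [Fintype S] [Nonempty S] [MeasurableSpace S] [MeasurableSingletonClass S] in
private theorem M2_tch {D : Finset (Vx d)} {e : Ed d} (he : e ∉ tch D) : hd e ∉ D ∧ tl e ∉ D := by
  constructor
  · intro h
    apply he
    unfold tch
    refine Finset.mem_biUnion.mpr ⟨hd e, h, Finset.mem_biUnion.mpr ⟨e.2, Finset.mem_univ _, ?_⟩⟩
    exact Finset.mem_insert_self _ _
  · intro h
    apply he
    unfold tch
    refine Finset.mem_biUnion.mpr ⟨tl e, h, Finset.mem_biUnion.mpr ⟨e.2, Finset.mem_univ _, ?_⟩⟩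
    refine Finset.mem_insert_of_mem (Finset.mem_singleton.mpr ?_)
    have h1 : tl e - Pi.single e.2 1 = e.1 := by
      unfold tl
      rw [add_sub_cancel_right]
    rw [h1]

omit [Nonempty S] [Fintype S] [MeasurableSpace S] [MeasurableSingletonClass S] in
private theorem M2_patch (D : Finset (Vx d)) (τ : Vx d → S) (s : D → S) (ω : Ed d → Bool)
    (β : Finset (Ed d)) :
    M2_phi (ext D τ s, fun e => if e ∈ tch D then decide (e ∈ β) else ω e) =
      patch D s (β ∩ agr hd tl (tch D) (ext D τ s)) (M2_phi (τ, ω)) := by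
  unfold M2_phi patch
  refine Prod.ext rfl ?_
  funext e
  show ((if e ∈ tch D then decide (e ∈ β) else ω e) &&
      decide (ext D τ s (hd e) = ext D τ s (tl e))) =
    (if e ∈ tch D then decide (e ∈ β ∩ agr hd tl (tch D) (ext D τ s)) else
      (ω e && decide (τ (hd e) = τ (tl e))))
  by_cases he : e ∈ tch D
  · rw [if_pos he, if_pos he, ← Bool.decide_and]
    refine decide_eq_decide.mpr ?_
    rw [Finset.mem_inter, agr, Finset.mem_filter]
    constructor
    · rintro ⟨h1, h2⟩
      exact ⟨h1, he, h2⟩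
    · rintro ⟨h1, _, h2⟩
      exact ⟨h1, h2⟩
  · rw [if_neg he, if_neg he]
    obtain ⟨h1, h2⟩ := M2_tch he
    have h3 : ext D τ s (hd e) = τ (hd e) := by
      unfold ext
      rw [dif_neg h1]
    have h4 : ext D τ s (tl e) = τ (tl e) := by
      unfold ext
      rw [dif_neg h2]
    rw [h3, h4]

omit [Fintype S] [Nonempty S] [MeasurableSpace S] [MeasurableSingletonClass S] in
private theorem M2_key (v : ℝ) (hv : 0 < v) (D : Finset (Vx d)) (τ : Vx d → S) (s : D → S)
    (ω : Ed d → Bool) (f : Om d S → ℝ≥0∞) :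
    ENNReal.ofReal ((1 + v) ^ (agr hd tl (tch D) (ext D τ s)).card) *
      ∑ β ∈ (tch D).powerset, ENNReal.ofReal (bw (v / (1 + v)) (tch D) β) *
        f (M2_phi (ext D τ s, fun e => if e ∈ tch D then decide (e ∈ β) else ω e)) =
    ∑ η ∈ (tch D).powerset, if comp hd tl (↑η : Set (Ed d)) (ext D τ s) then
      ENNReal.ofReal (v ^ η.card) * f (patch D s η (M2_phi (τ, ω))) else 0 := by
  have hp0 : 0 ≤ v / (1 + v) := by positivity
  have hp1 : v / (1 + v) ≤ 1 := by
    rw [div_le_one (by linarith)]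
    linarith
  set A := agr hd tl (tch D) (ext D τ s) with hAdef
  have hA : A ⊆ tch D := Finset.filter_subset _ _
  have hun : A ∪ (tch D \ A) = tch D := Finset.union_sdiff_of_subset hA
  have h1 := M2_sum (v / (1 + v)) hp0 hp1 A (tch D \ A) Finset.disjoint_sdiff
    (fun η => f (patch D s η (M2_phi (τ, ω))))
  rw [hun] at h1
  have h2 : ∀ β ∈ (tch D).powerset, ENNReal.ofReal (bw (v / (1 + v)) (tch D) β) *
        f (M2_phi (ext D τ s, fun e => if e ∈ tch D then decide (e ∈ β) else ω e)) =
      ENNReal.ofReal (bw (v / (1 + v)) (tch D) β) * f (patch D s (β ∩ A) (M2_phi (τ, ω))) := by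
    intro β _
    rw [M2_patch]
  rw [Finset.sum_congr rfl h2, h1, Finset.mul_sum]
  have h3 : (tch D).powerset.filter (fun η : Finset (Ed d) =>
      comp hd tl (↑η : Set (Ed d)) (ext D τ s)) = A.powerset := by
    ext η
    rw [Finset.mem_filter, Finset.mem_powerset, Finset.mem_powerset]
    constructor
    · rintro ⟨h4, h5⟩ e he
      rw [hAdef, agr, Finset.mem_filter]
      exact ⟨h4 he, h5 e he⟩
    · intro h4
      refine ⟨h4.trans hA, fun e he => ?_⟩
      have h5 := h4 (Finset.mem_coe.mp he)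
      rw [hAdef, agr, Finset.mem_filter] at h5
      exact h5.2
  rw [← Finset.sum_filter, h3]
  refine Finset.sum_congr rfl fun η hη => ?_
  rw [← mul_assoc, ← ENNReal.ofReal_mul (pow_nonneg (by linarith) _),
    M2_wt v hv A η (Finset.mem_powerset.mp hη)]

theorem exists_P (β : ℝ) (hβ : 0 < β) (π : Measure (Vx d → S)) (hπ : TIG β π) :
    ∃ P : Measure (Om d S), ES (Real.exp β - 1) P ∧ TI P ∧ P.map Prod.fst = π := by
  have hv : 0 < Real.exp β - 1 := by
    have := Real.add_one_lt_exp hβ.ne'
    linarith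
  have hv1 : 1 + (Real.exp β - 1) = Real.exp β := by ring
  generalize Real.exp β - 1 = v at hv hv1 ⊢
  obtain ⟨B, hB, hres, hsh⟩ := exists_bern d (v / (1 + v)) (by positivity)
    (by rw [div_lt_one (by linarith)]; linarith)
  have hπp := hπ.gibbs.prob
  have hm : Measurable (M2_phi : Om d S → Om d S) := M2_meas
  refine ⟨(π.prod B).map M2_phi, ⟨?_, ?_⟩, ?_, ?_⟩
  · exact Measure.isProbabilityMeasure_map hm.aemeasurable
  · intro p q f hf
    have hpm : ∀ (s : ↥(Finset.Icc p q) → S) (τ : Vx d → S) (η : Finset (Ed d)),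
        Measurable (fun ω : Ed d → Bool => f (patch (Finset.Icc p q) s η (M2_phi (τ, ω)))) :=
      fun s τ η => hf.comp ((meas_patch (Finset.Icc p q) s η).comp (hm.comp measurable_prodMk_left))
    rw [lintegral_map hf hm, lintegral_map (meas_KK v (Finset.Icc p q) f hf) hm,
      lintegral_prod (fun a => f (M2_phi a)) (hf.comp hm).aemeasurable,
      lintegral_prod (fun a => KK v (Finset.Icc p q) f (M2_phi a))
        ((meas_KK v (Finset.Icc p q) f hf).comp hm).aemeasurable]
    have hg : Measurable (fun τ : Vx d → S => ∫⁻ ω, f (M2_phi (τ, ω)) ∂B) :=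
      (hf.comp hm).lintegral_prod_right'
    rw [gibbs_int β hβ π hπ.gibbs p q _ hg]
    refine lintegral_congr fun τ => ?_
    have hZ : 0 < WW hd tl (tch (Finset.Icc p q)) (Finset.Icc p q) v τ (fun _ _ => 1) :=
      WW_pos hd tl (tch (Finset.Icc p q)) (Finset.Icc p q) v hv τ
    have hZ' : (ENNReal.ofReal (WW hd tl (tch (Finset.Icc p q)) (Finset.Icc p q) v τ
        (fun _ _ => 1)))⁻¹ ≠ ∞ :=
      ENNReal.inv_ne_top.mpr (ENNReal.ofReal_pos.mpr hZ).ne'
    have h1 : ∀ ω, KK v (Finset.Icc p q) f (M2_phi (τ, ω)) =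
        (∑ s : ↥(Finset.Icc p q) → S, ∑ η ∈ (tch (Finset.Icc p q)).powerset,
          if comp hd tl (↑η : Set (Ed d)) (ext (Finset.Icc p q) τ s) then
            ENNReal.ofReal (v ^ η.card) * f (patch (Finset.Icc p q) s η (M2_phi (τ, ω))) else 0) *
          (ENNReal.ofReal (WW hd tl (tch (Finset.Icc p q)) (Finset.Icc p q) v τ
            (fun _ _ => 1)))⁻¹ := by
      intro ω
      rw [← div_eq_mul_inv]
      rfl
    simp only [h1]
    rw [lintegral_mul_const' _ _ hZ', lintegral_finsetSum, div_eq_mul_inv]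
    · congr 1
      · refine Finset.sum_congr rfl fun s _ => ?_
        rw [hres (tch (Finset.Icc p q)) (fun ω => f (M2_phi (ext (Finset.Icc p q) τ s, ω)))
          ((hf.comp hm).comp measurable_prodMk_left), ← lintegral_const_mul']
        · refine lintegral_congr fun ω => ?_
          rw [← M2_key v hv (Finset.Icc p q) τ s ω f, hv1]
        · exact ENNReal.ofReal_ne_top
      · rw [← hv1, add_sub_cancel_left]
    · intro s _
      refine Finset.measurable_fun_sum _ fun η _ => ?_
      by_cases hc : comp hd tl (↑η : Set (Ed d)) (ext (Finset.Icc p q) τ s)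
      · simp only [if_pos hc]
        exact (hpm s τ η).const_mul _
      · simp only [if_neg hc]
        exact measurable_const
  · intro z
    have h1 : Measurable (fun (σ : Vx d → S) (x : Vx d) => σ (x + z)) :=
      measurable_pi_iff.mpr fun x => measurable_pi_apply _
    have h2 : Measurable (fun (ω : Ed d → Bool) (e : Ed d) => ω (e.1 + z, e.2)) :=
      measurable_pi_iff.mpr fun e => measurable_pi_apply _
    have h3 : (π.prod B).map (sh z) = π.prod B := by
      have h4 := Measure.map_prod_map π B h1 h2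
      rw [hπ.ti z, hsh z] at h4
      exact h4.symm
    rw [Measure.map_map (meas_sh z) hm]
    have h5 : (sh z : Om d S → Om d S) ∘ M2_phi = M2_phi ∘ sh z := by
      funext x
      refine Prod.ext rfl ?_
      funext e
      show (x.2 (e.1 + z, e.2) && decide (x.1 (hd (e.1 + z, e.2)) = x.1 (tl (e.1 + z, e.2)))) =
        (x.2 (e.1 + z, e.2) && decide (x.1 (hd e + z) = x.1 (tl e + z)))
      have h6 : (tl (e.1 + z, e.2) : Vx d) = tl e + z := by
        unfold tl
        show e.1 + z + Pi.single e.2 1 = e.1 + Pi.single e.2 1 + z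
        rw [add_right_comm]
      rw [h6]
      rfl
    rw [h5, ← Measure.map_map hm (meas_sh z), h3]
  · rw [Measure.map_map measurable_fst hm]
    have h1 : (Prod.fst : Om d S → (Vx d → S)) ∘ M2_phi = Prod.fst := rfl
    rw [h1, Measure.map_fst_prod, measure_univ, one_smul]

end Pool.Agent.Lib.MP_6a79cf_pr
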