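import Pool.Agent.Lib.MP_6a79cf_pr.M0b
import Pool.Agent.Lib.MP_6a79cf_pr.K2

/-!
LEAF M2a (resampling of the colours). `v = e^β - 1`. `π` is invariant under resampling of the colours in `D = Icc p q`: for indicator
functions of measurable sets `A` this is `dlr` with `B = univ` (`potts_eq` and `WW_one`, or directly: `potts` is the quotient
of the sums with the weights `exp (β k) = (exp β)^k`, and `WW_one` gives the denominator; `ENNReal.ofReal_div_of_pos`,
`ENNReal.ofReal_sum_of_nonneg`), then for all measurable `g` by `Measurable.ennreal_induction` (sums, monotone limits: the finite sum and the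
division by a constant commute with them), or: the right side is the integral of `g` for the measure
`A ↦ ∫ (..) dπ` and two measures which agree on sets are equal.
-/

set_option autoImplicit false

open scoped Classical ENNReal
open MeasureTheory

namespace Pool.Agent.Lib.MP_6a79cf_pr

variable {d : ℕ} {S : Type} [Fintype S] [Nonempty S] [MeasurableSpace S]
  [MeasurableSingletonClass S]

omit [Fintype S] [Nonempty S] [MeasurableSingletonClass S] in
private theorem M2a_ext_meas (D : Finset (Vx d)) (s : D → S) :
    Measurable (fun τ : Vx d → S => ext D τ s) := by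
  refine measurable_pi_lambda _ fun x => ?_
  by_cases hx : x ∈ D
  · have h1 : (fun τ : Vx d → S => ext D τ s x) = fun _ => s ⟨x, hx⟩ := by
      funext τ
      unfold ext
      rw [dif_pos hx]
    rw [h1]
    exact measurable_const
  · have h1 : (fun τ : Vx d → S => ext D τ s x) = fun τ => τ x := by
      funext τ
      unfold ext
      rw [dif_neg hx]
    rw [h1]
    exact measurable_pi_apply x

omit [Nonempty S] in
private theorem M2a_w_meas (β : ℝ) (F : Finset (Ed d)) (D : Finset (Vx d)) (s : D → S) :
    Measurable (fun τ : Vx d → S =>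
      ENNReal.ofReal (Real.exp β ^ (agr hd tl F (ext D τ s)).card)) := by
  have hc : Measurable (fun τ : Vx d → S => (agr hd tl F (ext D τ s)).card) := by
    have he : (fun τ : Vx d → S => (agr hd tl F (ext D τ s)).card) =
        fun τ => ∑ e ∈ F, if ext D τ s (hd e) = ext D τ s (tl e) then 1 else 0 := by
      funext τ
      unfold agr
      rw [Finset.card_filter]
    rw [he]
    refine Finset.measurable_sum _ fun e _ => ?_
    refine Measurable.ite ?_ measurable_const measurable_const
    exact measurableSet_eq_fun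
      ((measurable_pi_apply (hd e)).comp (M2a_ext_meas D s))
      ((measurable_pi_apply (tl e)).comp (M2a_ext_meas D s))
  exact (measurable_from_nat (f := fun n => ENNReal.ofReal (Real.exp β ^ n))).comp hc

theorem gibbs_int (β : ℝ) (hβ : 0 < β) (π : Measure (Vx d → S)) (hπ : Gibbs β π) (p q : Vx d)
    (g : (Vx d → S) → ℝ≥0∞) (hg : Measurable g) :
    ∫⁻ τ, g τ ∂π = ∫⁻ τ, (∑ s : (↥(Finset.Icc p q) → S),
      ENNReal.ofReal (Real.exp β ^ (agr hd tl (tch (Finset.Icc p q)) (ext (Finset.Icc p q) τ s)).card) *
        g (ext (Finset.Icc p q) τ s)) /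
      ENNReal.ofReal (WW hd tl (tch (Finset.Icc p q)) (Finset.Icc p q) (Real.exp β - 1) τ
        (fun _ _ => 1)) ∂π := by
  have hprob := hπ.prob
  set D : Finset (Vx d) := Finset.Icc p q with hD
  have hv : 0 < Real.exp β - 1 := by
    have := Real.add_one_lt_exp hβ.ne'
    linarith
  -- the weights
  obtain ⟨w, hw⟩ : ∃ w : (D → S) → (Vx d → S) → ℝ≥0∞, ∀ s τ, w s τ =
      ENNReal.ofReal (Real.exp β ^ (agr hd tl (tch D) (ext D τ s)).card) := ⟨_, fun _ _ => rfl⟩
  have hwm : ∀ s, Measurable (w s) := by
    intro s
    have h1 : w s = fun τ : Vx d → S =>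
        ENNReal.ofReal (Real.exp β ^ (agr hd tl (tch D) (ext D τ s)).card) := by
      funext τ
      exact hw s τ
    rw [h1]
    exact M2a_w_meas β (tch D) D s
  have hZ : ∀ τ : Vx d → S, WW hd tl (tch D) D (Real.exp β - 1) τ (fun _ _ => 1) =
      ∑ s : D → S, Real.exp β ^ (agr hd tl (tch D) (ext D τ s)).card := by
    intro τ
    have hone : (fun (_ : Vx d → S) (_ : Finset (Ed d)) => (1 : ℝ)) =
      fun σ _ => (fun _ : Vx d → S => (1 : ℝ)) σ := rfl
    rw [hone, WW_one hd tl (tch D) D _ hv τ (fun _ => 1)]
    have he : 1 + (Real.exp β - 1) = Real.exp β := by ring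
    rw [he]
    refine Finset.sum_congr (Finset.ext fun s => by simp) fun s _ => ?_
    rw [mul_one]
  have hZ' : ∀ τ : Vx d → S,
      ENNReal.ofReal (WW hd tl (tch D) D (Real.exp β - 1) τ (fun _ _ => 1)) = ∑ s, w s τ := by
    intro τ
    rw [hZ τ, ENNReal.ofReal_sum_of_nonneg]
    · exact Finset.sum_congr rfl fun s _ => (hw s τ).symm
    · intro s _
      positivity
  have hZm : Measurable (fun τ : Vx d → S => ∑ s, w s τ) :=
    Finset.measurable_sum _ fun s _ => hwm s
  -- the kernel
  obtain ⟨κ, hκ⟩ : ∃ κ : (Vx d → S) → Measure (Vx d → S), ∀ τ, κ τ =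
      Measure.sum (fun s : D → S => (w s τ / ∑ s', w s' τ) • Measure.dirac (ext D τ s)) :=
    ⟨_, fun _ => rfl⟩
  have hκg : ∀ (τ : Vx d → S) (f : (Vx d → S) → ℝ≥0∞), Measurable f →
      ∫⁻ y, f y ∂(κ τ) = (∑ s, w s τ * f (ext D τ s)) / ∑ s', w s' τ := by
    intro τ f hf
    rw [hκ, lintegral_sum_measure, tsum_fintype, div_eq_mul_inv, Finset.sum_mul]
    refine Finset.sum_congr rfl fun s _ => ?_
    rw [lintegral_smul_measure, lintegral_dirac' _ hf, smul_eq_mul, div_eq_mul_inv]
    ring
  have hκA : ∀ (τ : Vx d → S) (A : Set (Vx d → S)), MeasurableSet A →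
      κ τ A = (∑ s, w s τ * A.indicator 1 (ext D τ s)) / ∑ s', w s' τ := by
    intro τ A hA
    rw [← lintegral_indicator_one hA]
    exact hκg τ _ (measurable_one.indicator hA)
  have hκm : Measurable κ := by
    refine Measure.measurable_of_measurable_coe _ fun A hA => ?_
    have h1 : (fun τ => κ τ A) = fun τ =>
        (∑ s, w s τ * A.indicator 1 (ext D τ s)) / ∑ s', w s' τ := by
      funext τ
      exact hκA τ A hA
    rw [h1]
    refine Measurable.div ?_ hZm
    refine Finset.measurable_sum _ fun s _ => (hwm s).mul ?_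
    exact (measurable_one.indicator hA).comp (M2a_ext_meas D s)
  have hpotts : ∀ (τ : Vx d → S) (A : Set (Vx d → S)), MeasurableSet A →
      κ τ A = ENNReal.ofReal (potts β D τ A) := by
    intro τ A hA
    rw [hκA τ A hA]
    unfold potts
    have hden : (∑ s : D → S, Real.exp (β * (agr hd tl (tch D) (ext D τ s)).card)) =
        ∑ s : D → S, Real.exp β ^ (agr hd tl (tch D) (ext D τ s)).card := by
      refine Finset.sum_congr rfl fun s _ => ?_
      rw [mul_comm β, Real.exp_nat_mul]
    have hden0 : 0 < ∑ s : D → S, Real.exp (β * (agr hd tl (tch D) (ext D τ s)).card) :=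
      Finset.sum_pos (fun s _ => Real.exp_pos _) Finset.univ_nonempty
    rw [ENNReal.ofReal_div_of_pos hden0]
    congr 1
    · rw [ENNReal.ofReal_sum_of_nonneg]
      · refine Finset.sum_congr (Finset.ext fun s => by simp) fun s _ => ?_
        rw [hw s τ]
        by_cases hA' : ext D τ s ∈ A
        · rw [if_pos hA', Set.indicator_of_mem hA', mul_comm β, Real.exp_nat_mul, Pi.one_apply,
            mul_one]
        · rw [if_neg hA', Set.indicator_of_notMem hA', mul_zero, ENNReal.ofReal_zero]
      · intro s _
        split_ifs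
        · exact (Real.exp_pos _).le
        · exact le_refl _
    · rw [hden, ENNReal.ofReal_sum_of_nonneg]
      · exact Finset.sum_congr (Finset.ext fun s => by simp) fun s _ => hw s τ
      · intro s _
        positivity
  have hbind : π.bind κ = π := by
    refine Measure.ext fun A hA => ?_
    rw [Measure.bind_apply hA hκm.aemeasurable]
    have h1 := hπ.dlr p q A Set.univ hA MeasurableSet.univ (fun _ _ _ => Iff.rfl)
    rw [Set.inter_univ, Measure.restrict_univ] at h1
    rw [h1]
    exact lintegral_congr fun τ => hpotts τ A hA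
  have hfin : ∫⁻ τ, g τ ∂π = ∫⁻ τ, (∑ s, w s τ * g (ext D τ s)) / ∑ s', w s' τ ∂π := by
    conv_lhs => rw [← hbind]
    rw [Measure.lintegral_bind hκm.aemeasurable hg.aemeasurable]
    exact lintegral_congr fun τ => hκg τ g hg
  rw [hfin]
  refine lintegral_congr fun τ => ?_
  rw [hZ' τ]
  congr 1
  exact Finset.sum_congr (Finset.ext fun s => by simp) fun s _ => by rw [hw s τ]

end Pool.Agent.Lib.MP_6a79cf_pr
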