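import Pool.Agent.Lib.MP_6a79cf_pr.M0b
import Pool.Agent.Lib.MP_6a79cf_pr.R1
import Pool.Agent.Lib.MP_6a79cf_pr.K2

/-!
LEAF M3 (the colours of a state of the model with bonds are a Gibbs state). `dlr`: `B` does not depend on the colours in
`D = Icc p q`; `∫ 1_A(x.1) 1_B(x.1) dP = ∫ KK (..) dP`, `KK (1_A 1_B) (x) = 1_B(x.1) potts β D x.1 A` (`KK_local` with
`g σ η = 1_A σ 1_B σ`, `potts_eq`). `good_ae`: for an edge `e` take `D = {hd e} = Icc (hd e) (hd e)`: `KK` of the indicator of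
`{e open, ends of different colours}` is `0`; countably many edges.
-/

set_option autoImplicit false

open scoped Classical ENNReal
open MeasureTheory

namespace Pool.Agent.Lib.MP_6a79cf_pr

variable {d : ℕ} {S : Type} [AddCommGroup S] [Fintype S] [MeasurableSpace S]
  [MeasurableSingletonClass S]

omit [AddCommGroup S] [MeasurableSpace S] [MeasurableSingletonClass S] in
private theorem M3_WW (v : ℝ) (D : Finset (Vx d)) (τ : Vx d → S) (A B : Set (Vx d → S))
    (hB : ∀ σ σ' : Vx d → S, (∀ x, x ∉ D → σ x = σ' x) → (σ ∈ B ↔ σ' ∈ B)) :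
    WW hd tl (tch D) D v τ (fun σ _ => if σ ∈ A ∩ B then 1 else 0) =
      if τ ∈ B then WW hd tl (tch D) D v τ (fun σ _ => if σ ∈ A then 1 else 0) else 0 := by
  have h : ∀ s : D → S, ext D τ s ∈ B ↔ τ ∈ B := fun s => hB _ _ fun x hx => by
    simp only [ext, dif_neg hx]
  unfold WW
  by_cases hτ : τ ∈ B
  · rw [if_pos hτ]
    refine Finset.sum_congr rfl fun s _ => Finset.sum_congr rfl fun η _ => ?_
    have h1 : ext D τ s ∈ A ∩ B ↔ ext D τ s ∈ A := ⟨fun h2 => h2.1, fun h2 => ⟨h2, (h s).2 hτ⟩⟩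
    simp only [h1]
  · rw [if_neg hτ]
    refine Finset.sum_eq_zero fun s _ => Finset.sum_eq_zero fun η _ => ?_
    have h1 : ext D τ s ∉ A ∩ B := fun h2 => hτ ((h s).1 h2.2)
    have h2 : (if ext D τ s ∈ A ∩ B then (1 : ℝ) else 0) = 0 := if_neg h1
    show (if comp hd tl (↑η : Set (Ed d)) (ext D τ s) then
      v ^ η.card * (if ext D τ s ∈ A ∩ B then (1 : ℝ) else 0) else 0) = 0
    rw [h2, mul_zero, ite_self]

private theorem M3_dlr (β : ℝ) (hβ : 0 < β) (P : Measure (Om d S))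
    (hP : ES (Real.exp β - 1) P) (p q : Vx d) (A B : Set (Vx d → S)) (hA : MeasurableSet A)
    (hB : MeasurableSet B)
    (hBD : ∀ σ σ' : Vx d → S, (∀ x, x ∉ Finset.Icc p q → σ x = σ' x) → (σ ∈ B ↔ σ' ∈ B)) :
    (P.map Prod.fst) (A ∩ B) =
      ∫⁻ τ in B, ENNReal.ofReal (potts β (Finset.Icc p q) τ A) ∂(P.map Prod.fst) := by
  have hne : Nonempty S := ⟨0⟩
  have hv : 0 < Real.exp β - 1 := by
    have := Real.add_one_lt_exp hβ.ne'
    linarith
  obtain ⟨g, hg⟩ : ∃ g : (Vx d → S) → Finset (Ed d) → ℝ,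
      g = fun σ _ => if σ ∈ A ∩ B then 1 else 0 := ⟨_, rfl⟩
  have hg0 : ∀ σ η, 0 ≤ g σ η := by
    intro σ η
    rw [hg]
    show (0 : ℝ) ≤ if σ ∈ A ∩ B then 1 else 0
    split_ifs
    · exact zero_le_one
    · exact le_rfl
  obtain ⟨f, hf⟩ : ∃ f : Om d S → ℝ≥0∞,
      f = fun y => ENNReal.ofReal (g y.1 (ope (tch (Finset.Icc p q)) y.2)) := ⟨_, rfl⟩
  have hf1 : f = (Prod.fst ⁻¹' (A ∩ B)).indicator 1 := by
    funext y
    rw [hf, hg]
    show ENNReal.ofReal (if y.1 ∈ A ∩ B then 1 else 0) = _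
    by_cases hy : y.1 ∈ A ∩ B
    · have hy' : y ∈ (Prod.fst ⁻¹' (A ∩ B) : Set (Om d S)) := hy
      rw [if_pos hy, Set.indicator_of_mem hy', ENNReal.ofReal_one]
      rfl
    · have hy' : y ∉ (Prod.fst ⁻¹' (A ∩ B) : Set (Om d S)) := hy
      rw [if_neg hy, Set.indicator_of_notMem hy', ENNReal.ofReal_zero]
  have hAB : MeasurableSet (Prod.fst ⁻¹' (A ∩ B) : Set (Om d S)) :=
    measurable_fst (hA.inter hB)
  have hfm : Measurable f := by
    rw [hf1]
    exact measurable_one.indicator hAB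
  have hKK : ∀ x : Om d S, KK (Real.exp β - 1) (Finset.Icc p q) f x =
      B.indicator (fun τ => ENNReal.ofReal (potts β (Finset.Icc p q) τ A)) x.1 := by
    intro x
    rw [hf, KK_local _ hv _ g hg0, hg, M3_WW _ _ _ _ _ hBD]
    by_cases hx : x.1 ∈ B
    · rw [if_pos hx, Set.indicator_of_mem hx, potts_eq β hβ]
    · rw [if_neg hx, Set.indicator_of_notMem hx, zero_div, ENNReal.ofReal_zero]
  have hh : Measurable (B.indicator
      (fun τ => ENNReal.ofReal (potts β (Finset.Icc p q) τ A))) := by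
    have h1 : Measurable fun τ : Vx d → S =>
        KK (Real.exp β - 1) (Finset.Icc p q) f (τ, fun _ => false) :=
      (meas_KK _ _ f hfm).comp (measurable_id.prodMk measurable_const)
    have h2 : (fun τ : Vx d → S =>
        KK (Real.exp β - 1) (Finset.Icc p q) f (τ, fun _ => false)) =
        B.indicator (fun τ => ENNReal.ofReal (potts β (Finset.Icc p q) τ A)) := by
      funext τ
      exact hKK (τ, fun _ => false)
    rw [← h2]
    exact h1
  rw [← lintegral_indicator hB, lintegral_map hh measurable_fst]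
  rw [Measure.map_apply measurable_fst (hA.inter hB), ← lintegral_indicator_one hAB, ← hf1,
    hP.res p q f hfm]
  exact lintegral_congr hKK

theorem tig_of_ES (β : ℝ) (hβ : 0 < β) (P : Measure (Om d S)) (hP : ES (Real.exp β - 1) P)
    (hT : TI P) : TIG β (P.map Prod.fst) := by
  have := hP.prob
  refine ⟨⟨Measure.isProbabilityMeasure_map measurable_fst.aemeasurable,
    fun p q A B hA hB hBD => M3_dlr β hβ P hP p q A B hA hB hBD⟩, fun z => ?_⟩
  have hm : Measurable fun (σ : Vx d → S) x => σ (x + z) :=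
    measurable_pi_lambda _ fun x => measurable_pi_apply _
  rw [Measure.map_map hm measurable_fst]
  have h1 : (fun (σ : Vx d → S) x => σ (x + z)) ∘ (Prod.fst : Om d S → (Vx d → S)) =
      Prod.fst ∘ sh z := rfl
  rw [h1, ← Measure.map_map measurable_fst (meas_sh z), hT z]

theorem good_ae (v : ℝ) (hv : 0 < v) (P : Measure (Om d S)) (hP : ES v P) :
    ∀ᵐ x ∂P, good x := by
  have hne : Nonempty S := ⟨0⟩
  have key : ∀ e : Ed d, ∀ᵐ x ∂P, e ∈ opn x.2 → x.1 (hd e) = x.1 (tl e) := by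
    intro e
    obtain ⟨g, hg⟩ : ∃ g : (Vx d → S) → Finset (Ed d) → ℝ,
        g = fun σ η => if e ∈ η ∧ σ (hd e) ≠ σ (tl e) then 1 else 0 := ⟨_, rfl⟩
    have hg0 : ∀ σ η, 0 ≤ g σ η := by
      intro σ η
      rw [hg]
      show (0 : ℝ) ≤ if e ∈ η ∧ σ (hd e) ≠ σ (tl e) then 1 else 0
      split_ifs
      · exact zero_le_one
      · exact le_rfl
    obtain ⟨f, hf⟩ : ∃ f : Om d S → ℝ≥0∞,
        f = fun y => ENNReal.ofReal (g y.1 (ope (tch (Finset.Icc (hd e) (hd e))) y.2)) := ⟨_, rfl⟩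
    have he : e ∈ tch (Finset.Icc (hd e) (hd e)) := by
      refine Finset.mem_biUnion.2 ⟨hd e, Finset.mem_Icc.2 ⟨le_rfl, le_rfl⟩,
        Finset.mem_biUnion.2 ⟨e.2, Finset.mem_univ _, ?_⟩⟩
      exact Finset.mem_insert_self _ _
    obtain ⟨E, hE⟩ : ∃ E : Set (Om d S), E = {y | y.2 e = true ∧ y.1 (hd e) ≠ y.1 (tl e)} :=
      ⟨_, rfl⟩
    have hf1 : f = E.indicator 1 := by
      funext y
      rw [hf, hg]
      show ENNReal.ofReal (if e ∈ ope (tch (Finset.Icc (hd e) (hd e))) y.2 ∧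
        y.1 (hd e) ≠ y.1 (tl e) then 1 else 0) = _
      have h1 : (e ∈ ope (tch (Finset.Icc (hd e) (hd e))) y.2 ∧ y.1 (hd e) ≠ y.1 (tl e)) ↔
          y ∈ E := by
        rw [hE]
        show _ ↔ y.2 e = true ∧ y.1 (hd e) ≠ y.1 (tl e)
        unfold ope
        rw [Finset.mem_filter]
        exact ⟨fun h => ⟨h.1.2, h.2⟩, fun h => ⟨⟨he, h.1⟩, h.2⟩⟩
      by_cases hy : y ∈ E
      · rw [if_pos (h1.2 hy), Set.indicator_of_mem hy, ENNReal.ofReal_one]
        rfl
      · rw [if_neg fun h => hy (h1.1 h), Set.indicator_of_notMem hy, ENNReal.ofReal_zero]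
    have hEm : MeasurableSet E := by
      have h0 : Measurable fun y : Om d S => y.2 e :=
        (measurable_pi_apply e).comp measurable_snd
      have h1 : MeasurableSet {y : Om d S | y.2 e = true} := h0 (measurableSet_singleton true)
      have h2 : Measurable fun y : Om d S => (y.1 (hd e), y.1 (tl e)) :=
        ((measurable_pi_apply (hd e)).comp measurable_fst).prodMk
          ((measurable_pi_apply (tl e)).comp measurable_fst)
      have h3 : MeasurableSet {y : Om d S | y.1 (hd e) ≠ y.1 (tl e)} :=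
        h2 (MeasurableSet.of_discrete (s := {z : S × S | z.1 ≠ z.2}))
      rw [hE]
      exact h1.inter h3
    have hfm : Measurable f := by
      rw [hf1]
      exact measurable_one.indicator hEm
    have hKK : ∀ x : Om d S, KK v (Finset.Icc (hd e) (hd e)) f x = 0 := by
      intro x
      rw [hf, KK_local v hv _ g hg0]
      have h1 : WW hd tl (tch (Finset.Icc (hd e) (hd e))) (Finset.Icc (hd e) (hd e)) v x.1 g =
          0 := by
        unfold WW
        refine Finset.sum_eq_zero fun s _ => Finset.sum_eq_zero fun η _ => ?_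
        by_cases hc : comp hd tl (↑η : Set (Ed d)) (ext (Finset.Icc (hd e) (hd e)) x.1 s)
        · rw [if_pos hc, hg]
          show _ * (if e ∈ η ∧ _ then (1 : ℝ) else 0) = 0
          rw [if_neg fun h => h.2 (hc e (Finset.mem_coe.2 h.1)), mul_zero]
        · rw [if_neg hc]
      rw [h1, zero_div, ENNReal.ofReal_zero]
    have h0 : P E = 0 := by
      rw [← lintegral_indicator_one hEm, ← hf1, hP.res (hd e) (hd e) f hfm, lintegral_congr hKK,
        lintegral_zero]
    rw [ae_iff]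
    refine measure_mono_null (fun x hx => ?_) h0
    rw [hE]
    have hx' : ¬ (e ∈ opn x.2 → x.1 (hd e) = x.1 (tl e)) := hx
    push Not at hx'
    exact hx'
  exact (ae_all_iff.2 key).mono fun x hx e he => hx e he

end Pool.Agent.Lib.MP_6a79cf_pr
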