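import Pool.Agent.Lib.MP_6a79cf_pr.V1

/-!
LEAF M4a (paths). `last_exit`: induction on the path from `x` (`Relation.EqvGen` is the reflexive transitive closure of the symmetric
relation): every `w` joined to `x ∈ D` is in `D`, or there is `u ∈ bd D` with `con A x u` and `con (A \ tch D) u w`; step along an edge
`e ∈ A` from `w` to `w'`: if `e ∈ tch D` then `w' ∈ D` or `w' ∈ bd D` (take `u = w'`), otherwise `w, w' ∉ D`. `far_exit` is the same for
`x ∉ D`. `first_exit`: every `w` joined to `x ∈ D`: `con (A ∩ tch D) x w ∧ w ∈ D`, or there is `u ∈ bd D` with `con (A ∩ tch D) x u`.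
-/

set_option autoImplicit false

open scoped Classical

namespace Pool.Agent.Lib.MP_6a79cf_pr

variable {d : ℕ} {S : Type}

theorem con_mono {X Y : Type} {a b : Y → X} {A B : Set Y} (h : A ⊆ B) {x y : X}
    (hc : con a b A x y) : con a b B x y := by
  induction hc with
  | rel x y hxy =>
    obtain ⟨e, he, h1, h2⟩ := hxy
    exact Relation.EqvGen.rel _ _ ⟨e, h he, h1, h2⟩
  | refl x => exact Relation.EqvGen.refl _
  | symm x y _ ih => exact Relation.EqvGen.symm _ _ ih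
  | trans x y z _ _ ih1 ih2 => exact Relation.EqvGen.trans _ _ _ ih1 ih2

private theorem M4a_ind {X Y : Type} {a b : Y → X} {A : Set Y} {P : X → Prop}
    (hP : ∀ e ∈ A, ∀ w w', ((a e = w ∧ b e = w') ∨ (a e = w' ∧ b e = w)) → P w → P w') {x y : X}
    (hc : con a b A x y) : P x ↔ P y := by
  induction hc with
  | rel x y hxy =>
    obtain ⟨e, he, h1, h2⟩ := hxy
    exact ⟨hP e he x y (Or.inl ⟨h1, h2⟩), hP e he y x (Or.inr ⟨h1, h2⟩)⟩
  | refl x => exact Iff.rfl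
  | symm x y _ ih => exact ih.symm
  | trans x y z _ _ ih1 ih2 => exact ih1.trans ih2

private theorem M4a_edge {X Y : Type} {a b : Y → X} {A : Set Y} {e : Y} (he : e ∈ A) {w w' : X}
    (h : (a e = w ∧ b e = w') ∨ (a e = w' ∧ b e = w)) : con a b A w w' := by
  rcases h with h | h
  · exact Relation.EqvGen.rel _ _ ⟨e, he, h.1, h.2⟩
  · exact Relation.EqvGen.symm _ _ (Relation.EqvGen.rel _ _ ⟨e, he, h.1, h.2⟩)

theorem con_col {X Y : Type} {a b : Y → X} {A : Set Y} {σ : X → S} (h : comp a b A σ) {x y : X}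
    (hc : con a b A x y) : σ x = σ y := by
  have h1 := M4a_ind (P := fun w => σ x = σ w) (fun e he w w' hw hp => by
    have h2 := h e he
    rcases hw with ⟨h3, h4⟩ | ⟨h3, h4⟩
    · rw [h3, h4] at h2
      exact hp.trans h2
    · rw [h3, h4] at h2
      exact hp.trans h2.symm) hc
  exact h1.1 rfl

private theorem M4a_bd {D : Finset (Vx d)} {e : Ed d} (he : e ∈ tch D) {w w' : Vx d}
    (hw : (hd e = w ∧ tl e = w') ∨ (hd e = w' ∧ tl e = w)) (h : w' ∉ D) : w' ∈ bd D := by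
  have h1 := ends_tch he
  rcases hw with ⟨-, h3⟩ | ⟨h3, -⟩
  · rw [← h3] at h ⊢
    exact (Finset.mem_union.1 h1.2).resolve_left h
  · rw [← h3] at h ⊢
    exact (Finset.mem_union.1 h1.1).resolve_left h

private theorem M4a_in {D : Finset (Vx d)} {e : Ed d} {w w' : Vx d}
    (hw : (hd e = w ∧ tl e = w') ∨ (hd e = w' ∧ tl e = w)) (h : w ∈ D) : e ∈ tch D := by
  rw [mem_tch]
  rcases hw with ⟨h3, -⟩ | ⟨-, h3⟩
  · left
    rw [h3]
    exact h
  · right
    rw [h3]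
    exact h

private theorem M4a_step {A : Set (Ed d)} {D : Finset (Vx d)} {x : Vx d} {R : Vx d → Prop}
    (hR : ∀ e ∈ A \ ↑(tch D), ∀ w w' : Vx d, ((hd e = w ∧ tl e = w') ∨ (hd e = w' ∧ tl e = w)) →
      R w → R w') (e : Ed d) (he : e ∈ A) (w w' : Vx d)
    (hw : (hd e = w ∧ tl e = w') ∨ (hd e = w' ∧ tl e = w))
    (hP : con hd tl A x w ∧ (w ∈ D ∨ R w ∨ ∃ u ∈ bd D, con hd tl A x u ∧
      con hd tl (A \ ↑(tch D)) u w)) :
    con hd tl A x w' ∧ (w' ∈ D ∨ R w' ∨ ∃ u ∈ bd D, con hd tl A x u ∧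
      con hd tl (A \ ↑(tch D)) u w') := by
  have h1 : con hd tl A x w' := Relation.EqvGen.trans _ _ _ hP.1 (M4a_edge he hw)
  refine ⟨h1, ?_⟩
  by_cases hD : w' ∈ D
  · exact Or.inl hD
  · by_cases ht : e ∈ tch D
    · exact Or.inr (Or.inr ⟨w', M4a_bd ht hw hD, h1, Relation.EqvGen.refl _⟩)
    · have he' : e ∈ A \ (↑(tch D) : Set (Ed d)) := ⟨he, fun h => ht (Finset.mem_coe.1 h)⟩
      rcases hP.2 with h | h | ⟨u, hu, h2, h3⟩
      · exact absurd (M4a_in hw h) ht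
      · exact Or.inr (Or.inl (hR e he' w w' hw h))
      · exact Or.inr (Or.inr ⟨u, hu, h2, Relation.EqvGen.trans _ _ _ h3 (M4a_edge he' hw)⟩)

theorem last_exit {A : Set (Ed d)} {D : Finset (Vx d)} {x z : Vx d} (h : con hd tl A x z)
    (hx : x ∈ D) (hz : z ∉ D) :
    ∃ u ∈ bd D, con hd tl A x u ∧ con hd tl (A \ ↑(tch D)) u z := by
  have h1 := (M4a_ind (M4a_step (x := x) (R := fun _ => False) (fun _ _ _ _ _ h => h)) h).1
    ⟨Relation.EqvGen.refl _, Or.inl hx⟩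
  rcases h1.2 with h2 | h2 | h2
  · exact absurd h2 hz
  · exact h2.elim
  · exact h2

theorem first_exit {A : Set (Ed d)} {D : Finset (Vx d)} {x z : Vx d} (h : con hd tl A x z)
    (hx : x ∈ D) (hz : z ∉ D) : ∃ u ∈ bd D, con hd tl (A ∩ ↑(tch D)) x u := by
  have h1 := (M4a_ind (P := fun w => (w ∈ D ∧ con hd tl (A ∩ ↑(tch D)) x w) ∨
    ∃ u ∈ bd D, con hd tl (A ∩ ↑(tch D)) x u) (fun e he w w' hw hp => by
      rcases hp with ⟨hp1, hp2⟩ | hp
      · have ht : e ∈ tch D := M4a_in hw hp1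
        have he' : e ∈ A ∩ (↑(tch D) : Set (Ed d)) := ⟨he, Finset.mem_coe.2 ht⟩
        have h2 : con hd tl (A ∩ ↑(tch D)) x w' :=
          Relation.EqvGen.trans _ _ _ hp2 (M4a_edge he' hw)
        by_cases hD : w' ∈ D
        · exact Or.inl ⟨hD, h2⟩
        · exact Or.inr ⟨w', M4a_bd ht hw hD, h2⟩
      · exact Or.inr hp) h).1 (Or.inl ⟨hx, Relation.EqvGen.refl _⟩)
  rcases h1 with h2 | h2
  · exact absurd h2.1 hz
  · exact h2

theorem far_exit {A : Set (Ed d)} {D : Finset (Vx d)} {x z : Vx d} (h : con hd tl A x z)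
    (hx : x ∉ D) (hz : z ∉ D) : con hd tl (A \ ↑(tch D)) x z ∨
      ∃ u ∈ bd D, con hd tl A x u ∧ con hd tl (A \ ↑(tch D)) u z := by
  have h1 := (M4a_ind (M4a_step (D := D) (x := x) (R := fun w => con hd tl (A \ ↑(tch D)) x w)
    (fun e he w w' hw hp => Relation.EqvGen.trans _ _ _ hp (M4a_edge he hw))) h).1
    ⟨Relation.EqvGen.refl _, Or.inr (Or.inl (Relation.EqvGen.refl _))⟩
  rcases h1.2 with h2 | h2
  · exact absurd h2 hz
  · exact h2

theorem toinf_con {A : Set (Ed d)} {x y : Vx d} (h : con hd tl A x y) (hy : toinf A y) :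
    toinf A x := by
  intro m
  obtain ⟨z, hz, hc⟩ := hy m
  exact ⟨z, hz, Relation.EqvGen.trans _ _ _ h hc⟩

end Pool.Agent.Lib.MP_6a79cf_pr
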