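import Pool.Agent.Lib.MP_6a79cf_pr.M5a
import Pool.Agent.Lib.MP_6a79cf_pr.M3

/-!
LEAF M5 (finite energy). The event is contained in the union over `n` of the events `E_n` with `y, y' ∈ box n` (`box_exh`), so
`P (E_n) ≠ 0` for some `n`. `W = {x | ∃ e, Adj c₁ c₂ e x}` is measurable (M0), `P W = ∫ KK v (box n) 1_W dP` and by `exists_adj` (and `good_ae`) the
integrand is positive almost everywhere on `E_n` (one term of the sum is positive). So `P W ≠ 0`, and `P {Adj e} ≠ 0` for some `e`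
(countable union).
-/

set_option autoImplicit false

open scoped Classical ENNReal
open MeasureTheory

namespace Pool.Agent.Lib.MP_6a79cf_pr

variable {d : ℕ} {S : Type}

private theorem M5_measAdj [MeasurableSpace S] [MeasurableSingletonClass S] (c₁ c₂ : S) (e : Ed d) :
    MeasurableSet {x : Om d S | Adj c₁ c₂ e x} := by
  have h1 : ∀ (y : Vx d) (c : S), MeasurableSet {x : Om d S | x.1 y = c} := fun y c => by
    have h3 : Measurable fun x : Om d S => x.1 y := (measurable_pi_apply y).comp measurable_fst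
    exact h3 (measurableSet_singleton c)
  have h2 : ∀ y : Vx d, MeasurableSet {x : Om d S | toinf (opn x.2) y} := fun y =>
    measurable_snd (meas_toinf' y)
  exact (((h1 _ _).inter (h1 _ _)).union ((h1 _ _).inter (h1 _ _))).inter
    ((h2 _).inter (h2 _))

private theorem M5_pos [Fintype S] (v : ℝ) (hv : 0 < v) {D : Finset (Vx d)} {W : Set (Om d S)}
    {x : Om d S} {s : D → S} {η : Finset (Ed d)} (hη : η ⊆ tch D)
    (hc : comp hd tl (↑η : Set (Ed d)) (ext D x.1 s)) (hW : patch D s η x ∈ W) :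
    KK v D (W.indicator fun _ => 1) x ≠ 0 := by
  unfold KK
  intro h
  rcases ENNReal.div_eq_zero_iff.1 h with h0 | h0
  · rw [Finset.sum_eq_zero_iff] at h0
    have h1 := h0 s (Finset.mem_univ _)
    rw [Finset.sum_eq_zero_iff] at h1
    have h2 := h1 η (Finset.mem_powerset.2 hη)
    rw [if_pos hc, Set.indicator_of_mem hW, mul_one] at h2
    have h3 : 0 < v ^ η.card := pow_pos hv _
    exact (ENNReal.ofReal_pos.2 h3).ne' h2
  · exact ENNReal.ofReal_ne_top h0

theorem adj_pos [AddCommGroup S] [Fintype S] [MeasurableSpace S] [MeasurableSingletonClass S]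
    (v : ℝ) (hv : 0 < v) (P : Measure (Om d S)) (hP : ES v P) {c₁ c₂ : S} (hc : c₁ ≠ c₂)
    (h : P {x | ∃ y y', toinf (opn x.2) y ∧ toinf (opn x.2) y' ∧ x.1 y = c₁ ∧ x.1 y' = c₂} ≠ 0) :
    ∃ e : Ed d, P {x | Adj c₁ c₂ e x} ≠ 0 := by
  by_contra hne
  push Not at hne
  let W : Set (Om d S) := ⋃ e : Ed d, {x | Adj c₁ c₂ e x}
  have hWm : MeasurableSet W := MeasurableSet.iUnion fun e => M5_measAdj c₁ c₂ e
  have hW0 : P W = 0 := measure_iUnion_null hne
  let f : Om d S → ℝ≥0∞ := W.indicator fun _ => 1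
  have hf : Measurable f := measurable_const.indicator hWm
  have hf0 : ∫⁻ x, f x ∂P = 0 := by
    rw [lintegral_indicator hWm, lintegral_const, one_mul, Measure.restrict_apply_univ, hW0]
  apply h
  have hsub : {x : Om d S | ∃ y y', toinf (opn x.2) y ∧ toinf (opn x.2) y' ∧ x.1 y = c₁ ∧
      x.1 y' = c₂} ⊆ ⋃ n : ℕ, {x | ∃ y ∈ box d n, ∃ y' ∈ box d n, toinf (opn x.2) y ∧
        toinf (opn x.2) y' ∧ x.1 y = c₁ ∧ x.1 y' = c₂} := by
    rintro x ⟨y, y', h1, h2, h3, h4⟩
    obtain ⟨n, hn⟩ := box_exh ({y, y'} : Finset (Vx d))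
    exact Set.mem_iUnion.2 ⟨n, y, hn (by simp), y', hn (by simp), h1, h2, h3, h4⟩
  refine measure_mono_null hsub (measure_iUnion_null fun n => ?_)
  have h1 : ∫⁻ x, KK v (box d n) f x ∂P = 0 := by
    have h2 := hP.res (fun _ => -(n : ℤ)) (fun _ => (n : ℤ)) f hf
    rw [hf0] at h2
    exact h2.symm
  have h2 : ∀ᵐ x ∂P, KK v (box d n) f x = 0 := by
    have h3 := (lintegral_eq_zero_iff (meas_KK v (box d n) f hf)).1 h1
    exact h3
  have h3 : ∀ᵐ x ∂P, ¬ ∃ y ∈ box d n, ∃ y' ∈ box d n, toinf (opn x.2) y ∧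
      toinf (opn x.2) y' ∧ x.1 y = c₁ ∧ x.1 y' = c₂ := by
    filter_upwards [h2, good_ae v hv P hP] with x k1 k2
    rintro ⟨y, hy, y', hy', t1, t2, t3, t4⟩
    obtain ⟨s, η, k3, k4, e, k5⟩ := exists_adj k2 hc hy hy' t1 t2 t3 t4
    exact M5_pos v hv k3 k4 (Set.mem_iUnion.2 ⟨e, k5⟩) k1
  have h4 := ae_iff.1 h3
  refine measure_mono_null (fun x hx => ?_) h4
  exact fun h5 => h5 hx

end Pool.Agent.Lib.MP_6a79cf_pr
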