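import Pool.Agent.Lib.MP_6a79cf_pr.M4

/-!
LEAF M5a (finite energy, deterministic). `box_conn`: any two points of the box are joined by edges with both ends in the box
(change one coordinate after the other, one step at a time). `exists_adj`: `u, w` from `toinf_exit` for `y, y'`: `u, w ∈ bd (box n)`,
colours `c₁, c₂` (`con_col`), both joined to infinity in `opn x.2 \ tch (box n)`. `s` = constant `c₁`. There are edges
`e₁, e₂ ∈ tch (box n)` joining `u` and `w` to points `u', w'` of the box. `η` = all edges with both ends in the box, and `e₁`. In the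
patched configuration `x'`: `η` is compatible (all its ends have colour `c₁`); `w'` is joined to `u` (`box_conn`, `e₁`) and `u` to
infinity (the edges outside of `tch (box n)` are not changed), so `toinf w'`, colour `c₁`; `w` has colour `c₂` and is joined to
infinity; `e = e₂`.
-/

set_option autoImplicit false

open scoped Classical ENNReal
open MeasureTheory

namespace Pool.Agent.Lib.MP_6a79cf_pr

variable {d : ℕ} {S : Type}

/-- The ends of `e` have the colours `c₁`, `c₂` (in some order) and are joined to infinity. -/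
def Adj (c₁ c₂ : S) (e : Ed d) (x : Om d S) : Prop :=
  ((x.1 (hd e) = c₁ ∧ x.1 (tl e) = c₂) ∨ (x.1 (hd e) = c₂ ∧ x.1 (tl e) = c₁)) ∧
    toinf (opn x.2) (hd e) ∧ toinf (opn x.2) (tl e)

private theorem M5a_box {n : ℕ} {x : Vx d} : x ∈ box d n ↔ ∀ i, -(n : ℤ) ≤ x i ∧ x i ≤ n := by
  unfold box
  rw [Finset.mem_Icc]
  constructor
  · intro h i
    exact ⟨h.1 i, h.2 i⟩
  · intro h
    exact ⟨fun i => (h i).1, fun i => (h i).2⟩

theorem box_conn {n : ℕ} {x y : Vx d} (hx : x ∈ box d n) (hy : y ∈ box d n) :
    con hd tl {e : Ed d | hd e ∈ box d n ∧ tl e ∈ box d n} x y := by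
  obtain ⟨N, hN⟩ : ∃ N, (∑ i, (x i - y i).natAbs) = N := ⟨_, rfl⟩
  induction N using Nat.strong_induction_on generalizing x with
  | _ N ih =>
    by_cases hxy : x = y
    · rw [hxy]
      exact Relation.EqvGen.refl _
    · obtain ⟨i, hi⟩ := Function.ne_iff.1 hxy
      have hxb := M5a_box.1 hx
      have hyb := M5a_box.1 hy
      rcases lt_or_gt_of_ne hi with h | h
      · have hx' : x + Pi.single i 1 ∈ box d n := by
          rw [M5a_box]
          intro j
          rw [Pi.add_apply]
          by_cases hj : j = i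
          · subst hj
            rw [Pi.single_eq_same]
            have h1 := hxb j
            have h2 := hyb j
            constructor
            · omega
            · omega
          · rw [Pi.single_eq_of_ne hj, add_zero]
            exact hxb j
        have hlt : (∑ j, ((x + Pi.single i 1 : Vx d) j - y j).natAbs) < N := by
          rw [← hN]
          apply Finset.sum_lt_sum
          · intro j _
            rw [Pi.add_apply]
            by_cases hj : j = i
            · subst hj
              rw [Pi.single_eq_same]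
              omega
            · rw [Pi.single_eq_of_ne hj, add_zero]
          · refine ⟨i, Finset.mem_univ _, ?_⟩
            rw [Pi.add_apply, Pi.single_eq_same]
            omega
        refine Relation.EqvGen.trans _ (x + Pi.single i 1) _ ?_ (ih _ hlt hx' rfl)
        exact Relation.EqvGen.rel _ _ ⟨(x, i), ⟨hx, hx'⟩, rfl, rfl⟩
      · have hx' : x - Pi.single i 1 ∈ box d n := by
          rw [M5a_box]
          intro j
          rw [Pi.sub_apply]
          by_cases hj : j = i
          · subst hj
            rw [Pi.single_eq_same]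
            have h1 := hxb j
            have h2 := hyb j
            constructor
            · omega
            · omega
          · rw [Pi.single_eq_of_ne hj, sub_zero]
            exact hxb j
        have hlt : (∑ j, ((x - Pi.single i 1 : Vx d) j - y j).natAbs) < N := by
          rw [← hN]
          apply Finset.sum_lt_sum
          · intro j _
            rw [Pi.sub_apply]
            by_cases hj : j = i
            · subst hj
              rw [Pi.single_eq_same]
              omega
            · rw [Pi.single_eq_of_ne hj, sub_zero]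
          · refine ⟨i, Finset.mem_univ _, ?_⟩
            rw [Pi.sub_apply, Pi.single_eq_same]
            omega
        have htl : tl ((x - Pi.single i 1, i) : Ed d) = x := by
          unfold tl
          simp only [sub_add_cancel]
        refine Relation.EqvGen.trans _ (x - Pi.single i 1) _ ?_ (ih _ hlt hx' rfl)
        refine Relation.EqvGen.symm _ _ (Relation.EqvGen.rel _ _
          ⟨(x - Pi.single i 1, i), ⟨hx', ?_⟩, rfl, htl⟩)
        rw [htl]
        exact hx

private theorem M5a_bd {D : Finset (Vx d)} {u : Vx d} (h : u ∈ bd D) :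
    ∃ e ∈ tch D, ∃ u' ∈ D, (hd e = u ∧ tl e = u') ∨ (hd e = u' ∧ tl e = u) := by
  unfold bd at h
  rw [Finset.mem_sdiff, Finset.mem_union, Finset.mem_image, Finset.mem_image] at h
  obtain ⟨h1, h2⟩ := h
  rcases h1 with ⟨e, he, rfl⟩ | ⟨e, he, rfl⟩
  · rcases mem_tch.1 he with h3 | h3
    · exact absurd h3 h2
    · exact ⟨e, he, _, h3, Or.inl ⟨rfl, rfl⟩⟩
  · rcases mem_tch.1 he with h3 | h3
    · exact ⟨e, he, _, h3, Or.inr ⟨rfl, rfl⟩⟩
    · exact absurd h3 h2

private theorem M5a_mono {A B : Set (Ed d)} (h : A ⊆ B) {x : Vx d} (hx : toinf A x) : toinf B x :=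
  fun m => by
    obtain ⟨z, hz, hc⟩ := hx m
    exact ⟨z, hz, con_mono h hc⟩

private theorem M5a_bd_not {D : Finset (Vx d)} {u : Vx d} (h : u ∈ bd D) : u ∉ D := by
  unfold bd at h
  exact (Finset.mem_sdiff.1 h).2

theorem exists_adj {x : Om d S} (hx : good x) {c₁ c₂ : S} (hc : c₁ ≠ c₂) {n : ℕ} {y y' : Vx d}
    (hy : y ∈ box d n) (hy' : y' ∈ box d n) (h1 : toinf (opn x.2) y) (h2 : toinf (opn x.2) y')
    (h3 : x.1 y = c₁) (h4 : x.1 y' = c₂) :
    ∃ (s : ↥(box d n) → S) (η : Finset (Ed d)), η ⊆ tch (box d n) ∧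
      comp hd tl (↑η : Set (Ed d)) (ext (box d n) x.1 s) ∧
      ∃ e, Adj c₁ c₂ e (patch (box d n) s η x) := by
  obtain ⟨u, hu, hyu, hut, hub⟩ := toinf_exit h1 n
  obtain ⟨w, hw, hyw, hwt, hwb⟩ := toinf_exit h2 n
  have hcu : x.1 u = c₁ := by rw [← con_col hx hyu, h3]
  have hcw : x.1 w = c₂ := by rw [← con_col hx hyw, h4]
  obtain ⟨e₁, he₁, u', hu', hE₁⟩ := M5a_bd (hub hy)
  obtain ⟨e₂, he₂, w', hw', hE₂⟩ := M5a_bd (hwb hy')
  let s : ↥(box d n) → S := fun _ => c₁
  let η : Finset (Ed d) := (tch (box d n)).filter fun e => (hd e ∈ box d n ∧ tl e ∈ box d n) ∨ e = e₁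
  have hin : ∀ z ∈ box d n, ext (box d n) x.1 s z = c₁ := by
    intro z hz
    unfold ext
    rw [dif_pos hz]
  have hout : ∀ z, z ∉ box d n → ext (box d n) x.1 s z = x.1 z := by
    intro z hz
    unfold ext
    rw [dif_neg hz]
  have hη : η ⊆ tch (box d n) := Finset.filter_subset _ _
  have hopn : (↑η : Set (Ed d)) ⊆ opn (patch (box d n) s η x).2 := by
    intro e he
    have h5 : (patch (box d n) s η x).2 e = true := by
      unfold patch
      simp only
      rw [if_pos (hη (Finset.mem_coe.1 he))]
      exact decide_eq_true (Finset.mem_coe.1 he)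
    exact h5
  have hopn2 : opn x.2 \ ↑(tch (box d n)) ⊆ opn (patch (box d n) s η x).2 := by
    intro e he
    have h5 : (patch (box d n) s η x).2 e = true := by
      unfold patch
      simp only
      rw [if_neg fun h => he.2 (Finset.mem_coe.2 h)]
      exact he.1
    exact h5
  have hbox : {e : Ed d | hd e ∈ box d n ∧ tl e ∈ box d n} ⊆ opn (patch (box d n) s η x).2 := by
    intro e he
    apply hopn
    exact Finset.mem_coe.2 (Finset.mem_filter.2 ⟨mem_tch.2 (Or.inl he.1), Or.inl he⟩)
  have he₁η : e₁ ∈ η := Finset.mem_filter.2 ⟨he₁, Or.inr rfl⟩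
  have htu : toinf (opn (patch (box d n) s η x).2) u := M5a_mono hopn2 hut
  have htw : toinf (opn (patch (box d n) s η x).2) w := M5a_mono hopn2 hwt
  have hcon1 : con hd tl (opn (patch (box d n) s η x).2) u' u := by
    rcases hE₁ with ⟨h5, h6⟩ | ⟨h5, h6⟩
    · exact Relation.EqvGen.symm _ _ (Relation.EqvGen.rel _ _ ⟨e₁, hopn he₁η, h5, h6⟩)
    · exact Relation.EqvGen.rel _ _ ⟨e₁, hopn he₁η, h5, h6⟩
  have hcon2 : con hd tl (opn (patch (box d n) s η x).2) w' u :=
    Relation.EqvGen.trans _ _ _ (con_mono hbox (box_conn hw' hu')) hcon1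
  have htw' : toinf (opn (patch (box d n) s η x).2) w' := toinf_con hcon2 htu
  have hcw' : (patch (box d n) s η x).1 w' = c₁ := hin w' hw'
  have hcw2 : (patch (box d n) s η x).1 w = c₂ := (hout w hw).trans hcw
  refine ⟨s, η, hη, ?_, e₂, ?_⟩
  · intro e he
    rcases (Finset.mem_filter.1 (Finset.mem_coe.1 he)).2 with h5 | h5
    · rw [hin _ h5.1, hin _ h5.2]
    · subst h5
      rcases hE₁ with ⟨h5, h6⟩ | ⟨h5, h6⟩
      · rw [h5, h6, hin _ hu', hout _ hu, hcu]
      · rw [h5, h6, hin _ hu', hout _ hu, hcu]
  · rcases hE₂ with ⟨h5, h6⟩ | ⟨h5, h6⟩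
    · refine ⟨Or.inr ⟨?_, ?_⟩, ?_, ?_⟩
      · rw [h5, hcw2]
      · rw [h6, hcw']
      · rw [h5]
        exact htw
      · rw [h6]
        exact htw'
    · refine ⟨Or.inl ⟨?_, ?_⟩, ?_, ?_⟩
      · rw [h5, hcw']
      · rw [h6, hcw2]
      · rw [h5]
        exact htw'
      · rw [h6]
        exact htw

end Pool.Agent.Lib.MP_6a79cf_pr
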