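import Pool.Agent.Lib.MP_6a79cf_pr.R1

/-!
LEAF R2 (change of the boundary condition). By `WW_one` and `|agr F (ext D τ' s)| ≤ |agr F (ext D τ s)| + |F_∂|`, `F_∂` = the
edges of `F` with an end outside of `D` (the others have the same colours).
-/

set_option autoImplicit false
set_option linter.unusedSectionVars false

open scoped Classical

namespace Pool.Agent.Lib.MP_6a79cf_pr

variable {X Y S : Type} [Fintype S]

private theorem R2_card (a b : Y → X) (F : Finset Y) (D : Finset X) (τ τ' : X → S) (s : D → S) :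
    (agr a b F (ext D τ' s)).card ≤ (agr a b F (ext D τ s)).card +
      (F.filter fun e => ¬ (a e ∈ D ∧ b e ∈ D)).card := by
  refine le_trans (Finset.card_le_card ?_) (Finset.card_union_le _ _)
  intro e he
  obtain ⟨h1, h2⟩ := Finset.mem_filter.1 he
  rw [Finset.mem_union]
  by_cases h : a e ∈ D ∧ b e ∈ D
  · left
    refine Finset.mem_filter.2 ⟨h1, ?_⟩
    unfold ext at h2 ⊢
    rw [dif_pos h.1, dif_pos h.2] at h2 ⊢
    exact h2
  · right
    exact Finset.mem_filter.2 ⟨h1, h⟩

theorem WW_ratio (a b : Y → X) (F : Finset Y) (D : Finset X) (v : ℝ) (hv : 0 < v) (τ τ' : X → S) :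
    WW a b F D v τ' (fun _ _ => 1) ≤
      (1 + v) ^ (F.filter fun e => ¬ (a e ∈ D ∧ b e ∈ D)).card * WW a b F D v τ (fun _ _ => 1) := by
  rw [WW_one a b F D v hv τ' (fun _ => 1), WW_one a b F D v hv τ (fun _ => 1), Finset.mul_sum]
  refine Finset.sum_le_sum fun s _ => ?_
  rw [mul_one, mul_one, ← pow_add]
  exact pow_le_pow_right₀ (by linarith) (by
    rw [add_comm]
    exact R2_card a b F D τ τ' s)

end Pool.Agent.Lib.MP_6a79cf_pr
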