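import Pool.Agent.Lib.MP_6a79cf_pr.Defs3

/-!
LEAF V0. `s ↦ ext D 0 s` is a bijection from `D → S` onto `zer S D`; so the number of `s` with `comp η (ext D 0 s)` is
`Nat.card (zer S D ⊓ cmp η)`. `zer_finite`: the same bijection. `gw_pos`: the zero colouring is in every subgroup.
`gw_union`: for disjoint `η`, `ζ`: `cmp (η ∪ ζ) = cmp η ⊓ cmp ζ`.
-/

set_option autoImplicit false

open scoped Classical

namespace Pool.Agent.Lib.MP_6a79cf_pr

variable {X Y S : Type} [AddCommGroup S] [Fintype S]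

omit [Fintype S] in
private theorem V0_mem (D : Finset X) (s : D → S) : ext D (fun _ => (0 : S)) s ∈ zer S D := by
  intro x hx
  simp [ext, hx]

omit [Fintype S] in
private theorem V0_inj (D : Finset X) {s t : D → S} (h : ext D (fun _ => (0 : S)) s = ext D (fun _ => (0 : S)) t) : s = t := by
  funext x
  have h1 := congrFun h x.1
  simpa [ext] using h1

omit [Fintype S] in
private theorem V0_surj (D : Finset X) {σ : X → S} (h : σ ∈ zer S D) : ext D (fun _ => (0 : S)) (fun x => σ x.1) = σ := by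
  funext x
  by_cases hx : x ∈ D
  · simp [ext, hx]
  · simp only [ext, hx, dif_neg, not_false_eq_true]
    exact (h x hx).symm

instance zer_finite (D : Finset X) : Finite (zer S D) := by
  refine Finite.of_surjective (fun s : D → S => (⟨ext D (fun _ => (0 : S)) s, V0_mem D s⟩ : zer S D)) ?_
  rintro ⟨σ, hσ⟩
  exact ⟨fun x => σ x.1, Subtype.ext (V0_surj D hσ)⟩

private theorem V0_card (a b : Y → X) (D : Finset X) (A : Set Y) :
    Nat.card ↥(zer S D ⊓ cmp S a b A) = (Finset.univ.filter fun s : D → S => comp a b A (ext D (fun _ => (0 : S)) s)).card := by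
  rw [← Fintype.card_subtype, ← Nat.card_eq_fintype_card]
  symm
  refine Nat.card_congr (Equiv.ofBijective (fun s => (⟨ext D (fun _ => (0 : S)) s.1, V0_mem D s.1, s.2⟩ :
    ↥(zer S D ⊓ cmp S a b A))) ⟨?_, ?_⟩)
  · intro s t h
    exact Subtype.ext (V0_inj D (congrArg Subtype.val h))
  · rintro ⟨σ, hσ⟩
    have h1 := V0_surj D hσ.1
    refine ⟨⟨fun x => σ x.1, ?_⟩, Subtype.ext h1⟩
    show comp a b A (ext D (fun _ => (0 : S)) fun x => σ x.1)
    rw [h1]
    exact hσ.2

theorem WW_gw (a b : Y → X) (F : Finset Y) (D : Finset X) (v : ℝ) (f : Finset Y → ℝ) :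
    WW a b F D v (fun _ => (0 : S)) (fun _ η => f η) =
      ∑ η ∈ F.powerset, gw a b (zer S D) v η * f η := by
  unfold WW
  rw [Finset.sum_comm]
  refine Finset.sum_congr rfl fun η _ => ?_
  rw [← Finset.sum_filter, Finset.sum_const, nsmul_eq_mul]
  unfold gw
  rw [V0_card]
  ring

omit [Fintype S] in
theorem gw_pos (a b : Y → X) (K : AddSubgroup (X → S)) [Finite K] (v : ℝ) (hv : 0 < v)
    (η : Finset Y) : 0 < gw a b K v η := by
  have hfin : Finite ↥(K ⊓ cmp S a b (↑η : Set Y)) :=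
    Finite.of_injective (fun x : ↥(K ⊓ cmp S a b (↑η : Set Y)) => (⟨x.1, x.2.1⟩ : K))
      (fun x y h => Subtype.ext (Subtype.mk.inj h))
  have h1 : 0 < Nat.card ↥(K ⊓ cmp S a b (↑η : Set Y)) := Nat.card_pos
  unfold gw
  exact mul_pos (pow_pos hv _) (by exact_mod_cast h1)

omit [Fintype S] in
theorem gw_union (a b : Y → X) (K : AddSubgroup (X → S)) (v : ℝ) (η ζ : Finset Y)
    (h : Disjoint η ζ) :
    gw a b K v (η ∪ ζ) = v ^ ζ.card * gw a b (K ⊓ cmp S a b (↑ζ : Set Y)) v η := by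
  have h1 : K ⊓ cmp S a b (↑(η ∪ ζ) : Set Y) = (K ⊓ cmp S a b (↑ζ : Set Y)) ⊓ cmp S a b (↑η : Set Y) := by
    ext σ
    constructor
    · rintro ⟨h2, h3⟩
      refine ⟨⟨h2, fun e he => h3 e ?_⟩, fun e he => h3 e ?_⟩
      · exact Finset.mem_coe.2 (Finset.mem_union_right _ (Finset.mem_coe.1 he))
      · exact Finset.mem_coe.2 (Finset.mem_union_left _ (Finset.mem_coe.1 he))
    · rintro ⟨⟨h2, h3⟩, h4⟩
      refine ⟨h2, fun e he => ?_⟩
      rcases Finset.mem_union.1 (Finset.mem_coe.1 he) with h5 | h5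
      · exact h4 e (Finset.mem_coe.2 h5)
      · exact h3 e (Finset.mem_coe.2 h5)
  unfold gw
  rw [h1, Finset.card_union_of_disjoint h, pow_add]
  ring

end Pool.Agent.Lib.MP_6a79cf_pr
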