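import Pool.Agent.Lib.MP_6a79cf_pr.V0
import Pool.Agent.Lib.MP_6a79cf_pr.G3

/-!
LEAF V1 (comparison of volumes). `D ⊆ D'`, `F = tch D ⊆ F' = tch D'`. `WW_gw`, the sum over `η' ⊆ F'` is the sum over `η ⊆ F`,
`ζ ⊆ F' \ F`, `gw (zer D') (η ∪ ζ) = v^|ζ| gw (K_ζ) η`, `K_ζ = zer D' ⊓ cmp ζ` (`gw_union`). Wired: `zer D ≤ K_ζ` (the edges
of `ζ` do not touch `D`, a colouring which vanishes outside of `D` is compatible with them), so by `gdom` (`K = zer D`,
`K' = K_ζ`, `v' = v`) for each `ζ`: (sum over `η` in `A`) * (total for `D`) ≤ (sum over all `η`) * (sum for `D` over `A`).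
Free: with `E = D' ∪ bd D'`, `E₀ = D ∪ bd D`: `K_ζ = zer E ⊓ cmp ζ ≤ zer E`, and for `η ⊆ F`:
`gw (zer E) η = |S|^(|E| - |E₀|) gw (zer E₀) η` (the ends of the edges of `η` are in `E₀`; bijection
`zer E ⊓ cmp η ≃ (zer E₀ ⊓ cmp η) × (E \ E₀ → S)`).
-/

set_option autoImplicit false

open scoped Classical

namespace Pool.Agent.Lib.MP_6a79cf_pr

variable {d : ℕ} {S : Type} [AddCommGroup S] [Fintype S]

theorem tch_mono {D D' : Finset (Vx d)} (h : D ⊆ D') : tch D ⊆ tch D' :=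
  Finset.biUnion_subset_biUnion_of_subset_left _ h

theorem mem_tch {D : Finset (Vx d)} {e : Ed d} : e ∈ tch D ↔ hd e ∈ D ∨ tl e ∈ D := by
  unfold tch hd tl
  simp only [Finset.mem_biUnion, Finset.mem_univ, true_and, Finset.mem_insert, Finset.mem_singleton]
  constructor
  · rintro ⟨x, hx, i, h | h⟩
    · left
      rw [h]
      exact hx
    · right
      rw [h]
      simpa using hx
  · rintro (h | h)
    · exact ⟨e.1, h, e.2, Or.inl rfl⟩
    · refine ⟨_, h, e.2, Or.inr ?_⟩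
      ext1
      · simp
      · rfl

theorem ends_tch {D : Finset (Vx d)} {e : Ed d} (h : e ∈ tch D) :
    hd e ∈ D ∪ bd D ∧ tl e ∈ D ∪ bd D := by
  constructor
  · by_cases h1 : hd e ∈ D
    · exact Finset.mem_union_left _ h1
    · refine Finset.mem_union_right _ (Finset.mem_sdiff.2 ⟨?_, h1⟩)
      exact Finset.mem_union_left _ (Finset.mem_image_of_mem _ h)
  · by_cases h1 : tl e ∈ D
    · exact Finset.mem_union_left _ h1
    · refine Finset.mem_union_right _ (Finset.mem_sdiff.2 ⟨?_, h1⟩)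
      exact Finset.mem_union_right _ (Finset.mem_image_of_mem _ h)

private theorem V1_split {Y : Type} [DecidableEq Y] (F F' : Finset Y) (h : F ⊆ F') (g : Finset Y → ℝ) :
    ∑ η ∈ F'.powerset, g η = ∑ ζ ∈ (F' \ F).powerset, ∑ η ∈ F.powerset, g (η ∪ ζ) := by
  rw [Finset.sum_comm, ← Finset.sum_product']
  refine Finset.sum_bij' (fun η _ => (η ∩ F, η \ F)) (fun p _ => p.1 ∪ p.2) ?_ ?_ ?_ ?_ ?_
  · intro η hη
    rw [Finset.mem_powerset] at hη
    rw [Finset.mem_product, Finset.mem_powerset, Finset.mem_powerset]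
    exact ⟨Finset.inter_subset_right, Finset.sdiff_subset_sdiff hη (Finset.Subset.refl _)⟩
  · intro p hp
    rw [Finset.mem_product, Finset.mem_powerset, Finset.mem_powerset] at hp
    rw [Finset.mem_powerset]
    exact Finset.union_subset (hp.1.trans h) (hp.2.trans Finset.sdiff_subset)
  · intro η _
    ext x
    simp only [Finset.mem_union, Finset.mem_inter, Finset.mem_sdiff]
    tauto
  · intro p hp
    rw [Finset.mem_product, Finset.mem_powerset, Finset.mem_powerset] at hp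
    obtain ⟨s, t⟩ := p
    simp only at hp
    ext1
    · ext x
      simp only [Finset.mem_union, Finset.mem_inter]
      have h1 := @hp.1 x
      have h2 := @hp.2 x
      rw [Finset.mem_sdiff] at h2
      tauto
    · ext x
      simp only [Finset.mem_union, Finset.mem_sdiff]
      have h1 := @hp.1 x
      have h2 := @hp.2 x
      rw [Finset.mem_sdiff] at h2
      tauto
  · intro η _
    have : η ∩ F ∪ η \ F = η := by
      ext x
      simp only [Finset.mem_union, Finset.mem_inter, Finset.mem_sdiff]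
      tauto
    simp only [this]

private theorem V1_inter {Y : Type} [DecidableEq Y] {F F' η ζ : Finset Y} (hη : η ⊆ F) (hζ : ζ ⊆ F' \ F) :
    (η ∪ ζ) ∩ F = η := by
  ext x
  have h1 := @hη x
  have h2 := @hζ x
  rw [Finset.mem_sdiff] at h2
  simp only [Finset.mem_union, Finset.mem_inter]
  tauto

private theorem V1_disj {Y : Type} [DecidableEq Y] {F F' η ζ : Finset Y} (hη : η ⊆ F) (hζ : ζ ⊆ F' \ F) :
    Disjoint η ζ := by
  rw [Finset.disjoint_left]
  intro x h1 h2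
  exact (Finset.mem_sdiff.1 (hζ h2)).2 (hη h1)

omit [Fintype S] in
private theorem V1_union {X Y : Type} [DecidableEq Y] (a b : Y → X) (K : AddSubgroup (X → S)) (v : ℝ)
    (η ζ : Finset Y) (h : Disjoint η ζ) :
    gw a b K v (η ∪ ζ) = v ^ ζ.card * gw a b (K ⊓ cmp S a b (↑ζ : Set Y)) v η := by
  have e : η ∪ ζ = @Union.union (Finset Y)
      (@Finset.instUnion Y (fun x y => Classical.propDecidable (x = y))) η ζ := by
    ext x
    simp only [Finset.mem_union]
  rw [e]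
  exact gw_union a b K v η ζ h

omit [Fintype S] in
/-- The sum over a larger set of edges. -/
private theorem V1_sum {X Y : Type} [DecidableEq Y] (a b : Y → X) (K : AddSubgroup (X → S)) (v : ℝ) (F F' : Finset Y)
    (h : F ⊆ F') (f : Finset Y → ℝ) :
    ∑ η ∈ F'.powerset, gw a b K v η * f (η ∩ F) =
      ∑ ζ ∈ (F' \ F).powerset, v ^ ζ.card *
        ∑ η ∈ F.powerset, gw a b (K ⊓ cmp S a b (↑ζ : Set Y)) v η * f η := by
  rw [V1_split F F' h]
  refine Finset.sum_congr rfl fun ζ hζ => ?_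
  rw [Finset.mul_sum]
  refine Finset.sum_congr rfl fun η hη => ?_
  rw [Finset.mem_powerset] at hζ hη
  rw [V1_inter hη hζ, V1_union a b K v η ζ (V1_disj hη hζ), mul_assoc]

omit [Fintype S] in
private theorem V1_pos {X Y : Type} (a b : Y → X) (K : AddSubgroup (X → S)) [Finite K] (v : ℝ) (hv : 0 < v)
    (F : Finset Y) : 0 < ∑ η ∈ F.powerset, gw a b K v η :=
  Finset.sum_pos (fun η _ => gw_pos a b K v hv η) ⟨∅, Finset.empty_mem_powerset F⟩

omit [Fintype S] in
private theorem V1_inf_finite {X : Type} (K L : AddSubgroup (X → S)) [Finite K] :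
    Finite ↥(K ⊓ L) :=
  Finite.of_injective (fun x : ↥(K ⊓ L) => (⟨x.1, x.2.1⟩ : K)) fun _ _ hxy =>
    Subtype.ext (congrArg (fun z : K => (z : X → S)) hxy)

private theorem V1_ph1 (D : Finset (Vx d)) (v : ℝ) (A : Finset (Ed d) → Prop) :
    ph1 S D v A = (∑ η ∈ (tch D).powerset, gw hd tl (zer S D) v η * (if A η then 1 else 0)) /
      ∑ η ∈ (tch D).powerset, gw hd tl (zer S D) v η := by
  have h1 : WW hd tl (tch D) D v (fun _ => (0 : S)) (fun _ η => if A η then 1 else 0) =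
      ∑ η ∈ (tch D).powerset, gw hd tl (zer S D) v η * (if A η then 1 else 0) :=
    WW_gw hd tl (tch D) D v (fun η => if A η then 1 else 0)
  have h2 : WW hd tl (tch D) D v (fun _ => (0 : S)) (fun _ _ => 1) =
      ∑ η ∈ (tch D).powerset, gw hd tl (zer S D) v η * 1 :=
    WW_gw hd tl (tch D) D v (fun _ => 1)
  unfold ph1
  rw [h1, h2]
  simp only [mul_one]

private theorem V1_ph0 (D : Finset (Vx d)) (v : ℝ) (A : Finset (Ed d) → Prop) :
    ph0 S D v A = (∑ η ∈ (tch D).powerset, gw hd tl (zer S (D ∪ bd D)) v η * (if A η then 1 else 0)) /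
      ∑ η ∈ (tch D).powerset, gw hd tl (zer S (D ∪ bd D)) v η := by
  have h1 : WW hd tl (tch D) (D ∪ bd D) v (fun _ => (0 : S)) (fun _ η => if A η then 1 else 0) =
      ∑ η ∈ (tch D).powerset, gw hd tl (zer S (D ∪ bd D)) v η * (if A η then 1 else 0) :=
    WW_gw hd tl (tch D) (D ∪ bd D) v (fun η => if A η then 1 else 0)
  have h2 : WW hd tl (tch D) (D ∪ bd D) v (fun _ => (0 : S)) (fun _ _ => 1) =
      ∑ η ∈ (tch D).powerset, gw hd tl (zer S (D ∪ bd D)) v η * 1 :=
    WW_gw hd tl (tch D) (D ∪ bd D) v (fun _ => 1)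
  unfold ph0
  rw [h1, h2]
  simp only [mul_one]

private theorem V1_f {Y : Type} (F : Finset Y) (A : Finset Y → Prop) (hA : inc A) :
    ∀ s t : Finset Y, s ⊆ t → t ⊆ F → (if A s then (1 : ℝ) else 0) ≤ (if A t then 1 else 0) := by
  intro s t hst _
  by_cases h : A s
  · rw [if_pos h, if_pos (hA s t hst h)]
  · rw [if_neg h]
    split_ifs <;> norm_num

omit [Fintype S] in
private theorem V1_zer {X : Type} {D D' : Finset X} (h : D ⊆ D') : zer S D ≤ zer S D' :=
  fun _ hσ x hx => hσ x fun hx' => hx (h hx')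

theorem ph1_anti {D D' : Finset (Vx d)} (h : D ⊆ D') (v : ℝ) (hv : 0 < v)
    (A : Finset (Ed d) → Prop) (hA : inc A) :
    ph1 S D' v (fun η => A (η ∩ tch D)) ≤ ph1 S D v A := by
  rw [V1_ph1, V1_ph1]
  have hF := tch_mono h
  rw [div_le_div_iff₀ (V1_pos hd tl (zer S D') v hv _) (V1_pos hd tl (zer S D) v hv _)]
  have h1 := V1_sum hd tl (zer S D') v (tch D) (tch D') hF (fun η => if A η then 1 else 0)
  have h2 := V1_sum hd tl (zer S D') v (tch D) (tch D') hF (fun _ => 1)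
  simp only [mul_one] at h2
  rw [h1, h2, Finset.sum_mul, Finset.mul_sum]
  refine Finset.sum_le_sum fun ζ hζ => ?_
  rw [Finset.mem_powerset] at hζ
  have hfin : Finite ↥(zer S D' ⊓ cmp S hd tl (↑ζ : Set (Ed d))) := V1_inf_finite _ _
  have hK : zer S D ≤ zer S D' ⊓ cmp S hd tl (↑ζ : Set (Ed d)) := by
    refine le_inf (V1_zer h) fun σ hσ e he => ?_
    have he2 : e ∉ tch D := (Finset.mem_sdiff.1 (hζ (Finset.mem_coe.1 he))).2
    rw [mem_tch, not_or] at he2
    rw [hσ _ he2.1, hσ _ he2.2]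
  have h3 := gdom hd tl (zer S D) (zer S D' ⊓ cmp S hd tl (↑ζ : Set (Ed d))) hK v v hv le_rfl (tch D)
    (fun η => if A η then (1 : ℝ) else 0) (fun s => by split_ifs <;> norm_num) (V1_f (tch D) A hA)
  have h4 := mul_le_mul_of_nonneg_left h3 (pow_nonneg hv.le ζ.card)
  rw [mul_assoc]
  refine h4.trans (le_of_eq ?_)
  ring

omit [Fintype S] in
private theorem V1_card {X Y : Type} [DecidableEq X] (a b : Y → X) (E E₀ : Finset X) (hE : E₀ ⊆ E) (η : Finset Y)
    (hη : ∀ e ∈ η, a e ∈ E₀ ∧ b e ∈ E₀) :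
    Nat.card ↥(zer S E ⊓ cmp S a b (↑η : Set Y)) =
      Nat.card ↥(zer S E₀ ⊓ cmp S a b (↑η : Set Y)) * Nat.card ↥(zer S (E \ E₀)) := by
  rw [← Nat.card_prod]
  refine Nat.card_congr ?_
  refine Equiv.symm (Equiv.ofBijective (fun p : ↥(zer S E₀ ⊓ cmp S a b (↑η : Set Y)) × ↥(zer S (E \ E₀)) =>
    (⟨p.1.1 + p.2.1, ?_⟩ : ↥(zer S E ⊓ cmp S a b (↑η : Set Y)))) ⟨?_, ?_⟩)
  · refine ⟨add_mem (V1_zer hE p.1.2.1) (V1_zer Finset.sdiff_subset p.2.2), ?_⟩
    refine add_mem p.1.2.2 fun e he => ?_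
    have h1 := hη e (Finset.mem_coe.1 he)
    rw [p.2.2 (a e) fun h => (Finset.mem_sdiff.1 h).2 h1.1, p.2.2 (b e) fun h => (Finset.mem_sdiff.1 h).2 h1.2]
  · intro p q hpq
    have h1 : ∀ x, p.1.1 x + p.2.1 x = q.1.1 x + q.2.1 x := fun x =>
      congrFun (congrArg (fun z : ↥(zer S E ⊓ cmp S a b (↑η : Set Y)) => (z : X → S)) hpq) x
    refine Prod.ext (Subtype.ext (funext fun x => ?_)) (Subtype.ext (funext fun x => ?_))
    · by_cases hx : x ∈ E₀
      · have h2 := h1 x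
        rw [p.2.2 x fun h => (Finset.mem_sdiff.1 h).2 hx, q.2.2 x fun h => (Finset.mem_sdiff.1 h).2 hx,
          add_zero, add_zero] at h2
        exact h2
      · rw [p.1.2.1 x hx, q.1.2.1 x hx]
    · by_cases hx : x ∈ E₀
      · rw [p.2.2 x fun h => (Finset.mem_sdiff.1 h).2 hx, q.2.2 x fun h => (Finset.mem_sdiff.1 h).2 hx]
      · have h2 := h1 x
        rw [p.1.2.1 x hx, q.1.2.1 x hx, zero_add, zero_add] at h2
        exact h2
  · intro ρ
    refine ⟨⟨⟨fun x => if x ∈ E₀ then ρ.1 x else 0, ?_, ?_⟩, ⟨fun x => if x ∈ E₀ then 0 else ρ.1 x, ?_⟩⟩, ?_⟩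
    · intro x hx
      exact if_neg hx
    · intro e he
      have h1 := hη e (Finset.mem_coe.1 he)
      simp only [if_pos h1.1, if_pos h1.2]
      exact ρ.2.2 e he
    · intro x hx
      by_cases hx2 : x ∈ E₀
      · exact if_pos hx2
      · exact (if_neg hx2).trans (ρ.2.1 x fun hx3 => hx (Finset.mem_sdiff.2 ⟨hx3, hx2⟩))
    · refine Subtype.ext (funext fun x => ?_)
      by_cases hx : x ∈ E₀
      · simp [hx]
      · simp [hx]

theorem ph0_mono {D D' : Finset (Vx d)} (h : D ⊆ D') (v : ℝ) (hv : 0 < v)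
    (A : Finset (Ed d) → Prop) (hA : inc A) :
    ph0 S D v A ≤ ph0 S D' v (fun η => A (η ∩ tch D)) := by
  rw [V1_ph0, V1_ph0]
  have hF := tch_mono h
  have hE : D ∪ bd D ⊆ D' ∪ bd D' := by
    intro x hx
    rw [Finset.mem_union] at hx
    rcases hx with hx | hx
    · exact Finset.mem_union_left _ (h hx)
    · unfold bd at hx
      rw [Finset.mem_sdiff, Finset.mem_union, Finset.mem_image, Finset.mem_image] at hx
      rcases hx.1 with ⟨e, he, rfl⟩ | ⟨e, he, rfl⟩
      · exact (ends_tch (hF he)).1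
      · exact (ends_tch (hF he)).2
  obtain ⟨c, hc⟩ : ∃ c : ℝ, c = (Nat.card ↥(zer S ((D' ∪ bd D') \ (D ∪ bd D))) : ℝ) := ⟨_, rfl⟩
  have hc0 : 0 < c := by
    rw [hc]
    exact_mod_cast Nat.card_pos
  have hgw : ∀ η ∈ (tch D).powerset, gw hd tl (zer S (D' ∪ bd D')) v η =
      c * gw hd tl (zer S (D ∪ bd D)) v η := by
    intro η hη
    rw [Finset.mem_powerset] at hη
    unfold gw
    rw [V1_card hd tl (D' ∪ bd D') (D ∪ bd D) hE η fun e he => ends_tch (hη he), hc]
    push_cast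
    ring
  have hN : ∑ η ∈ (tch D).powerset, gw hd tl (zer S (D' ∪ bd D')) v η * (if A η then (1 : ℝ) else 0) =
      c * ∑ η ∈ (tch D).powerset, gw hd tl (zer S (D ∪ bd D)) v η * (if A η then 1 else 0) := by
    rw [Finset.mul_sum]
    refine Finset.sum_congr rfl fun η hη => ?_
    rw [hgw η hη, mul_assoc]
  have hZ : ∑ η ∈ (tch D).powerset, gw hd tl (zer S (D' ∪ bd D')) v η =
      c * ∑ η ∈ (tch D).powerset, gw hd tl (zer S (D ∪ bd D)) v η := by
    rw [Finset.mul_sum]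
    exact Finset.sum_congr rfl hgw
  have key : (∑ η ∈ (tch D).powerset, gw hd tl (zer S (D' ∪ bd D')) v η * (if A η then (1 : ℝ) else 0)) *
      ∑ η ∈ (tch D').powerset, gw hd tl (zer S (D' ∪ bd D')) v η ≤
      (∑ η ∈ (tch D').powerset, gw hd tl (zer S (D' ∪ bd D')) v η *
        (if A (η ∩ tch D) then (1 : ℝ) else 0)) *
      ∑ η ∈ (tch D).powerset, gw hd tl (zer S (D' ∪ bd D')) v η := by
    have h1 := V1_sum hd tl (zer S (D' ∪ bd D')) v (tch D) (tch D') hF (fun η => if A η then 1 else 0)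
    have h2 := V1_sum hd tl (zer S (D' ∪ bd D')) v (tch D) (tch D') hF (fun _ => 1)
    simp only [mul_one] at h2
    obtain ⟨N, hN2⟩ : ∃ N : ℝ, N = ∑ η ∈ (tch D).powerset, gw hd tl (zer S (D' ∪ bd D')) v η *
      (if A η then (1 : ℝ) else 0) := ⟨_, rfl⟩
    obtain ⟨Z, hZ2⟩ : ∃ Z : ℝ, Z = ∑ η ∈ (tch D).powerset, gw hd tl (zer S (D' ∪ bd D')) v η := ⟨_, rfl⟩
    rw [h1, h2, ← hN2, ← hZ2, Finset.sum_mul, Finset.mul_sum]
    refine Finset.sum_le_sum fun ζ _ => ?_
    have h3 := gdom hd tl (zer S (D' ∪ bd D') ⊓ cmp S hd tl (↑ζ : Set (Ed d))) (zer S (D' ∪ bd D'))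
      inf_le_left v v hv le_rfl (tch D) (fun η => if A η then (1 : ℝ) else 0)
      (fun s => by split_ifs <;> norm_num) (V1_f (tch D) A hA)
    rw [← hN2, ← hZ2] at h3
    have h4 := mul_le_mul_of_nonneg_left h3 (pow_nonneg hv.le ζ.card)
    refine (le_of_eq ?_).trans (h4.trans (le_of_eq ?_))
    · ring
    · ring
  rw [div_le_div_iff₀ (V1_pos hd tl (zer S (D ∪ bd D)) v hv _) (V1_pos hd tl (zer S (D' ∪ bd D')) v hv _)]
  rw [hN, hZ] at key
  refine le_of_mul_le_mul_left ?_ hc0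
  refine (le_of_eq ?_).trans (key.trans (le_of_eq ?_))
  · ring
  · ring

end Pool.Agent.Lib.MP_6a79cf_pr
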