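import Pool.Agent.Lib.MP_6a79cf_pr.V1

/-!
LEAF V2 (the same volume). `WW_gw`. `ph0_le_ph1`: `gdom` with `K = zer D ≤ K' = zer (D ∪ bd D)`, `v' = v`. `ph1_v`, `ph0_v`: `gdom`
with `K = K'`. `ph_diff`: `gdom` for the function `f η = |η ∩ F₀| + 1 - 1_A(η ∩ F₀)`, which is nonnegative and nondecreasing
(if `η ∩ F₀` grows by `k ≥ 1` elements then `1_A` grows by at most `1 ≤ k`).
-/

set_option autoImplicit false

open scoped Classical

namespace Pool.Agent.Lib.MP_6a79cf_pr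

variable {d : ℕ} {S : Type} [AddCommGroup S] [Fintype S]

private noncomputable def V2_ind (A : Finset (Ed d) → Prop) (η : Finset (Ed d)) : ℝ :=
  if A η then 1 else 0

private theorem V2_ind_nonneg (A : Finset (Ed d) → Prop) (η : Finset (Ed d)) : 0 ≤ V2_ind A η := by
  unfold V2_ind
  split_ifs
  · exact zero_le_one
  · exact le_rfl

private theorem V2_ind_le (A : Finset (Ed d) → Prop) (η : Finset (Ed d)) : V2_ind A η ≤ 1 := by
  unfold V2_ind
  split_ifs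
  · exact le_rfl
  · exact zero_le_one

private theorem V2_ind_mono {A : Finset (Ed d) → Prop} (hA : inc A) {s t : Finset (Ed d)}
    (h : s ⊆ t) : V2_ind A s ≤ V2_ind A t := by
  unfold V2_ind
  by_cases h1 : A s
  · rw [if_pos h1, if_pos (hA s t h h1)]
  · rw [if_neg h1]
    exact V2_ind_nonneg A t

/-- The mean of `f`. -/
private noncomputable def V2_E (K : AddSubgroup (Vx d → S)) (v : ℝ) (F : Finset (Ed d))
    (f : Finset (Ed d) → ℝ) : ℝ :=
  (∑ η ∈ F.powerset, gw hd tl K v η * f η) / ∑ η ∈ F.powerset, gw hd tl K v η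

omit [Fintype S] in
private theorem V2_pos (K : AddSubgroup (Vx d → S)) [Finite K] {v : ℝ} (hv : 0 < v)
    (F : Finset (Ed d)) : 0 < ∑ η ∈ F.powerset, gw hd tl K v η :=
  Finset.sum_pos (fun η _ => gw_pos hd tl K v hv η) ⟨∅, Finset.empty_mem_powerset F⟩

omit [Fintype S] in
private theorem V2_E_le {K K' : AddSubgroup (Vx d → S)} [Finite K] [Finite K'] (hK : K ≤ K')
    {v' v : ℝ} (hv' : 0 < v') (hv : v' ≤ v) (F : Finset (Ed d)) {f : Finset (Ed d) → ℝ}
    (h3 : ∀ s, 0 ≤ f s) (hf : ∀ s t, s ⊆ t → t ⊆ F → f s ≤ f t) :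
    V2_E K' v' F f ≤ V2_E K v F f := by
  unfold V2_E
  rw [div_le_div_iff₀ (V2_pos K' hv' F) (V2_pos K (lt_of_lt_of_le hv' hv) F)]
  refine (gdom hd tl K K' hK v' v hv' hv F f h3 hf).trans (le_of_eq (mul_comm _ _))

private theorem V2_WW (F : Finset (Ed d)) (D : Finset (Vx d)) (v : ℝ)
    (A : Finset (Ed d) → Prop) :
    WW hd tl F D v (fun _ => (0 : S)) (fun _ η => if A η then 1 else 0) /
      WW hd tl F D v (fun _ => (0 : S)) (fun _ _ => 1) = V2_E (zer S D) v F (V2_ind A) := by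
  have h1 := WW_gw (S := S) hd tl F D v (V2_ind A)
  have h2 := WW_gw (S := S) hd tl F D v (fun _ => 1)
  have e1 : WW hd tl F D v (fun _ => (0 : S)) (fun _ η => if A η then 1 else 0) =
      ∑ η ∈ F.powerset, gw hd tl (zer S D) v η * V2_ind A η := h1
  unfold V2_E
  rw [e1, h2]
  congr 1
  exact Finset.sum_congr rfl fun η _ => mul_one _

private theorem V2_ph1 (D : Finset (Vx d)) (v : ℝ) (A : Finset (Ed d) → Prop) :
    ph1 S D v A = V2_E (zer S D) v (tch D) (V2_ind A) := V2_WW (tch D) D v A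

private theorem V2_ph0 (D : Finset (Vx d)) (v : ℝ) (A : Finset (Ed d) → Prop) :
    ph0 S D v A = V2_E (zer S (D ∪ bd D)) v (tch D) (V2_ind A) := V2_WW (tch D) (D ∪ bd D) v A

omit [Fintype S] in
private theorem V2_zer (D : Finset (Vx d)) : zer S D ≤ zer S (D ∪ bd D) := by
  intro σ hσ x hx
  exact hσ x fun h => hx (Finset.mem_union_left _ h)

private theorem V2_card (F₀ η : Finset (Ed d)) :
    ∑ e ∈ F₀, V2_ind (fun η => e ∈ η) η = ((η ∩ F₀).card : ℝ) := by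
  have h : ∀ e ∈ F₀, V2_ind (fun η => e ∈ η) η = if e ∈ η then (1 : ℝ) else 0 := by
    intro e _
    by_cases h : e ∈ η
    · rw [if_pos h]
      exact if_pos h
    · rw [if_neg h]
      exact if_neg h
  rw [Finset.sum_congr rfl h, Finset.sum_boole]
  congr 2
  ext e
  rw [Finset.mem_filter, Finset.mem_inter, and_comm]

/-- The function `|η ∩ F₀| + 1 - 1_A(η ∩ F₀)`. -/
private noncomputable def V2_f (F₀ : Finset (Ed d)) (A : Finset (Ed d) → Prop)
    (η : Finset (Ed d)) : ℝ :=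
  ∑ e ∈ F₀, V2_ind (fun η => e ∈ η) η + 1 - V2_ind (fun η => A (η ∩ F₀)) η

private theorem V2_f_nonneg (F₀ : Finset (Ed d)) (A : Finset (Ed d) → Prop)
    (η : Finset (Ed d)) : 0 ≤ V2_f F₀ A η := by
  unfold V2_f
  rw [V2_card]
  have h1 := V2_ind_le (fun η => A (η ∩ F₀)) η
  have h2 : (0 : ℝ) ≤ ((η ∩ F₀).card : ℝ) := Nat.cast_nonneg _
  linarith

private theorem V2_f_mono (F₀ : Finset (Ed d)) (A : Finset (Ed d) → Prop)
    {s t : Finset (Ed d)} (h : s ⊆ t) : V2_f F₀ A s ≤ V2_f F₀ A t := by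
  unfold V2_f
  rw [V2_card, V2_card]
  by_cases he : s ∩ F₀ = t ∩ F₀
  · have h1 : V2_ind (fun η => A (η ∩ F₀)) s = V2_ind (fun η => A (η ∩ F₀)) t := by
      unfold V2_ind
      simp only [he]
    rw [h1, he]
  · have h1 : s ∩ F₀ ⊂ t ∩ F₀ :=
      (Finset.inter_subset_inter_right h).ssubset_of_ne he
    have h2 : (((s ∩ F₀).card : ℝ) + 1) ≤ ((t ∩ F₀).card : ℝ) := by
      exact_mod_cast Finset.card_lt_card h1
    have h3 := V2_ind_nonneg (fun η => A (η ∩ F₀)) s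
    have h4 := V2_ind_le (fun η => A (η ∩ F₀)) t
    linarith

omit [Fintype S] in
private theorem V2_E_f (K : AddSubgroup (Vx d → S)) [Finite K] {v : ℝ} (hv : 0 < v)
    (F F₀ : Finset (Ed d)) (A : Finset (Ed d) → Prop) :
    V2_E K v F (V2_f F₀ A) = ∑ e ∈ F₀, V2_E K v F (V2_ind fun η => e ∈ η) + 1 -
      V2_E K v F (V2_ind fun η => A (η ∩ F₀)) := by
  have hZ := (V2_pos K hv F).ne'
  unfold V2_E
  rw [← Finset.sum_div, div_add_one hZ, ← sub_div]
  congr 1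
  rw [Finset.sum_comm, ← Finset.sum_add_distrib, ← Finset.sum_sub_distrib]
  refine Finset.sum_congr rfl fun η _ => ?_
  unfold V2_f
  rw [← Finset.mul_sum]
  ring

theorem ph0_le_ph1 (D : Finset (Vx d)) (v : ℝ) (hv : 0 < v) (A : Finset (Ed d) → Prop)
    (hA : inc A) : ph0 S D v A ≤ ph1 S D v A := by
  rw [V2_ph0, V2_ph1]
  exact V2_E_le (V2_zer D) hv le_rfl _ (V2_ind_nonneg A) fun s t h _ => V2_ind_mono hA h

theorem ph1_v (D : Finset (Vx d)) (v' v : ℝ) (hv' : 0 < v') (hv : v' ≤ v)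
    (A : Finset (Ed d) → Prop) (hA : inc A) : ph1 S D v' A ≤ ph1 S D v A := by
  rw [V2_ph1, V2_ph1]
  exact V2_E_le le_rfl hv' hv _ (V2_ind_nonneg A) fun s t h _ => V2_ind_mono hA h

theorem ph0_v (D : Finset (Vx d)) (v' v : ℝ) (hv' : 0 < v') (hv : v' ≤ v)
    (A : Finset (Ed d) → Prop) (hA : inc A) : ph0 S D v' A ≤ ph0 S D v A := by
  rw [V2_ph0, V2_ph0]
  exact V2_E_le le_rfl hv' hv _ (V2_ind_nonneg A) fun s t h _ => V2_ind_mono hA h

theorem ph_diff (D : Finset (Vx d)) (v : ℝ) (hv : 0 < v) (F₀ : Finset (Ed d))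
    (A : Finset (Ed d) → Prop) (hA : inc A) :
    ph1 S D v (fun η => A (η ∩ F₀)) - ph0 S D v (fun η => A (η ∩ F₀)) ≤
      ∑ e ∈ F₀, (ph1 S D v (fun η => e ∈ η) - ph0 S D v (fun η => e ∈ η)) := by
  simp only [V2_ph1, V2_ph0]
  have h1 := V2_E_le (S := S) (V2_zer D) hv le_rfl (tch D) (V2_f_nonneg F₀ A)
    fun s t h _ => V2_f_mono F₀ A h
  rw [V2_E_f _ hv, V2_E_f _ hv] at h1
  rw [Finset.sum_sub_distrib]
  linarith

end Pool.Agent.Lib.MP_6a79cf_pr
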