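import Pool.Agent.Lib.MP_6a79cf_pr.V2

/-!
LEAF V3 (Jensen). `a η = gw (zer D) 1 η` (wired), `c η = gw (zer (D ∪ bd D)) 1 η` (free), `Z₁ v = ∑ v^|η| a η`,
`Z₀ v = ∑ v^|η| c η` over `η ⊆ tch D`. `a ≤ c ≤ q^|bd D| a`, `q = |S|` (`zer D ⊓ cmp η` is the kernel of the restriction of
`zer (D ∪ bd D) ⊓ cmp η` to `bd D`). `L = log (v/v')`. Jensen (`e^x ≥ 1 + x` or convexity of `exp`):
`Z₁ v / Z₁ v' = E₁_{v'} e^(L |η|) ≥ e^(L E₁_{v'} |η|)`, `Z₀ v' / Z₀ v = E₀_v e^(-L |η|) ≥ e^(-L E₀_v |η|)`. So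
`L E₁_{v'} |η| ≤ log (Z₁ v) - log (Z₁ v') ≤ log (Z₀ v) - log (Z₀ v') + |bd D| log q ≤ L E₀_v |η| + |bd D| log q`.
`E |η| = ∑ over e of the probability of e ∈ η`.
-/

set_option autoImplicit false

open scoped Classical

namespace Pool.Agent.Lib.MP_6a79cf_pr

variable {d : ℕ} {S : Type} [AddCommGroup S] [Fintype S]

/-- Jensen for a finite sum. -/
private theorem V3_jen {ι : Type} (s : Finset ι) (W x : ι → ℝ) (hW : ∀ i ∈ s, 0 ≤ W i) (hs : 0 < ∑ i ∈ s, W i) :
    (∑ i ∈ s, W i * x i) / (∑ i ∈ s, W i) ≤ Real.log (∑ i ∈ s, W i * Real.exp (x i)) - Real.log (∑ i ∈ s, W i) := by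
  obtain ⟨m, hm⟩ : ∃ m : ℝ, m = (∑ i ∈ s, W i * x i) / (∑ i ∈ s, W i) := ⟨_, rfl⟩
  rw [← hm]
  have h1 : (∑ i ∈ s, W i) * Real.exp m ≤ ∑ i ∈ s, W i * Real.exp (x i) := by
    have h2 : ∀ i ∈ s, W i * (Real.exp m * (1 + x i - m)) ≤ W i * Real.exp (x i) := by
      intro i hi
      refine mul_le_mul_of_nonneg_left ?_ (hW i hi)
      have h3 := Real.add_one_le_exp (x i - m)
      have h4 : Real.exp (x i) = Real.exp m * Real.exp (x i - m) := by
        rw [← Real.exp_add]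
        congr 1
        ring
      rw [h4]
      refine mul_le_mul_of_nonneg_left ?_ (Real.exp_pos m).le
      linarith
    refine le_trans (le_of_eq ?_) (Finset.sum_le_sum h2)
    have h5 : ∑ i ∈ s, W i * (Real.exp m * (1 + x i - m)) =
        Real.exp m * (1 - m) * (∑ i ∈ s, W i) + Real.exp m * ∑ i ∈ s, W i * x i := by
      rw [Finset.mul_sum, Finset.mul_sum, ← Finset.sum_add_distrib]
      refine Finset.sum_congr rfl fun i _ => ?_
      ring
    have h6 : ∑ i ∈ s, W i * x i = m * ∑ i ∈ s, W i := by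
      rw [hm, div_mul_cancel₀ _ hs.ne']
    rw [h5, h6]
    ring
  have h7 : Real.log ((∑ i ∈ s, W i) * Real.exp m) ≤ Real.log (∑ i ∈ s, W i * Real.exp (x i)) :=
    Real.log_le_log (by positivity) h1
  rw [Real.log_mul hs.ne' (Real.exp_pos m).ne', Real.log_exp] at h7
  linarith

private theorem V3_card_mono (D E : Finset (Vx d)) (h : D ⊆ E) (η : Finset (Ed d)) :
    Nat.card ↥(zer S D ⊓ cmp S hd tl (↑η : Set (Ed d))) ≤ Nat.card ↥(zer S E ⊓ cmp S hd tl (↑η : Set (Ed d))) := by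
  have hle : zer S D ⊓ cmp S hd tl (↑η : Set (Ed d)) ≤ zer S E ⊓ cmp S hd tl (↑η : Set (Ed d)) :=
    inf_le_inf_right _ fun σ hσ x hx => hσ x fun hxD => hx (h hxD)
  have hfin : Finite ↥(zer S E ⊓ cmp S hd tl (↑η : Set (Ed d))) :=
    Finite.of_injective (fun σ => (⟨σ.1, σ.2.1⟩ : ↥(zer S E))) fun σ τ hστ => by
      have := congrArg Subtype.val hστ
      exact Subtype.ext this
  exact Nat.card_le_card_of_injective (AddSubgroup.inclusion hle) (AddSubgroup.inclusion_injective hle)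

private theorem V3_card_mul (D : Finset (Vx d)) (η : Finset (Ed d)) :
    Nat.card ↥(zer S (D ∪ bd D) ⊓ cmp S hd tl (↑η : Set (Ed d))) ≤
      Fintype.card S ^ (bd D).card * Nat.card ↥(zer S D ⊓ cmp S hd tl (↑η : Set (Ed d))) := by
  let G := ↥(zer S (D ∪ bd D) ⊓ cmp S hd tl (↑η : Set (Ed d)))
  let φ : G →+ (↥(bd D) → S) :=
    { toFun := fun σ x => σ.1 x.1
      map_zero' := rfl
      map_add' := fun _ _ => rfl }
  have hfin' : Finite ↥(zer S D ⊓ cmp S hd tl (↑η : Set (Ed d))) :=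
    Finite.of_injective (fun σ => (⟨σ.1, σ.2.1⟩ : ↥(zer S D))) fun σ τ hστ => by
      have := congrArg Subtype.val hστ
      exact Subtype.ext this
  have h1 := AddSubgroup.card_eq_card_quotient_mul_card_addSubgroup φ.ker
  have h2 : Nat.card (G ⧸ φ.ker) ≤ Nat.card (↥(bd D) → S) :=
    Nat.card_le_card_of_injective (QuotientAddGroup.kerLift φ) (QuotientAddGroup.kerLift_injective φ)
  have h3 : Nat.card (↥(bd D) → S) = Fintype.card S ^ (bd D).card := by
    rw [Nat.card_eq_fintype_card, Fintype.card_fun, Fintype.card_coe]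
  have h4 : Nat.card φ.ker ≤ Nat.card ↥(zer S D ⊓ cmp S hd tl (↑η : Set (Ed d))) := by
    have hmem : ∀ g : φ.ker, (g.1.1 : Vx d → S) ∈ zer S D ⊓ cmp S hd tl (↑η : Set (Ed d)) := by
      intro g
      refine ⟨fun x hx => ?_, g.1.2.2⟩
      by_cases hxb : x ∈ bd D
      · have h5 : φ g.1 = 0 := g.2
        exact congrFun h5 ⟨x, hxb⟩
      · exact g.1.2.1 x fun hx' => (Finset.mem_union.1 hx').elim hx hxb
    refine Nat.card_le_card_of_injective (fun g : φ.ker => (⟨g.1.1, hmem g⟩ : ↥(zer S D ⊓ cmp S hd tl (↑η : Set (Ed d))))) ?_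
    intro g g' hgg
    have h6 : g.1.1 = g'.1.1 := (Subtype.ext_iff (p := fun σ => σ ∈ zer S D ⊓ cmp S hd tl (↑η : Set (Ed d)))).1 hgg
    exact Subtype.ext (Subtype.ext h6)
  show Nat.card G ≤ _
  rw [h1]
  rw [h3] at h2
  exact Nat.mul_le_mul h2 h4

/-- the mean of the number of open edges -/
private theorem V3_mean (D E : Finset (Vx d)) (v : ℝ) (A : Ed d → Finset (Ed d) → Prop) (hA : ∀ e η, A e η ↔ e ∈ η) :
    ∑ e ∈ tch D, WW hd tl (tch D) E v (fun _ => (0 : S)) (fun _ η => if A e η then 1 else 0) /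
      WW hd tl (tch D) E v (fun _ => (0 : S)) (fun _ _ => 1) =
    (∑ η ∈ (tch D).powerset, gw hd tl (zer S E) v η * (η.card : ℝ)) / ∑ η ∈ (tch D).powerset, gw hd tl (zer S E) v η := by
  have h0 : WW hd tl (tch D) E v (fun _ => (0 : S)) (fun _ _ => 1) = ∑ η ∈ (tch D).powerset, gw hd tl (zer S E) v η := by
    rw [WW_gw hd tl (tch D) E v (fun _ => 1)]
    exact Finset.sum_congr rfl fun η _ => mul_one _
  rw [← Finset.sum_div, h0]
  congr 1
  have h1 : ∀ e ∈ tch D, WW hd tl (tch D) E v (fun _ => (0 : S)) (fun _ η => if A e η then 1 else 0) =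
      ∑ η ∈ (tch D).powerset, gw hd tl (zer S E) v η * (if A e η then 1 else 0) := fun e _ =>
    WW_gw hd tl (tch D) E v (fun η => if A e η then 1 else 0)
  rw [Finset.sum_congr rfl h1, Finset.sum_comm]
  refine Finset.sum_congr rfl fun η hη => ?_
  rw [← Finset.mul_sum, Finset.sum_boole]
  congr 2
  have h2 : (tch D).filter (fun e => A e η) = η := by
    ext e
    rw [Finset.mem_filter, hA]
    exact ⟨fun h => h.2, fun h => ⟨Finset.mem_powerset.1 hη h, h⟩⟩
  rw [h2]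

private theorem V3_gw_pos (E : Finset (Vx d)) {v : ℝ} (hv : 0 < v) (η : Finset (Ed d)) : 0 < gw hd tl (zer S E) v η :=
  gw_pos hd tl (zer S E) v hv η

private theorem V3_sum_pos (D E : Finset (Vx d)) {v : ℝ} (hv : 0 < v) :
    0 < ∑ η ∈ (tch D).powerset, gw hd tl (zer S E) v η :=
  Finset.sum_pos (fun η _ => V3_gw_pos E hv η) ⟨∅, Finset.empty_mem_powerset _⟩

omit [Fintype S] in
private theorem V3_scale (E : Finset (Vx d)) {v' v : ℝ} (hv' : 0 < v') (hv : 0 < v) (η : Finset (Ed d)) :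
    gw hd tl (zer S E) v' η * Real.exp (Real.log (v / v') * (η.card : ℝ)) = gw hd tl (zer S E) v η := by
  have h1 : Real.exp (Real.log (v / v') * (η.card : ℝ)) = (v / v') ^ η.card := by
    rw [mul_comm, Real.exp_nat_mul, Real.exp_log (div_pos hv hv')]
  rw [h1]
  unfold gw
  rw [div_pow]
  field_simp

private theorem V3_conv (D E : Finset (Vx d)) {v' v : ℝ} (hv' : 0 < v') (hv : 0 < v) :
    Real.log (v / v') * ((∑ η ∈ (tch D).powerset, gw hd tl (zer S E) v' η * (η.card : ℝ)) /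
      ∑ η ∈ (tch D).powerset, gw hd tl (zer S E) v' η) ≤
      Real.log (∑ η ∈ (tch D).powerset, gw hd tl (zer S E) v η) -
        Real.log (∑ η ∈ (tch D).powerset, gw hd tl (zer S E) v' η) := by
  have h := V3_jen (tch D).powerset (fun η => gw hd tl (zer S E) v' η) (fun η => Real.log (v / v') * (η.card : ℝ))
    (fun η _ => (V3_gw_pos E hv' η).le) (V3_sum_pos D E hv')
  rw [Finset.sum_congr rfl fun η _ => V3_scale E hv' hv η] at h
  refine le_trans (le_of_eq ?_) h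
  rw [← mul_div_assoc, Finset.mul_sum]
  congr 1
  refine Finset.sum_congr rfl fun η _ => ?_
  ring

theorem jensen (D : Finset (Vx d)) (v' v : ℝ) (hv' : 0 < v') (hv : v' < v) :
    Real.log (v / v') * ∑ e ∈ tch D, ph1 S D v' (fun η => e ∈ η) ≤
      Real.log (v / v') * (∑ e ∈ tch D, ph0 S D v (fun η => e ∈ η)) +
        (bd D).card * Real.log (Fintype.card S) := by
  have hv0 : 0 < v := hv'.trans hv
  have m1 : ∑ e ∈ tch D, ph1 S D v' (fun η => e ∈ η) =
      (∑ η ∈ (tch D).powerset, gw hd tl (zer S D) v' η * (η.card : ℝ)) / ∑ η ∈ (tch D).powerset, gw hd tl (zer S D) v' η :=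
    V3_mean D D v' (fun e η => e ∈ η) fun _ _ => Iff.rfl
  have m2 : ∑ e ∈ tch D, ph0 S D v (fun η => e ∈ η) =
      (∑ η ∈ (tch D).powerset, gw hd tl (zer S (D ∪ bd D)) v η * (η.card : ℝ)) /
        ∑ η ∈ (tch D).powerset, gw hd tl (zer S (D ∪ bd D)) v η :=
    V3_mean D (D ∪ bd D) v (fun e η => e ∈ η) fun _ _ => Iff.rfl
  rw [m1, m2]
  have j1 := V3_conv (S := S) D D hv' hv0
  have j2 := V3_conv (S := S) D (D ∪ bd D) hv0 hv'
  have hlog : Real.log (v' / v) = -Real.log (v / v') := by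
    rw [← Real.log_inv, inv_div]
  rw [hlog] at j2
  have hS : (0 : ℝ) < Fintype.card S := by exact_mod_cast Fintype.card_pos
  have c1 : Real.log (∑ η ∈ (tch D).powerset, gw hd tl (zer S D) v η) ≤
      Real.log (∑ η ∈ (tch D).powerset, gw hd tl (zer S (D ∪ bd D)) v η) := by
    refine Real.log_le_log (V3_sum_pos D D hv0) (Finset.sum_le_sum fun η _ => ?_)
    unfold gw
    refine mul_le_mul_of_nonneg_left ?_ (by positivity)
    exact_mod_cast V3_card_mono D (D ∪ bd D) Finset.subset_union_left η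
  have c2 : Real.log (∑ η ∈ (tch D).powerset, gw hd tl (zer S (D ∪ bd D)) v' η) ≤
      (bd D).card * Real.log (Fintype.card S) + Real.log (∑ η ∈ (tch D).powerset, gw hd tl (zer S D) v' η) := by
    rw [← Real.log_pow, ← Real.log_mul (by positivity) (V3_sum_pos D D hv').ne']
    refine Real.log_le_log (V3_sum_pos D (D ∪ bd D) hv') ?_
    rw [Finset.mul_sum]
    refine Finset.sum_le_sum fun η _ => ?_
    unfold gw
    have h1 : (Nat.card ↥(zer S (D ∪ bd D) ⊓ cmp S hd tl (↑η : Set (Ed d))) : ℝ) ≤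
        (Fintype.card S : ℝ) ^ (bd D).card * (Nat.card ↥(zer S D ⊓ cmp S hd tl (↑η : Set (Ed d))) : ℝ) := by
      exact_mod_cast V3_card_mul D η
    calc v' ^ η.card * (Nat.card ↥(zer S (D ∪ bd D) ⊓ cmp S hd tl (↑η : Set (Ed d))) : ℝ) ≤
        v' ^ η.card * ((Fintype.card S : ℝ) ^ (bd D).card * (Nat.card ↥(zer S D ⊓ cmp S hd tl (↑η : Set (Ed d))) : ℝ)) :=
          mul_le_mul_of_nonneg_left h1 (by positivity)
      _ = _ := by ring
  linarith

end Pool.Agent.Lib.MP_6a79cf_pr
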