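import Pool.Agent.Lib.MP_6a79cf_pr.V4

/-!
LEAF V5a (edge densities). `h1 v i = inf_n ph1 (box n) v ((0,i) ∈ η)`, `h0 v i = sup_n ph0 (box n) v ((0,i) ∈ η)`. All values are in
`[0, 1]`. The event `e ∈ η` is increasing; for `e ∈ tch D`, `D ⊆ D'`: `e ∈ η ∩ tch D ↔ e ∈ η`, so `ph1_anti`, `ph0_mono` give
monotonicity in the volume. For `e = (x, i)`, `k` with `x ∈ box k`: `box (m - k) + x ⊆ box m ⊆ box (m + k) + x`, so by
`ph1_shift` `ph1 (box (m+k)) ((0,i) ∈ η) ≤ ph1 (box m) (e ∈ η) ≤ ph1 (box (m-k)) ((0,i) ∈ η)` for large `m`: both sides tend to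
`h1 v i`. The same for `h0`.
-/

set_option autoImplicit false

open scoped Classical
open Filter Topology

namespace Pool.Agent.Lib.MP_6a79cf_pr

/-- wired edge density -/
noncomputable def h1 (d : ℕ) (S : Type) [AddCommGroup S] [Fintype S] (v : ℝ) (i : Fin d) : ℝ :=
  ⨅ n : ℕ, ph1 S (box d n) v (fun η => ((0 : Vx d), i) ∈ η)

/-- free edge density -/
noncomputable def h0 (d : ℕ) (S : Type) [AddCommGroup S] [Fintype S] (v : ℝ) (i : Fin d) : ℝ :=
  ⨆ n : ℕ, ph0 S (box d n) v (fun η => ((0 : Vx d), i) ∈ η)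

variable {d : ℕ} {S : Type} [AddCommGroup S] [Fintype S]

omit [AddCommGroup S] in
private theorem V5a_nonneg {X Y : Type} (a b : Y → X) (F : Finset Y) (D : Finset X) (v : ℝ)
    (hv : 0 < v) (τ : X → S) (f : (X → S) → Finset Y → ℝ) (hf : ∀ s η, 0 ≤ f s η) :
    0 ≤ WW a b F D v τ f := by
  unfold WW
  refine Finset.sum_nonneg fun s _ => Finset.sum_nonneg fun η _ => ?_
  split_ifs
  · exact mul_nonneg (pow_nonneg hv.le _) (hf _ _)
  · exact le_rfl

omit [AddCommGroup S] in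
private theorem V5a_mono {X Y : Type} (a b : Y → X) (F : Finset Y) (D : Finset X) (v : ℝ)
    (hv : 0 < v) (τ : X → S) (f g : (X → S) → Finset Y → ℝ) (hf : ∀ s η, f s η ≤ g s η) :
    WW a b F D v τ f ≤ WW a b F D v τ g := by
  unfold WW
  refine Finset.sum_le_sum fun s _ => Finset.sum_le_sum fun η _ => ?_
  split_ifs
  · exact mul_le_mul_of_nonneg_left (hf _ _) (pow_nonneg hv.le _)
  · exact le_rfl

private theorem V5a_inc (e : Ed d) : inc (fun η : Finset (Ed d) => e ∈ η) :=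
  fun _ _ h1 h2 => h1 h2

private theorem V5a_anti {D D' : Finset (Vx d)} (h : D ⊆ D') (v : ℝ) (hv : 0 < v) (e : Ed d)
    (he : e ∈ tch D) : ph1 S D' v (fun η => e ∈ η) ≤ ph1 S D v (fun η => e ∈ η) := by
  have h1 := ph1_anti (S := S) h v hv (fun η => e ∈ η) (V5a_inc e)
  have h2 : (fun η : Finset (Ed d) => e ∈ η ∩ tch D) = fun η => e ∈ η := by
    funext η
    simp [he]
  rwa [h2] at h1

private theorem V5a_up {D D' : Finset (Vx d)} (h : D ⊆ D') (v : ℝ) (hv : 0 < v) (e : Ed d)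
    (he : e ∈ tch D) : ph0 S D v (fun η => e ∈ η) ≤ ph0 S D' v (fun η => e ∈ η) := by
  have h1 := ph0_mono (S := S) h v hv (fun η => e ∈ η) (V5a_inc e)
  have h2 : (fun η : Finset (Ed d) => e ∈ η ∩ tch D) = fun η => e ∈ η := by
    funext η
    simp [he]
  rwa [h2] at h1

private theorem V5a_box {n : ℕ} {x : Vx d} : x ∈ box d n ↔ ∀ j, -(n : ℤ) ≤ x j ∧ x j ≤ n := by
  unfold box
  rw [Finset.mem_Icc, Pi.le_def, Pi.le_def]
  exact ⟨fun h j => ⟨h.1 j, h.2 j⟩, fun h => ⟨fun j => (h j).1, fun j => (h j).2⟩⟩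

private theorem V5a_zero (n : ℕ) : (0 : Vx d) ∈ box d n := by
  rw [V5a_box]
  intro j
  simp

private theorem V5a_ztch (n : ℕ) (i : Fin d) : ((0 : Vx d), i) ∈ tch (box d n) :=
  mem_tch.2 (Or.inl (V5a_zero n))

private theorem V5a_sub {m k : ℕ} {x : Vx d} (hx : x ∈ box d k) :
    box d m ⊆ (box d (m + k)).image fun y => y + x := by
  intro y hy
  rw [Finset.mem_image]
  refine ⟨y - x, ?_, sub_add_cancel y x⟩
  rw [V5a_box] at hx hy ⊢
  intro j
  have h1 := hx j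
  have h2 := hy j
  rw [Pi.sub_apply]
  push_cast
  constructor <;> linarith [h1.1, h1.2, h2.1, h2.2]

private theorem V5a_sup {m k : ℕ} (hk : k ≤ m) {x : Vx d} (hx : x ∈ box d k) :
    ((box d (m - k)).image fun y => y + x) ⊆ box d m := by
  intro z hz
  rw [Finset.mem_image] at hz
  obtain ⟨y, hy, rfl⟩ := hz
  rw [V5a_box] at hx hy ⊢
  intro j
  have h1 := hx j
  have h2 := hy j
  rw [Nat.cast_sub hk] at h2
  rw [Pi.add_apply]
  constructor <;> linarith [h1.1, h1.2, h2.1, h2.2]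

private theorem V5a_ex (x : Vx d) : ∃ k, x ∈ box d k := by
  obtain ⟨k, hk⟩ := box_exh ({x} : Finset (Vx d))
  exact ⟨k, hk (Finset.mem_singleton_self x)⟩

theorem ph1_mem (D : Finset (Vx d)) (v : ℝ) (hv : 0 < v) (A : Finset (Ed d) → Prop) :
    0 ≤ ph1 S D v A ∧ ph1 S D v A ≤ 1 := by
  unfold ph1
  have h1 := V5a_nonneg (S := S) hd tl (tch D) D v hv (fun _ => (0 : S))
    (fun _ η => if A η then 1 else 0) (fun _ η => by split_ifs <;> norm_num)
  have h2 := V5a_mono (S := S) hd tl (tch D) D v hv (fun _ => (0 : S))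
    (fun _ η => if A η then 1 else 0) (fun _ _ => 1)
    (fun _ η => by split_ifs <;> norm_num)
  have h3 := V5a_nonneg (S := S) hd tl (tch D) D v hv (fun _ => (0 : S))
    (fun _ _ => 1) (fun _ _ => zero_le_one)
  exact ⟨div_nonneg h1 h3, div_le_one_of_le₀ h2 h3⟩

theorem ph0_mem (D : Finset (Vx d)) (v : ℝ) (hv : 0 < v) (A : Finset (Ed d) → Prop) :
    0 ≤ ph0 S D v A ∧ ph0 S D v A ≤ 1 := by
  unfold ph0
  have h1 := V5a_nonneg (S := S) hd tl (tch D) (D ∪ bd D) v hv (fun _ => (0 : S))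
    (fun _ η => if A η then 1 else 0) (fun _ η => by split_ifs <;> norm_num)
  have h2 := V5a_mono (S := S) hd tl (tch D) (D ∪ bd D) v hv (fun _ => (0 : S))
    (fun _ η => if A η then 1 else 0) (fun _ _ => 1)
    (fun _ η => by split_ifs <;> norm_num)
  have h3 := V5a_nonneg (S := S) hd tl (tch D) (D ∪ bd D) v hv (fun _ => (0 : S))
    (fun _ _ => 1) (fun _ _ => zero_le_one)
  exact ⟨div_nonneg h1 h3, div_le_one_of_le₀ h2 h3⟩

theorem tendsto_h1 (v : ℝ) (hv : 0 < v) (e : Ed d) :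
    Tendsto (fun m => ph1 S (box d m) v (fun η => e ∈ η)) atTop (𝓝 (h1 d S v e.2)) := by
  obtain ⟨x, i⟩ := e
  obtain ⟨k, hk⟩ := V5a_ex x
  have hanti : Antitone fun n : ℕ => ph1 S (box d n) v (fun η => ((0 : Vx d), i) ∈ η) := by
    intro m n hmn
    exact V5a_anti (box_mono hmn) v hv _ (V5a_ztch m i)
  have hbdd : BddBelow (Set.range fun n : ℕ => ph1 S (box d n) v (fun η => ((0 : Vx d), i) ∈ η)) :=
    ⟨0, by rintro _ ⟨n, rfl⟩; exact (ph1_mem _ v hv _).1⟩
  have ht : Tendsto (fun n : ℕ => ph1 S (box d n) v (fun η => ((0 : Vx d), i) ∈ η)) atTop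
      (𝓝 (h1 d S v i)) := tendsto_atTop_ciInf hanti hbdd
  have hsh : ∀ n : ℕ, ph1 S ((box d n).image fun y => y + x) v (fun η => (x, i) ∈ η) =
      ph1 S (box d n) v (fun η => ((0 : Vx d), i) ∈ η) := by
    intro n
    have h := ph1_shift (S := S) (box d n) x v ((0 : Vx d), i)
    simp only [zero_add] at h
    exact h
  have hlo : ∀ m : ℕ, k ≤ m → ph1 S (box d (m + k)) v (fun η => ((0 : Vx d), i) ∈ η) ≤
      ph1 S (box d m) v (fun η => (x, i) ∈ η) := by
    intro m hm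
    rw [← hsh]
    exact V5a_anti (V5a_sub hk) v hv _ (mem_tch.2 (Or.inl (box_mono hm hk)))
  have hup : ∀ m : ℕ, k ≤ m → ph1 S (box d m) v (fun η => (x, i) ∈ η) ≤
      ph1 S (box d (m - k)) v (fun η => ((0 : Vx d), i) ∈ η) := by
    intro m hm
    rw [← hsh]
    refine V5a_anti (V5a_sup hm hk) v hv _ (mem_tch.2 (Or.inl ?_))
    exact Finset.mem_image.2 ⟨0, V5a_zero _, zero_add x⟩
  refine tendsto_of_tendsto_of_tendsto_of_le_of_le' (ht.comp (tendsto_add_atTop_nat k))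
    (ht.comp (tendsto_sub_atTop_nat k)) ?_ ?_
  · exact (eventually_ge_atTop k).mono fun m hm => hlo m hm
  · exact (eventually_ge_atTop k).mono fun m hm => hup m hm

theorem tendsto_h0 (v : ℝ) (hv : 0 < v) (e : Ed d) :
    Tendsto (fun m => ph0 S (box d m) v (fun η => e ∈ η)) atTop (𝓝 (h0 d S v e.2)) := by
  obtain ⟨x, i⟩ := e
  obtain ⟨k, hk⟩ := V5a_ex x
  have hmono : Monotone fun n : ℕ => ph0 S (box d n) v (fun η => ((0 : Vx d), i) ∈ η) := by
    intro m n hmn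
    exact V5a_up (box_mono hmn) v hv _ (V5a_ztch m i)
  have hbdd : BddAbove (Set.range fun n : ℕ => ph0 S (box d n) v (fun η => ((0 : Vx d), i) ∈ η)) :=
    ⟨1, by rintro _ ⟨n, rfl⟩; exact (ph0_mem _ v hv _).2⟩
  have ht : Tendsto (fun n : ℕ => ph0 S (box d n) v (fun η => ((0 : Vx d), i) ∈ η)) atTop
      (𝓝 (h0 d S v i)) := tendsto_atTop_ciSup hmono hbdd
  have hsh : ∀ n : ℕ, ph0 S ((box d n).image fun y => y + x) v (fun η => (x, i) ∈ η) =
      ph0 S (box d n) v (fun η => ((0 : Vx d), i) ∈ η) := by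
    intro n
    have h := ph0_shift (S := S) (box d n) x v ((0 : Vx d), i)
    simp only [zero_add] at h
    exact h
  have hup : ∀ m : ℕ, k ≤ m → ph0 S (box d m) v (fun η => (x, i) ∈ η) ≤
      ph0 S (box d (m + k)) v (fun η => ((0 : Vx d), i) ∈ η) := by
    intro m hm
    rw [← hsh]
    exact V5a_up (V5a_sub hk) v hv _ (mem_tch.2 (Or.inl (box_mono hm hk)))
  have hlo : ∀ m : ℕ, k ≤ m → ph0 S (box d (m - k)) v (fun η => ((0 : Vx d), i) ∈ η) ≤
      ph0 S (box d m) v (fun η => (x, i) ∈ η) := by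
    intro m hm
    rw [← hsh]
    refine V5a_up (V5a_sup hm hk) v hv _ (mem_tch.2 (Or.inl ?_))
    exact Finset.mem_image.2 ⟨0, V5a_zero _, zero_add x⟩
  refine tendsto_of_tendsto_of_tendsto_of_le_of_le' (ht.comp (tendsto_sub_atTop_nat k))
    (ht.comp (tendsto_add_atTop_nat k)) ?_ ?_
  · exact (eventually_ge_atTop k).mono fun m hm => hlo m hm
  · exact (eventually_ge_atTop k).mono fun m hm => hup m hm

theorem h1_le (v : ℝ) (hv : 0 < v) (e : Ed d) (m : ℕ) (he : e ∈ tch (box d m)) :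
    h1 d S v e.2 ≤ ph1 S (box d m) v (fun η => e ∈ η) := by
  refine le_of_tendsto (tendsto_h1 v hv e) ((eventually_ge_atTop m).mono fun n hn => ?_)
  exact V5a_anti (box_mono hn) v hv e he

theorem le_h0 (v : ℝ) (hv : 0 < v) (e : Ed d) (m : ℕ) :
    ph0 S (box d m) v (fun η => e ∈ η) ≤ h0 d S v e.2 := by
  by_cases he : e ∈ tch (box d m)
  · refine ge_of_tendsto (tendsto_h0 v hv e) ((eventually_ge_atTop m).mono fun n hn => ?_)
    exact V5a_up (box_mono hn) v hv e he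
  · have h0 : ph0 S (box d m) v (fun η => e ∈ η) = 0 := by
      unfold ph0
      rw [div_eq_zero_iff]
      left
      unfold WW
      refine Finset.sum_eq_zero fun s _ => Finset.sum_eq_zero fun η hη => ?_
      have h1 : e ∉ η := fun h => he (Finset.mem_powerset.1 hη h)
      dsimp only
      rw [if_neg h1, mul_zero, ite_self]
    rw [h0]
    exact ge_of_tendsto' (tendsto_h0 v hv e) fun n => (ph0_mem _ v hv _).1

theorem h0_le_h1 (v : ℝ) (hv : 0 < v) (i : Fin d) : h0 d S v i ≤ h1 d S v i := by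
  exact le_of_tendsto_of_tendsto' (tendsto_h0 v hv ((0 : Vx d), i)) (tendsto_h1 v hv ((0 : Vx d), i))
    fun n => ph0_le_ph1 _ v hv _ (V5a_inc _)

theorem h1_mono (v' v : ℝ) (hv' : 0 < v') (hv : v' ≤ v) (i : Fin d) :
    h1 d S v' i ≤ h1 d S v i := by
  exact le_of_tendsto_of_tendsto' (tendsto_h1 v' hv' ((0 : Vx d), i))
    (tendsto_h1 v (lt_of_lt_of_le hv' hv) ((0 : Vx d), i))
    fun n => ph1_v _ v' v hv' hv _ (V5a_inc _)

end Pool.Agent.Lib.MP_6a79cf_pr
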