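import Pool.Agent.Lib.MP_6a79cf_pr.V5c

/-!
LEAF V5b (a value of the parameter where wired = free). `g v = ∑ᵢ h1 v i` is nondecreasing on `(0, ∞)`, so it is continuous at
all but countably many points; at a point of continuity `h1_le_h0` and `h0_le_h1` give `h0 v₀ i = h1 v₀ i` for all `i`.
-/

set_option autoImplicit false

open scoped Classical
open Filter Topology

namespace Pool.Agent.Lib.MP_6a79cf_pr

theorem exists_cont (d : ℕ) (hd : 1 ≤ d) (S : Type) [AddCommGroup S] [Fintype S] (v' v : ℝ)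
    (hv' : 0 < v') (hv : v' < v) :
    ∃ v₀ : ℝ, v' < v₀ ∧ v₀ < v ∧ ∀ (e : Ed d) (ε : ℝ), 0 < ε → ∃ M : ℕ, ∀ m ≥ M,
      ph1 S (box d m) v₀ (fun η => e ∈ η) ≤ ph0 S (box d m) v₀ (fun η => e ∈ η) + ε := by
  let G : ℝ → ℝ := fun x => ∑ i : Fin d, h1 d S (max x v') i
  have hG : Monotone G := by
    intro x y hxy
    refine Finset.sum_le_sum fun i _ => ?_
    exact h1_mono (max x v') (max y v') (lt_of_lt_of_le hv' (le_max_right _ _))
      (max_le_max hxy le_rfl) i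
  have hcount : {x | ¬ ContinuousAt G x}.Countable := hG.countable_not_continuousAt
  obtain ⟨v₀, hc, h1v, h2v⟩ := (hcount.dense_compl ℝ).exists_between hv
  have hc' : ContinuousAt G v₀ := by
    by_contra hn
    exact hc hn
  have hv₀ : 0 < v₀ := hv'.trans h1v
  have hGv : G v₀ ≤ ∑ i : Fin d, h0 d S v₀ i := by
    have ht : Tendsto G (𝓝[<] v₀) (𝓝 (G v₀)) := hc'.tendsto.mono_left nhdsWithin_le_nhds
    refine le_of_tendsto ht ?_
    filter_upwards [Ioo_mem_nhdsLT h1v] with x hx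
    have hx1 : max x v' = x := max_eq_left hx.1.le
    show ∑ i : Fin d, h1 d S (max x v') i ≤ _
    rw [hx1]
    exact h1_le_h0 hd x v₀ (hv'.trans hx.1) hx.2
  have hGe : G v₀ = ∑ i : Fin d, h1 d S v₀ i := by
    show ∑ i : Fin d, h1 d S (max v₀ v') i = _
    rw [max_eq_left h1v.le]
  rw [hGe] at hGv
  have hle : ∀ i ∈ (Finset.univ : Finset (Fin d)), h0 d S v₀ i ≤ h1 d S v₀ i :=
    fun i _ => h0_le_h1 v₀ hv₀ i
  have heq : ∀ i ∈ (Finset.univ : Finset (Fin d)), h0 d S v₀ i = h1 d S v₀ i :=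
    (Finset.sum_eq_sum_iff_of_le hle).1 (le_antisymm (Finset.sum_le_sum hle) hGv)
  refine ⟨v₀, h1v, h2v, fun e ε hε => ?_⟩
  have t1 := tendsto_h1 (S := S) v₀ hv₀ e
  have t0 := tendsto_h0 (S := S) v₀ hv₀ e
  have t2 := t1.sub t0
  rw [heq e.2 (Finset.mem_univ _), sub_self] at t2
  obtain ⟨M, hM⟩ := eventually_atTop.1 (t2.eventually (gt_mem_nhds hε))
  refine ⟨M, fun m hm => ?_⟩
  have h3 := hM m hm
  linarith

end Pool.Agent.Lib.MP_6a79cf_pr
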