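import Pool.Agent.Lib.MP_6a79cf_pr.V5a

/-!
LEAF V5c. `jensen` for `D = box n`. In each direction `i` the set `tch (box n)` has the same number
`N = (2n+2)(2n+1)^(d-1)` of edges. By `h1_le` and `le_h0`:
`L N ∑ᵢ h1 v₁ i ≤ L N ∑ᵢ h0 v₂ i + |bd (box n)| log q`, `L = log (v₂/v₁) > 0`, `|bd (box n)| ≤ 2 d (2n+1)^(d-1)` (`bd_card`), so
`|bd|/N ≤ 2d/(2n+2) → 0`.
-/

set_option autoImplicit false

open scoped Classical
open Filter Topology

namespace Pool.Agent.Lib.MP_6a79cf_pr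

variable {d : ℕ} {S : Type} [AddCommGroup S] [Fintype S]

private theorem V5c_mem {D : Finset (Vx d)} {e : Ed d} (h : e ∈ D ×ˢ (Finset.univ : Finset (Fin d))) :
    e ∈ tch D :=
  mem_tch.2 (Or.inl (Finset.mem_product.1 h).1)

private theorem V5c_sum (D : Finset (Vx d)) (g : Fin d → ℝ) :
    ∑ e ∈ D ×ˢ (Finset.univ : Finset (Fin d)), g e.2 = (D.card : ℝ) * ∑ i, g i := by
  rw [Finset.sum_product]
  show ∑ _x ∈ D, ∑ y, g y = _
  rw [Finset.sum_const, nsmul_eq_mul]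

private theorem V5c_lo (D : Finset (Vx d)) (g : Fin d → ℝ) (hg : ∀ i, 0 ≤ g i) :
    (D.card : ℝ) * ∑ i, g i ≤ ∑ e ∈ tch D, g e.2 := by
  rw [← V5c_sum]
  exact Finset.sum_le_sum_of_subset_of_nonneg (fun e he => V5c_mem he) fun e _ _ => hg _

private theorem V5c_hi (D : Finset (Vx d)) (g : Fin d → ℝ) (hg : ∀ i, g i ≤ 1) :
    ∑ e ∈ tch D, g e.2 ≤ (D.card : ℝ) * (∑ i, g i) +
      ((tch D).filter fun e => ¬ (hd e ∈ D ∧ tl e ∈ D)).card := by
  have hsub : D ×ˢ (Finset.univ : Finset (Fin d)) ⊆ tch D := fun e he => V5c_mem he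
  rw [← Finset.sum_sdiff hsub, V5c_sum, add_comm]
  refine add_le_add le_rfl ?_
  have h1 : tch D \ (D ×ˢ (Finset.univ : Finset (Fin d))) ⊆
      (tch D).filter fun e => ¬ (hd e ∈ D ∧ tl e ∈ D) := by
    intro e he
    rw [Finset.mem_sdiff] at he
    refine Finset.mem_filter.2 ⟨he.1, fun h => he.2 ?_⟩
    exact Finset.mem_product.2 ⟨h.1, Finset.mem_univ _⟩
  calc ∑ e ∈ tch D \ (D ×ˢ (Finset.univ : Finset (Fin d))), g e.2
      ≤ ∑ e ∈ tch D \ (D ×ˢ (Finset.univ : Finset (Fin d))), (1 : ℝ) :=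
        Finset.sum_le_sum fun e _ => hg _
    _ = ((tch D \ (D ×ˢ (Finset.univ : Finset (Fin d)))).card : ℝ) := by
        rw [Finset.sum_const, nsmul_eq_mul, mul_one]
    _ ≤ _ := by exact_mod_cast Finset.card_le_card h1

theorem h1_le_h0 (hd : 1 ≤ d) (v₁ v₂ : ℝ) (hv₁ : 0 < v₁) (hv : v₁ < v₂) :
    ∑ i : Fin d, h1 d S v₁ i ≤ ∑ i : Fin d, h0 d S v₂ i := by
  have hv₂ : 0 < v₂ := lt_trans hv₁ hv
  have hL : 0 < Real.log (v₂ / v₁) := Real.log_pos (by rwa [one_lt_div hv₁])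
  have hq : 0 ≤ Real.log (Fintype.card S) := Real.log_natCast_nonneg _
  have h10 : ∀ i, 0 ≤ h1 d S v₁ i := fun i => Real.iInf_nonneg fun n => (ph1_mem _ v₁ hv₁ _).1
  have h01 : ∀ i, h0 d S v₂ i ≤ 1 := fun i => ciSup_le fun n => (ph0_mem _ v₂ hv₂ _).2
  have key : ∀ n : ℕ, (2 * (n : ℝ) + 1) * (Real.log (v₂ / v₁) *
      (∑ i : Fin d, h1 d S v₁ i - ∑ i : Fin d, h0 d S v₂ i)) ≤
      2 * d * (Real.log (v₂ / v₁) + Real.log (Fintype.card S)) := by
    intro n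
    have hj := jensen (S := S) (box d n) v₁ v₂ hv₁ hv
    have e1 : ((box d n).card : ℝ) * ∑ i, h1 d S v₁ i ≤
        ∑ e ∈ tch (box d n), ph1 S (box d n) v₁ (fun η => e ∈ η) :=
      le_trans (V5c_lo (box d n) _ h10) (Finset.sum_le_sum fun e he => h1_le v₁ hv₁ e n he)
    have e2 : ∑ e ∈ tch (box d n), ph0 S (box d n) v₂ (fun η => e ∈ η) ≤
        ((box d n).card : ℝ) * (∑ i, h0 d S v₂ i) + 2 * d * (2 * (n : ℝ) + 1) ^ (d - 1) := by
      refine le_trans (Finset.sum_le_sum fun e _ => le_h0 v₂ hv₂ e n) ?_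
      refine le_trans (V5c_hi (box d n) _ h01) (add_le_add le_rfl ?_)
      have := tch_bd_card (d := d) n
      exact_mod_cast this
    have e3 : ((bd (box d n)).card : ℝ) ≤ 2 * d * (2 * (n : ℝ) + 1) ^ (d - 1) := by
      have := bd_card (d := d) n
      exact_mod_cast this
    have e4 : ((box d n).card : ℝ) = (2 * (n : ℝ) + 1) * (2 * (n : ℝ) + 1) ^ (d - 1) := by
      rw [box_card, ← pow_succ', Nat.sub_add_cancel hd]
      push_cast
      ring
    rw [e4] at e1 e2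
    have hM : (0 : ℝ) < (2 * (n : ℝ) + 1) ^ (d - 1) := by positivity
    have e5 := mul_le_mul_of_nonneg_left e1 hL.le
    have e6 := mul_le_mul_of_nonneg_left e2 hL.le
    have e7 := mul_le_mul_of_nonneg_right e3 hq
    refine le_of_mul_le_mul_right ?_ hM
    nlinarith [e5, e6, e7, hj]
  by_contra hcon
  have hpos : 0 < Real.log (v₂ / v₁) *
      (∑ i : Fin d, h1 d S v₁ i - ∑ i : Fin d, h0 d S v₂ i) :=
    mul_pos hL (by linarith [not_le.1 hcon])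
  obtain ⟨n, hn⟩ := exists_nat_gt ((2 * d * (Real.log (v₂ / v₁) +
    Real.log (Fintype.card S))) / (Real.log (v₂ / v₁) *
      (∑ i : Fin d, h1 d S v₁ i - ∑ i : Fin d, h0 d S v₂ i)))
  rw [div_lt_iff₀ hpos] at hn
  have h2 := key n
  have h3 : (0 : ℝ) ≤ n := Nat.cast_nonneg n
  nlinarith [mul_nonneg h3 hpos.le]

end Pool.Agent.Lib.MP_6a79cf_pr
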